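import Pool.Agent.ERB.BhI
import Pool.Agent.RG.Mer

/-!
# ERB / BhB: the blocks of primes

Fix `z0` (from `RG.recip_bounds`, `C`): for `w ≥ z0` the sum of `1/p` over the primes `w ≤ p < w^2` is
`≤ 1/w + log 2 + C/log w ≤ 1`.  For `z ≥ 2` the block number of a prime `p ≤ z` is
`bix z0 z p = 0` for `p < z0` and `1 + Nat.log 2 (Nat.log p z)` otherwise; `Nat.log p z = e` is the largest `e`
with `p^e ≤ z`, so in the block `1 + i` we have `p^(2^i) ≤ z < p^(2^(i+1))`.
* `blk_sum`: block `j = i + 1`: if `p` is its smallest element and `p'` another one then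
  `p'^(2^i) ≤ z < (p^2)^(2^i)`, so `p ≤ p' < p^2`.
* `blk_prod`: for `T ⊆ P` with at most `9 + 2i` elements in block `1 + i`: `∏_{p ∈ T} p` is at most
  `∏_{p ∈ T, p < z0} p ≤ primorial z0 ≤ 4^z0` times `∏_i z^((9+2i)/2^i)` (`p ≤ z^(1/2^i)`), and
  `∑_i (9 + 2i)/2^i ≤ 22` (`∑ 1/2^i = 2`, `∑ i/2^i = 2`; finite partial sums: by induction
  `∑_{i<k} (9+2i)/2^i = 22 - (22 + 4k)/2^k`... or any bound).  Conveniently take logarithms.
-/

set_option autoImplicit false

namespace Pool.Agent.ERB

open Finset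

/-- block number -/
def bix (z0 z p : ℕ) : ℕ := if p < z0 then 0 else 1 + Nat.log 2 (Nat.log p z)

theorem mem_bl {ix : ℕ → ℕ} {P : Finset ℕ} {j p : ℕ} : p ∈ bl ix P j ↔ p ∈ P ∧ ix p = j := by
  unfold bl; exact mem_filter

/-- the size of the elements of a block -/
theorem bix_bounds {z0 z p j : ℕ} (hz : 2 ≤ z) (hp : 2 ≤ p) (hpz : p ≤ z) (hj : 1 ≤ j)
    (h : bix z0 z p = j) : z0 ≤ p ∧ p ^ (2 ^ (j - 1)) ≤ z ∧ z < p ^ (2 ^ j) := by
  unfold bix at h
  split_ifs at h with h0
  · omega
  · have hl : Nat.log 2 (Nat.log p z) = j - 1 := by omega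
    have hpos : Nat.log p z ≠ 0 := by
      have := (Nat.log_pos_iff (b := p) (n := z)).2 ⟨hpz, hp⟩
      omega
    have h1 : 2 ^ (j - 1) ≤ Nat.log p z := by
      rw [← hl]; exact Nat.pow_log_le_self 2 hpos
    have h2 : Nat.log p z < 2 ^ j := by
      have := Nat.lt_pow_succ_log_self (b := 2) (by norm_num) (Nat.log p z)
      rw [hl, Nat.succ_eq_add_one, Nat.sub_add_cancel hj] at this
      exact this
    refine ⟨by omega, ?_, ?_⟩
    · calc p ^ (2 ^ (j - 1)) ≤ p ^ (Nat.log p z) := Nat.pow_le_pow_right (by omega) h1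
        _ ≤ z := Nat.pow_log_le_self p (by omega)
    · calc z < p ^ (Nat.log p z + 1) := Nat.lt_pow_succ_log_self (by omega) z
        _ ≤ p ^ (2 ^ j) := Nat.pow_le_pow_right (by omega) h2

theorem sum_geo (K : ℕ) : ∑ j ∈ Icc 1 K, (7 + 2 * (j : ℝ)) / 2 ^ (j - 1) =
    22 - (22 + 4 * (K : ℝ)) / 2 ^ K := by
  induction K with
  | zero => simp
  | succ K ih =>
    rw [sum_Icc_succ_top (by omega), ih]
    have h : (2 : ℝ) ^ K ≠ 0 := by positivity
    rw [Nat.add_sub_cancel, pow_succ]
    push_cast
    field_simp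
    ring

theorem blk : ∃ z0 : ℕ, 2 ≤ z0 ∧ ∀ z : ℕ, 2 ≤ z → ∀ P : Finset ℕ,
    (∀ p ∈ P, p.Prime ∧ p ≤ z) →
    (∀ j, 1 ≤ j → ∑ p ∈ bl (bix z0 z) P j, 1 / (p : ℝ) ≤ 1) ∧
    (∀ T ⊆ P, (∀ j, 1 ≤ j → (bl (bix z0 z) T j).card ≤ 7 + 2 * j) →
      ((∏ p ∈ T, p : ℕ) : ℝ) ≤ 4 ^ z0 * (z : ℝ) ^ 22) := by
  obtain ⟨C, hC, hrec⟩ := Pool.Agent.RG.recip_bounds
  obtain ⟨z1, hz1⟩ := exists_nat_ge (Real.exp (10 * C))
  refine ⟨max z1 10, by omega, fun z hz P hP => ⟨fun j hj => ?_, fun T hT hcard => ?_⟩⟩
  · -- the sum over one block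
    rcases (bl (bix (max z1 10) z) P j).eq_empty_or_nonempty with he | hne
    · rw [he]; simp
    · set B := bl (bix (max z1 10) z) P j with hB
      set p0 := B.min' hne with hp0
      have hp0B : p0 ∈ B := min'_mem _ _
      have hb : ∀ p ∈ B, max z1 10 ≤ p ∧ p ^ (2 ^ (j - 1)) ≤ z ∧ z < p ^ (2 ^ j) := by
        intro p hp
        obtain ⟨h1, h2⟩ := mem_bl.1 hp
        exact bix_bounds hz (hP p h1).1.two_le (hP p h1).2 hj h2
      obtain ⟨g1, g2, g3⟩ := hb p0 hp0B
      have hsub : B ⊆ insert p0 (Pool.Agent.RG.prm p0 (p0 ^ 2)) := by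
        intro p hp
        rw [mem_insert, Pool.Agent.RG.mem_prm]
        have hpP := (hP p (mem_bl.1 hp).1).1
        rcases eq_or_ne p p0 with h | h
        · exact Or.inl h
        · refine Or.inr ⟨⟨lt_of_le_of_ne (min'_le _ _ hp) (Ne.symm h), ?_⟩, hpP⟩
          obtain ⟨k1, k2, k3⟩ := hb p hp
          have h3 : p ^ (2 ^ (j - 1)) < (p0 ^ 2) ^ (2 ^ (j - 1)) := by
            calc p ^ (2 ^ (j - 1)) ≤ z := k2
              _ < p0 ^ (2 ^ j) := g3
              _ = (p0 ^ 2) ^ (2 ^ (j - 1)) := by
                  rw [← pow_mul, ← pow_succ']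
                  congr 2
                  omega
          exact (lt_of_pow_lt_pow_left₀ _ (Nat.zero_le _) h3).le
      have hnot : p0 ∉ Pool.Agent.RG.prm p0 (p0 ^ 2) := by
        rw [Pool.Agent.RG.mem_prm]; omega
      have h10 : 10 ≤ p0 := le_trans (le_max_right _ _) g1
      have hz1p : z1 ≤ p0 := le_trans (le_max_left _ _) g1
      have h1 : ∑ p ∈ B, 1 / (p : ℝ) ≤
          1 / (p0 : ℝ) + ∑ p ∈ Pool.Agent.RG.prm p0 (p0 ^ 2), 1 / (p : ℝ) := by
        rw [← sum_insert (f := fun p : ℕ => 1 / (p : ℝ)) hnot]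
        exact sum_le_sum_of_subset_of_nonneg hsub fun _ _ _ => by positivity
      have h2 := hrec p0 (p0 ^ 2) (by omega) (by nlinarith)
      rw [abs_le] at h2
      have hl0 : 0 < Real.log p0 := Real.log_pos (by
        have : (10 : ℝ) ≤ p0 := by exact_mod_cast h10
        linarith)
      have h3 : Real.log (Real.log ((p0 ^ 2 : ℕ) : ℝ)) - Real.log (Real.log p0) = Real.log 2 := by
        push_cast
        rw [Real.log_pow]
        push_cast
        rw [Real.log_mul (by norm_num) hl0.ne']
        ring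
      have h4 : 1 / (p0 : ℝ) ≤ 1 / 10 := by
        apply one_div_le_one_div_of_le (by norm_num)
        exact_mod_cast h10
      have h5 : 10 * C ≤ Real.log p0 := by
        rw [Real.le_log_iff_exp_le (by positivity)]
        exact hz1.trans (by exact_mod_cast hz1p)
      have h6 : C / Real.log p0 ≤ 1 / 10 := by
        rw [div_le_div_iff₀ hl0 (by norm_num)]
        linarith
      have h7 := Real.log_two_lt_d9
      linarith [h2.2]
  · -- the product
    set z0 := max z1 10 with hz0
    set ix := bix z0 z with hix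
    have hTP : ∀ p ∈ T, p.Prime ∧ p ≤ z := fun p hp => hP p (hT hp)
    -- splitting
    have hsplit : ∏ p ∈ T, p = (∏ p ∈ T.filter (fun p => p < z0), p) *
        ∏ p ∈ T.filter (fun p => ¬ p < z0), p := (prod_filter_mul_prod_filter_not _ _ _).symm
    have hsmall : ∏ p ∈ T.filter (fun p => p < z0), p ≤ 4 ^ z0 := by
      refine le_trans ?_ (primorial_le_four_pow z0)
      unfold primorial
      refine prod_le_prod_of_subset_of_one_le' ?_ ?_
      · intro p hp
        obtain ⟨h1, h2⟩ := mem_filter.1 hp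
        exact mem_filter.2 ⟨mem_range.2 (by omega), (hTP p h1).1⟩
      · intro p hp _
        exact (mem_filter.1 hp).2.one_le
    have hlarge : ((∏ p ∈ T.filter (fun p => ¬ p < z0), p : ℕ) : ℝ) ≤ (z : ℝ) ^ 22 := by
      have hzpos : (0 : ℝ) < z := by positivity
      have hlz : 0 ≤ Real.log z := Real.log_nonneg (by
        have : (2 : ℝ) ≤ z := by exact_mod_cast hz
        linarith)
      set T' := T.filter (fun p => ¬ p < z0) with hT'
      have hT'mem : ∀ p ∈ T', p ∈ T ∧ z0 ≤ p := fun p hp => by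
        obtain ⟨h1, h2⟩ := mem_filter.1 hp
        exact ⟨h1, by omega⟩
      set K := T'.sup ix with hK
      have hmaps : ∀ p ∈ T', ix p ∈ Icc 1 K := by
        intro p hp
        refine mem_Icc.2 ⟨?_, le_sup hp⟩
        have : ¬ (p < z0) := by have := (hT'mem p hp).2; omega
        rw [hix]
        unfold bix
        rw [if_neg this]
        omega
      have hlog : ∑ p ∈ T', Real.log (p : ℝ) ≤ 22 * Real.log z := by
        rw [← sum_fiberwise_of_maps_to hmaps]
        calc ∑ j ∈ Icc 1 K, ∑ p ∈ T' with ix p = j, Real.log (p : ℝ)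
            ≤ ∑ j ∈ Icc 1 K, (7 + 2 * (j : ℝ)) / 2 ^ (j - 1) * Real.log z := by
              refine sum_le_sum fun j hj => ?_
              have hj1 : 1 ≤ j := (mem_Icc.1 hj).1
              have hterm : ∀ p ∈ T'.filter (fun p => ix p = j),
                  Real.log (p : ℝ) ≤ Real.log z / 2 ^ (j - 1) := by
                intro p hp
                obtain ⟨h1, h2⟩ := mem_filter.1 hp
                obtain ⟨h3, h4⟩ := hT'mem p h1
                obtain ⟨-, k2, -⟩ := bix_bounds hz (hTP p h3).1.two_le (hTP p h3).2 hj1 h2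
                have hppos : (0 : ℝ) < p := by
                  have := (hTP p h3).1.pos
                  exact_mod_cast this
                rw [le_div_iff₀ (by positivity)]
                have h5 : Real.log ((p : ℝ) ^ (2 ^ (j - 1))) ≤ Real.log z :=
                  Real.log_le_log (by positivity) (by exact_mod_cast k2)
                rw [Real.log_pow] at h5
                push_cast at h5
                linarith
              have hc : ((T'.filter (fun p => ix p = j)).card : ℝ) ≤ 7 + 2 * (j : ℝ) := by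
                have h1 : (T'.filter (fun p => ix p = j)).card ≤ (bl ix T j).card := by
                  refine card_le_card fun p hp => ?_
                  obtain ⟨h1, h2⟩ := mem_filter.1 hp
                  exact mem_bl.2 ⟨(hT'mem p h1).1, h2⟩
                exact_mod_cast h1.trans (hcard j hj1)
              calc ∑ p ∈ T' with ix p = j, Real.log (p : ℝ)
                  ≤ (T'.filter (fun p => ix p = j)).card • (Real.log z / 2 ^ (j - 1)) :=
                    sum_le_card_nsmul _ _ _ hterm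
                _ = ((T'.filter (fun p => ix p = j)).card : ℝ) *
                    (Real.log z / 2 ^ (j - 1)) := nsmul_eq_mul _ _
                _ ≤ (7 + 2 * (j : ℝ)) * (Real.log z / 2 ^ (j - 1)) :=
                    mul_le_mul_of_nonneg_right hc (by positivity)
                _ = _ := by ring
          _ = (22 - (22 + 4 * (K : ℝ)) / 2 ^ K) * Real.log z := by
              rw [← sum_mul, sum_geo]
          _ ≤ 22 * Real.log z := by
              refine mul_le_mul_of_nonneg_right ?_ hlz
              have : 0 ≤ (22 + 4 * (K : ℝ)) / 2 ^ K := by positivity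
              linarith
      have hpp : (0 : ℝ) < ((∏ p ∈ T', p : ℕ) : ℝ) := by
        have : 0 < ∏ p ∈ T', p := prod_pos fun p hp => (hTP p (hT'mem p hp).1).1.pos
        exact_mod_cast this
      have h8 : Real.log ((∏ p ∈ T', p : ℕ) : ℝ) ≤ Real.log ((z : ℝ) ^ 22) := by
        rw [Real.log_pow]
        push_cast
        rw [Real.log_prod]
        · exact hlog
        · intro p hp
          have := (hTP p (hT'mem p hp).1).1.ne_zero
          exact_mod_cast this
      exact (Real.log_le_log_iff hpp (by positivity)).1 h8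
    rw [hsplit]
    push_cast
    push_cast at hlarge
    have hs' : ((∏ p ∈ T.filter (fun p => p < z0), p : ℕ) : ℝ) ≤ 4 ^ z0 := by
      exact_mod_cast hsmall
    push_cast at hs'
    exact mul_le_mul hs' hlarge (prod_nonneg fun p _ => by positivity) (by positivity)

end Pool.Agent.ERB
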