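import Pool.Agent.ERB.Defs

/-!
# ERB / BhI: the weights of the sieve of Brun and Hooley, product formulas

The integers (later: primes) `p` are distributed over blocks: `ix p` is the number of the block.
`lu ix tr T = (-1)^|T|` if every block `j` contains at most `tr j` elements of `T`, otherwise `0`.
`ll ix tr T = (-1)^|T|` if this holds or if exactly one block `j` contains exactly `tr j + 1` elements and
all other blocks `i` at most `tr i`; otherwise `0`.
`FF`, `EE`: truncated sum, resp. elementary symmetric function, of one block.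

`lu_prod`: a subset `T` of `P` is the disjoint union of its parts `T_j ⊆ P_j`, `j ∈ P.image ix`
(`Finset.prod_sum`/`Finset.prod_powerset`, or induction on the set of blocks `J`: for
`P = ⋃_{j ∈ J} P_j`, insert one block `a`: `P.powerset` is in bijection with pairs
`(T_a, T')`, `T = T_a ∪ T'`, `card` is additive, `∏ x` multiplicative, the condition splits).
`ll_prod`: the same for the second kind: the sets `T` with `|T_j| = tr j + 1`, `|T_i| ≤ tr i` (`i ≠ j`) give
`(-1)^(tr j + 1) EE j * ∏_{i ≠ j} FF i = - EE j * ∏_{i ≠ j} FF i` as `tr j` is even; the `j` is determined by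
`T`, and this case excludes the first one.
-/

set_option autoImplicit false

namespace Pool.Agent.ERB

open Finset

/-- The elements of `T` in the block `j`. -/
def bl (ix : ℕ → ℕ) (T : Finset ℕ) (j : ℕ) : Finset ℕ := T.filter (fun p => ix p = j)

open scoped Classical in
/-- upper weights -/
noncomputable def lu (ix tr : ℕ → ℕ) (T : Finset ℕ) : ℝ :=
  if ∀ j, (bl ix T j).card ≤ tr j then (-1) ^ T.card else 0

open scoped Classical in
/-- lower weights -/
noncomputable def ll (ix tr : ℕ → ℕ) (T : Finset ℕ) : ℝ :=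
  if (∀ j, (bl ix T j).card ≤ tr j) ∨
    (∃ j, (bl ix T j).card = tr j + 1 ∧ ∀ i, i ≠ j → (bl ix T i).card ≤ tr i) then
    (-1) ^ T.card else 0

/-- truncated inclusion-exclusion in one block -/
noncomputable def FF (ix tr : ℕ → ℕ) (P : Finset ℕ) (x : ℕ → ℝ) (j : ℕ) : ℝ :=
  ∑ T ∈ (bl ix P j).powerset.filter (fun T => T.card ≤ tr j), (-1 : ℝ) ^ T.card * ∏ p ∈ T, x p

/-- elementary symmetric function of one block -/
noncomputable def EE (ix tr : ℕ → ℕ) (P : Finset ℕ) (x : ℕ → ℝ) (j : ℕ) : ℝ :=
  ∑ T ∈ (bl ix P j).powersetCard (tr j + 1), ∏ p ∈ T, x p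

theorem bl_insert_card (ix : ℕ → ℕ) {p : ℕ} {T : Finset ℕ} (hp : p ∉ T) (j : ℕ) :
    (bl ix (insert p T) j).card = (bl ix T j).card + if ix p = j then 1 else 0 := by
  unfold bl
  rw [filter_insert]
  split_ifs with h
  · rw [card_insert_of_notMem]
    intro hm
    exact hp (mem_filter.1 hm).1
  · rfl

/-- general product formula -/
theorem gen_prod (ix : ℕ → ℕ) (J : Finset ℕ) (x : ℕ → ℝ) (P : Finset ℕ) :
    (∀ p ∈ P, ix p ∈ J) → ∀ c : ℕ → ℕ → ℝ,
    ∑ T ∈ P.powerset, (∏ j ∈ J, c j (bl ix T j).card) * ∏ p ∈ T, x p =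
      ∏ j ∈ J, ∑ T ∈ (bl ix P j).powerset, c j T.card * ∏ p ∈ T, x p := by
  induction P using Finset.induction_on with
  | empty =>
    intro _ c
    simp [bl]
  | insert p P hp ih =>
    intro hP c
    have hP' : ∀ q ∈ P, ix q ∈ J := fun q hq => hP q (mem_insert_of_mem hq)
    have hj0 : ix p ∈ J := hP p (mem_insert_self _ _)
    rw [sum_powerset_insert hp, ih hP' c]
    -- the second sum
    have h2 : ∑ T ∈ P.powerset, (∏ j ∈ J, c j (bl ix (insert p T) j).card) *
        ∏ q ∈ insert p T, x q = x p * ∑ T ∈ P.powerset,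
          (∏ j ∈ J, (fun j k => c j (k + if ix p = j then 1 else 0)) j (bl ix T j).card) *
            ∏ q ∈ T, x q := by
      rw [mul_sum]
      refine sum_congr rfl fun T hT => ?_
      have hpT : p ∉ T := fun h => hp (mem_powerset.1 hT h)
      rw [prod_insert hpT]
      have : ∀ j ∈ J, c j (bl ix (insert p T) j).card =
          (fun j k => c j (k + if ix p = j then 1 else 0)) j (bl ix T j).card := by
        intro j _
        simp only
        rw [bl_insert_card ix hpT]
      rw [prod_congr rfl this]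
      ring
    rw [h2, ih hP' (fun j k => c j (k + if ix p = j then 1 else 0))]
    rw [← mul_prod_erase J _ hj0, ← mul_prod_erase J _ hj0, ← mul_prod_erase J _ hj0]
    have h3 : ∀ j ∈ J.erase (ix p), ∑ T ∈ (bl ix P j).powerset,
        (fun j k => c j (k + if ix p = j then 1 else 0)) j T.card * ∏ q ∈ T, x q =
        ∑ T ∈ (bl ix P j).powerset, c j T.card * ∏ q ∈ T, x q := by
      intro j hj
      have hne : ¬ (ix p = j) := fun h => (mem_erase.1 hj).1 h.symm
      simp only [hne, if_false, add_zero]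
    have h4 : ∀ j ∈ J.erase (ix p), ∑ T ∈ (bl ix (insert p P) j).powerset,
        c j T.card * ∏ q ∈ T, x q =
        ∑ T ∈ (bl ix P j).powerset, c j T.card * ∏ q ∈ T, x q := by
      intro j hj
      have hne : ¬ (ix p = j) := fun h => (mem_erase.1 hj).1 h.symm
      have : bl ix (insert p P) j = bl ix P j := by
        unfold bl
        rw [filter_insert, if_neg hne]
      rw [this]
    have h5 : ∑ T ∈ (bl ix (insert p P) (ix p)).powerset, c (ix p) T.card * ∏ q ∈ T, x q =
        ∑ T ∈ (bl ix P (ix p)).powerset, c (ix p) T.card * ∏ q ∈ T, x q +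
        x p * ∑ T ∈ (bl ix P (ix p)).powerset, c (ix p) (T.card + 1) * ∏ q ∈ T, x q := by
      have hpb : p ∉ bl ix P (ix p) := fun h => hp (mem_filter.1 h).1
      have : bl ix (insert p P) (ix p) = insert p (bl ix P (ix p)) := by
        unfold bl
        rw [filter_insert, if_pos rfl]
      rw [this, sum_powerset_insert hpb, mul_sum]
      congr 1
      refine sum_congr rfl fun T hT => ?_
      have hpT : p ∉ T := fun h => hpb (mem_powerset.1 hT h)
      rw [prod_insert hpT, card_insert_of_notMem hpT]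
      ring
    rw [prod_congr rfl h3, prod_congr rfl h4, h5]
    simp only [if_true]
    ring

theorem card_eq_sum_bl (ix : ℕ → ℕ) {P T : Finset ℕ} (hT : T ⊆ P) :
    T.card = ∑ j ∈ P.image ix, (bl ix T j).card :=
  card_eq_sum_card_fiberwise fun _ hp => mem_coe.2 (mem_image_of_mem _ (hT (mem_coe.1 hp)))

theorem bl_empty_of_notMem (ix : ℕ → ℕ) {P T : Finset ℕ} (hT : T ⊆ P) {j : ℕ}
    (hj : j ∉ P.image ix) : (bl ix T j).card = 0 := by
  rw [card_eq_zero]
  unfold bl
  rw [filter_eq_empty_iff]
  intro p hp h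
  exact hj (h ▸ mem_image_of_mem _ (hT hp))

theorem lu_eq (ix tr : ℕ → ℕ) {P T : Finset ℕ} (hT : T ⊆ P) : lu ix tr T =
    ∏ j ∈ P.image ix, (fun j k => if k ≤ tr j then (-1 : ℝ) ^ k else 0) j (bl ix T j).card := by
  unfold lu
  split_ifs with h
  · rw [card_eq_sum_bl ix hT, ← prod_pow_eq_pow_sum]
    refine prod_congr rfl fun j _ => ?_
    simp only [h j, if_true]
  · push Not at h
    obtain ⟨j, hj⟩ := h
    have hjP : j ∈ P.image ix := by
      by_contra hn
      rw [bl_empty_of_notMem ix hT hn] at hj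
      omega
    refine (prod_eq_zero hjP ?_).symm
    have : ¬ ((bl ix T j).card ≤ tr j) := by omega
    simp only [this, if_false]

theorem lu_prod (ix tr : ℕ → ℕ) (P : Finset ℕ) (x : ℕ → ℝ) :
    ∑ T ∈ P.powerset, lu ix tr T * ∏ p ∈ T, x p = ∏ j ∈ P.image ix, FF ix tr P x j := by
  have h := gen_prod ix (P.image ix) x P (fun p hp => mem_image_of_mem _ hp)
    (fun j k => if k ≤ tr j then (-1 : ℝ) ^ k else 0)
  calc _ = _ := sum_congr rfl fun T hT => by rw [lu_eq ix tr (mem_powerset.1 hT)]
    _ = _ := h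
    _ = _ := by
        refine prod_congr rfl fun j _ => ?_
        unfold FF
        rw [sum_filter]
        refine sum_congr rfl fun T _ => ?_
        split_ifs <;> ring

theorem ll_eq (ix tr : ℕ → ℕ) {P T : Finset ℕ} (hT : T ⊆ P) : ll ix tr T =
    lu ix tr T + ∑ j ∈ P.image ix, ∏ i ∈ P.image ix,
      (fun i k => if i = j then (if k = tr j + 1 then (-1 : ℝ) ^ k else 0) else
        (if k ≤ tr i then (-1 : ℝ) ^ k else 0)) i (bl ix T i).card := by
  -- the value of one term of the sum
  have hterm : ∀ j ∈ P.image ix, ((bl ix T j).card = tr j + 1 ∧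
      ∀ i, i ≠ j → (bl ix T i).card ≤ tr i) → ∏ i ∈ P.image ix,
      (fun i k => if i = j then (if k = tr j + 1 then (-1 : ℝ) ^ k else 0) else
        (if k ≤ tr i then (-1 : ℝ) ^ k else 0)) i (bl ix T i).card = (-1 : ℝ) ^ T.card := by
    rintro j _ ⟨h1, h2⟩
    rw [card_eq_sum_bl ix hT, ← prod_pow_eq_pow_sum]
    refine prod_congr rfl fun i _ => ?_
    by_cases hij : i = j
    · subst hij
      simp only [if_true, h1]
    · simp only [hij, if_false, h2 i hij, if_true]
  have hzero : ∀ j ∈ P.image ix, ¬ ((bl ix T j).card = tr j + 1 ∧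
      ∀ i, i ≠ j → (bl ix T i).card ≤ tr i) → ∏ i ∈ P.image ix,
      (fun i k => if i = j then (if k = tr j + 1 then (-1 : ℝ) ^ k else 0) else
        (if k ≤ tr i then (-1 : ℝ) ^ k else 0)) i (bl ix T i).card = 0 := by
    intro j hj hn
    by_cases h1 : (bl ix T j).card = tr j + 1
    · have h2 : ∃ i, i ≠ j ∧ ¬ (bl ix T i).card ≤ tr i := by
        by_contra h3
        push Not at h3
        exact hn ⟨h1, fun i hi => h3 i hi⟩
      obtain ⟨i, hij, hi⟩ := h2
      have hiP : i ∈ P.image ix := by
        by_contra hn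
        rw [bl_empty_of_notMem ix hT hn] at hi
        omega
      refine prod_eq_zero hiP ?_
      simp only [hij, if_false, hi]
    · refine prod_eq_zero hj ?_
      simp only [if_true, h1, if_false]
  unfold ll
  by_cases hA : ∀ j, (bl ix T j).card ≤ tr j
  · rw [if_pos (Or.inl hA)]
    have h0 : ∑ j ∈ P.image ix, ∏ i ∈ P.image ix,
      (fun i k => if i = j then (if k = tr j + 1 then (-1 : ℝ) ^ k else 0) else
        (if k ≤ tr i then (-1 : ℝ) ^ k else 0)) i (bl ix T i).card = 0 := by
      refine sum_eq_zero fun j hj => hzero j hj ?_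
      rintro ⟨h1, -⟩
      have := hA j
      omega
    rw [h0, add_zero]
    unfold lu
    rw [if_pos hA]
  · have hlu : lu ix tr T = 0 := by
      unfold lu
      rw [if_neg hA]
    rw [hlu, zero_add]
    by_cases hB : ∃ j, (bl ix T j).card = tr j + 1 ∧ ∀ i, i ≠ j → (bl ix T i).card ≤ tr i
    · rw [if_pos (Or.inr hB)]
      obtain ⟨j, hj⟩ := hB
      have hjP : j ∈ P.image ix := by
        by_contra hn
        have := bl_empty_of_notMem ix hT hn
        omega
      rw [sum_eq_single j]
      · exact (hterm j hjP hj).symm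
      · intro i hi hij
        refine hzero i hi ?_
        rintro ⟨h1, -⟩
        have := hj.2 i hij
        omega
      · intro h; exact absurd hjP h
    · rw [if_neg (by
        rintro (h | h)
        · exact hA h
        · exact hB h)]
      symm
      refine sum_eq_zero fun j hj => hzero j hj fun h => hB ⟨j, h⟩

theorem ll_prod (ix tr : ℕ → ℕ) (htr : ∀ j, Even (tr j)) (P : Finset ℕ) (x : ℕ → ℝ) :
    ∑ T ∈ P.powerset, ll ix tr T * ∏ p ∈ T, x p = ∏ j ∈ P.image ix, FF ix tr P x j -
      ∑ j ∈ P.image ix, EE ix tr P x j * ∏ i ∈ (P.image ix).erase j, FF ix tr P x i := by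
  have h1 : ∑ T ∈ P.powerset, ll ix tr T * ∏ p ∈ T, x p =
      ∑ T ∈ P.powerset, lu ix tr T * ∏ p ∈ T, x p +
      ∑ j ∈ P.image ix, ∑ T ∈ P.powerset, (∏ i ∈ P.image ix,
        (fun i k => if i = j then (if k = tr j + 1 then (-1 : ℝ) ^ k else 0) else
        (if k ≤ tr i then (-1 : ℝ) ^ k else 0)) i (bl ix T i).card) * ∏ p ∈ T, x p := by
    rw [sum_comm, ← sum_add_distrib]
    refine sum_congr rfl fun T hT => ?_
    rw [ll_eq ix tr (mem_powerset.1 hT), add_mul, sum_mul]
  rw [h1, lu_prod, sub_eq_add_neg, ← sum_neg_distrib]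
  congr 1
  refine sum_congr rfl fun j hj => ?_
  rw [gen_prod ix (P.image ix) x P (fun p hp => mem_image_of_mem _ hp)
    (fun i k => if i = j then (if k = tr j + 1 then (-1 : ℝ) ^ k else 0) else
        (if k ≤ tr i then (-1 : ℝ) ^ k else 0)), ← mul_prod_erase _ _ hj, ← neg_mul]
  congr 1
  · unfold EE
    rw [powersetCard_eq_filter, sum_filter, ← sum_neg_distrib]
    refine sum_congr rfl fun T _ => ?_
    simp only [if_true]
    split_ifs with h
    · rw [h, (htr j).add_one.neg_one_pow]
      ring
    · ring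
  · refine prod_congr rfl fun i hi => ?_
    have hne : ¬ (i = j) := (mem_erase.1 hi).1
    unfold FF
    rw [sum_filter]
    refine sum_congr rfl fun T _ => ?_
    simp only [hne, if_false]
    split_ifs <;> ring

end Pool.Agent.ERB
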