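import Pool.Agent.ERB.BhI
import Pool.Agent.RG.Ev

/-!
# ERB / BhM: the weights of Brun and Hooley, inequalities

For `x` with values in `[0,1]` on `P` and a block `j`, `Π_j = ∏_{p in block} (1 - x p)`:
`Π_j ≤ FF j` (`RG.prod_even`, `tr j` even) and `FF j - EE j ≤ Π_j` (`RG.prod_odd` with `r = tr j + 1`: the sum over
`card ≤ tr j + 1` is `FF j - EE j`).
* `bh_upper`: `x = 1`: `∑_{T ⊆ S} lu T = ∏ FF ≥ 0`, and `= 1` for `S = ∅` (empty image).
* `bh_lower`: `x = 1`, `S ≠ ∅`: all `Π_j = 0` for `j ∈ S.image ix` (nonempty blocks), so `0 ≤ FF j ≤ EE j`;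
  pick `j0`: `∏ FF - EE j0 ∏_{i ≠ j0} FF i = (FF j0 - EE j0) ∏_{i≠j0} FF i ≤ 0`, the other terms are `≤ 0`.
* `bh_main`: `Π_j ≤ FF j ≤ (1 + η j) Π_j`, `EE j ≤ η j Π_j`; `∏_j (1 + η j) ≤ exp(∑ η) ≤ exp(1/4) ≤ 1.3`;
  `∏_j Π_j = ∏_{p ∈ P} (1 - g p)` (`Finset.prod_fiberwise_of_maps_to`).  Upper: `≤ 1.3 ∏`.  Lower:
  `∏ FF ≥ ∏ Π`, and `∑_j EE j ∏_{i ≠ j} FF i ≤ ∑_j η j ∏_i (1 + η i) Π_i ≤ (1/4)(1.3) ∏ Π`.
-/

set_option autoImplicit false

namespace Pool.Agent.ERB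

open Finset

theorem EE_nonneg {ix tr : ℕ → ℕ} {P : Finset ℕ} {x : ℕ → ℝ} (hx : ∀ p ∈ P, 0 ≤ x p) (j : ℕ) :
    0 ≤ EE ix tr P x j := by
  unfold EE
  refine sum_nonneg fun T hT => prod_nonneg fun p hp => hx p ?_
  exact (mem_filter.1 ((mem_powersetCard.1 hT).1 hp)).1

theorem FF_ge {ix tr : ℕ → ℕ} {P : Finset ℕ} {x : ℕ → ℝ} (hx : ∀ p ∈ P, 0 ≤ x p ∧ x p ≤ 1) {j : ℕ}
    (hj : Even (tr j)) : ∏ p ∈ bl ix P j, (1 - x p) ≤ FF ix tr P x j :=
  Pool.Agent.RG.prod_even (bl ix P j) x (fun p hp => hx p (mem_filter.1 hp).1) (tr j) hj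

theorem FF_sub_EE_le {ix tr : ℕ → ℕ} {P : Finset ℕ} {x : ℕ → ℝ}
    (hx : ∀ p ∈ P, 0 ≤ x p ∧ x p ≤ 1) {j : ℕ} (hj : Even (tr j)) :
    FF ix tr P x j - EE ix tr P x j ≤ ∏ p ∈ bl ix P j, (1 - x p) := by
  have h := Pool.Agent.RG.prod_odd (bl ix P j) x (fun p hp => hx p (mem_filter.1 hp).1)
    (tr j + 1) hj.add_one
  refine le_trans (le_of_eq ?_) h
  have hs : (bl ix P j).powerset.filter (fun T => T.card ≤ tr j + 1) =
      (bl ix P j).powerset.filter (fun T => T.card ≤ tr j) ∪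
        (bl ix P j).powersetCard (tr j + 1) := by
    ext T
    simp only [mem_filter, mem_powerset, mem_union, mem_powersetCard]
    constructor
    · rintro ⟨h1, h2⟩
      rcases Nat.lt_or_ge T.card (tr j + 1) with h3 | h3
      · exact Or.inl ⟨h1, by omega⟩
      · exact Or.inr ⟨h1, by omega⟩
    · rintro (⟨h1, h2⟩ | ⟨h1, h2⟩)
      · exact ⟨h1, by omega⟩
      · exact ⟨h1, by omega⟩
  have hd : Disjoint ((bl ix P j).powerset.filter (fun T => T.card ≤ tr j))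
      ((bl ix P j).powersetCard (tr j + 1)) := by
    rw [disjoint_left]
    intro T hT hT'
    have h1 := (mem_filter.1 hT).2
    have h2 := (mem_powersetCard.1 hT').2
    omega
  rw [hs, sum_union hd, sub_eq_add_neg]
  congr 1
  unfold EE
  rw [← sum_neg_distrib]
  refine sum_congr rfl fun T hT => ?_
  rw [(mem_powersetCard.1 hT).2, hj.add_one.neg_one_pow]
  ring

theorem bh_upper (ix tr : ℕ → ℕ) (htr : ∀ j, Even (tr j)) (S : Finset ℕ) :
    (if S = ∅ then (1 : ℝ) else 0) ≤ ∑ T ∈ S.powerset, lu ix tr T := by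
  have h := lu_prod ix tr S (fun _ => 1)
  simp only [prod_const_one, mul_one] at h
  rw [h]
  split_ifs with hS
  · subst hS
    simp
  · refine prod_nonneg fun j _ => le_trans ?_
      (FF_ge (x := fun _ => (1 : ℝ)) (fun p _ => ⟨zero_le_one, le_rfl⟩) (htr j))
    exact prod_nonneg fun p _ => by norm_num

theorem bh_lower (ix tr : ℕ → ℕ) (htr : ∀ j, Even (tr j)) (S : Finset ℕ) :
    ∑ T ∈ S.powerset, ll ix tr T ≤ (if S = ∅ then (1 : ℝ) else 0) := by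
  have h := ll_prod ix tr htr S (fun _ => 1)
  simp only [prod_const_one, mul_one] at h
  rw [h]
  split_ifs with hS
  · subst hS
    simp
  · obtain ⟨p0, hp0⟩ := nonempty_iff_ne_empty.2 hS
    have hx : ∀ p ∈ S, (0 : ℝ) ≤ (fun _ : ℕ => (1 : ℝ)) p ∧ (fun _ : ℕ => (1 : ℝ)) p ≤ 1 :=
      fun p _ => ⟨zero_le_one, le_rfl⟩
    have hFF0 : ∀ j, 0 ≤ FF ix tr S (fun _ => (1 : ℝ)) j := fun j =>
      le_trans (prod_nonneg fun p _ => by norm_num) (FF_ge hx (htr j))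
    have hEE0 : ∀ j, 0 ≤ EE ix tr S (fun _ => (1 : ℝ)) j := fun j =>
      EE_nonneg (fun p hp => (hx p hp).1) j
    have hj0 : ix p0 ∈ S.image ix := mem_image_of_mem _ hp0
    have hle : FF ix tr S (fun _ => (1 : ℝ)) (ix p0) ≤ EE ix tr S (fun _ => (1 : ℝ)) (ix p0) := by
      have h1 := FF_sub_EE_le hx (htr (ix p0)) (ix := ix)
      have h2 : ∏ p ∈ bl ix S (ix p0), (1 - (fun _ : ℕ => (1 : ℝ)) p) = 0 :=
        prod_eq_zero (mem_filter.2 ⟨hp0, rfl⟩) (by norm_num)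
      rw [h2] at h1
      linarith
    have h3 : EE ix tr S (fun _ => (1 : ℝ)) (ix p0) *
        ∏ i ∈ (S.image ix).erase (ix p0), FF ix tr S (fun _ => (1 : ℝ)) i ≤
        ∑ j ∈ S.image ix, EE ix tr S (fun _ => (1 : ℝ)) j *
          ∏ i ∈ (S.image ix).erase j, FF ix tr S (fun _ => (1 : ℝ)) i :=
      single_le_sum (f := fun j => EE ix tr S (fun _ => (1 : ℝ)) j *
          ∏ i ∈ (S.image ix).erase j, FF ix tr S (fun _ => (1 : ℝ)) i)
        (fun j _ => mul_nonneg (hEE0 j) (prod_nonneg fun i _ => hFF0 i)) hj0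
    have h4 : ∏ j ∈ S.image ix, FF ix tr S (fun _ => (1 : ℝ)) j ≤
        EE ix tr S (fun _ => (1 : ℝ)) (ix p0) *
        ∏ i ∈ (S.image ix).erase (ix p0), FF ix tr S (fun _ => (1 : ℝ)) i := by
      rw [← mul_prod_erase _ _ hj0]
      exact mul_le_mul_of_nonneg_right hle (prod_nonneg fun i _ => hFF0 i)
    linarith

theorem bh_main (ix tr : ℕ → ℕ) (htr : ∀ j, Even (tr j)) (P : Finset ℕ) (g : ℕ → ℝ)
    (hg : ∀ p ∈ P, 0 ≤ g p ∧ g p ≤ 1) (η : ℕ → ℝ) (hη0 : ∀ j, 0 ≤ η j)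
    (hη : ∑ j ∈ P.image ix, η j ≤ 1 / 4)
    (he : ∀ j ∈ P.image ix, EE ix tr P g j ≤ η j * ∏ p ∈ bl ix P j, (1 - g p)) :
    1 / 2 * ∏ p ∈ P, (1 - g p) ≤ ∑ T ∈ P.powerset, ll ix tr T * ∏ p ∈ T, g p ∧
    ∑ T ∈ P.powerset, lu ix tr T * ∏ p ∈ T, g p ≤ 2 * ∏ p ∈ P, (1 - g p) := by
  set J := P.image ix with hJ
  set pj : ℕ → ℝ := fun j => ∏ p ∈ bl ix P j, (1 - g p) with hpj
  have hpj0 : ∀ j, 0 ≤ pj j := fun j => prod_nonneg fun p hp => by
    have := (hg p (mem_filter.1 hp).1).2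
    linarith
  have hQ : ∏ j ∈ J, pj j = ∏ p ∈ P, (1 - g p) :=
    prod_fiberwise_of_maps_to (fun p hp => mem_image_of_mem _ hp) _
  have hlow : ∀ j ∈ J, pj j ≤ FF ix tr P g j := fun j _ => FF_ge hg (htr j)
  have hFF0 : ∀ j ∈ J, 0 ≤ FF ix tr P g j := fun j hj => (hpj0 j).trans (hlow j hj)
  have hup : ∀ j ∈ J, FF ix tr P g j ≤ (1 + η j) * pj j := by
    intro j hj
    have h1 := FF_sub_EE_le hg (htr j) (ix := ix)
    have h2 := he j hj
    have h3 : (1 + η j) * pj j = pj j + η j * pj j := by ring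
    rw [h3]
    linarith
  have hexp : ∏ j ∈ J, (1 + η j) ≤ 13 / 10 := by
    calc ∏ j ∈ J, (1 + η j) ≤ ∏ j ∈ J, Real.exp (η j) :=
          prod_le_prod (fun j _ => by linarith [hη0 j])
            (fun j _ => by have := Real.add_one_le_exp (η j); linarith)
      _ = Real.exp (∑ j ∈ J, η j) := (Real.exp_sum _ _).symm
      _ ≤ Real.exp (1 / 4) := Real.exp_le_exp.2 hη
      _ ≤ 13 / 10 := by
          have h1 : Real.exp (1 / 4) ^ 4 = Real.exp 1 := by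
            rw [← Real.exp_nat_mul]; norm_num
          have h2 := Real.exp_one_lt_d9
          by_contra hlt
          push Not at hlt
          have h3 : (13 / 10 : ℝ) ^ 4 < Real.exp (1 / 4) ^ 4 :=
            pow_lt_pow_left₀ hlt (by norm_num) (by norm_num)
          rw [h1] at h3
          norm_num at h3
          linarith
  have hQ0 : 0 ≤ ∏ p ∈ P, (1 - g p) := by
    rw [← hQ]; exact prod_nonneg fun j _ => hpj0 j
  have hprod1 : ∀ s ⊆ J, ∏ j ∈ s, (1 + η j) ≤ ∏ j ∈ J, (1 + η j) := by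
    intro s hs
    rw [← prod_sdiff hs]
    have h1 : 1 ≤ ∏ j ∈ J \ s, (1 + η j) := by
      have h2 : ∏ j ∈ J \ s, (1 : ℝ) ≤ ∏ j ∈ J \ s, (1 + η j) :=
        prod_le_prod (fun _ _ => zero_le_one) (fun j _ => by linarith [hη0 j])
      rwa [prod_const_one] at h2
    exact le_mul_of_one_le_left (prod_nonneg fun j _ => by linarith [hη0 j]) h1
  refine ⟨?_, ?_⟩
  · rw [ll_prod ix tr htr]
    have h1 : ∏ p ∈ P, (1 - g p) ≤ ∏ j ∈ J, FF ix tr P g j := by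
      rw [← hQ]; exact prod_le_prod (fun j _ => hpj0 j) hlow
    have h2 : ∑ j ∈ J, EE ix tr P g j * ∏ i ∈ J.erase j, FF ix tr P g i ≤
        ∑ j ∈ J, η j * (13 / 10 * ∏ p ∈ P, (1 - g p)) := by
      refine sum_le_sum fun j hj => ?_
      have h3 : ∏ i ∈ J.erase j, FF ix tr P g i ≤ 13 / 10 * ∏ i ∈ J.erase j, pj i := by
        calc ∏ i ∈ J.erase j, FF ix tr P g i ≤ ∏ i ∈ J.erase j, (1 + η i) * pj i :=
              prod_le_prod (fun i hi => hFF0 i (mem_of_mem_erase hi))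
                (fun i hi => hup i (mem_of_mem_erase hi))
          _ = (∏ i ∈ J.erase j, (1 + η i)) * ∏ i ∈ J.erase j, pj i := prod_mul_distrib
          _ ≤ _ := mul_le_mul_of_nonneg_right
              ((hprod1 _ (erase_subset _ _)).trans hexp) (prod_nonneg fun i _ => hpj0 i)
      calc EE ix tr P g j * ∏ i ∈ J.erase j, FF ix tr P g i
          ≤ (η j * pj j) * (13 / 10 * ∏ i ∈ J.erase j, pj i) :=
            mul_le_mul (he j hj) h3 (prod_nonneg fun i hi => hFF0 i (mem_of_mem_erase hi))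
              (mul_nonneg (hη0 j) (hpj0 j))
        _ = η j * (13 / 10 * ∏ p ∈ P, (1 - g p)) := by
            rw [← hQ, ← mul_prod_erase _ _ hj]
            ring
    rw [← sum_mul] at h2
    have h4 : (∑ j ∈ J, η j) * (13 / 10 * ∏ p ∈ P, (1 - g p)) ≤
        1 / 4 * (13 / 10 * ∏ p ∈ P, (1 - g p)) :=
      mul_le_mul_of_nonneg_right hη (by positivity)
    linarith
  · rw [lu_prod ix tr]
    calc ∏ j ∈ J, FF ix tr P g j ≤ ∏ j ∈ J, (1 + η j) * pj j := prod_le_prod hFF0 hup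
      _ = (∏ j ∈ J, (1 + η j)) * ∏ j ∈ J, pj j := prod_mul_distrib
      _ ≤ 13 / 10 * ∏ p ∈ P, (1 - g p) := by
          rw [hQ]; exact mul_le_mul_of_nonneg_right hexp hQ0
      _ ≤ _ := by linarith

end Pool.Agent.ERB
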