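import Pool.Agent.ERB.Wb

/-!
# ERB / LowM: the lower bound sieve

For a pair `(k, q)` let `S = {r ∈ P : r ∣ m + κkq}`.  `∑_{T ⊆ S} lam T ≤ [S = ∅]`, multiply by
`wt q ≥ 0` and sum: `Surv ≥ ∑_{T ⊆ P} lam T * AD T` (`T ⊆ S` iff `r ∣ m + κkq` for all `r ∈ T`)
`≥ ∑_T lam T * WW/φ(∏ T) * #{k : r ∤ k for r ∈ T} - ∑_T |lam T| Err T`.  Here `|lam T| ≤ 1`, `lam T ≠ 0` only for
`∏ T ≤ L`, and `Err ∅ = 0` (`AD ∅ = |A| WW`).  The main sum is
`WW ∑_{k ∈ A} ∑_T lam T ∏_{r ∈ T} g_k r` with `g_k r = 1/(r-1)` if `r ∤ k`, `0` otherwise (`φ(∏ T) = ∏ (r-1)`;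
`0 ≤ g_k r ≤ min(2/r, 2/3)` as `r ≥ 3`), and `∏_{r ∈ P} (1 - g_k r) = VV P k`; use `IsSW.main`.
-/

set_option autoImplicit false

namespace Pool.Agent.ERB

open Finset

/-- The density of the prime `r` for the pair with the factor `k`. -/
private noncomputable def gk (k r : ℕ) : ℝ := if r ∣ k then 0 else 1 / ((r : ℝ) - 1)

private theorem gk_bounds {P : Finset ℕ} (hP : ∀ r ∈ P, r.Prime ∧ 3 ≤ r) (k : ℕ) :
    ∀ p ∈ P, 0 ≤ gk k p ∧ gk k p ≤ 2 / p ∧ gk k p ≤ 2 / 3 := by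
  intro p hp
  have h3 : (3 : ℝ) ≤ p := by exact_mod_cast (hP p hp).2
  unfold gk
  split_ifs
  · refine ⟨le_rfl, by positivity, by norm_num⟩
  · refine ⟨?_, ?_, ?_⟩
    · apply div_nonneg zero_le_one
      linarith
    · rw [div_le_div_iff₀ (by linarith) (by linarith)]
      linarith
    · rw [div_le_div_iff₀ (by linarith) (by norm_num)]
      linarith

private theorem prod_gk (P : Finset ℕ) (k : ℕ) :
    ∏ p ∈ P, (1 - gk k p) = VV P k := by
  unfold VV
  rw [prod_filter]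
  refine prod_congr rfl fun r _ => ?_
  unfold gk
  by_cases h : r ∣ k <;> simp [h]

private theorem totient_prod_primes {T : Finset ℕ} (hT : ∀ r ∈ T, r.Prime) :
    (((∏ r ∈ T, r).totient : ℕ) : ℝ) = ∏ r ∈ T, ((r : ℝ) - 1) := by
  induction T using Finset.induction_on with
  | empty => simp
  | insert a T ha ih =>
    have ha' : a.Prime := hT a (mem_insert_self a T)
    rw [prod_insert ha, prod_insert ha, Nat.totient_mul, Nat.cast_mul,
      ih fun r hr => hT r (mem_insert_of_mem hr), Nat.totient_prime ha', Nat.cast_sub ha'.one_le,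
      Nat.cast_one]
    refine Nat.Coprime.prod_right fun r hr => ?_
    rw [Nat.coprime_primes ha' (hT r (mem_insert_of_mem hr))]
    rintro rfl
    exact ha hr

private theorem prod_gk_T {T : Finset ℕ} (hT : ∀ r ∈ T, r.Prime) (k : ℕ) :
    ∏ r ∈ T, gk k r =
      if ∀ r ∈ T, ¬ r ∣ k then 1 / (((∏ r ∈ T, r).totient : ℕ) : ℝ) else 0 := by
  classical
  by_cases h : ∀ r ∈ T, ¬ r ∣ k
  · rw [if_pos h, totient_prod_primes hT, one_div, ← prod_inv_distrib]
    refine prod_congr rfl fun r hr => ?_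
    unfold gk
    rw [if_neg (h r hr), one_div]
  · rw [if_neg h]
    push Not at h
    obtain ⟨r, hr, hrk⟩ := h
    exact prod_eq_zero hr (if_pos hrk)

private theorem sum_prod_gk {T : Finset ℕ} (hT : ∀ r ∈ T, r.Prime) (A : Finset ℕ) :
    ∑ k ∈ A, ∏ r ∈ T, gk k r = ((A.filter (fun k => ∀ r ∈ T, ¬ r ∣ k)).card : ℝ) /
      (((∏ r ∈ T, r).totient : ℕ) : ℝ) := by
  classical
  have h1 : ∀ k ∈ A, ∏ r ∈ T, gk k r =
      if ∀ r ∈ T, ¬ r ∣ k then 1 / (((∏ r ∈ T, r).totient : ℕ) : ℝ) else 0 :=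
    fun k _ => prod_gk_T hT k
  rw [sum_congr rfl h1, ← sum_filter, sum_const, nsmul_eq_mul, mul_one_div]

theorem lower_main (n : ℕ) (G : ℝ → ℝ) (X ε : ℝ) (hX : 0 < X) (hG : IsCut ε G) (m : ℤ) (κ : ℕ)
    (A P : Finset ℕ) (hP : ∀ r ∈ P, r.Prime ∧ 3 ≤ r) (L : ℝ) (lam lamu : Finset ℕ → ℝ)
    (hw : IsSW P L lam lamu) :
    1 / 2 * WW n G X * ∑ k ∈ A, VV P k -
      ∑ D ∈ P.powerset.filter (fun D => D.Nonempty ∧ ((∏ r ∈ D, r : ℕ) : ℝ) ≤ L),
        Err n G X m κ A D ≤ Surv n G X m κ A P := by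
  classical
  have hWW : 0 ≤ WW n G X := sum_nonneg fun q _ => wt_nonneg hG n hX q
  -- step 1: the sieve inequality
  have h1 : ∑ T ∈ P.powerset, lam T * AD n G X m κ A T ≤ Surv n G X m κ A P := by
    unfold AD Surv
    have e1 : ∑ T ∈ P.powerset, lam T * ∑ k ∈ A, ∑ q ∈ QQ X,
        (if ∀ r ∈ T, (r : ℤ) ∣ m + κ * k * q then wt n G X q else 0) =
        ∑ k ∈ A, ∑ q ∈ QQ X, wt n G X q * ∑ T ∈ P.powerset,
          (if ∀ r ∈ T, (r : ℤ) ∣ m + κ * k * q then lam T else 0) := by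
      simp only [mul_sum]
      rw [sum_comm]
      refine sum_congr rfl fun k _ => ?_
      rw [sum_comm]
      refine sum_congr rfl fun q _ => sum_congr rfl fun T _ => ?_
      split_ifs <;> ring
    rw [e1]
    refine sum_le_sum fun k _ => sum_le_sum fun q _ => ?_
    set S : Finset ℕ := P.filter (fun r => (r : ℤ) ∣ m + κ * k * q) with hS
    have e2 : ∑ T ∈ P.powerset, (if ∀ r ∈ T, (r : ℤ) ∣ m + κ * k * q then lam T else 0) =
        ∑ T ∈ S.powerset, lam T := by
      rw [← sum_filter]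
      refine sum_congr ?_ fun _ _ => rfl
      ext T
      rw [mem_filter, mem_powerset, mem_powerset]
      constructor
      · rintro ⟨h1, h2⟩ r hr
        rw [hS, mem_filter]
        exact ⟨h1 hr, h2 r hr⟩
      · intro h
        constructor
        · exact h.trans (filter_subset _ _)
        · intro r hr
          exact (mem_filter.1 (h hr)).2
    rw [e2]
    have h2 := hw.lower S (filter_subset _ _)
    have h3 := wt_nonneg hG n hX q
    have h4 : (S = ∅) ↔ ∀ r ∈ P, ¬ (r : ℤ) ∣ m + κ * k * q := by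
      rw [hS, filter_eq_empty_iff]
    calc wt n G X q * ∑ T ∈ S.powerset, lam T ≤ wt n G X q * (if S = ∅ then 1 else 0) :=
          mul_le_mul_of_nonneg_left h2 h3
      _ = if ∀ r ∈ P, ¬ (r : ℤ) ∣ m + κ * k * q then wt n G X q else 0 := by
          by_cases h5 : S = ∅
          · rw [if_pos h5, if_pos (h4.1 h5), mul_one]
          · rw [if_neg h5, if_neg fun h6 => h5 (h4.2 h6), mul_zero]
  -- step 2: replace by the main terms
  set mt : Finset ℕ → ℝ := fun T => WW n G X / (((∏ r ∈ T, r).totient : ℕ) : ℝ) *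
    ((A.filter (fun k => ∀ r ∈ T, ¬ r ∣ k)).card : ℝ) with hmt
  have h2 : ∀ T ∈ P.powerset, lam T * mt T -
      (if T.Nonempty ∧ ((∏ r ∈ T, r : ℕ) : ℝ) ≤ L then Err n G X m κ A T else 0) ≤
        lam T * AD n G X m κ A T := by
    intro T _
    have hErr : Err n G X m κ A T = |AD n G X m κ A T - mt T| := rfl
    by_cases hc : T.Nonempty ∧ ((∏ r ∈ T, r : ℕ) : ℝ) ≤ L
    · rw [if_pos hc, hErr]
      have h3 := (hw.abs_le T).1
      have h4 : |lam T * (AD n G X m κ A T - mt T)| ≤ |AD n G X m κ A T - mt T| := by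
        rw [abs_mul]
        calc |lam T| * |AD n G X m κ A T - mt T| ≤ 1 * |AD n G X m κ A T - mt T| :=
              mul_le_mul_of_nonneg_right h3 (abs_nonneg _)
          _ = _ := one_mul _
      have h5 := neg_le_of_abs_le h4
      have h6 : lam T * (AD n G X m κ A T - mt T) =
        lam T * AD n G X m κ A T - lam T * mt T := by ring
      linarith
    · rw [if_neg hc, sub_zero]
      by_cases hT : T.Nonempty
      · have h3 : lam T = 0 := by
          by_contra h4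
          exact hc ⟨hT, (hw.supp T (Or.inl h4)).2⟩
        rw [h3, zero_mul, zero_mul]
      · rw [not_nonempty_iff_eq_empty] at hT
        subst hT
        apply le_of_eq
        congr 1
        rw [hmt]
        unfold AD WW
        simp [mul_comm]
  -- step 3: sum up
  have h3 := sum_le_sum h2
  rw [sum_sub_distrib, ← sum_filter] at h3
  have h4 : 1 / 2 * WW n G X * ∑ k ∈ A, VV P k ≤ ∑ T ∈ P.powerset, lam T * mt T := by
    have e1 : ∑ T ∈ P.powerset, lam T * mt T =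
        WW n G X * ∑ k ∈ A, ∑ T ∈ P.powerset, lam T * ∏ r ∈ T, gk k r := by
      rw [sum_comm, mul_sum]
      refine sum_congr rfl fun T hT => ?_
      have hT' : ∀ r ∈ T, r.Prime := fun r hr => (hP r (mem_powerset.1 hT hr)).1
      rw [← mul_sum, sum_prod_gk hT', hmt]
      ring
    rw [e1]
    have e2 : ∀ k ∈ A, 1 / 2 * VV P k ≤ ∑ T ∈ P.powerset, lam T * ∏ r ∈ T, gk k r := by
      intro k _
      rw [← prod_gk]
      exact (hw.main (gk k) (gk_bounds hP k)).1
    calc 1 / 2 * WW n G X * ∑ k ∈ A, VV P k = WW n G X * ∑ k ∈ A, 1 / 2 * VV P k := by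
          rw [← mul_sum]
          ring
      _ ≤ _ := mul_le_mul_of_nonneg_left (sum_le_sum e2) hWW
  linarith

end Pool.Agent.ERB
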