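import Pool.Agent.ERB.BhM
import Pool.Agent.ERB.BhB

/-!
# ERB / SW: sieve weights of level `B z^22` for densities `≤ min(2/p, 2/3)`

`ix = bix z0 z`, `tr 0 = 2 * P.card`, `tr j = 6 + 2 * j` for `j ≥ 1`; `lam T = if T ⊆ P then ll ix tr T else 0`,
`lamu` the same with `lu`; `B = 4^z0`.  Support: if `ll T ≠ 0` then every block `j ≥ 1` contains at most
`tr j + 1 = 7 + 2j` elements of `T` (`blk`).  `lower`, `upper`: `bh_lower`, `bh_upper` (all subsets of
`S ⊆ P` are `⊆ P`).  Main: `bh_main` with `η 0 = 0` (`powersetCard (2 card P + 1)` of a subset of `P` is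
empty, the product over the block is `≥ 0`) and `η j = 29 * 2^(7+2j)/(7+2j)!` for `j ≥ 1`:
`EE j ≤ (∑_{block} g)^(7+2j)/(7+2j)!` (`RG.esymm_le`), `∑_{block} g ≤ ∑ 2/p ≤ 2` (`blk`) and
`∏_{block} (1 - g p) ≥ exp(-(5/3) ∑ g) ≥ exp(-10/3) ≥ 1/29` (`1 - x ≥ exp(-5x/3)` on `[0, 2/3]`).
-/

set_option autoImplicit false

namespace Pool.Agent.ERB

open Finset

private lemma exp_109 : (3 : ℝ) ≤ Real.exp (10 / 9) := by
  have h1 : Real.exp (10 / 9) = Real.exp 1 * Real.exp (1 / 9) := by
    rw [← Real.exp_add]; norm_num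
  have h2 := Real.exp_one_gt_d9
  have h3 := Real.add_one_le_exp (1 / 9 : ℝ)
  rw [h1]
  nlinarith [Real.exp_pos (1 / 9 : ℝ)]

private lemma one_sub_ge {x : ℝ} (h0 : 0 ≤ x) (h1 : x ≤ 2 / 3) :
    Real.exp (-(5 / 3 * x)) ≤ 1 - x := by
  have hconv := convexOn_exp.2 (Set.mem_univ (0:ℝ)) (Set.mem_univ (-(10/9) : ℝ))
    (show (0:ℝ) ≤ 1 - 3/2*x by linarith) (show (0:ℝ) ≤ 3/2*x by linarith) (by ring)
  simp only [smul_eq_mul, mul_zero, zero_add, Real.exp_zero, mul_one] at hconv
  have he : Real.exp (-(10/9) : ℝ) ≤ 1/3 := by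
    rw [Real.exp_neg, one_div]
    exact inv_anti₀ (by norm_num) exp_109
  have hx : 3/2 * x * -(10/9) = -(5/3 * x) := by ring
  rw [hx] at hconv
  nlinarith

private lemma exp_103 : Real.exp (10 / 3) ≤ 29 := by
  have h1 : Real.exp (10 / 3) ^ 3 = Real.exp 1 ^ 10 := by
    rw [← Real.exp_nat_mul, ← Real.exp_nat_mul]; norm_num
  have h2 := Real.exp_one_lt_d9
  by_contra hlt
  push Not at hlt
  have h3 : (29 : ℝ) ^ 3 < Real.exp (10 / 3) ^ 3 :=
    pow_lt_pow_left₀ hlt (by norm_num) (by norm_num)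
  have h4 : Real.exp 1 ^ 10 ≤ (2.7182818286 : ℝ) ^ 10 :=
    pow_le_pow_left₀ (Real.exp_pos 1).le h2.le 10
  rw [h1] at h3
  norm_num at h3 h4
  linarith

private lemma prod_one_sub_ge (s : Finset ℕ) (g : ℕ → ℝ) (hg : ∀ p ∈ s, 0 ≤ g p ∧ g p ≤ 2 / 3)
    (hs : ∑ p ∈ s, g p ≤ 2) : 1 ≤ 29 * ∏ p ∈ s, (1 - g p) := by
  have h1 : ∏ p ∈ s, Real.exp (-(5 / 3 * g p)) ≤ ∏ p ∈ s, (1 - g p) :=
    prod_le_prod (fun p _ => (Real.exp_pos _).le) fun p hp => one_sub_ge (hg p hp).1 (hg p hp).2
  rw [← Real.exp_sum, sum_neg_distrib, ← mul_sum, Real.exp_neg] at h1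
  have h2 : Real.exp (5 / 3 * ∑ p ∈ s, g p) ≤ 29 :=
    (Real.exp_le_exp.2 (by linarith)).trans exp_103
  have h3 : (29 : ℝ)⁻¹ ≤ (Real.exp (5 / 3 * ∑ p ∈ s, g p))⁻¹ :=
    inv_anti₀ (Real.exp_pos _) h2
  have h4 : (29 : ℝ)⁻¹ ≤ ∏ p ∈ s, (1 - g p) := h3.trans h1
  have : (29 : ℝ) * (29 : ℝ)⁻¹ = 1 := by norm_num
  nlinarith

/-- the error parameters -/
private noncomputable def eta (j : ℕ) : ℝ :=
  if j = 0 then 0 else 29 * ((2 : ℝ) ^ (7 + 2 * j) / ((7 + 2 * j).factorial : ℝ))

private lemma eta_nonneg (j : ℕ) : 0 ≤ eta j := by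
  unfold eta
  split_ifs
  · exact le_rfl
  · positivity

private lemma eta_aux (j : ℕ) : 29 * ((2 : ℝ) ^ (9 + 2 * j) / ((9 + 2 * j).factorial : ℝ)) ≤
    1 / 16 * (1 / 2) ^ j := by
  induction j with
  | zero => norm_num [Nat.factorial]
  | succ j ih =>
    have h1 : ((9 + 2 * (j + 1)).factorial : ℝ) =
        ((11 + 2 * j : ℕ) : ℝ) * (((10 + 2 * j : ℕ) : ℝ) * ((9 + 2 * j).factorial : ℝ)) := by
      have : (9 + 2 * (j + 1)).factorial = (11 + 2 * j) * ((10 + 2 * j) *
          (9 + 2 * j).factorial) := by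
        rw [show 9 + 2 * (j + 1) = (10 + 2 * j) + 1 by ring, Nat.factorial_succ,
          show 10 + 2 * j = (9 + 2 * j) + 1 by ring, Nat.factorial_succ]
        ring
      rw [this]
      push_cast
      ring
    have h2 : (2 : ℝ) ^ (9 + 2 * (j + 1)) = 4 * 2 ^ (9 + 2 * j) := by
      rw [show 9 + 2 * (j + 1) = (9 + 2 * j) + 2 by ring, pow_add]
      ring
    have hf : (0 : ℝ) < ((9 + 2 * j).factorial : ℝ) := by
      exact_mod_cast Nat.factorial_pos _
    have hA : (8 : ℝ) ≤ ((11 + 2 * j : ℕ) : ℝ) * ((10 + 2 * j : ℕ) : ℝ) := by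
      have : 8 ≤ (11 + 2 * j) * (10 + 2 * j) := by nlinarith
      exact_mod_cast this
    have h3 : 29 * ((2 : ℝ) ^ (9 + 2 * (j + 1)) / ((9 + 2 * (j + 1)).factorial : ℝ)) =
        4 / (((11 + 2 * j : ℕ) : ℝ) * ((10 + 2 * j : ℕ) : ℝ)) *
          (29 * ((2 : ℝ) ^ (9 + 2 * j) / ((9 + 2 * j).factorial : ℝ))) := by
      rw [h1, h2]
      have ha : ((11 + 2 * j : ℕ) : ℝ) ≠ 0 := by positivity
      have hb : ((10 + 2 * j : ℕ) : ℝ) ≠ 0 := by positivity
      field_simp
    have h4 : 4 / (((11 + 2 * j : ℕ) : ℝ) * ((10 + 2 * j : ℕ) : ℝ)) ≤ 1 / 2 := by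
      rw [div_le_div_iff₀ (by linarith) (by norm_num)]
      linarith
    rw [h3]
    calc _ ≤ 1 / 2 * (29 * ((2 : ℝ) ^ (9 + 2 * j) / ((9 + 2 * j).factorial : ℝ))) :=
          mul_le_mul_of_nonneg_right h4 (by positivity)
      _ ≤ 1 / 2 * (1 / 16 * (1 / 2) ^ j) := mul_le_mul_of_nonneg_left ih (by norm_num)
      _ = _ := by rw [pow_succ]; ring

private lemma eta_le (j : ℕ) : eta j ≤ 1 / 8 * (1 / 2) ^ j := by
  unfold eta
  split_ifs with h
  · positivity
  · obtain ⟨i, rfl⟩ := Nat.exists_eq_succ_of_ne_zero h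
    have h1 := eta_aux i
    have h2 : 7 + 2 * (i + 1) = 9 + 2 * i := by ring
    rw [Nat.succ_eq_add_one, h2, pow_succ]
    linarith

private lemma eta_sum (J : Finset ℕ) : ∑ j ∈ J, eta j ≤ 1 / 4 := by
  have h1 : ∑ j ∈ J, eta j ≤ ∑ j ∈ J, 1 / 8 * (1 / 2 : ℝ) ^ j := sum_le_sum fun j _ => eta_le j
  have hs : Summable fun j : ℕ => 1 / 8 * (1 / 2 : ℝ) ^ j :=
    (summable_geometric_of_lt_one (by norm_num) (by norm_num)).mul_left _
  have h2 : ∑ j ∈ J, 1 / 8 * (1 / 2 : ℝ) ^ j ≤ ∑' j : ℕ, 1 / 8 * (1 / 2 : ℝ) ^ j :=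
    hs.sum_le_tsum J fun j _ => by positivity
  rw [tsum_mul_left, tsum_geometric_of_lt_one (by norm_num) (by norm_num)] at h2
  norm_num at h2
  linarith

/-- the truncation parameters -/
private def trr (P : Finset ℕ) (j : ℕ) : ℕ := if j = 0 then 2 * P.card else 6 + 2 * j

private lemma trr_even (P : Finset ℕ) (j : ℕ) : Even (trr P j) := by
  unfold trr
  split_ifs
  · exact even_two_mul _
  · exact ⟨3 + j, by ring⟩

open scoped Classical in
theorem sieve_weights : ∃ B : ℝ, 1 ≤ B ∧ ∀ z : ℕ, 2 ≤ z → ∀ P : Finset ℕ,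
    (∀ p ∈ P, p.Prime ∧ p ≤ z) → ∃ lam lamu : Finset ℕ → ℝ,
      IsSW P (B * (z : ℝ) ^ 22) lam lamu := by
  obtain ⟨z0, hz0, hblk⟩ := blk
  refine ⟨4 ^ z0, one_le_pow₀ (by norm_num), fun z hz P hP => ?_⟩
  obtain ⟨hsum, hprod⟩ := hblk z hz P hP
  set ix := bix z0 z with hix
  set tr := trr P with htr
  have hev : ∀ j, Even (tr j) := trr_even P
  refine ⟨fun T => if T ⊆ P then ll ix tr T else 0, fun T => if T ⊆ P then lu ix tr T else 0,
    ?_, ?_, ?_, ?_, ?_⟩
  · intro S
    constructor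
    · split_ifs
      · unfold ll
        split_ifs <;> simp
      · simp
    · split_ifs
      · unfold lu
        split_ifs <;> simp
      · simp
  · intro S hS
    have key : S ⊆ P ∧ ∀ j, 1 ≤ j → (bl ix S j).card ≤ 7 + 2 * j := by
      rcases hS with h | h
      · split_ifs at h with h1
        · refine ⟨h1, fun j hj => ?_⟩
          have htj : tr j = 6 + 2 * j := by
            rw [htr]; unfold trr; rw [if_neg (by omega)]
          unfold ll at h
          split_ifs at h with h2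
          · rcases h2 with h3 | ⟨i, h3, h4⟩
            · have := h3 j
              omega
            · by_cases hij : j = i
              · subst hij
                omega
              · have := h4 j hij
                omega
          · exact absurd rfl h
        · exact absurd rfl h
      · split_ifs at h with h1
        · refine ⟨h1, fun j hj => ?_⟩
          have htj : tr j = 6 + 2 * j := by
            rw [htr]; unfold trr; rw [if_neg (by omega)]
          unfold lu at h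
          split_ifs at h with h2
          · have := h2 j
            omega
          · exact absurd rfl h
        · exact absurd rfl h
    exact ⟨key.1, hprod S key.1 key.2⟩
  · intro S hS
    refine le_trans (le_of_eq ?_) (bh_lower ix tr hev S)
    refine sum_congr rfl fun T hT => ?_
    rw [if_pos ((mem_powerset.1 hT).trans hS)]
  · intro S hS
    refine le_trans (bh_upper ix tr hev S) (le_of_eq ?_)
    refine sum_congr rfl fun T hT => ?_
    rw [if_pos ((mem_powerset.1 hT).trans hS)]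
  · intro g hg
    have he : ∀ j ∈ P.image ix, EE ix tr P g j ≤ eta j * ∏ p ∈ bl ix P j, (1 - g p) := by
      intro j _
      have hblP : bl ix P j ⊆ P := filter_subset _ _
      have hpr0 : 0 ≤ ∏ p ∈ bl ix P j, (1 - g p) := prod_nonneg fun p hp => by
        have := (hg p (hblP hp)).2.2
        linarith
      rcases Nat.eq_zero_or_pos j with hj | hj
      · have h1 : EE ix tr P g j = 0 := by
          unfold EE
          have : (bl ix P j).powersetCard (tr j + 1) = ∅ := by
            apply powersetCard_eq_empty.2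
            have h2 := card_le_card hblP
            have h3 : tr j = 2 * P.card := by
              rw [htr]; unfold trr; rw [if_pos hj]
            omega
          rw [this, sum_empty]
        rw [h1]
        exact mul_nonneg (eta_nonneg j) hpr0
      · have htj : tr j = 6 + 2 * j := by
          rw [htr]; unfold trr; rw [if_neg (by omega)]
        have hsg : ∑ p ∈ bl ix P j, g p ≤ 2 := by
          have h1 := hsum j hj
          have h2 : ∑ p ∈ bl ix P j, g p ≤ ∑ p ∈ bl ix P j, 2 * (1 / (p : ℝ)) :=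
            sum_le_sum fun p hp => by
              have := (hg p (hblP hp)).2.1
              rw [mul_one_div]
              exact this
          rw [← mul_sum] at h2
          linarith
        have hsg0 : 0 ≤ ∑ p ∈ bl ix P j, g p := sum_nonneg fun p hp => (hg p (hblP hp)).1
        have h1 : EE ix tr P g j ≤ (∑ p ∈ bl ix P j, g p) ^ (tr j + 1) /
            ((tr j + 1).factorial : ℝ) :=
          Pool.Agent.RG.esymm_le (bl ix P j) g (fun p hp => (hg p (hblP hp)).1) (tr j + 1)
        have h2 : EE ix tr P g j ≤ (2 : ℝ) ^ (7 + 2 * j) / ((7 + 2 * j).factorial : ℝ) := by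
          refine h1.trans ?_
          rw [show tr j + 1 = 7 + 2 * j by omega]
          exact div_le_div_of_nonneg_right (pow_le_pow_left₀ hsg0 hsg _) (Nat.cast_nonneg _)
        have h3 := prod_one_sub_ge (bl ix P j) g (fun p hp => ⟨(hg p (hblP hp)).1,
          (hg p (hblP hp)).2.2⟩) hsg
        have h4 : eta j = 29 * ((2 : ℝ) ^ (7 + 2 * j) / ((7 + 2 * j).factorial : ℝ)) := by
          unfold eta
          rw [if_neg (by omega)]
        rw [h4]
        have h5 : (0 : ℝ) ≤ (2 : ℝ) ^ (7 + 2 * j) / ((7 + 2 * j).factorial : ℝ) := by positivity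
        nlinarith
    have h := bh_main ix tr hev P g (fun p hp => ⟨(hg p hp).1, by
      have := (hg p hp).2.2
      linarith⟩) eta eta_nonneg (eta_sum _) he
    refine ⟨le_trans h.1 (le_of_eq ?_), le_trans (le_of_eq ?_) h.2⟩
    · refine sum_congr rfl fun T hT => ?_
      rw [if_pos (mem_powerset.1 hT)]
    · refine sum_congr rfl fun T hT => ?_
      rw [if_pos (mem_powerset.1 hT)]

end Pool.Agent.ERB
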