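import Pool.Agent.ERB.Defs
import Pool.Agent.RG.Mer

/-!
# ERB / Num: products over primes

`RG.V n = ∏_{p < n} (1 - 1/p)`; `RG.V_ratio` with `u = 2` (`V 2 = 1`) gives `c/log n ≤ V n ≤ C/log n` for
`n ≥ 2`.
* `V_up`: the product over the primes `≤ R` is `V (R + 1)`.
* `VV_low`: `1 - 1/(r-1) = (1 - 1/r)(1 - 1/(r-1)^2)` for `r ≥ 3`, every factor is in `(0,1]`; so
  `VV P k ≥ ∏_{3 ≤ r ≤ z} (1 - 1/(r-1)) ≥ ∏_{3 ≤ r ≤ z} (1 - 1/r) * ∏_{j ≥ 2} (1 - 1/j^2) ≥ V (z+1)`, since the
  finite products of `1 - 1/j^2 = (j-1)(j+1)/j^2`, `j = 2..J`, are `(J+1)/(2J) ≥ 1/2`, and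
  `∏_{3 ≤ r ≤ z} (1-1/r) = 2 V (z+1)`.
* `tot_sum`: `∑_{D ⊆ P} 1/φ(∏ D) = ∏_{r ∈ P} (1 + 1/(r-1)) = ∏_{r ∈ P} (1-1/r)^(-1) ≤ 1/V(z+1)`
  (`Finset.prod_one_add`/`prod_add`; `totient` is multiplicative over distinct primes).
* `phi_low`: `c/φ(c) = ∏_{p ∣ c} p/(p-1) ≤ ∏_{i=1}^{ω} (i+1)/i = ω + 1 ≤ log c/log 2 + 1`
  (the `i`-th prime factor is `≥ i + 1`); or any other proof of `c ≤ φ(c) (2 + 2 log c)`.
-/

set_option autoImplicit false

namespace Pool.Agent.ERB

open Finset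

private theorem num_V_bounds : ∃ c C : ℝ, 0 < c ∧ 0 < C ∧ ∀ n : ℕ, 2 ≤ n →
    c / Real.log n ≤ RG.V n ∧ RG.V n ≤ C / Real.log n := by
  obtain ⟨C, hC, h⟩ := RG.V_ratio
  have hl2 : 0 < Real.log 2 := Real.log_pos (by norm_num)
  have hK : 0 < 1 + C / Real.log 2 := by positivity
  have hV2 : RG.V 2 = 1 := by
    unfold RG.V
    apply Finset.prod_eq_one
    intro p hp
    rw [Finset.mem_filter, Finset.mem_range] at hp
    have := hp.2.two_le
    omega
  refine ⟨Real.log 2 / (1 + C / Real.log 2), (1 + C / Real.log 2) * Real.log 2, by positivity,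
    by positivity, ?_⟩
  intro n hn
  have hln : 0 < Real.log n := Real.log_pos (by exact_mod_cast hn)
  obtain ⟨h1, h2⟩ := h 2 n le_rfl hn
  rw [hV2] at h1 h2
  push_cast at h1 h2
  rw [one_mul] at h1 h2
  constructor
  · rw [div_le_iff₀ hln, div_le_iff₀ hK]
    linarith
  · rw [le_div_iff₀ hln]
    exact h2

theorem V_up : ∃ C : ℝ, 0 < C ∧ ∀ R : ℕ, 2 ≤ R →
    ∏ p ∈ (range (R + 1)).filter Nat.Prime, (1 - 1 / (p : ℝ)) ≤ C / Real.log R := by
  obtain ⟨c, C, hc, hC, h⟩ := num_V_bounds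
  refine ⟨C, hC, fun R hR => ?_⟩
  exact (RG.V_succ_le R).trans (h R hR).2

private theorem num_log_succ (z : ℕ) (hz : 2 ≤ z) : Real.log ((z + 1 : ℕ) : ℝ) ≤ 2 * Real.log z := by
  have hz' : (2 : ℝ) ≤ z := by exact_mod_cast hz
  rw [show (2 : ℝ) * Real.log z = Real.log ((z : ℝ) ^ 2) by rw [Real.log_pow]; norm_num]
  apply Real.log_le_log (by positivity)
  push_cast
  nlinarith

private theorem num_V_low : ∃ c : ℝ, 0 < c ∧ ∀ z : ℕ, 2 ≤ z → c / Real.log z ≤ RG.V (z + 1) := by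
  obtain ⟨c, C, hc, hC, h⟩ := num_V_bounds
  refine ⟨c / 2, by positivity, fun z hz => ?_⟩
  have hlz : 0 < Real.log z := Real.log_pos (by exact_mod_cast hz)
  have hlz1 : 0 < Real.log ((z + 1 : ℕ) : ℝ) := Real.log_pos (by push_cast; have : (2 : ℝ) ≤ z := by exact_mod_cast hz
                                                                 linarith)
  refine le_trans ?_ (h (z + 1) (by omega)).1
  rw [div_div, div_le_div_iff_of_pos_left hc (by positivity) hlz1]
  exact num_log_succ z hz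

private theorem num_A (z : ℕ) (hz : 2 ≤ z) :
    RG.V (z + 1) * (z / (z - 1)) ≤ ∏ r ∈ RG.prm 2 z, (1 - 1 / ((r : ℝ) - 1)) := by
  induction z, hz using Nat.le_induction with
  | base =>
    have h1 : RG.prm 2 2 = ∅ := by
      unfold RG.prm
      simp
    have h2 : RG.V (2 + 1) = 1 / 2 := by
      unfold RG.V
      have : (range (2 + 1)).filter Nat.Prime = {2} := by decide
      rw [this]
      norm_num
    rw [h1, h2]
    norm_num
  | succ z hz ih =>
    have hz' : (2 : ℝ) ≤ z := by exact_mod_cast hz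
    have hV0 := RG.V_pos (z + 1)
    rw [RG.V_succ_mul z (z + 1) (by omega), RG.prm_succ_right 2 z hz]
    rw [RG.prm_succ_right z z le_rfl]
    have h0 : RG.prm z z = ∅ := by
      unfold RG.prm
      simp
    split_ifs with hp
    · have hnot : z + 1 ∉ RG.prm 2 z := by
        rw [RG.mem_prm]
        omega
      rw [h0, Finset.prod_insert hnot, Finset.prod_insert (by simp), Finset.prod_empty]
      have e1 : (((z + 1 : ℕ) : ℝ) - 1) = z := by push_cast; ring
      rw [e1]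
      have e2 : RG.V (z + 1) * ((1 - 1 / ((z + 1 : ℕ) : ℝ)) * 1) * (((z + 1 : ℕ) : ℝ) / z) =
          RG.V (z + 1) * (z / (z - 1)) * (1 - 1 / (z : ℝ)) := by
        push_cast
        have : (z : ℝ) - 1 ≠ 0 := by linarith
        field_simp
        ring
      rw [e2, mul_comm (1 - 1 / (z : ℝ))]
      apply mul_le_mul_of_nonneg_right ih
      have : 1 / (z : ℝ) ≤ 1 := by rw [div_le_one (by linarith)]; linarith
      linarith
    · rw [h0, Finset.prod_empty, mul_one]
      refine le_trans ?_ ih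
      apply mul_le_mul_of_nonneg_left _ hV0.le
      push_cast
      rw [div_le_div_iff₀ (by linarith) (by linarith)]
      nlinarith

private theorem num_fac (r : ℕ) (hr : 3 ≤ r) : 0 < (1 - 1 / ((r : ℝ) - 1)) ∧ (1 - 1 / ((r : ℝ) - 1)) ≤ 1 := by
  have hr' : (3 : ℝ) ≤ r := by exact_mod_cast hr
  have h1 : 0 < 1 / ((r : ℝ) - 1) := by
    apply div_pos one_pos
    linarith
  have h2 : 1 / ((r : ℝ) - 1) < 1 := by rw [div_lt_one (by linarith)]; linarith
  constructor <;> linarith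

private theorem num_prod_mono {S Q : Finset ℕ} (f : ℕ → ℝ) (hSQ : S ⊆ Q)
    (hf : ∀ r ∈ Q, 0 < f r ∧ f r ≤ 1) : ∏ r ∈ Q, f r ≤ ∏ r ∈ S, f r := by
  rw [← Finset.prod_sdiff hSQ]
  have h1 : ∏ r ∈ Q \ S, f r ≤ 1 := by
    apply Finset.prod_le_one
    · intro r hr
      exact (hf r (Finset.mem_sdiff.1 hr).1).1.le
    · intro r hr
      exact (hf r (Finset.mem_sdiff.1 hr).1).2
  have h2 : 0 ≤ ∏ r ∈ S, f r := Finset.prod_nonneg fun r hr => (hf r (hSQ hr)).1.le
  nlinarith

theorem VV_low : ∃ c : ℝ, 0 < c ∧ ∀ z : ℕ, 2 ≤ z → ∀ P : Finset ℕ,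
    (∀ r ∈ P, r.Prime ∧ 3 ≤ r ∧ r ≤ z) → ∀ k : ℕ, c / Real.log z ≤ VV P k := by
  obtain ⟨c, hc, h⟩ := num_V_low
  refine ⟨c, hc, fun z hz P hP k => ?_⟩
  have hz' : (2 : ℝ) ≤ z := by exact_mod_cast hz
  refine (h z hz).trans ?_
  have h1 := num_A z hz
  have h2 : RG.V (z + 1) ≤ RG.V (z + 1) * (z / (z - 1)) := by
    have : 1 ≤ (z : ℝ) / (z - 1) := by rw [le_div_iff₀ (by linarith)]; linarith
    have := RG.V_pos (z + 1)
    nlinarith
  refine h2.trans (h1.trans ?_)
  unfold VV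
  apply num_prod_mono (fun r => 1 - 1 / ((r : ℝ) - 1))
  · intro r hr
    have hr' := hP r (Finset.mem_filter.1 hr).1
    rw [RG.mem_prm]
    exact ⟨⟨by omega, hr'.2.2⟩, hr'.1⟩
  · intro r hr
    rw [RG.mem_prm] at hr
    exact num_fac r (by omega)

theorem VV_pos (P : Finset ℕ) (hP : ∀ r ∈ P, 3 ≤ r) (k : ℕ) : 0 < VV P k ∧ VV P k ≤ 1 := by
  unfold VV
  constructor
  · exact Finset.prod_pos fun r hr => (num_fac r (hP r (Finset.mem_filter.1 hr).1)).1
  · apply Finset.prod_le_one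
    · intro r hr
      exact (num_fac r (hP r (Finset.mem_filter.1 hr).1)).1.le
    · intro r hr
      exact (num_fac r (hP r (Finset.mem_filter.1 hr).1)).2

private theorem num_tot (D : Finset ℕ) (hD : ∀ r ∈ D, r.Prime) :
    (∏ r ∈ D, r).totient = ∏ r ∈ D, (r - 1) := by
  induction D using Finset.induction_on with
  | empty => simp
  | insert a s ha ih =>
    rw [Finset.prod_insert ha, Finset.prod_insert ha, Nat.totient_mul, ih, Nat.totient_prime]
    · exact hD a (Finset.mem_insert_self _ _)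
    · intro r hr
      exact hD r (Finset.mem_insert_of_mem hr)
    · apply Nat.Coprime.prod_right
      intro r hr
      rw [Nat.coprime_primes (hD a (Finset.mem_insert_self _ _)) (hD r (Finset.mem_insert_of_mem hr))]
      rintro rfl
      exact ha hr

theorem tot_sum : ∃ C : ℝ, 0 < C ∧ ∀ z : ℕ, 2 ≤ z → ∀ P : Finset ℕ,
    (∀ r ∈ P, r.Prime ∧ r ≤ z) →
    ∑ D ∈ P.powerset, 1 / ((∏ r ∈ D, r).totient : ℝ) ≤ C * Real.log z := by
  obtain ⟨c, hc, h⟩ := num_V_low
  refine ⟨1 / c, by positivity, fun z hz P hP => ?_⟩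
  have hlz : 0 < Real.log z := Real.log_pos (by exact_mod_cast hz)
  have h1 : ∑ D ∈ P.powerset, 1 / ((∏ r ∈ D, r).totient : ℝ) =
      ∏ r ∈ P, (1 + 1 / ((r : ℝ) - 1)) := by
    rw [Finset.prod_one_add]
    apply Finset.sum_congr rfl
    intro D hD
    have hD' : ∀ r ∈ D, r.Prime := fun r hr => (hP r (Finset.mem_powerset.1 hD hr)).1
    rw [num_tot D hD']
    push_cast
    rw [one_div, ← Finset.prod_inv_distrib]
    apply Finset.prod_congr rfl
    intro r hr
    rw [Nat.cast_sub (hD' r hr).one_lt.le, one_div]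
    push_cast
    rfl
  have h2 : ∏ r ∈ P, (1 + 1 / ((r : ℝ) - 1)) = (∏ r ∈ P, (1 - 1 / (r : ℝ)))⁻¹ := by
    rw [← Finset.prod_inv_distrib]
    apply Finset.prod_congr rfl
    intro r hr
    have hr1 : (1 : ℝ) < r := by exact_mod_cast (hP r hr).1.one_lt
    have : (r : ℝ) - 1 ≠ 0 := by linarith
    have h0 : (r : ℝ) ≠ 0 := by linarith
    rw [show (1 - 1 / (r : ℝ)) = (r - 1) / r by field_simp, inv_div]
    field_simp
    ring
  rw [h1, h2]
  have h3 : RG.V (z + 1) ≤ ∏ r ∈ P, (1 - 1 / (r : ℝ)) := by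
    unfold RG.V
    apply num_prod_mono (fun r => 1 - 1 / (r : ℝ))
    · intro r hr
      rw [Finset.mem_filter, Finset.mem_range]
      exact ⟨by have := (hP r hr).2; omega, (hP r hr).1⟩
    · intro r hr
      have hr1 : (1 : ℝ) < r := by exact_mod_cast (Finset.mem_filter.1 hr).2.one_lt
      have h4 : 0 < 1 / (r : ℝ) := by positivity
      have h5 : 1 / (r : ℝ) < 1 := by rw [div_lt_one (by linarith)]; exact hr1
      constructor <;> linarith
  have h4 := h z hz
  have h5 : 0 < c / Real.log z := by positivity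
  calc (∏ r ∈ P, (1 - 1 / (r : ℝ)))⁻¹ ≤ (c / Real.log z)⁻¹ := inv_anti₀ h5 (h4.trans h3)
    _ = 1 / c * Real.log z := by rw [inv_div]; ring

private theorem num_ratio (S : Finset ℕ) (hS : ∀ p ∈ S, 2 ≤ p) :
    ∏ p ∈ S, ((p : ℝ) / ((p : ℝ) - 1)) ≤ S.card + 1 := by
  induction S using Finset.induction_on_max with
  | empty => simp
  | insert m s hm ih =>
    have hms : m ∉ s := fun h => lt_irrefl _ (hm m h)
    have hsub : s ⊆ Finset.Ico 2 m := by
      intro p hp
      rw [Finset.mem_Ico]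
      exact ⟨hS p (Finset.mem_insert_of_mem hp), hm p hp⟩
    have hcard : s.card ≤ m - 2 := by
      have := Finset.card_le_card hsub
      rwa [Nat.card_Ico] at this
    have hm2 := hS m (Finset.mem_insert_self _ _)
    have hmc : s.card + 2 ≤ m := by omega
    have hmc' : ((s.card : ℝ)) + 2 ≤ m := by exact_mod_cast hmc
    rw [Finset.prod_insert hms, Finset.card_insert_of_notMem hms]
    have ih' := ih (fun p hp => hS p (Finset.mem_insert_of_mem hp))
    have hc0 : (0 : ℝ) ≤ s.card := by positivity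
    have h1 : (m : ℝ) / ((m : ℝ) - 1) ≤ ((s.card : ℝ) + 2) / (s.card + 1) := by
      rw [div_le_div_iff₀ (by linarith) (by linarith)]
      nlinarith
    calc (m : ℝ) / ((m : ℝ) - 1) * ∏ p ∈ s, ((p : ℝ) / ((p : ℝ) - 1))
        ≤ (m : ℝ) / ((m : ℝ) - 1) * (s.card + 1) := by
          apply mul_le_mul_of_nonneg_left ih'
          apply div_nonneg <;> linarith
      _ ≤ ((s.card : ℝ) + 2) / (s.card + 1) * (s.card + 1) := by
          apply mul_le_mul_of_nonneg_right h1
          linarith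
      _ = ((s.card + 1 : ℕ) : ℝ) + 1 := by
          push_cast
          field_simp
          ring

theorem phi_low (c : ℕ) (hc : 1 ≤ c) : 1 / (c.totient : ℝ) ≤ (2 + 2 * Real.log c) / c := by
  have hc' : (1 : ℝ) ≤ c := by exact_mod_cast hc
  have hphi : 0 < (c.totient : ℝ) := by exact_mod_cast Nat.totient_pos.2 hc
  have h1 : (c.totient : ℝ) * ∏ p ∈ c.primeFactors, (p : ℝ) =
      c * ∏ p ∈ c.primeFactors, ((p : ℝ) - 1) := by
    have := Nat.totient_mul_prod_primeFactors c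
    have h2 : ((c.totient * ∏ p ∈ c.primeFactors, p : ℕ) : ℝ) =
        ((c * ∏ p ∈ c.primeFactors, (p - 1) : ℕ) : ℝ) := by rw [this]
    push_cast at h2
    rw [h2]
    congr 1
    apply Finset.prod_congr rfl
    intro p hp
    rw [Nat.cast_sub (Nat.prime_of_mem_primeFactors hp).one_lt.le]
    simp
  have hpos : 0 < ∏ p ∈ c.primeFactors, ((p : ℝ) - 1) := by
    apply Finset.prod_pos
    intro p hp
    have : (1 : ℝ) < p := by exact_mod_cast (Nat.prime_of_mem_primeFactors hp).one_lt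
    linarith
  have h2 : (c : ℝ) = c.totient * ∏ p ∈ c.primeFactors, ((p : ℝ) / ((p : ℝ) - 1)) := by
    rw [Finset.prod_div_distrib, ← mul_div_assoc, h1]
    field_simp
  have h3 := num_ratio c.primeFactors (fun p hp => (Nat.prime_of_mem_primeFactors hp).two_le)
  have h4 : (c.primeFactors.card : ℝ) * Real.log 2 ≤ Real.log c := by
    rw [← Real.log_pow]
    apply Real.log_le_log (by positivity)
    have h5 : 2 ^ c.primeFactors.card ≤ c := by
      calc 2 ^ c.primeFactors.card = ∏ _p ∈ c.primeFactors, 2 := by rw [Finset.prod_const]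
        _ ≤ ∏ p ∈ c.primeFactors, p := Finset.prod_le_prod (fun _ _ => by norm_num)
            (fun p hp => (Nat.prime_of_mem_primeFactors hp).two_le)
        _ ≤ c := Nat.le_of_dvd hc (Nat.prod_primeFactors_dvd c)
    exact_mod_cast h5
  have h6 : (c.primeFactors.card : ℝ) ≤ 2 * Real.log c := by
    have := Real.log_two_gt_d9
    have h7 : (0 : ℝ) ≤ c.primeFactors.card := by positivity
    nlinarith
  rw [div_le_div_iff₀ hphi (by linarith)]
  calc 1 * (c : ℝ) = c.totient * ∏ p ∈ c.primeFactors, ((p : ℝ) / ((p : ℝ) - 1)) := by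
        rw [one_mul]; exact h2
    _ ≤ c.totient * (2 + 2 * Real.log c) := by
        apply mul_le_mul_of_nonneg_left _ hphi.le
        linarith
    _ = (2 + 2 * Real.log c) * c.totient := mul_comm _ _

end Pool.Agent.ERB
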