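import Pool.Agent.ERB.LgQ
import Pool.Agent.ERB.Num

/-!
# ERB / Lg: large conductors

Split `U` into dyadic parts `2^i ≤ c < 2^(i+1)` (`C1/2 < 2^i ≤ e^(X/2)`, at most `X + 1` values of `i`).  For one
part: `1/φ(c) ≤ (2 + 2 log c)/c ≤ 2X/2^i` (`phi_low`, `log c ≤ X/2`, `X ≥ 2`).  Cauchy-Schwarz over the finite
set `F` of the pairs `(c, ψ)`: `∑ ‖Kc A ψ‖ ‖Sc ψ‖ ≤ (∑ ‖Kc A ψ‖^2)^(1/2) (∑ ‖Sc ψ‖^2)^(1/2)`.  The first sum is
`≤ ((2^(i+1))^2 + 4π(K + 1)) |A|` (`large_sieve_prim` with `N = K` and the indicator function of `A`),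
so its root is `≤ (2^(i+1) + 6 √K) √|A|`; the second is `≤ C X^2` (`sum_Sc_sq`, `Cm = ⌊e^(X/2)⌋`).
Together: `≤ (2X/2^i)(2^(i+1) + 6 √K) √|A| C X ≤ C' X^2 (1 + √K/2^i) √|A|`, and `1/2^i ≤ 2/C1`.
-/

set_option autoImplicit false

namespace Pool.Agent.ERB

open Finset

private theorem lg_K (K : ℕ) (hK : 1 ≤ K) (A : Finset ℕ) (hA : A ⊆ Icc 1 K) (i : ℕ)
    (F : Finset (Σ c : ℕ, DirichletCharacter ℂ c))
    (hF : ∀ j ∈ F, 2 ≤ j.1 ∧ j.1 ≤ 2 ^ (i + 1) ∧ j.2.IsPrimitive) :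
    √(∑ j ∈ F, ‖Kc A j.2‖ ^ 2) ≤ (2 * 2 ^ i + 6 * √(K : ℝ)) * √(A.card : ℝ) := by
  classical
  have h1 := Pool.Agent.Helper4.ST.large_sieve_prim (2 ^ (i + 1)) K F hF
    (fun n => if n ∈ A then 1 else 0)
  have hsub : A ⊆ range (K + 1) := by
    intro n hn
    have := Finset.mem_Icc.1 (hA hn)
    rw [Finset.mem_range]
    omega
  have h2 : ∀ j ∈ F, ∑ n ∈ range (K + 1), (if n ∈ A then (1 : ℂ) else 0) * j.2 (n : ZMod j.1) =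
      Kc A j.2 := by
    intro j _
    unfold Kc
    simp only [ite_mul, one_mul, zero_mul]
    rw [Finset.sum_ite_mem, Finset.inter_eq_right.2 hsub]
  have h3 : ∑ n ∈ range (K + 1), ‖(if n ∈ A then (1 : ℂ) else 0)‖ ^ 2 = (A.card : ℝ) := by
    have h4 : ∀ n ∈ range (K + 1), ‖(if n ∈ A then (1 : ℂ) else 0)‖ ^ 2 =
        if n ∈ A then (1 : ℝ) else 0 := by
      intro n _
      split_ifs <;> simp
    rw [Finset.sum_congr rfl h4, Finset.sum_ite_mem, Finset.inter_eq_right.2 hsub]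
    simp
  have h5 : ∑ j ∈ F, ‖Kc A j.2‖ ^ 2 ≤
      (((2 ^ (i + 1) : ℕ) : ℝ) ^ 2 + 4 * Real.pi * (K + 1)) * (A.card : ℝ) := by
    rw [← h3]
    refine le_trans (le_of_eq ?_) h1
    exact Finset.sum_congr rfl fun j hj => by rw [h2 j hj]
  have hKR : (1 : ℝ) ≤ K := by exact_mod_cast hK
  have hpi := Real.pi_lt_d2
  have h6 : (((2 ^ (i + 1) : ℕ) : ℝ) ^ 2 + 4 * Real.pi * (K + 1)) ≤
      (2 * 2 ^ i + 6 * √(K : ℝ)) ^ 2 := by
    have hs := Real.sq_sqrt (show (0 : ℝ) ≤ K by positivity)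
    have hs0 := Real.sqrt_nonneg (K : ℝ)
    have h7 : (((2 ^ (i + 1) : ℕ) : ℝ)) = 2 * 2 ^ i := by
      push_cast
      ring
    rw [h7]
    have h8 : (0 : ℝ) < 2 ^ i := by positivity
    have h9 : 4 * Real.pi * (K + 1) ≤ 36 * (K : ℝ) := by
      have : 4 * Real.pi * (K + 1) ≤ 4 * 3.15 * (K + K) := by
        apply mul_le_mul _ _ (by positivity) (by norm_num)
        · linarith
        · linarith
      linarith
    nlinarith [mul_nonneg h8.le hs0]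
  calc √(∑ j ∈ F, ‖Kc A j.2‖ ^ 2) ≤ √((2 * 2 ^ i + 6 * √(K : ℝ)) ^ 2 * (A.card : ℝ)) := by
        apply Real.sqrt_le_sqrt
        refine h5.trans ?_
        exact mul_le_mul_of_nonneg_right h6 (Nat.cast_nonneg _)
    _ = (2 * 2 ^ i + 6 * √(K : ℝ)) * √(A.card : ℝ) := by
        rw [Real.sqrt_mul (sq_nonneg _), Real.sqrt_sq (by positivity)]

private theorem lg_block {n : ℕ} {C0 : ℝ} (hC0 : 0 < C0) {X : ℝ} (hX : 2 ≤ X) {G : ℝ → ℝ}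
    (hS : ∀ Cm : ℕ, (Cm : ℝ) ≤ Real.exp (X / 2) →
      ∀ F : Finset (Σ c : ℕ, DirichletCharacter ℂ c),
        (∀ j ∈ F, 2 ≤ j.1 ∧ j.1 ≤ Cm ∧ j.2.IsPrimitive) →
        ∑ j ∈ F, ‖Sc n G X j.2‖ ^ 2 ≤ C0 * X ^ 2)
    {C1 : ℝ} (hC1 : 1 ≤ C1) (i : ℕ) (U : Finset ℕ)
    (hU : ∀ c ∈ U, 2 ≤ c ∧ C1 < (c : ℝ) ∧ (c : ℝ) ≤ Real.exp (X / 2) ∧ Nat.log 2 c = i)
    (K : ℕ) (hK : 1 ≤ K) (A : Finset ℕ) (hA : A ⊆ Icc 1 K) :
    ∑ c ∈ U, 1 / (c.totient : ℝ) * ∑ ψ ∈ pc c, ‖Kc A ψ‖ * ‖Sc n G X ψ‖ ≤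
      24 * √C0 * X ^ 2 * ((1 + √(K : ℝ) / C1) * √(A.card : ℝ)) := by
  have hX0 : 0 < X := by linarith
  have hC10 : 0 < C1 := by linarith
  rcases U.eq_empty_or_nonempty with hE | ⟨c0, hc0⟩
  · rw [hE, Finset.sum_empty]
    positivity
  have hlow : ∀ c ∈ U, (2 : ℝ) ^ i ≤ c := by
    intro c hc
    obtain ⟨h2, -, -, hl⟩ := hU c hc
    have := Nat.pow_log_le_self 2 (show c ≠ 0 by omega)
    rw [hl] at this
    exact_mod_cast this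
  have hup : ∀ c ∈ U, c < 2 ^ (i + 1) := by
    intro c hc
    obtain ⟨h2, -, -, hl⟩ := hU c hc
    have := Nat.lt_pow_succ_log_self (b := 2) (by norm_num) c
    rw [hl] at this
    exact this
  have h2i : (0 : ℝ) < 2 ^ i := by positivity
  have hinv : 1 / (2 : ℝ) ^ i ≤ 2 / C1 := by
    have h1 := (hU c0 hc0).2.1
    have h2 : (c0 : ℝ) < 2 ^ (i + 1) := by exact_mod_cast hup c0 hc0
    rw [div_le_div_iff₀ h2i hC10]
    rw [pow_succ] at h2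
    linarith
  have hphi : ∀ c ∈ U, 1 / (c.totient : ℝ) ≤ 2 * X / 2 ^ i := by
    intro c hc
    obtain ⟨h2, -, hexp, -⟩ := hU c hc
    have hc1 : (0 : ℝ) < c := by
      have : 0 < c := by omega
      exact_mod_cast this
    have h3 := phi_low c (by omega)
    have h4 : Real.log c ≤ X / 2 := by
      rw [Real.log_le_iff_le_exp hc1]
      exact hexp
    refine h3.trans ?_
    have h5 := hlow c hc
    rw [div_le_div_iff₀ hc1 h2i]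
    have h6 : 2 + 2 * Real.log c ≤ 2 * X := by linarith
    exact mul_le_mul h6 h5 h2i.le (by positivity)
  set F : Finset (Σ c : ℕ, DirichletCharacter ℂ c) := U.sigma fun c => pc c with hF
  have hFm : ∀ j ∈ F, j.1 ∈ U ∧ j.2 ∈ pc j.1 := fun j hj => Finset.mem_sigma.1 hj
  have hb1 : ∑ c ∈ U, 1 / (c.totient : ℝ) * ∑ ψ ∈ pc c, ‖Kc A ψ‖ * ‖Sc n G X ψ‖ ≤
      2 * X / 2 ^ i * ∑ j ∈ F, ‖Kc A j.2‖ * ‖Sc n G X j.2‖ := by
    rw [hF, Finset.sum_sigma, Finset.mul_sum]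
    refine Finset.sum_le_sum fun c hc => ?_
    apply mul_le_mul_of_nonneg_right (hphi c hc)
    exact Finset.sum_nonneg fun ψ _ => by positivity
  have hb2 : ∑ j ∈ F, ‖Kc A j.2‖ * ‖Sc n G X j.2‖ ≤
      √(∑ j ∈ F, ‖Kc A j.2‖ ^ 2) * √(∑ j ∈ F, ‖Sc n G X j.2‖ ^ 2) :=
    Real.sum_mul_le_sqrt_mul_sqrt _ _ _
  have hb3 := lg_K K hK A hA i F (by
    intro j hj
    obtain ⟨h1, h2⟩ := hFm j hj
    exact ⟨(hU _ h1).1, (hup _ h1).le, (mem_pc.1 h2).2⟩)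
  have hb4 : √(∑ j ∈ F, ‖Sc n G X j.2‖ ^ 2) ≤ √C0 * X := by
    have h1 := hS ⌊Real.exp (X / 2)⌋₊ (Nat.floor_le (Real.exp_pos _).le) F (by
      intro j hj
      obtain ⟨h1, h2⟩ := hFm j hj
      exact ⟨(hU _ h1).1, Nat.le_floor (hU _ h1).2.2.1, (mem_pc.1 h2).2⟩)
    calc √(∑ j ∈ F, ‖Sc n G X j.2‖ ^ 2) ≤ √(C0 * X ^ 2) := Real.sqrt_le_sqrt h1
      _ = √C0 * X := by rw [Real.sqrt_mul hC0.le, Real.sqrt_sq hX0.le]
  have hKs := Real.sqrt_nonneg (K : ℝ)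
  have hAs := Real.sqrt_nonneg (A.card : ℝ)
  have hCs := Real.sqrt_nonneg C0
  calc ∑ c ∈ U, 1 / (c.totient : ℝ) * ∑ ψ ∈ pc c, ‖Kc A ψ‖ * ‖Sc n G X ψ‖
      ≤ 2 * X / 2 ^ i * (((2 * 2 ^ i + 6 * √(K : ℝ)) * √(A.card : ℝ)) * (√C0 * X)) := by
        refine hb1.trans ?_
        apply mul_le_mul_of_nonneg_left _ (by positivity)
        refine hb2.trans ?_
        exact mul_le_mul hb3 hb4 (Real.sqrt_nonneg _) (by positivity)
    _ = √C0 * X ^ 2 * ((4 + 12 * √(K : ℝ) * (1 / 2 ^ i)) * √(A.card : ℝ)) := by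
        field_simp
        ring
    _ ≤ √C0 * X ^ 2 * ((4 + 12 * √(K : ℝ) * (2 / C1)) * √(A.card : ℝ)) := by
        apply mul_le_mul_of_nonneg_left _ (by positivity)
        apply mul_le_mul_of_nonneg_right _ hAs
        have := mul_le_mul_of_nonneg_left hinv (by positivity : 0 ≤ 12 * √(K : ℝ))
        linarith
    _ ≤ √C0 * X ^ 2 * ((24 * (1 + √(K : ℝ) / C1)) * √(A.card : ℝ)) := by
        apply mul_le_mul_of_nonneg_left _ (by positivity)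
        apply mul_le_mul_of_nonneg_right _ hAs
        have e : 12 * √(K : ℝ) * (2 / C1) = 24 * (√(K : ℝ) / C1) := by ring
        rw [e]
        linarith
    _ = 24 * √C0 * X ^ 2 * ((1 + √(K : ℝ) / C1) * √(A.card : ℝ)) := by ring

theorem large_cond (n : ℕ) : ∃ C : ℝ, 0 < C ∧ ∀ (ε : ℝ) (G : ℝ → ℝ), 0 < ε → ε ≤ 1 → IsCut ε G →
    ∀ X : ℝ, 2 ≤ X → ∀ C1 : ℝ, 1 ≤ C1 → ∀ U : Finset ℕ,
      (∀ c ∈ U, 2 ≤ c ∧ C1 < (c : ℝ) ∧ (c : ℝ) ≤ Real.exp (X / 2)) →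
    ∀ K : ℕ, 1 ≤ K → ∀ A : Finset ℕ, A ⊆ Icc 1 K →
      ∑ c ∈ U, 1 / (c.totient : ℝ) * ∑ ψ ∈ pc c, ‖Kc A ψ‖ * ‖Sc n G X ψ‖ ≤
        C * X ^ 4 * (1 + √(K : ℝ) / C1) * √(A.card : ℝ) := by
  obtain ⟨C0, hC0, hS⟩ := sum_Sc_sq n
  refine ⟨48 * √C0, by positivity, ?_⟩
  intro ε G hε hε1 hG X hX C1 hC1 U hU K hK A hA
  have hX0 : 0 < X := by linarith
  have hC10 : 0 < C1 := by linarith
  have hmaps : ∀ c ∈ U, Nat.log 2 c ∈ range (⌊X⌋₊ + 1) := by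
    intro c hc
    obtain ⟨h2, -, hexp⟩ := hU c hc
    rw [Finset.mem_range, Nat.lt_succ_iff]
    apply Nat.le_floor
    have h3 : ((2 ^ Nat.log 2 c : ℕ) : ℝ) ≤ c := by
      exact_mod_cast Nat.pow_log_le_self 2 (show c ≠ 0 by omega)
    have h4 : ((2 : ℝ) ^ Nat.log 2 c) ≤ Real.exp (X / 2) := by
      push_cast at h3
      linarith
    have h5 := Real.log_le_log (by positivity) h4
    rw [Real.log_pow, Real.log_exp] at h5
    have h6 := Real.log_two_gt_d9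
    have h7 : (0 : ℝ) ≤ (Nat.log 2 c : ℝ) := by positivity
    nlinarith
  rw [← Finset.sum_fiberwise_of_maps_to hmaps]
  calc ∑ i ∈ range (⌊X⌋₊ + 1), ∑ c ∈ U with Nat.log 2 c = i,
        1 / (c.totient : ℝ) * ∑ ψ ∈ pc c, ‖Kc A ψ‖ * ‖Sc n G X ψ‖
      ≤ ∑ i ∈ range (⌊X⌋₊ + 1), 24 * √C0 * X ^ 2 *
          ((1 + √(K : ℝ) / C1) * √(A.card : ℝ)) := by
        refine Finset.sum_le_sum fun i _ => ?_
        apply lg_block hC0 hX (hS ε G hε hε1 hG X hX) hC1 i _ _ K hK A hA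
        intro c hc
        rw [Finset.mem_filter] at hc
        obtain ⟨h1, h2, h3⟩ := hU c hc.1
        exact ⟨h1, h2, h3, hc.2⟩
    _ = ((⌊X⌋₊ + 1 : ℕ) : ℝ) * (24 * √C0 * X ^ 2 *
          ((1 + √(K : ℝ) / C1) * √(A.card : ℝ))) := by
        rw [Finset.sum_const, Finset.card_range, nsmul_eq_mul]
    _ ≤ (2 * X ^ 2) * (24 * √C0 * X ^ 2 * ((1 + √(K : ℝ) / C1) * √(A.card : ℝ))) := by
        apply mul_le_mul_of_nonneg_right _ (by positivity)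
        have := Nat.floor_le hX0.le
        push_cast
        nlinarith
    _ = 48 * √C0 * X ^ 4 * (1 + √(K : ℝ) / C1) * √(A.card : ℝ) := by ring

end Pool.Agent.ERB
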