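import Pool.Agent.ERB.ErrS
import Pool.Agent.ERB.Lg

/-!
# ERB / Tot: the total error

`err_sum`; for fixed `D2` write `A2` for the filtered set (`⊆ A`).  The products `c = ∏ D1` are
distinct squarefree numbers, `2 ≤ c ≤ L`.
(i) `c ≤ X^a`: `‖Sc ψ‖ ≤ X^(-n)` (hypothesis), `‖Kc‖ ≤ |A|`, `#(pc c) ≤ φ(c)`
(`DirichletCharacter.card_eq_totient_of_hasEnoughRootsOfUnity`): the sum is `≤ X^a |A|/X^n ≤ |A|/X^20`.
(ii) `c > X^a`: only if `L > X^a`; `large_cond` with `C1 = X^a`, `K`: `≤ C X^4 (1 + √K/X^a) √|A|`.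
Sum over `D2`: the factor `∑ 1/φ(∏ D2) ≤ C log z ≤ C X` (`tot_sum`; for `P = ∅` the left side is `0`).
-/

set_option autoImplicit false

namespace Pool.Agent.ERB

open Finset

private theorem card_pc (c : ℕ) (hc : c ≠ 0) : (pc c).card ≤ c.totient := by
  classical
  have : NeZero c := ⟨hc⟩
  unfold pc
  rw [dif_neg hc]
  refine (card_filter_le _ _).trans (le_of_eq ?_)
  rw [card_univ, ← Nat.card_eq_fintype_card]
  exact DirichletCharacter.card_eq_totient_of_hasEnoughRootsOfUnity ℂ c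

private theorem norm_Kc_le (A : Finset ℕ) {c : ℕ} (ψ : DirichletCharacter ℂ c) :
    ‖Kc A ψ‖ ≤ (A.card : ℝ) := by
  unfold Kc
  refine (norm_sum_le _ _).trans ?_
  calc ∑ k ∈ A, ‖ψ (k : ZMod c)‖ ≤ ∑ _k ∈ A, (1 : ℝ) :=
        sum_le_sum fun k _ => DirichletCharacter.norm_le_one ψ _
    _ = (A.card : ℝ) := by simp

private theorem prod_inj {P : Finset ℕ} (hP : ∀ r ∈ P, r.Prime) :
    Set.InjOn (fun D : Finset ℕ => ∏ r ∈ D, r) {D | D ⊆ P} := by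
  intro D hD D' hD' h
  have h1 := Nat.primeFactors_prod (s := D) fun p hp => hP p (hD hp)
  have h2 := Nat.primeFactors_prod (s := D') fun p hp => hP p (hD' hp)
  rw [← h1, ← h2]
  exact congrArg Nat.primeFactors h

private theorem inner (n a : ℕ) (hn : a + 20 ≤ n) (CL : ℝ) (G : ℝ → ℝ)
    (X : ℝ) (hX : 2 ≤ X)
    (hlarge : ∀ C1 : ℝ, 1 ≤ C1 → ∀ U : Finset ℕ,
      (∀ c ∈ U, 2 ≤ c ∧ C1 < (c : ℝ) ∧ (c : ℝ) ≤ Real.exp (X / 2)) →
      ∀ K : ℕ, 1 ≤ K → ∀ A : Finset ℕ, A ⊆ Icc 1 K →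
      ∑ c ∈ U, 1 / (c.totient : ℝ) * ∑ ψ ∈ pc c, ‖Kc A ψ‖ * ‖Sc n G X ψ‖ ≤
        CL * X ^ 4 * (1 + √(K : ℝ) / C1) * √(A.card : ℝ))
    (P : Finset ℕ) (hP : ∀ r ∈ P, r.Prime) (L : ℝ) (hL2 : L ≤ Real.exp (X / 2))
    (hsmall : ∀ D ⊆ P, D.Nonempty → ((∏ r ∈ D, r : ℕ) : ℝ) ≤ X ^ a → ∀ ψ ∈ pc (∏ r ∈ D, r),
      ‖Sc n G X ψ‖ ≤ 1 / X ^ n)
    (K : ℕ) (hK : 1 ≤ K) (A : Finset ℕ) (hA : A ⊆ Icc 1 K) :
    ∑ D1 ∈ P.powerset.filter (fun D => D.Nonempty ∧ ((∏ r ∈ D, r : ℕ) : ℝ) ≤ L),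
      1 / ((∏ r ∈ D1, r).totient : ℝ) * ∑ ψ ∈ pc (∏ r ∈ D1, r), ‖Kc A ψ‖ * ‖Sc n G X ψ‖ ≤
    (A.card : ℝ) / X ^ 20 + if L ≤ X ^ a then 0 else
      CL * X ^ 4 * (1 + √(K : ℝ) / X ^ a) * √(A.card : ℝ) := by
  classical
  have hX0 : 0 < X := by linarith
  have hX1 : 1 ≤ X := by linarith
  set S := P.powerset.filter (fun D => D.Nonempty ∧ ((∏ r ∈ D, r : ℕ) : ℝ) ≤ L) with hS
  have hSP : ∀ D ∈ S, D ⊆ P := fun D hD => mem_powerset.1 (mem_filter.1 hD).1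
  have hprod1 : ∀ D ∈ S, 1 ≤ ∏ r ∈ D, r := fun D hD =>
    Nat.succ_le_of_lt (Finset.prod_pos fun r hr => (hP r (hSP D hD hr)).pos)
  rw [← sum_filter_add_sum_filter_not S (fun D => ((∏ r ∈ D, r : ℕ) : ℝ) ≤ X ^ a)]
  refine add_le_add ?_ ?_
  · have h1 : ∀ D ∈ S.filter (fun D => ((∏ r ∈ D, r : ℕ) : ℝ) ≤ X ^ a),
        1 / ((∏ r ∈ D, r).totient : ℝ) * ∑ ψ ∈ pc (∏ r ∈ D, r), ‖Kc A ψ‖ * ‖Sc n G X ψ‖ ≤
        (A.card : ℝ) / X ^ n := by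
      intro D hD
      obtain ⟨hDS, hDX⟩ := mem_filter.1 hD
      have hc1 := hprod1 D hDS
      have hφ : 0 < ((∏ r ∈ D, r).totient : ℝ) := by
        exact_mod_cast Nat.totient_pos.2 (by omega)
      have h2 : ∑ ψ ∈ pc (∏ r ∈ D, r), ‖Kc A ψ‖ * ‖Sc n G X ψ‖ ≤
          ((∏ r ∈ D, r).totient : ℝ) * ((A.card : ℝ) / X ^ n) := by
        calc ∑ ψ ∈ pc (∏ r ∈ D, r), ‖Kc A ψ‖ * ‖Sc n G X ψ‖ ≤
              ∑ _ψ ∈ pc (∏ r ∈ D, r), (A.card : ℝ) / X ^ n := by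
              refine sum_le_sum fun ψ hψ => ?_
              rw [div_eq_mul_one_div]
              exact mul_le_mul (norm_Kc_le A ψ)
                (hsmall D (hSP D hDS) (mem_filter.1 hDS).2.1 hDX ψ hψ) (norm_nonneg _)
                (Nat.cast_nonneg _)
          _ = ((pc (∏ r ∈ D, r)).card : ℝ) * ((A.card : ℝ) / X ^ n) := by
              rw [sum_const, nsmul_eq_mul]
          _ ≤ _ := by
              refine mul_le_mul_of_nonneg_right ?_ (by positivity)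
              exact_mod_cast card_pc _ (by omega)
      rw [one_div, inv_mul_le_iff₀ hφ]
      exact h2
    have h2 : ((S.filter (fun D => ((∏ r ∈ D, r : ℕ) : ℝ) ≤ X ^ a)).card : ℝ) ≤ X ^ a := by
      have h3 : (S.filter (fun D => ((∏ r ∈ D, r : ℕ) : ℝ) ≤ X ^ a)).card ≤
          (Icc 1 ⌊X ^ a⌋₊).card := by
        refine card_le_card_of_injOn (fun D : Finset ℕ => ∏ r ∈ D, r) ?_ ?_
        · intro D hD
          obtain ⟨hDS, hDX⟩ := mem_filter.1 hD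
          exact mem_coe.2 (mem_Icc.2 ⟨hprod1 D hDS, Nat.le_floor hDX⟩)
        · intro D hD D' hD' h
          exact prod_inj hP (hSP D (mem_filter.1 hD).1) (hSP D' (mem_filter.1 hD').1) h
      rw [Nat.card_Icc, Nat.add_sub_cancel] at h3
      calc ((S.filter (fun D => ((∏ r ∈ D, r : ℕ) : ℝ) ≤ X ^ a)).card : ℝ) ≤
            (⌊X ^ a⌋₊ : ℝ) := by exact_mod_cast h3
        _ ≤ X ^ a := Nat.floor_le (by positivity)
    calc _ ≤ ∑ _D ∈ S.filter (fun D => ((∏ r ∈ D, r : ℕ) : ℝ) ≤ X ^ a), (A.card : ℝ) / X ^ n :=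
          sum_le_sum h1
      _ = ((S.filter (fun D => ((∏ r ∈ D, r : ℕ) : ℝ) ≤ X ^ a)).card : ℝ) *
          ((A.card : ℝ) / X ^ n) := by rw [sum_const, nsmul_eq_mul]
      _ ≤ X ^ a * ((A.card : ℝ) / X ^ n) := mul_le_mul_of_nonneg_right h2 (by positivity)
      _ ≤ (A.card : ℝ) / X ^ 20 := by
          rw [← mul_div_assoc, div_le_div_iff₀ (by positivity) (by positivity)]
          have h4 : X ^ a * X ^ 20 ≤ X ^ n := by
            rw [← pow_add]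
            exact pow_le_pow_right₀ hX1 hn
          calc X ^ a * (A.card : ℝ) * X ^ 20 = (A.card : ℝ) * (X ^ a * X ^ 20) := by ring
            _ ≤ (A.card : ℝ) * X ^ n := mul_le_mul_of_nonneg_left h4 (Nat.cast_nonneg _)
  · split_ifs with hLX
    · refine le_of_eq (sum_eq_zero fun D hD => ?_)
      obtain ⟨hDS, hDX⟩ := mem_filter.1 hD
      exact absurd ((mem_filter.1 hDS).2.2.trans hLX) hDX
    · have hinj : Set.InjOn (fun D : Finset ℕ => ∏ r ∈ D, r)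
          (S.filter (fun D => ¬ ((∏ r ∈ D, r : ℕ) : ℝ) ≤ X ^ a) : Set (Finset ℕ)) := by
        intro D hD D' hD' h
        exact prod_inj hP (hSP D (mem_filter.1 (mem_coe.1 hD)).1)
          (hSP D' (mem_filter.1 (mem_coe.1 hD')).1) h
      have h1 := hlarge (X ^ a) (one_le_pow₀ hX1)
        ((S.filter (fun D => ¬ ((∏ r ∈ D, r : ℕ) : ℝ) ≤ X ^ a)).image
          (fun D : Finset ℕ => ∏ r ∈ D, r)) (by
          intro c hc
          obtain ⟨D, hD, rfl⟩ := mem_image.1 hc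
          obtain ⟨hDS, hDX⟩ := mem_filter.1 hD
          refine ⟨?_, not_le.1 hDX, (mem_filter.1 hDS).2.2.trans hL2⟩
          obtain ⟨r, hr⟩ := (mem_filter.1 hDS).2.1
          have h2 : r ≤ ∏ r ∈ D, r :=
            Nat.le_of_dvd (hprod1 D hDS) (dvd_prod_of_mem (fun r => r) hr)
          exact (hP r (hSP D hDS hr)).two_le.trans h2) K hK A hA
      rw [sum_image hinj] at h1
      exact h1

theorem tot_err (n a : ℕ) (hn : a + 20 ≤ n) : ∃ C : ℝ, 0 < C ∧ ∀ (ε : ℝ) (G : ℝ → ℝ), 0 < ε →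
    ε ≤ 1 → IsCut ε G → ∀ X : ℝ, 2 ≤ X → ∀ (m : ℤ) (κ : ℕ), (κ = 1 ∨ κ = 2) →
    ∀ P : Finset ℕ, (∀ r ∈ P, r.Prime ∧ 3 ≤ r ∧ (r : ℝ) ≤ Real.exp X ∧ ¬ (r : ℤ) ∣ m) →
    ∀ L : ℝ, 1 ≤ L → L ≤ Real.exp (X / 2) →
    (∀ D ⊆ P, D.Nonempty → ((∏ r ∈ D, r : ℕ) : ℝ) ≤ X ^ a → ∀ ψ ∈ pc (∏ r ∈ D, r),
      ‖Sc n G X ψ‖ ≤ 1 / X ^ n) →
    ∀ K : ℕ, 1 ≤ K → ∀ A : Finset ℕ, A ⊆ Icc 1 K →
      ∑ D ∈ P.powerset.filter (fun D => D.Nonempty ∧ ((∏ r ∈ D, r : ℕ) : ℝ) ≤ L),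
        Err n G X m κ A D ≤
      C * ((A.card : ℝ) / X ^ 10 +
        if L ≤ X ^ a then 0 else X ^ 6 * (1 + √(K : ℝ) / X ^ a) * √(A.card : ℝ)) := by
  classical
  obtain ⟨CL, hCL, hlarge⟩ := large_cond n
  obtain ⟨CT, hCT, htot⟩ := tot_sum
  refine ⟨CT * (1 + CL), by positivity, ?_⟩
  intro ε G hε hε1 hG X hX m κ hκ P hP L hL1 hL2 hsmall K hK A hA
  have hX0 : 0 < X := by linarith
  have hX1 : 1 ≤ X := by linarith
  refine (err_sum n G X ε hX0 hε hG m κ hκ A P L hP).trans ?_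
  obtain ⟨B, hB⟩ : ∃ B, B = (A.card : ℝ) / X ^ 20 + if L ≤ X ^ a then 0 else
      CL * X ^ 4 * (1 + √(K : ℝ) / X ^ a) * √(A.card : ℝ) := ⟨_, rfl⟩
  have h1 : ∀ D2 ∈ P.powerset, 1 / ((∏ r ∈ D2, r).totient : ℝ) *
      ∑ D1 ∈ P.powerset.filter (fun D => D.Nonempty ∧ ((∏ r ∈ D, r : ℕ) : ℝ) ≤ L),
        1 / ((∏ r ∈ D1, r).totient : ℝ) * ∑ ψ ∈ pc (∏ r ∈ D1, r),
          ‖Kc (A.filter (fun k => ∀ r ∈ D2, ¬ r ∣ k)) ψ‖ * ‖Sc n G X ψ‖ ≤
      1 / ((∏ r ∈ D2, r).totient : ℝ) * B := by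
    intro D2 _
    refine mul_le_mul_of_nonneg_left ?_ (by positivity)
    have hsub : A.filter (fun k => ∀ r ∈ D2, ¬ r ∣ k) ⊆ A := filter_subset _ _
    refine (inner n a hn CL G X hX (fun C1 hC1 U hU K hK A hA =>
      hlarge ε G hε hε1 hG X hX C1 hC1 U hU K hK A hA) P (fun r hr => (hP r hr).1) L hL2
      hsmall K hK _ (hsub.trans hA)).trans ?_
    rw [hB]
    have hcard : ((A.filter (fun k => ∀ r ∈ D2, ¬ r ∣ k)).card : ℝ) ≤ (A.card : ℝ) := by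
      exact_mod_cast card_le_card hsub
    refine add_le_add (div_le_div_of_nonneg_right hcard (by positivity)) ?_
    split_ifs with h
    · exact le_rfl
    · exact mul_le_mul_of_nonneg_left (Real.sqrt_le_sqrt hcard) (by positivity)
  refine (sum_le_sum h1).trans ?_
  rw [← sum_mul]
  have hz : (2 : ℕ) ≤ ⌊Real.exp X⌋₊ := by
    apply Nat.le_floor
    have := Real.add_one_le_exp X
    push_cast
    linarith
  have h2 : ∑ D ∈ P.powerset, 1 / ((∏ r ∈ D, r).totient : ℝ) ≤ CT * X := by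
    refine (htot ⌊Real.exp X⌋₊ hz P fun r hr =>
      ⟨(hP r hr).1, Nat.le_floor (hP r hr).2.2.1⟩).trans ?_
    refine mul_le_mul_of_nonneg_left ?_ hCT.le
    have h3 : (0 : ℝ) < (⌊Real.exp X⌋₊ : ℝ) := by exact_mod_cast (by omega : 0 < ⌊Real.exp X⌋₊)
    have h4 := Real.log_le_log h3 (Nat.floor_le (Real.exp_pos X).le)
    rwa [Real.log_exp] at h4
  have hB0 : 0 ≤ B := by
    rw [hB]
    split_ifs <;> positivity
  refine (mul_le_mul_of_nonneg_right h2 hB0).trans ?_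
  rw [hB, mul_add (CT * X), mul_add (CT * (1 + CL))]
  have e1 : CT * X * ((A.card : ℝ) / X ^ 20) ≤ CT * (1 + CL) * ((A.card : ℝ) / X ^ 10) := by
    have h3 : X * ((A.card : ℝ) / X ^ 20) ≤ (A.card : ℝ) / X ^ 10 := by
      rw [← mul_div_assoc, div_le_div_iff₀ (by positivity) (by positivity)]
      have h5 : X * X ^ 10 ≤ X ^ 20 := by
        rw [← pow_succ']
        exact pow_le_pow_right₀ hX1 (by norm_num)
      calc X * (A.card : ℝ) * X ^ 10 = (A.card : ℝ) * (X * X ^ 10) := by ring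
        _ ≤ (A.card : ℝ) * X ^ 20 := mul_le_mul_of_nonneg_left h5 (Nat.cast_nonneg _)
    have h4 : 0 ≤ (A.card : ℝ) / X ^ 10 := by positivity
    calc CT * X * ((A.card : ℝ) / X ^ 20) = CT * (X * ((A.card : ℝ) / X ^ 20)) := by ring
      _ ≤ CT * ((A.card : ℝ) / X ^ 10) := mul_le_mul_of_nonneg_left h3 hCT.le
      _ ≤ CT * (1 + CL) * ((A.card : ℝ) / X ^ 10) := by
          refine mul_le_mul_of_nonneg_right ?_ h4
          nlinarith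
  refine add_le_add e1 ?_
  split_ifs with h
  · simp
  · obtain ⟨Y, hY⟩ : ∃ Y, Y = (1 + √(K : ℝ) / X ^ a) * √(A.card : ℝ) := ⟨_, rfl⟩
    have hY0 : 0 ≤ Y := by rw [hY]; positivity
    have e2 : CT * X * (CL * X ^ 4 * (1 + √(K : ℝ) / X ^ a) * √(A.card : ℝ)) =
        CT * CL * (X ^ 5 * Y) := by
      rw [hY]
      ring
    have e3 : CT * (1 + CL) * (X ^ 6 * (1 + √(K : ℝ) / X ^ a) * √(A.card : ℝ)) =
        CT * (1 + CL) * (X ^ 6 * Y) := by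
      rw [hY]
      ring
    rw [e2, e3]
    have h5 : X ^ 5 * Y ≤ X ^ 6 * Y :=
      mul_le_mul_of_nonneg_right (pow_le_pow_right₀ hX1 (by norm_num)) hY0
    have h6 : 0 ≤ X ^ 6 * Y := by positivity
    calc CT * CL * (X ^ 5 * Y) ≤ CT * CL * (X ^ 6 * Y) :=
          mul_le_mul_of_nonneg_left h5 (by positivity)
      _ ≤ CT * (1 + CL) * (X ^ 6 * Y) := by
          refine mul_le_mul_of_nonneg_right ?_ h6
          nlinarith

end Pool.Agent.ERB
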