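import Pool.Agent.ERB.Defs

/-!
# ERB / Wb: basic facts about the weights
-/

set_option autoImplicit false

namespace Pool.Agent.ERB

open Real

theorem wt_nonneg {ε : ℝ} {G : ℝ → ℝ} (hG : IsCut ε G) (n : ℕ) {X : ℝ} (hX : 0 < X) (q : ℕ) :
    0 ≤ wt n G X q := by
  unfold wt vt
  have h1 : 0 ≤ Real.log q := Real.log_natCast_nonneg q
  have := hG.nonneg (Real.log q / X)
  positivity

/-- Support of the weights. -/
theorem wt_supp {ε : ℝ} {G : ℝ → ℝ} (hG : IsCut ε G) (n : ℕ) {X : ℝ} (hX : 0 < X) {q : ℕ}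
    (h : wt n G X q ≠ 0) :
    Real.exp ((1 + 5 * ε / 8) * X) < q ∧ (q : ℝ) < Real.exp ((1 + 7 * ε / 8) * X) := by
  have hg : G (Real.log q / X) ≠ 0 := by
    intro h0
    apply h
    unfold wt vt
    rw [h0]
    ring
  have h1 : ¬ (Real.log q / X ≤ 1 + 5 * ε / 8 ∨ 1 + 7 * ε / 8 ≤ Real.log q / X) := fun h' =>
    hg (hG.zero _ h')
  push Not at h1
  have hq : (0 : ℝ) < q := by
    rcases Nat.eq_zero_or_pos q with h0 | h0
    · exfalso
      apply h
      unfold wt
      rw [h0]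
      simp
    · exact_mod_cast h0
  constructor
  · rw [← Real.lt_log_iff_exp_lt hq]
    exact (lt_div_iff₀ hX).1 h1.1
  · rw [← Real.log_lt_iff_lt_exp hq]
    exact (div_lt_iff₀ hX).1 h1.2

theorem wt_le {ε : ℝ} {G : ℝ → ℝ} (hG : IsCut ε G) (hε : ε ≤ 1) (n : ℕ) {X : ℝ} (hX : 0 < X)
    (q : ℕ) (hq : 1 ≤ q) : wt n G X q ≤ 2 ^ (n + 1) / q := by
  have hqR : (1 : ℝ) ≤ q := by exact_mod_cast hq
  by_cases h : G (Real.log q / X) = 0
  · unfold wt vt
    rw [h]
    simp only [mul_zero]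
    positivity
  · have h1 : Real.log q / X < 1 + 7 * ε / 8 := by
      by_contra h'
      push Not at h'
      exact h (hG.zero _ (Or.inr h'))
    have h2 : Real.log q / X ≤ 2 := by linarith
    have h0 : 0 ≤ Real.log q := Real.log_nonneg hqR
    have h3 : 0 ≤ Real.log q / X := by positivity
    have h4 : (q : ℝ) ^ (-1 - 1 / X : ℝ) ≤ 1 / q := by
      have h5 : (q : ℝ) ^ (-1 - 1 / X : ℝ) ≤ (q : ℝ) ^ (-1 : ℝ) := by
        apply Real.rpow_le_rpow_of_exponent_le hqR
        have : 0 < 1 / X := by positivity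
        linarith
      rw [Real.rpow_neg_one, ← one_div] at h5
      exact h5
    unfold wt vt
    have h6 := hG.le_one (Real.log q / X)
    have h7 := hG.nonneg (Real.log q / X)
    have h8 : (Real.log q / X) ^ n ≤ 2 ^ n := pow_le_pow_left₀ h3 h2 n
    have h9 : 0 ≤ (q : ℝ) ^ (-1 - 1 / X : ℝ) := by positivity
    calc Real.log q / X * ((q : ℝ) ^ (-1 - 1 / X : ℝ) * (Real.log q / X) ^ n *
          G (Real.log q / X)) ≤ 2 * (1 / q * 2 ^ n * 1) := by gcongr
      _ = 2 ^ (n + 1) / q := by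
        rw [pow_succ]
        ring

end Pool.Agent.ERB
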