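import Pool.Agent.ERB.UpN
import Pool.Agent.ERB.Wb

/-!
# ERB / UpW: the upper bound with weights

Split the `q` with `wt q ≠ 0` (so `e^((1+5ε/8)X) < q < e^((1+7ε/8)X)`, `wt_supp`) into dyadic parts
`N < q ≤ 2N`, `N = 2^i`; then `N ≥ e^((1+5ε/8)X)/2`, `N ≤ e^(2X)`, and there are at most
`(ε X/4)/log 2 + 2 ≤ ε X` values of `i` (large `X`).  On such a part `wt q ≤ 2^(n+1)/N` (`wt_le`), so by
`up_count` it contributes `≤ 2^(n+1)/N * C N/(p ε X) * VV P k`.
-/

set_option autoImplicit false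

namespace Pool.Agent.ERB

open Finset

private lemma two_pow_eq (i : ℕ) : ((2 ^ i : ℕ) : ℝ) = Real.exp (i * Real.log 2) := by
  rw [mul_comm, ← Real.rpow_def_of_pos (by norm_num), Real.rpow_natCast]
  push_cast
  rfl

open scoped Classical in
theorem up_weight (n : ℕ) : ∃ C : ℝ, 0 < C ∧ ∀ ε : ℝ, 0 < ε → ε ≤ 1 → ∃ X0 : ℝ, ∀ X : ℝ,
    X0 ≤ X → ∀ G : ℝ → ℝ, IsCut ε G →
    ∀ (m : ℤ) (κ k : ℕ) (P : Finset ℕ) (p : ℕ), (κ = 1 ∨ κ = 2) → 1 ≤ k →
    (∀ r ∈ P, r.Prime ∧ 3 ≤ r ∧ (r : ℝ) ≤ Real.exp (ε * X / 100) ∧ ¬ (r : ℤ) ∣ m) →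
    p.Prime → 3 ≤ p → (p : ℝ) ≤ Real.exp X → p ∉ P → ¬ (p : ℤ) ∣ m →
      ∑ q ∈ QQ X, (if (p : ℤ) ∣ m + κ * k * q ∧ ∀ r ∈ P, ¬ (r : ℤ) ∣ m + κ * k * q then
        wt n G X q else 0) ≤ C / p * VV P k := by
  obtain ⟨C, hC, hup⟩ := up_count
  refine ⟨C * 2 ^ (n + 1), by positivity, fun ε hε hε1 => ?_⟩
  obtain ⟨X1, hX1⟩ := hup ε hε hε1
  refine ⟨max X1 (4 / ε), fun X hX G hG m κ k P p hκ hk hP hp hp3 hpX hpP hpm => ?_⟩
  have hXX1 : X1 ≤ X := (le_max_left _ _).trans hX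
  have hX4 : 4 / ε ≤ X := (le_max_right _ _).trans hX
  have hX0 : 0 < X := lt_of_lt_of_le (by positivity) hX4
  have hεX : 4 ≤ ε * X := by
    rw [div_le_iff₀ hε] at hX4
    linarith
  have hV : 0 ≤ VV P k := (VV_pos P (fun r hr => (hP r hr).2.1) k).1.le
  have hl2 : 0 < Real.log 2 := Real.log_pos (by norm_num)
  have hl2' := Real.log_two_gt_d9
  have hp0 : (0 : ℝ) < p := by exact_mod_cast hp.pos
  set x := (1 + 5 * ε / 8) * X / Real.log 2 with hx
  set y := (1 + 7 * ε / 8) * X / Real.log 2 with hy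
  have hxl : x * Real.log 2 = (1 + 5 * ε / 8) * X := by rw [hx]; field_simp
  have hyl : y * Real.log 2 = (1 + 7 * ε / 8) * X := by rw [hy]; field_simp
  have hx0 : 0 ≤ x := by rw [hx]; positivity
  have hy0 : 0 ≤ y := by rw [hy]; positivity
  have hxy : x ≤ y := by
    have : x * Real.log 2 ≤ y * Real.log 2 := by
      rw [hxl, hyl]; nlinarith
    exact le_of_mul_le_mul_right this hl2
  have hyx : y - x + 2 ≤ ε * X := by
    have h1 : (y - x) * Real.log 2 = ε * X / 4 := by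
      rw [sub_mul, hxl, hyl]; ring
    have h2 : 0 ≤ y - x := by linarith
    nlinarith
  set I := Icc ⌊x⌋₊ ⌊y⌋₊ with hI
  have hcard : (I.card : ℝ) ≤ ε * X := by
    rw [hI, Nat.card_Icc]
    have h1 : ⌊x⌋₊ ≤ ⌊y⌋₊ := Nat.floor_le_floor hxy
    rw [Nat.cast_sub (by omega)]
    push_cast
    have h2 := Nat.floor_le hy0
    have h3 := Nat.lt_floor_add_one x
    linarith
  have hIa : ∀ i ∈ I, Real.exp ((1 + 5 * ε / 8) * X) / 2 ≤ ((2 ^ i : ℕ) : ℝ) := by
    intro i hi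
    have h1 : ⌊x⌋₊ ≤ i := (mem_Icc.1 hi).1
    have h2 : x < i + 1 := lt_of_lt_of_le (Nat.lt_floor_add_one x) (by
      have : (⌊x⌋₊ : ℝ) ≤ i := by exact_mod_cast h1
      linarith)
    have h3 : Real.exp ((1 + 5 * ε / 8) * X) ≤ ((2 ^ (i + 1) : ℕ) : ℝ) := by
      rw [two_pow_eq, ← hxl]
      push_cast
      exact Real.exp_le_exp.2 (mul_le_mul_of_nonneg_right h2.le hl2.le)
    rw [pow_succ] at h3
    push_cast at h3 ⊢
    linarith
  have hIb : ∀ i ∈ I, ((2 ^ i : ℕ) : ℝ) ≤ Real.exp (2 * X) := by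
    intro i hi
    have h1 : i ≤ ⌊y⌋₊ := (mem_Icc.1 hi).2
    have h2 : (i : ℝ) ≤ y := (Nat.le_floor_iff hy0).1 h1
    rw [two_pow_eq]
    refine Real.exp_le_exp.2 ?_
    have h3 : (i : ℝ) * Real.log 2 ≤ y * Real.log 2 := mul_le_mul_of_nonneg_right h2 hl2.le
    rw [hyl] at h3
    nlinarith
  set S : ℕ → Finset ℕ := fun i => (Ioc (2 ^ i) (2 * 2 ^ i)).filter (fun q : ℕ => q.Prime ∧
    (p : ℤ) ∣ m + κ * k * q ∧ ∀ r ∈ P, ¬ (r : ℤ) ∣ m + κ * k * q) with hS
  have hpt : ∀ q ∈ QQ X, (if (p : ℤ) ∣ m + κ * k * q ∧ ∀ r ∈ P, ¬ (r : ℤ) ∣ m + κ * k * q then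
        wt n G X q else 0) ≤ ∑ i ∈ I, if q ∈ S i then wt n G X q else 0 := by
    intro q hq
    have hqp : q.Prime := (mem_filter.1 hq).2
    have hnn : ∀ i ∈ I, 0 ≤ (if q ∈ S i then wt n G X q else 0) := by
      intro i _
      split_ifs
      · exact wt_nonneg hG n hX0 q
      · exact le_rfl
    by_cases hc : (p : ℤ) ∣ m + κ * k * q ∧ ∀ r ∈ P, ¬ (r : ℤ) ∣ m + κ * k * q
    · rw [if_pos hc]
      by_cases hw : wt n G X q = 0
      · rw [hw]
        rw [hw] at hnn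
        exact sum_nonneg hnn
      · obtain ⟨hs1, hs2⟩ := wt_supp hG n hX0 hw
        have hq2 : 2 ≤ q := hqp.two_le
        have hlog1 : 2 ^ Nat.log 2 (q - 1) ≤ q - 1 := Nat.pow_log_le_self 2 (by omega)
        have hlog2 : q - 1 < 2 ^ (Nat.log 2 (q - 1) + 1) := Nat.lt_pow_succ_log_self (by norm_num) _
        set i := Nat.log 2 (q - 1) with hi
        have h1 : 2 ^ i < q := by omega
        have h2 : q ≤ 2 ^ (i + 1) := by omega
        have h1R : ((2 ^ i : ℕ) : ℝ) < q := by exact_mod_cast h1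
        have h2R : (q : ℝ) ≤ ((2 ^ (i + 1) : ℕ) : ℝ) := by exact_mod_cast h2
        have hiI : i ∈ I := by
          rw [hI, mem_Icc]
          constructor
          · have h3 := hs1.trans_le h2R
            rw [two_pow_eq, Real.exp_lt_exp, ← hxl] at h3
            have h4 : x < ((i + 1 : ℕ) : ℝ) := lt_of_mul_lt_mul_right h3 hl2.le
            have h5 : ⌊x⌋₊ < i + 1 := (Nat.floor_lt hx0).2 h4
            omega
          · have h3 := h1R.trans hs2
            rw [two_pow_eq, Real.exp_lt_exp, ← hyl] at h3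
            have h4 : (i : ℝ) < y := lt_of_mul_lt_mul_right h3 hl2.le
            exact Nat.le_floor h4.le
        have hqS : q ∈ S i := by
          rw [hS]
          dsimp only
          rw [mem_filter, mem_Ioc]
          exact ⟨⟨h1, by rw [pow_succ] at h2; omega⟩, hqp, hc⟩
        have := single_le_sum (f := fun i => if q ∈ S i then wt n G X q else 0) hnn hiI
        simp only [if_pos hqS] at this
        exact this
    · rw [if_neg hc]
      exact sum_nonneg hnn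
  calc ∑ q ∈ QQ X, (if (p : ℤ) ∣ m + κ * k * q ∧ ∀ r ∈ P, ¬ (r : ℤ) ∣ m + κ * k * q then
        wt n G X q else 0) ≤ ∑ q ∈ QQ X, ∑ i ∈ I, (if q ∈ S i then wt n G X q else 0) :=
        sum_le_sum hpt
    _ = ∑ i ∈ I, ∑ q ∈ QQ X, (if q ∈ S i then wt n G X q else 0) := sum_comm
    _ ≤ ∑ i ∈ I, C * 2 ^ (n + 1) / p * VV P k / (ε * X) := by
        refine sum_le_sum fun i hi => ?_
        have hN0 : (0 : ℝ) < ((2 ^ i : ℕ) : ℝ) := by positivity
        have h1 : ∑ q ∈ QQ X, (if q ∈ S i then wt n G X q else 0) ≤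
            ∑ q ∈ S i, 2 ^ (n + 1) / ((2 ^ i : ℕ) : ℝ) := by
          rw [← sum_filter]
          have h2 : (QQ X).filter (fun q => q ∈ S i) ⊆ S i := fun q hq => (mem_filter.1 hq).2
          refine le_trans (sum_le_sum (g := fun q => 2 ^ (n + 1) / ((2 ^ i : ℕ) : ℝ))
            fun q hq => ?_) (sum_le_sum_of_subset_of_nonneg h2 fun q _ _ => by positivity)
          have h3 : q ∈ S i := h2 hq
          have h4 : 2 ^ i < q := (mem_Ioc.1 (mem_filter.1 h3).1).1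
          have h5 := wt_le hG hε1 n hX0 q (Nat.zero_lt_of_lt h4)
          refine h5.trans ?_
          exact div_le_div_of_nonneg_left (by positivity) hN0 (by exact_mod_cast h4.le)
        rw [sum_const, nsmul_eq_mul] at h1
        have h2 : ((S i).card : ℝ) ≤ C * ((2 ^ i : ℕ) : ℝ) / (p * (ε * X)) * VV P k :=
          hX1 X hXX1 (2 ^ i) (hIa i hi) (hIb i hi) m κ k P p hκ hk hP hp hp3 hpX hpP hpm
        refine h1.trans ?_
        calc ((S i).card : ℝ) * (2 ^ (n + 1) / ((2 ^ i : ℕ) : ℝ))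
            ≤ (C * ((2 ^ i : ℕ) : ℝ) / (p * (ε * X)) * VV P k) *
              (2 ^ (n + 1) / ((2 ^ i : ℕ) : ℝ)) := mul_le_mul_of_nonneg_right h2 (by positivity)
          _ = C * 2 ^ (n + 1) / p * VV P k / (ε * X) := by
              have : (0:ℝ) < ε * X := by linarith
              field_simp
    _ = (I.card : ℝ) * (C * 2 ^ (n + 1) / p * VV P k / (ε * X)) := by
        rw [sum_const, nsmul_eq_mul]
    _ ≤ (ε * X) * (C * 2 ^ (n + 1) / p * VV P k / (ε * X)) := by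
        refine mul_le_mul_of_nonneg_right hcard ?_
        have : (0:ℝ) < ε * X := by linarith
        positivity
    _ = C * 2 ^ (n + 1) / p * VV P k := by
        have : (0:ℝ) < ε * X := by linarith
        field_simp

end Pool.Agent.ERB
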