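import Pool.Agent.ERB.Core
import Pool.Agent.ERB.LowM
import Pool.Agent.ERB.UpW
import Pool.Agent.ERB.Tot
import Pool.Agent.ERB.SW

/-!
# ERB / Case: one choice of multipliers and sieve primes
-/

set_option autoImplicit false

namespace Pool.Agent.ERB

open Finset

/-- Lower bound for the survivors for one choice of `A`, `P`, `E`. -/
theorem one_case {ε : ℝ} {G : ℝ → ℝ} (hε : 0 < ε) (hG : IsCut ε G) (n : ℕ) {X : ℝ} (hX : 0 < X)
    (m : ℤ) (κ : ℕ) (A P E : Finset ℕ) (cW cV CU L : ℝ) (hcW : 0 < cW) (hcV : 0 < cV)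
    (hWW : cW * ε ≤ WW n G X) (hP : ∀ r ∈ P, r.Prime ∧ 3 ≤ r) (lam lamu : Finset ℕ → ℝ)
    (hw : IsSW P L lam lamu) (hA : A.Nonempty) (hVV : ∀ k ∈ A, cV / X ≤ VV P k)
    (herr : ∑ D ∈ P.powerset.filter (fun D => D.Nonempty ∧ ((∏ r ∈ D, r : ℕ) : ℝ) ≤ L),
        Err n G X m κ A D ≤ cW * ε / 16 * (A.card * (cV / X)))
    (hE : (∑ p ∈ E, 1 / (p : ℝ)) * CU ≤ 3 * (cW * ε) / 32)
    (hup : ∀ p ∈ E, ∀ k ∈ A, (∑ q ∈ QQ X, if (p : ℤ) ∣ m + κ * k * q ∧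
      ∀ r ∈ P, ¬ (r : ℤ) ∣ m + κ * k * q then wt n G X q else 0) ≤ CU / p * VV P k) :
    cW * ε / 4 * (cV / X) ≤ Surv n G X m κ A (P ∪ E) := by
  have h1 := lower_main n G X ε hX hG m κ A P hP L lam lamu hw
  have h2 := core_ineq hG n hX m κ A P E CU hup
  set S := ∑ k ∈ A, VV P k with hS
  have hS1 : A.card * (cV / X) ≤ S := by
    rw [hS, ← nsmul_eq_mul]
    exact Finset.card_nsmul_le_sum _ _ _ hVV
  have hcX : 0 < cV / X := by positivity
  have hcard : (1 : ℝ) ≤ A.card := by exact_mod_cast hA.card_pos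
  have hS2 : cV / X ≤ S := le_trans (by nlinarith) hS1
  have hS0 : 0 < S := by linarith
  have hcε : 0 < cW * ε := by positivity
  have h3 : cW * ε / 16 * (A.card * (cV / X)) ≤ cW * ε / 16 * S :=
    mul_le_mul_of_nonneg_left hS1 (by positivity)
  have h4 : (∑ p ∈ E, 1 / (p : ℝ)) * CU * S ≤ 3 * (cW * ε) / 32 * S :=
    mul_le_mul_of_nonneg_right hE hS0.le
  have h5 : 1 / 2 * (cW * ε) * S ≤ 1 / 2 * WW n G X * S := by gcongr
  have h6 : cW * ε / 4 * (cV / X) ≤ cW * ε / 4 * S :=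
    mul_le_mul_of_nonneg_left hS2 (by positivity)
  have h7 : 0 < cW * ε * S := by positivity
  nlinarith

end Pool.Agent.ERB
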