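import Pool.Agent.ERB.Wb
import Pool.Agent.ERB.Num

/-!
# ERB / Core: from the sieve inequalities to integers
-/

set_option autoImplicit false

namespace Pool.Agent.ERB

open Finset

/-- Removing the exceptional primes. -/
theorem core_ineq {ε : ℝ} {G : ℝ → ℝ} (hG : IsCut ε G) (n : ℕ) {X : ℝ} (hX : 0 < X) (m : ℤ)
    (κ : ℕ) (A P E : Finset ℕ) (CU : ℝ)
    (hup : ∀ p ∈ E, ∀ k ∈ A, (∑ q ∈ QQ X, if (p : ℤ) ∣ m + κ * k * q ∧
      ∀ r ∈ P, ¬ (r : ℤ) ∣ m + κ * k * q then wt n G X q else 0) ≤ CU / p * VV P k) :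
    Surv n G X m κ A P - (∑ p ∈ E, 1 / (p : ℝ)) * CU * ∑ k ∈ A, VV P k ≤
      Surv n G X m κ A (P ∪ E) := by
  classical
  have h1 : ∀ k q : ℕ, (if ∀ r ∈ P, ¬ (r : ℤ) ∣ m + κ * k * q then wt n G X q else 0) -
      ∑ p ∈ E, (if (p : ℤ) ∣ m + κ * k * q ∧ ∀ r ∈ P, ¬ (r : ℤ) ∣ m + κ * k * q then
        wt n G X q else 0) ≤
      if ∀ r ∈ P ∪ E, ¬ (r : ℤ) ∣ m + κ * k * q then wt n G X q else 0 := by
    intro k q
    have hw := wt_nonneg hG n hX q
    have hsum : 0 ≤ ∑ p ∈ E, (if (p : ℤ) ∣ m + κ * k * q ∧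
        ∀ r ∈ P, ¬ (r : ℤ) ∣ m + κ * k * q then wt n G X q else 0) :=
      Finset.sum_nonneg fun p _ => by split_ifs <;> [exact hw; exact le_rfl]
    by_cases hP : ∀ r ∈ P, ¬ (r : ℤ) ∣ m + κ * k * q
    · by_cases hE : ∀ r ∈ E, ¬ (r : ℤ) ∣ m + κ * k * q
      · rw [if_pos hP, if_pos]
        · linarith
        · intro r hr
          rcases Finset.mem_union.1 hr with h | h
          · exact hP r h
          · exact hE r h
      · push Not at hE
        obtain ⟨p, hp, hpd⟩ := hE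
        have h2 : wt n G X q ≤ ∑ p ∈ E, (if (p : ℤ) ∣ m + κ * k * q ∧
            ∀ r ∈ P, ¬ (r : ℤ) ∣ m + κ * k * q then wt n G X q else 0) := by
          have h3 := Finset.single_le_sum (f := fun p : ℕ => if (p : ℤ) ∣ m + κ * k * q ∧
            ∀ r ∈ P, ¬ (r : ℤ) ∣ m + κ * k * q then wt n G X q else 0)
            (fun i _ => by split_ifs <;> [exact hw; exact le_rfl]) hp
          rw [if_pos ⟨hpd, hP⟩] at h3
          exact h3
        rw [if_pos hP]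
        split_ifs <;> linarith
    · rw [if_neg hP]
      split_ifs <;> linarith
  have h2 : Surv n G X m κ A P - ∑ p ∈ E, ∑ k ∈ A, ∑ q ∈ QQ X,
      (if (p : ℤ) ∣ m + κ * k * q ∧ ∀ r ∈ P, ¬ (r : ℤ) ∣ m + κ * k * q then
        wt n G X q else 0) ≤ Surv n G X m κ A (P ∪ E) := by
    unfold Surv
    rw [Finset.sum_comm (s := E), ← Finset.sum_sub_distrib]
    refine Finset.sum_le_sum fun k _ => ?_
    rw [Finset.sum_comm (s := E), ← Finset.sum_sub_distrib]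
    exact Finset.sum_le_sum fun q _ => h1 k q
  have h3 : ∑ p ∈ E, ∑ k ∈ A, ∑ q ∈ QQ X,
      (if (p : ℤ) ∣ m + κ * k * q ∧ ∀ r ∈ P, ¬ (r : ℤ) ∣ m + κ * k * q then
        wt n G X q else 0) ≤ (∑ p ∈ E, 1 / (p : ℝ)) * CU * ∑ k ∈ A, VV P k := by
    rw [Finset.sum_mul, Finset.sum_mul]
    refine Finset.sum_le_sum fun p hp => ?_
    rw [Finset.mul_sum]
    refine Finset.sum_le_sum fun k hk => ?_
    refine (hup p hp k hk).trans (le_of_eq ?_)
    ring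
  linarith

open scoped Classical in
/-- Pairs give different integers without prime factor `≤ y`. -/
theorem count_ints {ε : ℝ} {G : ℝ → ℝ} (hε : 0 < ε) (hε1 : ε ≤ 1) (hG : IsCut ε G) (n : ℕ)
    (y : ℕ) (hy : 3 ≤ y) (m : ℤ) (κ : ℕ) (hκ : κ = if (2 : ℤ) ∣ m then 1 else 2) (A T : Finset ℕ)
    (K : ℝ) (hK : K < (y : ℝ))
    (hA : ∀ k ∈ A, 1 ≤ k ∧ (k : ℝ) ≤ K ∧ ∀ p : ℕ, p.Prime → p ∣ k → 3 ≤ p ∧ ¬ (p : ℤ) ∣ m)
    (hT : ∀ p : ℕ, p.Prime → 3 ≤ p → p ≤ y → ¬ (p : ℤ) ∣ m → p ∈ T)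
    (hr : 2 * K * Real.exp ((1 + 7 * ε / 8) * Real.log y) ≤ (y : ℝ) ^ (1 + ε)) :
    Surv n G (Real.log y) m κ A T * Real.exp ((1 + 5 * ε / 8) * Real.log y) ≤
      2 ^ (n + 1) * (((Finset.Ioc (m + ⌊(y : ℝ) ^ (1 + ε / 2)⌋₊) (m + ⌊(y : ℝ) ^ (1 + ε)⌋₊)).filter
        (fun a : ℤ => ∀ p : ℕ, p.Prime → p ≤ y → ¬ (p : ℤ) ∣ a)).card : ℝ) := by
  classical
  have hyR : (3 : ℝ) ≤ y := by exact_mod_cast hy
  set X := Real.log y with hXdef
  have hX : 0 < X := Real.log_pos (by linarith)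
  have hexpX : Real.exp X = y := Real.exp_log (by linarith)
  have hrp : ∀ a : ℝ, (y : ℝ) ^ a = Real.exp (a * X) := fun a => by
    rw [Real.rpow_def_of_pos (by linarith), mul_comm]
  set Z := (A ×ˢ QQ X).filter (fun x : ℕ × ℕ => wt n G X x.2 ≠ 0 ∧
    ∀ r ∈ T, ¬ (r : ℤ) ∣ m + κ * x.1 * x.2) with hZ
  set W := (Finset.Ioc (m + ⌊(y : ℝ) ^ (1 + ε / 2)⌋₊) (m + ⌊(y : ℝ) ^ (1 + ε)⌋₊)).filter
        (fun a : ℤ => ∀ p : ℕ, p.Prime → p ≤ y → ¬ (p : ℤ) ∣ a) with hW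
  have hκ12 : κ = 1 ∨ κ = 2 := by
    rw [hκ]
    split_ifs <;> simp
  have hκ1 : 1 ≤ κ := by rcases hκ12 with h | h <;> omega
  have hκ2 : κ ≤ 2 := by rcases hκ12 with h | h <;> omega
  have hZp : ∀ x ∈ Z, x.1 ∈ A ∧ x.2.Prime ∧ y < x.2 ∧
      Real.exp ((1 + 5 * ε / 8) * X) < x.2 ∧ (x.2 : ℝ) < Real.exp ((1 + 7 * ε / 8) * X) ∧
      ∀ r ∈ T, ¬ (r : ℤ) ∣ m + κ * x.1 * x.2 := by
    intro x hx
    rw [hZ, Finset.mem_filter, Finset.mem_product] at hx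
    obtain ⟨⟨h1, h2⟩, h3, h4⟩ := hx
    have h5 := wt_supp hG n hX h3
    refine ⟨h1, (Finset.mem_filter.1 h2).2, ?_, h5.1, h5.2, h4⟩
    have h6 : (y : ℝ) < x.2 := by
      rw [← hexpX]
      refine lt_of_le_of_lt ?_ h5.1
      apply Real.exp_le_exp.2
      nlinarith
    exact_mod_cast h6
  -- the map
  have hmaps : ∀ x ∈ Z, (m + κ * x.1 * x.2 : ℤ) ∈ W := by
    intro x hx
    obtain ⟨h1, h2, h3, h4, h5, h6⟩ := hZp x hx
    obtain ⟨hk1, hkK, hkp⟩ := hA _ h1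
    have hprod1 : (x.2 : ℝ) ≤ ((κ * x.1 * x.2 : ℕ) : ℝ) := by
      have : x.2 ≤ κ * x.1 * x.2 := Nat.le_mul_of_pos_left _ (Nat.mul_pos hκ1 hk1)
      exact_mod_cast this
    have hprod2 : ((κ * x.1 * x.2 : ℕ) : ℝ) ≤ (y : ℝ) ^ (1 + ε) := by
      refine le_trans ?_ hr
      push_cast
      have h7 : (κ : ℝ) ≤ 2 := by exact_mod_cast hκ2
      have h8 : (1 : ℝ) ≤ x.1 := by exact_mod_cast hk1
      have h9 : 0 ≤ K := by linarith
      gcongr
    rw [hW, Finset.mem_filter, Finset.mem_Ioc]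
    refine ⟨⟨?_, ?_⟩, ?_⟩
    · have h7 : ⌊(y : ℝ) ^ (1 + ε / 2)⌋₊ < κ * x.1 * x.2 := by
        rw [Nat.floor_lt (by positivity)]
        refine lt_of_lt_of_le ?_ hprod1
        rw [hrp]
        refine lt_of_le_of_lt ?_ h4
        apply Real.exp_le_exp.2
        nlinarith
      have h8 : ((⌊(y : ℝ) ^ (1 + ε / 2)⌋₊ : ℕ) : ℤ) < ((κ * x.1 * x.2 : ℕ) : ℤ) := by
        exact_mod_cast h7
      push_cast at h8 ⊢
      linarith
    · have h7 : κ * x.1 * x.2 ≤ ⌊(y : ℝ) ^ (1 + ε)⌋₊ := Nat.le_floor hprod2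
      have h8 : ((κ * x.1 * x.2 : ℕ) : ℤ) ≤ ((⌊(y : ℝ) ^ (1 + ε)⌋₊ : ℕ) : ℤ) := by
        exact_mod_cast h7
      push_cast at h8 ⊢
      linarith
    · intro p hp hpy hdvd
      have hpq : ¬ p ∣ x.2 := by
        intro h
        have := (Nat.prime_dvd_prime_iff_eq hp h2).1 h
        omega
      by_cases hpm : (p : ℤ) ∣ m
      · have h7 : (p : ℤ) ∣ ((κ * x.1 * x.2 : ℕ) : ℤ) := by
          have h8 := dvd_sub hdvd hpm
          have h9 : m + κ * x.1 * x.2 - m = ((κ * x.1 * x.2 : ℕ) : ℤ) := by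
            push_cast
            ring
          rwa [h9] at h8
        rw [Int.natCast_dvd_natCast] at h7
        rcases (Nat.Prime.dvd_mul hp).1 h7 with h8 | h8
        · rcases (Nat.Prime.dvd_mul hp).1 h8 with h9 | h9
          · -- p ∣ κ
            have hp2 : p = 2 := by
              have h10 := Nat.le_of_dvd hκ1 h9
              have := hp.two_le
              omega
            subst hp2
            rw [hκ, if_pos (by exact_mod_cast hpm)] at h9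
            omega
          · exact (hkp p hp h9).2 hpm
        · exact hpq h8
      · rcases Nat.lt_or_ge p 3 with h7 | h7
        · have hp2 : p = 2 := by
            have := hp.two_le
            omega
          subst hp2
          rw [if_neg (by exact_mod_cast hpm)] at hκ
          subst hκ
          apply hpm
          have h8 : ((2 : ℕ) : ℤ) ∣ (2 : ℤ) * x.1 * x.2 := by
            rw [mul_assoc]
            exact dvd_mul_right _ _
          have h9 := dvd_sub hdvd h8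
          have h10 : m + ((2 : ℕ) : ℤ) * x.1 * x.2 - 2 * x.1 * x.2 = m := by
            push_cast
            ring
          rwa [h10] at h9
        · exact h6 p (hT p hp h7 hpy hpm) hdvd
  have hinj : ∀ x ∈ Z, ∀ x' ∈ Z, (m + κ * x.1 * x.2 : ℤ) = m + κ * x'.1 * x'.2 → x = x' := by
    intro x hx x' hx' h
    obtain ⟨h1, h2, h3, -, -, -⟩ := hZp x hx
    obtain ⟨h1', h2', h3', -, -, -⟩ := hZp x' hx'
    obtain ⟨hk1, hkK, -⟩ := hA _ h1
    obtain ⟨hk1', hkK', -⟩ := hA _ h1'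
    have h4 : κ * x.1 * x.2 = κ * x'.1 * x'.2 := by
      have h5 : ((κ * x.1 * x.2 : ℕ) : ℤ) = ((κ * x'.1 * x'.2 : ℕ) : ℤ) := by
        push_cast
        linarith
      exact_mod_cast h5
    have h5 : x.1 * x.2 = x'.1 * x'.2 := by
      rw [mul_assoc, mul_assoc] at h4
      exact Nat.eq_of_mul_eq_mul_left hκ1 h4
    have hlt : ∀ k : ℕ, (k : ℝ) ≤ K → k < y := fun k hk => by
      exact_mod_cast lt_of_le_of_lt hk hK
    have h6 : x.2 = x'.2 := by
      have h7 : x.2 ∣ x'.1 * x'.2 := by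
        rw [← h5]
        exact dvd_mul_left _ _
      rcases (Nat.Prime.dvd_mul h2).1 h7 with h8 | h8
      · exfalso
        have h9 := Nat.le_of_dvd hk1' h8
        have := hlt _ hkK'
        omega
      · exact (Nat.prime_dvd_prime_iff_eq h2 h2').1 h8
    have h7 : x.1 = x'.1 := by
      rw [h6] at h5
      exact Nat.eq_of_mul_eq_mul_right h2'.pos h5
    exact Prod.ext h7 h6
  have hcard : Z.card ≤ W.card :=
    Finset.card_le_card_of_injOn (fun x => (m + κ * x.1 * x.2 : ℤ)) hmaps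
      (fun x hx x' hx' h => hinj x hx x' hx' h)
  -- the weights
  have hS : Surv n G X m κ A T ≤ ∑ x ∈ Z, wt n G X x.2 := by
    unfold Surv
    rw [← Finset.sum_product' (s := A) (t := QQ X) (f := fun k q => if ∀ r ∈ T,
      ¬ (r : ℤ) ∣ m + κ * k * q then wt n G X q else 0)]
    rw [hZ, Finset.sum_filter]
    refine Finset.sum_le_sum fun x _ => ?_
    by_cases hw : wt n G X x.2 = 0
    · rw [hw]
      split_ifs <;> simp
    · by_cases h : ∀ r ∈ T, ¬ (r : ℤ) ∣ m + κ * x.1 * x.2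
      · rw [if_pos h, if_pos ⟨hw, h⟩]
      · rw [if_neg h, if_neg (fun h' => h h'.2)]
  have hw : ∀ x ∈ Z, wt n G X x.2 * Real.exp ((1 + 5 * ε / 8) * X) ≤ 2 ^ (n + 1) := by
    intro x hx
    obtain ⟨-, h2, h3, h4, -, -⟩ := hZp x hx
    have h5 := wt_le hG hε1 n hX x.2 h2.one_lt.le
    have hq : (0 : ℝ) < x.2 := by exact_mod_cast h2.pos
    have h6 := wt_nonneg hG n hX x.2
    calc wt n G X x.2 * Real.exp ((1 + 5 * ε / 8) * X) ≤ wt n G X x.2 * x.2 := by gcongr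
      _ ≤ 2 ^ (n + 1) / x.2 * x.2 := by gcongr
      _ = 2 ^ (n + 1) := by field_simp
  calc Surv n G X m κ A T * Real.exp ((1 + 5 * ε / 8) * X)
      ≤ (∑ x ∈ Z, wt n G X x.2) * Real.exp ((1 + 5 * ε / 8) * X) := by gcongr
    _ = ∑ x ∈ Z, wt n G X x.2 * Real.exp ((1 + 5 * ε / 8) * X) := by rw [Finset.sum_mul]
    _ ≤ ∑ x ∈ Z, (2 : ℝ) ^ (n + 1) := Finset.sum_le_sum hw
    _ = Z.card * 2 ^ (n + 1) := by rw [Finset.sum_const, nsmul_eq_mul]
    _ ≤ W.card * 2 ^ (n + 1) := by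
      have : (Z.card : ℝ) ≤ W.card := by exact_mod_cast hcard
      gcongr
    _ = 2 ^ (n + 1) * W.card := by ring

end Pool.Agent.ERB
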