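import Pool.Agent.ERB.Defs

/-!
# ERB / Zb: trivial bound on the real line

`‖∑ f(n) n^(-1-δ)‖ ≤ ∑_(n ≥ 1) n^(-1-δ) ≤ 1 + ∫_1^∞ t^(-1-δ) dt = 1 + 1/δ ≤ 2/δ` for `|f| ≤ 1`.
(For the integral comparison: `n^(-1-δ) ≤ ((n-1)^(-δ) - n^(-δ))/δ` for `n ≥ 2`, telescoping; or use
a Mathlib bound of `∑' 1/(n+1)^s`, e.g. in `Mathlib/NumberTheory/Harmonic/ZetaAsymp.lean`.)
-/

set_option autoImplicit false

namespace Pool.Agent.ERB

private theorem zb_step (δ : ℝ) (hδ : 0 < δ) (a : ℝ) (ha : 0 < a) :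
    δ * (a + 1) ^ (-(1 + δ)) ≤ a ^ (-δ) - (a + 1) ^ (-δ) := by
  have hb : 0 < a + 1 := by linarith
  have h1 : Real.log (a / (a + 1)) ≤ a / (a + 1) - 1 := Real.log_le_sub_one_of_pos (by positivity)
  rw [Real.log_div ha.ne' hb.ne'] at h1
  have h2 : a / (a + 1) - 1 = -(1 / (a + 1)) := by field_simp; ring
  rw [h2] at h1
  have e1 : a ^ (-δ) = Real.exp (Real.log a * (-δ)) := Real.rpow_def_of_pos ha _
  have e2 : (a + 1) ^ (-δ) = Real.exp (Real.log (a + 1) * (-δ)) := Real.rpow_def_of_pos hb _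
  have e3 : (a + 1) ^ (-(1 + δ)) = (a + 1) ^ (-δ) * (1 / (a + 1)) := by
    rw [show -(1 + δ) = -δ + (-1) by ring, Real.rpow_add hb, Real.rpow_neg_one, one_div]
  have h3 : (a + 1) ^ (-δ) * (1 + δ * (1 / (a + 1))) ≤ a ^ (-δ) := by
    rw [e1, e2]
    calc Real.exp (Real.log (a + 1) * (-δ)) * (1 + δ * (1 / (a + 1)))
        ≤ Real.exp (Real.log (a + 1) * (-δ)) * Real.exp (δ * (1 / (a + 1))) := by
          apply mul_le_mul_of_nonneg_left _ (Real.exp_pos _).le
          have := Real.add_one_le_exp (δ * (1 / (a + 1)))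
          linarith
      _ = Real.exp (Real.log (a + 1) * (-δ) + δ * (1 / (a + 1))) := by rw [Real.exp_add]
      _ ≤ _ := by
          apply Real.exp_le_exp.2
          nlinarith
  rw [e3]
  nlinarith

private theorem zb_partial (δ : ℝ) (hδ : 0 < δ) (N : ℕ) :
    ∑ n ∈ Finset.range N, ((n : ℝ) + 1) ^ (-(1 + δ)) ≤ 1 + 1 / δ - (if N = 0 then 0 else (N : ℝ) ^ (-δ) / δ) := by
  induction N with
  | zero =>
    simp
    positivity
  | succ N ih =>
    rw [Finset.sum_range_succ]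
    rcases Nat.eq_zero_or_pos N with h | h
    · subst h
      simp
    · rw [if_neg h.ne'] at ih
      rw [if_neg (by omega)]
      have h1 := zb_step δ hδ (N : ℝ) (by exact_mod_cast h)
      have h2 : ((N : ℝ) + 1) ^ (-(1 + δ)) ≤ ((N : ℝ) ^ (-δ) - ((N : ℝ) + 1) ^ (-δ)) / δ := by
        rw [le_div_iff₀ hδ]
        linarith
      rw [sub_div] at h2
      push_cast
      linarith

theorem zeta_le (f : ℕ → ℂ) (hf : ∀ n, ‖f n‖ ≤ 1) (δ : ℝ) (hδ : 0 < δ) (hδ1 : δ ≤ 1) :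
    ‖LSeries f (1 + (δ : ℂ))‖ ≤ 2 / δ := by
  have hre : (1 + (δ : ℂ)).re = 1 + δ := by simp
  have hb : ∀ n : ℕ, ‖LSeries.term f (1 + (δ : ℂ)) n‖ ≤
      if n = 0 then 0 else (n : ℝ) ^ (-(1 + δ)) := by
    intro n
    rw [LSeries.norm_term_eq, hre]
    split_ifs with h
    · exact le_rfl
    · have hn : 0 < (n : ℝ) := by exact_mod_cast Nat.pos_of_ne_zero h
      rw [Real.rpow_neg hn.le, ← one_div]
      apply div_le_div_of_nonneg_right (hf n) (by positivity)
  have hsum : ∀ N : ℕ, ∑ n ∈ Finset.range N, ‖LSeries.term f (1 + (δ : ℂ)) n‖ ≤ 1 + 1 / δ := by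
    intro N
    refine (Finset.sum_le_sum fun n _ => hb n).trans ?_
    rcases Nat.eq_zero_or_pos N with h | h
    · subst h
      simp
      positivity
    · obtain ⟨M, rfl⟩ := Nat.exists_eq_succ_of_ne_zero h.ne'
      rw [Finset.sum_range_succ']
      simp only [Nat.add_eq_zero_iff, one_ne_zero, and_false, if_false, if_true, add_zero]
      have := zb_partial δ hδ M
      push_cast
      refine this.trans ?_
      have : (0 : ℝ) ≤ if M = 0 then 0 else (M : ℝ) ^ (-δ) / δ := by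
        split_ifs
        · exact le_rfl
        · positivity
      linarith
  have hS : Summable (fun n => ‖LSeries.term f (1 + (δ : ℂ)) n‖) :=
    summable_of_sum_range_le (fun n => norm_nonneg _) hsum
  calc ‖LSeries f (1 + (δ : ℂ))‖ ≤ ∑' n, ‖LSeries.term f (1 + (δ : ℂ)) n‖ := by
        rw [LSeries]
        exact norm_tsum_le_tsum_norm hS
    _ ≤ 1 + 1 / δ := Real.tsum_le_of_sum_range_le (fun n => norm_nonneg _) hsum
    _ ≤ 2 / δ := by
        rw [show (2 : ℝ) / δ = 1 / δ + 1 / δ by ring]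
        have : 1 ≤ 1 / δ := by rw [le_div_iff₀ hδ]; linarith
        linarith

end Pool.Agent.ERB
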