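import Pool.Agent.ERB.Mj
import Pool.Agent.ERB.Zb

/-!
# ERB / Cpx: complex characters

Mathlib `DirichletCharacter.norm_LSeries_product_ge_one` with `x = δ`, `y = 0`:
`‖L(1)(1+δ)^3 L(χ)(1+δ)^4 L(χ²)(1+δ)‖ ≥ 1`.  `‖L(1)(1+δ)‖ ≤ 2/δ` (`zeta_le`), and as `χ² ≠ 1`
`‖L(χ²)(1+δ)‖ ≤ C (1 + log c)` (`Mj_bound 0`).  So `‖L(χ)(1+δ)‖^4 ≥ δ^3/(8 C (1 + log c))`.
-/

set_option autoImplicit false

namespace Pool.Agent.ERB

theorem cpx_lower : ∃ C : ℝ, 0 < C ∧ ∀ (c : ℕ) [NeZero c] (χ : DirichletCharacter ℂ c),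
    χ ^ 2 ≠ 1 → ∀ δ : ℝ, 0 < δ → δ ≤ 1 →
      C * δ ^ 3 / (1 + Real.log c) ≤
        ‖LSeries (fun n : ℕ => χ (n : ZMod c)) (1 + (δ : ℂ))‖ ^ 4 := by
  obtain ⟨C, hC, h⟩ := Mj_bound 0
  refine ⟨1 / (8 * C), by positivity, ?_⟩
  intro c _ χ hχ δ hδ hδ1
  have hc : (1 : ℝ) ≤ c := by
    have := Nat.pos_of_ne_zero (NeZero.ne c)
    exact_mod_cast this
  have hlog : 0 < 1 + Real.log c := by
    have := Real.log_nonneg hc
    linarith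
  have H := DirichletCharacter.norm_LSeries_product_ge_one χ hδ 0
  have e1 : (1 + (δ : ℂ) + Complex.I * ((0 : ℝ) : ℂ)) = 1 + (δ : ℂ) := by simp
  have e2 : (1 + (δ : ℂ) + 2 * Complex.I * ((0 : ℝ) : ℂ)) = 1 + (δ : ℂ) := by simp
  rw [e1, e2, norm_mul, norm_mul, norm_pow, norm_pow] at H
  have A1 : ‖LSeries (fun n : ℕ => (1 : DirichletCharacter ℂ c) (n : ZMod c)) (1 + (δ : ℂ))‖
      ≤ 2 / δ :=
    zeta_le _ (fun n => DirichletCharacter.norm_le_one _ _) δ hδ hδ1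
  have A2 : ‖LSeries (fun n : ℕ => (χ ^ 2) (n : ZMod c)) (1 + (δ : ℂ))‖
      ≤ C * (1 + Real.log c) := by
    have := h c (χ ^ 2) hχ (1 + (δ : ℂ)) (by simp [hδ]) (by
      have : (1 + (δ : ℂ)) = ((1 + δ : ℝ) : ℂ) := by push_cast; ring
      rw [this, Complex.norm_real, Real.norm_eq_abs, abs_of_pos (by linarith)]
      linarith)
    simpa using this
  set a := ‖LSeries (fun n : ℕ => (1 : DirichletCharacter ℂ c) (n : ZMod c)) (1 + (δ : ℂ))‖ with ha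
  set b := ‖LSeries (fun n : ℕ => χ (n : ZMod c)) (1 + (δ : ℂ))‖ with hb
  set d := ‖LSeries (fun n : ℕ => (χ ^ 2) (n : ZMod c)) (1 + (δ : ℂ))‖ with hd
  have a0 : 0 ≤ a := norm_nonneg _
  have b0 : 0 ≤ b := norm_nonneg _
  have d0 : 0 ≤ d := norm_nonneg _
  have H1 : 1 ≤ (2 / δ) ^ 3 * b ^ 4 * (C * (1 + Real.log c)) := by
    calc (1 : ℝ) ≤ a ^ 3 * b ^ 4 * d := H
      _ ≤ (2 / δ) ^ 3 * b ^ 4 * (C * (1 + Real.log c)) := by gcongr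
  have hδ3 : 0 < δ ^ 3 := by positivity
  have H2 : (2 / δ) ^ 3 * b ^ 4 * (C * (1 + Real.log c)) =
      b ^ 4 * (8 * C * (1 + Real.log c)) / δ ^ 3 := by
    field_simp
    ring
  rw [H2, le_div_iff₀ hδ3] at H1
  rw [div_le_iff₀ hlog]
  calc 1 / (8 * C) * δ ^ 3 ≤ 1 / (8 * C) * (b ^ 4 * (8 * C * (1 + Real.log c))) := by
        gcongr
        linarith
    _ = b ^ 4 * (1 + Real.log c) := by field_simp

end Pool.Agent.ERB
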