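import Pool.Agent.ERB.Defs

/-!
# ERB / Cut: existence of the cut-off

Take `G u = φ u` for a `ContDiffBump (1 + 3 * ε / 4 : ℝ)` with `rIn = ε/16`, `rOut = ε/8`
(Mathlib: `ContDiffBump.contDiff`, `.nonneg`, `.le_one`, `.one_of_mem_closedBall`,
`.zero_of_le_dist`).
-/

set_option autoImplicit false

namespace Pool.Agent.ERB

theorem exists_cut (ε : ℝ) (hε : 0 < ε) : ∃ G : ℝ → ℝ, IsCut ε G := by
  let φ : ContDiffBump (1 + 3 * ε / 4 : ℝ) :=
    { rIn := ε / 16
      rOut := ε / 8
      rIn_pos := by positivity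
      rIn_lt_rOut := by linarith }
  refine ⟨fun u => φ u, ?_, fun u => φ.nonneg, fun u => φ.le_one, ?_, ?_⟩
  · exact φ.contDiff
  · intro u h1 h2
    refine φ.one_of_mem_closedBall ?_
    rw [Metric.mem_closedBall, Real.dist_eq, abs_le]
    show _ ≤ _ ∧ _ ≤ ε / 16
    constructor
    · show -(ε / 16) ≤ _
      linarith
    · linarith
  · intro u h
    refine φ.zero_of_le_dist ?_
    rw [Real.dist_eq]
    show ε / 8 ≤ _
    rcases h with h | h
    · refine le_trans ?_ (neg_le_abs _)
      linarith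
    · refine le_trans ?_ (le_abs_self _)
      linarith

end Pool.Agent.ERB
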