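import Pool.Agent.ERB.Defs

/-!
# ERB / CutF: Fourier inversion for the cut-off

`G` (as a function to `ℂ`) is smooth with compact support, so it is a Schwartz function; `h = 𝓕 G` is a
Schwartz function, hence continuous and `‖h τ‖ (1 + |τ|)^N` is bounded for every `N`
(`SchwartzMap.decay` with `n = 0` for the powers `0` and `N`, `(1 + |τ|)^N ≤ 2^N (1 + |τ|^N)`;
or `SchwartzMap.one_add_le_sup_seminorm_apply`).
Fourier inversion (`Continuous.fourierInv_fourier_eq` or the `FourierPair` instance of Schwartz
functions, `fourierInv_fourier_eq`): `G u = ∫ h τ e^(2πi τ u) dτ` (`Real.fourierInv_eq'` or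
`Real.fourierIntegralInv_eq'`).
A compactly supported smooth function as a Schwartz map: `HasCompactSupport.toSchwartzMap` if it
exists, otherwise build the structure (every `‖x‖^k ‖iteratedFDeriv ℝ n f x‖` is continuous with compact
support, so bounded).
-/

set_option autoImplicit false

namespace Pool.Agent.ERB

open MeasureTheory

theorem cut_fourier (ε : ℝ) (G : ℝ → ℝ) (hG : IsCut ε G) :
    ∃ h : ℝ → ℂ, Continuous h ∧ (∀ N : ℕ, ∃ C : ℝ, ∀ τ : ℝ, ‖h τ‖ * (1 + |τ|) ^ N ≤ C) ∧
      ∀ u : ℝ, ((G u : ℝ) : ℂ) =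
        ∫ τ : ℝ, h τ * Complex.exp ((2 * Real.pi * τ * u : ℝ) * Complex.I) := by
  have hc : HasCompactSupport (Complex.ofRealCLM ∘ G) := by
    apply HasCompactSupport.comp_left _ (map_zero _)
    apply HasCompactSupport.of_support_subset_isCompact
      (isCompact_Icc (a := 1 + 5 * ε / 8) (b := 1 + 7 * ε / 8))
    intro u hu
    rw [Function.mem_support] at hu
    by_contra hcon
    apply hu
    apply hG.zero
    rw [Set.mem_Icc, not_and_or, not_le, not_le] at hcon
    rcases hcon with h | h
    · exact Or.inl h.le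
    · exact Or.inr h.le
  have hs : ContDiff ℝ (⊤ : ℕ∞) (Complex.ofRealCLM ∘ G) := Complex.ofRealCLM.contDiff.comp hG.smooth
  let g : SchwartzMap ℝ ℂ := hc.toSchwartzMap hs
  let h : SchwartzMap ℝ ℂ := FourierTransform.fourier g
  refine ⟨h, h.continuous, ?_, ?_⟩
  · intro N
    refine ⟨2 ^ N * (Finset.Iic (N, 0)).sup (fun m => SchwartzMap.seminorm ℝ m.1 m.2) h, ?_⟩
    intro τ
    have := SchwartzMap.one_add_le_sup_seminorm_apply (𝕜 := ℝ) (m := (N, 0)) (k := N) (n := 0)
      le_rfl le_rfl h τ
    simp only [norm_iteratedFDeriv_zero] at this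
    rw [mul_comm]
    simpa [Real.norm_eq_abs] using this
  · intro u
    have h1 : FourierTransformInv.fourierInv h = g := FourierTransform.fourierInv_fourier_eq g
    have h2 : ((G u : ℝ) : ℂ) = g u := rfl
    rw [h2, ← h1, SchwartzMap.fourierInv_coe, Real.fourierInv_eq']
    apply integral_congr_ae
    apply Filter.Eventually.of_forall
    intro τ
    simp only [smul_eq_mul, RCLike.inner_apply, conj_trivial]
    rw [mul_comm]
    congr 2
    push_cast
    ring

end Pool.Agent.ERB
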