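import Mathlib

/-!
# ERB: a barrier for the Erdos-Rankin method (MP_7b323f_nt), definitions

Notation: `X = log y`.  For an integer `m` the theorem finds many `n = m + κ k q` without prime factor
`≤ y`; `q` is a prime `> y` with the weight `wt n G X q` (`n` is a fixed exponent, `G` a smooth cut-off),
`k` a positive integer all of whose prime factors are small and do not divide `m`, `κ ∈ {1, 2}`.
-/

set_option autoImplicit false

namespace Pool.Agent.ERB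

open Finset

/-- A smooth cut-off: supported in `[1 + 5ε/8, 1 + 7ε/8]`, equal to one on
`[1 + 11ε/16, 1 + 13ε/16]`. -/
structure IsCut (ε : ℝ) (G : ℝ → ℝ) : Prop where
  smooth : ContDiff ℝ (⊤ : ℕ∞) G
  nonneg : ∀ u, 0 ≤ G u
  le_one : ∀ u, G u ≤ 1
  one : ∀ u, 1 + 11 * ε / 16 ≤ u → u ≤ 1 + 13 * ε / 16 → G u = 1
  zero : ∀ u, u ≤ 1 + 5 * ε / 8 ∨ 1 + 7 * ε / 8 ≤ u → G u = 0

/-- `q^(-1-1/X) (log q / X)^n G(log q / X)` -/
noncomputable def vt (n : ℕ) (G : ℝ → ℝ) (X : ℝ) (q : ℕ) : ℝ :=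
  (q : ℝ) ^ (-1 - 1 / X : ℝ) * (Real.log q / X) ^ n * G (Real.log q / X)

/-- The weight of the prime `q`: `(log q / X) vt q`. -/
noncomputable def wt (n : ℕ) (G : ℝ → ℝ) (X : ℝ) (q : ℕ) : ℝ :=
  Real.log q / X * vt n G X q

/-- The primes `≤ e^(2X)`. -/
noncomputable def QQ (X : ℝ) : Finset ℕ :=
  (range (⌊Real.exp (2 * X)⌋₊ + 1)).filter Nat.Prime

/-- The total weight of the primes. -/
noncomputable def WW (n : ℕ) (G : ℝ → ℝ) (X : ℝ) : ℝ := ∑ q ∈ QQ X, wt n G X q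

/-- The weighted sum of `ψ(q)` over the primes. -/
noncomputable def Sc (n : ℕ) (G : ℝ → ℝ) (X : ℝ) {c : ℕ} (ψ : DirichletCharacter ℂ c) : ℂ :=
  ∑ q ∈ QQ X, ψ (q : ZMod c) * ((wt n G X q : ℝ) : ℂ)

/-- The sum of `ψ(k)` over a finite set. -/
noncomputable def Kc (A : Finset ℕ) {c : ℕ} (ψ : DirichletCharacter ℂ c) : ℂ :=
  ∑ k ∈ A, ψ (k : ZMod c)

open scoped Classical in
/-- The primitive characters modulo `c` (none for `c = 0`). -/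
noncomputable def pc (c : ℕ) : Finset (DirichletCharacter ℂ c) :=
  if h : c = 0 then ∅ else
    haveI : NeZero c := ⟨h⟩
    (Finset.univ : Finset (DirichletCharacter ℂ c)).filter (fun ψ => ψ.IsPrimitive)

theorem mem_pc {c : ℕ} {ψ : DirichletCharacter ℂ c} : ψ ∈ pc c ↔ c ≠ 0 ∧ ψ.IsPrimitive := by
  unfold pc
  split_ifs with h
  · simp [h]
  · simp [h]

/-- `∏ (1 - 1/(r-1))` over the `r ∈ P` which do not divide `k`. -/
noncomputable def VV (P : Finset ℕ) (k : ℕ) : ℝ :=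
  ∏ r ∈ P.filter (fun r => ¬ r ∣ k), (1 - 1 / ((r : ℝ) - 1))

/-- `L(1 + δ, χ)` is at least `θ` in absolute value. -/
def Good (δ θ : ℝ) {c : ℕ} (χ : DirichletCharacter ℂ c) : Prop :=
  θ ≤ ‖LSeries (fun n : ℕ => χ (n : ZMod c)) (1 + (δ : ℂ))‖

open scoped Classical in
/-- The weighted number of the pairs `(k, q)` with `r ∣ m + κ k q` for all `r ∈ D`. -/
noncomputable def AD (n : ℕ) (G : ℝ → ℝ) (X : ℝ) (m : ℤ) (κ : ℕ) (A D : Finset ℕ) : ℝ :=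
  ∑ k ∈ A, ∑ q ∈ QQ X, if ∀ r ∈ D, (r : ℤ) ∣ m + κ * k * q then wt n G X q else 0

/-- The error term for `D`. -/
noncomputable def Err (n : ℕ) (G : ℝ → ℝ) (X : ℝ) (m : ℤ) (κ : ℕ) (A D : Finset ℕ) : ℝ :=
  |AD n G X m κ A D - WW n G X / ((∏ r ∈ D, r).totient : ℝ) *
    ((A.filter (fun k => ∀ r ∈ D, ¬ r ∣ k)).card : ℝ)|

open scoped Classical in
/-- The weighted number of the pairs `(k, q)` with `r ∤ m + κ k q` for all `r ∈ P`. -/
noncomputable def Surv (n : ℕ) (G : ℝ → ℝ) (X : ℝ) (m : ℤ) (κ : ℕ) (A P : Finset ℕ) : ℝ :=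
  ∑ k ∈ A, ∑ q ∈ QQ X, if ∀ r ∈ P, ¬ (r : ℤ) ∣ m + κ * k * q then wt n G X q else 0

/-- The integers in `(2^i, 2^(i+1)]` all of whose prime factors are in `P`. -/
noncomputable def Kset (P : Finset ℕ) (i : ℕ) : Finset ℕ :=
  (Ioc (2 ^ i) (2 ^ (i + 1))).filter (fun k => k.primeFactors ⊆ P)

/-- Properties of the sieve weights `lam` (lower) and `lamu` (upper) for the set `P` of primes,
level `D`. -/
structure IsSW (P : Finset ℕ) (D : ℝ) (lam lamu : Finset ℕ → ℝ) : Prop where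
  abs_le : ∀ S, |lam S| ≤ 1 ∧ |lamu S| ≤ 1
  supp : ∀ S, (lam S ≠ 0 ∨ lamu S ≠ 0) → S ⊆ P ∧ ((∏ p ∈ S, p : ℕ) : ℝ) ≤ D
  lower : ∀ S, S ⊆ P → ∑ T ∈ S.powerset, lam T ≤ if S = ∅ then 1 else 0
  upper : ∀ S, S ⊆ P → (if S = ∅ then (1 : ℝ) else 0) ≤ ∑ T ∈ S.powerset, lamu T
  main : ∀ g : ℕ → ℝ, (∀ p ∈ P, 0 ≤ g p ∧ g p ≤ 2 / p ∧ g p ≤ 2 / 3) →
    1 / 2 * ∏ p ∈ P, (1 - g p) ≤ ∑ T ∈ P.powerset, lam T * ∏ p ∈ T, g p ∧
    ∑ T ∈ P.powerset, lamu T * ∏ p ∈ T, g p ≤ 2 * ∏ p ∈ P, (1 - g p)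

end Pool.Agent.ERB
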