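import Pool.Agent.ERB.Defs

/-!
# ERB / Dich: many smooth multipliers or few primes

Suppose the first alternative fails.  A prime `r ∈ P` with `r > 2 X^18` satisfies `2^i < r ≤ 2^(i+1)` for one `i`,
`2^i ≥ r/2 > X^18`, `2^i < r ≤ z`, and `r ∈ Kset P i` (its only prime factor is `r`).  So the sum over the
`r` of one `i` is `≤ |Kset P i|/2^i < 1/X^2`, and the number of `i` with `2^i ≤ z ≤ e^X` is at most
`X/log 2 + 1 ≤ 2X` (`X ≥ 2`).
-/

set_option autoImplicit false

namespace Pool.Agent.ERB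

open Finset

theorem dich (X : ℝ) (hX : 2 ≤ X) (z : ℕ) (hz : (z : ℝ) ≤ Real.exp X) (P : Finset ℕ)
    (hP : ∀ r ∈ P, r.Prime ∧ r ≤ z) :
    (∃ i : ℕ, X ^ 18 ≤ 2 ^ i ∧ 2 ^ i ≤ z ∧ (2 : ℝ) ^ i / X ^ 2 ≤ ((Kset P i).card : ℝ)) ∨
    ∑ r ∈ P.filter (fun r : ℕ => 2 * X ^ 18 < (r : ℝ)), 1 / (r : ℝ) ≤ 2 / X := by
  classical
  rw [or_iff_not_imp_left]
  intro hno
  push Not at hno
  have hX0 : 0 < X := by linarith
  set P' := P.filter (fun r : ℕ => 2 * X ^ 18 < (r : ℝ)) with hP'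
  have hspec : ∀ r ∈ P', 2 ^ Nat.log 2 (r - 1) < r ∧ r ≤ 2 ^ (Nat.log 2 (r - 1) + 1) := by
    intro r hr
    have hr1 := (hP r (mem_filter.1 hr).1).1.two_le
    have h1 : 2 ^ Nat.log 2 (r - 1) ≤ r - 1 := Nat.pow_log_le_self 2 (by omega)
    have h2 : r - 1 < 2 ^ (Nat.log 2 (r - 1) + 1) := Nat.lt_pow_succ_log_self one_lt_two _
    omega
  have hmap : ∀ r ∈ P', Nat.log 2 (r - 1) ∈ range (Nat.log 2 z + 1) := by
    intro r hr
    rw [mem_range, Nat.lt_succ_iff]
    refine Nat.log_mono_right ?_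
    have := (hP r (mem_filter.1 hr).1).2
    omega
  rw [← sum_fiberwise_of_maps_to hmap]
  have hfib : ∀ i ∈ range (Nat.log 2 z + 1),
      ∑ r ∈ P' with Nat.log 2 (r - 1) = i, 1 / (r : ℝ) ≤ 1 / X ^ 2 := by
    intro i _
    rcases (P'.filter (fun r => Nat.log 2 (r - 1) = i)).eq_empty_or_nonempty with h0 | ⟨r₀, hr₀⟩
    · rw [h0, sum_empty]
      positivity
    · have h2i : (0 : ℝ) < 2 ^ i := by positivity
      obtain ⟨hr₀P, hr₀i⟩ := mem_filter.1 hr₀
      have hs := hspec r₀ hr₀P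
      rw [hr₀i] at hs
      have hr₀z := (hP r₀ (mem_filter.1 hr₀P).1).2
      have hbig : 2 * X ^ 18 < (r₀ : ℝ) := (mem_filter.1 hr₀P).2
      have h1 : X ^ 18 ≤ 2 ^ i := by
        have h2 : (r₀ : ℝ) ≤ 2 ^ (i + 1) := by exact_mod_cast hs.2
        rw [pow_succ] at h2
        linarith
      have h3 : ((Kset P i).card : ℝ) < (2 : ℝ) ^ i / X ^ 2 :=
        hno i h1 (hs.1.le.trans hr₀z)
      have hsub : (P'.filter (fun r => Nat.log 2 (r - 1) = i)) ⊆ Kset P i := by
        intro r hr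
        obtain ⟨hrP, hri⟩ := mem_filter.1 hr
        have hs' := hspec r hrP
        rw [hri] at hs'
        unfold Kset
        rw [mem_filter, mem_Ioc]
        refine ⟨hs', ?_⟩
        rw [(hP r (mem_filter.1 hrP).1).1.primeFactors, singleton_subset_iff]
        exact (mem_filter.1 hrP).1
      calc ∑ r ∈ P' with Nat.log 2 (r - 1) = i, 1 / (r : ℝ) ≤
            ∑ r ∈ P' with Nat.log 2 (r - 1) = i, 1 / (2 : ℝ) ^ i := by
            refine sum_le_sum fun r hr => ?_
            obtain ⟨hrP, hri⟩ := mem_filter.1 hr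
            have hs' := hspec r hrP
            rw [hri] at hs'
            have h4 : (2 : ℝ) ^ i ≤ r := by exact_mod_cast hs'.1.le
            exact one_div_le_one_div_of_le h2i h4
        _ = ((P'.filter (fun r => Nat.log 2 (r - 1) = i)).card : ℝ) * (1 / (2 : ℝ) ^ i) := by
            rw [sum_const, nsmul_eq_mul]
        _ ≤ ((Kset P i).card : ℝ) * (1 / (2 : ℝ) ^ i) := by
            refine mul_le_mul_of_nonneg_right ?_ (by positivity)
            exact_mod_cast card_le_card hsub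
        _ ≤ (2 : ℝ) ^ i / X ^ 2 * (1 / (2 : ℝ) ^ i) := by
            exact mul_le_mul_of_nonneg_right h3.le (by positivity)
        _ = 1 / X ^ 2 := by
            field_simp
  have hcard : ((Nat.log 2 z + 1 : ℕ) : ℝ) ≤ 2 * X := by
    have h1 : (Nat.log 2 z : ℝ) * Real.log 2 ≤ X := by
      rcases Nat.eq_zero_or_pos z with h0 | h0
      · subst h0
        simp
        linarith
      · have h2 : ((2 : ℝ) ^ Nat.log 2 z) ≤ z := by
          exact_mod_cast Nat.pow_log_le_self 2 h0.ne'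
        rw [← Real.log_pow, ← Real.log_exp X]
        exact Real.log_le_log (by positivity) (h2.trans hz)
    have h2 : 0.6931471803 < Real.log 2 := Real.log_two_gt_d9
    push_cast
    nlinarith
  calc ∑ i ∈ range (Nat.log 2 z + 1), ∑ r ∈ P' with Nat.log 2 (r - 1) = i, 1 / (r : ℝ) ≤
        ∑ i ∈ range (Nat.log 2 z + 1), 1 / X ^ 2 := sum_le_sum hfib
    _ = ((Nat.log 2 z + 1 : ℕ) : ℝ) * (1 / X ^ 2) := by
        rw [sum_const, card_range, nsmul_eq_mul]
    _ ≤ 2 * X * (1 / X ^ 2) := mul_le_mul_of_nonneg_right hcard (by positivity)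
    _ = 2 / X := by
        field_simp

end Pool.Agent.ERB
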