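import Pool.Agent.ERB.Wb

/-!
# ERB / ErrC: the error term in terms of primitive characters

Let `d = ∏_{r ∈ D} r` (odd, squarefree, coprime to `m` and `κ`).  `(∀ r ∈ D, r ∣ m + κkq)` iff
`κ k q = -m` in `ZMod d`.  By orthogonality (`DirichletCharacter.sum_char_inv_mul_char_eq` with the unit
`a = -m`): `AD D = (1/φ(d)) ∑_χ χ(a⁻¹) χ(κ) (∑_{k ∈ A} χ(k)) (∑_q wt q χ(q))`, `χ` modulo `d`.
`χ = 1`: `χ(κ) = χ(a⁻¹) = 1`, `∑_k χ(k) = #{k ∈ A : r ∤ k, r ∈ D}`, `∑_q wt q χ(q) = WW` (`wt q ≠ 0` implies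
`q > e^X ≥ r`, `wt_supp`, so `q` is coprime to `d`).
`χ ≠ 1`: let `c > 1` be its conductor, `ψ = χ.primitiveCharacter`; `c ∣ d`, so `c = ∏_{r ∈ D1} r` for
`D1 = D.filter (· ∣ c)`, nonempty.  `χ(a) = ψ(a)` for `a` coprime to `d`
(`primitiveCharacter_apply_of_isCoprime`) and `χ(a) = 0` otherwise.  So `∑_q wt q χ(q) = Sc ψ`, and
`∑_{k ∈ A} χ(k) = ∑_{k ∈ A, r ∤ k for r ∈ D \ D1} ψ(k)` (`ψ(k) = 0` if some `r ∈ D1` divides `k`).
The map `χ ↦ (D1, ψ)` is injective (`changeLevel_primitiveCharacter`), so the sum over `χ ≠ 1` of the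
nonnegative terms is at most the sum over all `(D1, ψ)`.
-/

set_option autoImplicit false

namespace Pool.Agent.ERB

open Finset

namespace ErrC

lemma cop_iff {D : Finset ℕ} (hD : ∀ r ∈ D, r.Prime) (k : ℕ) :
    Nat.Coprime k (∏ r ∈ D, r) ↔ ∀ r ∈ D, ¬ r ∣ k := by
  rw [Nat.coprime_prod_right_iff]
  constructor
  · intro h r hr hdvd
    have h1 := h r hr
    have h2 := (Nat.Prime.coprime_iff_not_dvd (hD r hr)).1 h1.symm
    exact h2 hdvd
  · intro h r hr
    exact ((Nat.Prime.coprime_iff_not_dvd (hD r hr)).2 (h r hr)).symm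

lemma prod_ne_zero {D : Finset ℕ} (hD : ∀ r ∈ D, r.Prime) : ∏ r ∈ D, r ≠ 0 :=
  Finset.prod_ne_zero_iff.2 (fun r hr => (hD r hr).ne_zero)

lemma prod_filter {D : Finset ℕ} (hD : ∀ r ∈ D, r.Prime) {c : ℕ} (hc : c ∣ ∏ r ∈ D, r) :
    ∏ r ∈ D.filter (fun r => r ∣ c), r = c := by
  apply Nat.dvd_antisymm
  · exact Finset.prod_primes_dvd c (fun r hr => (hD r (Finset.mem_filter.1 hr).1).prime)
      (fun r hr => (Finset.mem_filter.1 hr).2)
  · have h1 : (∏ r ∈ D.filter (fun r => r ∣ c), r) * (∏ r ∈ D.filter (fun r => ¬ r ∣ c), r) =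
        ∏ r ∈ D, r := Finset.prod_filter_mul_prod_filter_not D (fun r => r ∣ c) (fun r => r)
    rw [← h1] at hc
    refine Nat.Coprime.dvd_of_dvd_mul_right ?_ hc
    rw [cop_iff (fun r hr => hD r (Finset.mem_filter.1 hr).1)]
    intro r hr
    exact (Finset.mem_filter.1 hr).2

lemma dvd_all {D : Finset ℕ} (hD : ∀ r ∈ D, r.Prime) (z : ℤ) :
    (∀ r ∈ D, (r : ℤ) ∣ z) ↔ ((∏ r ∈ D, r : ℕ) : ℤ) ∣ z := by
  constructor
  · intro h
    rw [Int.natCast_dvd]
    apply Finset.prod_primes_dvd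
    · intro r hr
      exact (hD r hr).prime
    · intro r hr
      exact Int.natCast_dvd.1 (h r hr)
  · intro h r hr
    refine dvd_trans ?_ h
    exact Int.natCast_dvd_natCast.2 (Finset.dvd_prod_of_mem _ hr)

lemma cl_cop {d c : ℕ} (h : c ∣ d) (ψ : DirichletCharacter ℂ c) {k : ℕ} (hk : Nat.Coprime k d) :
    DirichletCharacter.changeLevel h ψ (k : ZMod d) = ψ (k : ZMod c) := by
  have h1 : IsCoprime (k : ℤ) (d : ℤ) := Nat.isCoprime_iff_coprime.2 hk
  have h2 := DirichletCharacter.changeLevel_eq_cast_of_dvd' ψ h h1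
  simpa using h2

lemma zero_of_not_cop {d : ℕ} (χ : DirichletCharacter ℂ d) {k : ℕ} (hk : ¬ Nat.Coprime k d) :
    χ (k : ZMod d) = 0 := by
  apply MulChar.map_nonunit
  rw [ZMod.isUnit_iff_coprime]
  exact hk

/-- the value of the induced character -/
lemma cl_val {D D1 : Finset ℕ} (hD : ∀ r ∈ D, r.Prime) (h1 : D1 ⊆ D)
    (h : (∏ r ∈ D1, r) ∣ ∏ r ∈ D, r) (ψ : DirichletCharacter ℂ (∏ r ∈ D1, r)) (k : ℕ) :
    DirichletCharacter.changeLevel h ψ (k : ZMod (∏ r ∈ D, r)) =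
      if (∀ r ∈ D \ D1, ¬ r ∣ k) then ψ (k : ZMod (∏ r ∈ D1, r)) else 0 := by
  by_cases hk : Nat.Coprime k (∏ r ∈ D, r)
  · rw [cl_cop h ψ hk, if_pos]
    intro r hr
    exact (cop_iff hD k).1 hk r (Finset.mem_sdiff.1 hr).1
  · rw [zero_of_not_cop _ hk]
    split_ifs with h2
    · symm
      apply zero_of_not_cop
      intro h3
      apply hk
      rw [cop_iff hD]
      rw [cop_iff (fun r hr => hD r (h1 hr))] at h3
      intro r hr
      by_cases hr1 : r ∈ D1
      · exact h3 r hr1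
      · exact h2 r (Finset.mem_sdiff.2 ⟨hr, hr1⟩)
    · rfl

lemma exists_prim {d : ℕ} (χ : DirichletCharacter ℂ d) (c : ℕ) (hc : χ.conductor = c) :
    ∃ (h : c ∣ d) (ψ : DirichletCharacter ℂ c), ψ.IsPrimitive ∧
      DirichletCharacter.changeLevel h ψ = χ := by
  subst hc
  exact ⟨χ.conductor_dvd_level, χ.primitiveCharacter, χ.primitiveCharacter_isPrimitive,
    χ.changeLevel_primitiveCharacter⟩

end ErrC

open ErrC

theorem err_char (n : ℕ) (G : ℝ → ℝ) (X ε : ℝ) (hX : 0 < X) (hε : 0 < ε) (hG : IsCut ε G)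
    (m : ℤ) (κ : ℕ) (hκ : κ = 1 ∨ κ = 2) (A D : Finset ℕ) (hD0 : D.Nonempty)
    (hD : ∀ r ∈ D, r.Prime ∧ 3 ≤ r ∧ (r : ℝ) ≤ Real.exp X ∧ ¬ (r : ℤ) ∣ m) :
    Err n G X m κ A D ≤ 1 / ((∏ r ∈ D, r).totient : ℝ) *
      ∑ D1 ∈ D.powerset.filter (fun D1 => D1.Nonempty), ∑ ψ ∈ pc (∏ r ∈ D1, r),
        ‖Kc (A.filter (fun k => ∀ r ∈ D \ D1, ¬ r ∣ k)) ψ‖ * ‖Sc n G X ψ‖ := by
  classical
  have hP : ∀ r ∈ D, r.Prime := fun r hr => (hD r hr).1
  set d : ℕ := ∏ r ∈ D, r with hd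
  have hd0 : d ≠ 0 := prod_ne_zero hP
  have : NeZero d := ⟨hd0⟩
  have hφ : 0 < (d.totient : ℝ) := by exact_mod_cast Nat.totient_pos.2 (Nat.pos_of_ne_zero hd0)
  have hφC : (d.totient : ℂ) ≠ 0 := by
    intro h
    have : (d.totient : ℝ) = 0 := by exact_mod_cast h
    linarith
  -- coprimality facts
  have hκd : Nat.Coprime κ d := by
    rw [cop_iff hP]
    intro r hr hdv
    have h3 := (hD r hr).2.1
    rcases hκ with h | h
    · rw [h] at hdv
      have := Nat.le_of_dvd one_pos hdv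
      omega
    · rw [h] at hdv
      have := Nat.le_of_dvd two_pos hdv
      omega
  have hqcop : ∀ q ∈ QQ X, wt n G X q ≠ 0 → Nat.Coprime q d := by
    intro q hq hw
    rw [cop_iff hP]
    intro r hr hdv
    have hqp : q.Prime := (Finset.mem_filter.1 hq).2
    have h1 := (wt_supp hG n hX hw).1
    have h2 := (hD r hr).2.2.1
    have h3 : Real.exp X ≤ Real.exp ((1 + 5 * ε / 8) * X) := by
      apply Real.exp_le_exp.2
      nlinarith [mul_pos hε hX]
    have h4 : (r : ℝ) < q := by linarith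
    have h5 : r < q := by exact_mod_cast h4
    rcases (Nat.dvd_prime hqp).1 hdv with h6 | h6
    · exact (hP r hr).one_lt.ne' h6
    · omega
  have hmcop : IsUnit (((-m : ℤ)) : ZMod d) := by
    rw [ZMod.coe_int_isUnit_iff_isCoprime]
    rw [Int.isCoprime_iff_gcd_eq_one, Int.gcd_eq_natAbs]
    have h1 : Nat.Coprime (-m).natAbs d := by
      rw [cop_iff hP]
      intro r hr hdv
      apply (hD r hr).2.2.2
      have : (r : ℤ) ∣ -m := Int.natCast_dvd.2 hdv
      exact (dvd_neg).1 this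
    simpa using h1.symm
  set a : ZMod d := (((-m : ℤ)) : ZMod d) with ha
  -- the condition as an equality modulo d
  have hcond : ∀ k q : ℕ, (∀ r ∈ D, (r : ℤ) ∣ m + κ * k * q) ↔ a = ((κ * k * q : ℕ) : ZMod d) := by
    intro k q
    rw [dvd_all hP, ← hd, ← ZMod.intCast_zmod_eq_zero_iff_dvd, ha]
    push_cast
    constructor
    · intro h
      linear_combination -h
    · intro h
      linear_combination -h
  -- the expansion of AD
  have hAD : ((AD n G X m κ A D : ℝ) : ℂ) = 1 / (d.totient : ℂ) *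
      ∑ χ : DirichletCharacter ℂ d, χ a⁻¹ * χ (κ : ZMod d) * Kc A χ * Sc n G X χ := by
    have h1 : ∀ k q : ℕ, (((if ∀ r ∈ D, (r : ℤ) ∣ m + κ * k * q then wt n G X q else 0 : ℝ)) : ℂ) =
        1 / (d.totient : ℂ) * ∑ χ : DirichletCharacter ℂ d,
          χ a⁻¹ * χ (κ : ZMod d) * χ (k : ZMod d) * (χ (q : ZMod d) * ((wt n G X q : ℝ) : ℂ)) := by
      intro k q
      have h2 := DirichletCharacter.sum_char_inv_mul_char_eq ℂ hmcop ((κ * k * q : ℕ) : ZMod d)
      have h3 : ∑ χ : DirichletCharacter ℂ d,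
          χ a⁻¹ * χ (κ : ZMod d) * χ (k : ZMod d) * (χ (q : ZMod d) * ((wt n G X q : ℝ) : ℂ)) =
          (∑ χ : DirichletCharacter ℂ d, χ a⁻¹ * χ ((κ * k * q : ℕ) : ZMod d)) *
            ((wt n G X q : ℝ) : ℂ) := by
        rw [Finset.sum_mul]
        apply Finset.sum_congr rfl
        intro χ _
        push_cast
        rw [map_mul, map_mul]
        ring
      rw [h3, h2]
      by_cases h4 : ∀ r ∈ D, (r : ℤ) ∣ m + κ * k * q
      · rw [if_pos h4, if_pos ((hcond k q).1 h4)]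
        field_simp
      · rw [if_neg h4, if_neg (fun h5 => h4 ((hcond k q).2 h5))]
        simp
    have h4 : ((AD n G X m κ A D : ℝ) : ℂ) = ∑ k ∈ A, ∑ q ∈ QQ X,
        1 / (d.totient : ℂ) * ∑ χ : DirichletCharacter ℂ d,
          χ a⁻¹ * χ (κ : ZMod d) * χ (k : ZMod d) * (χ (q : ZMod d) * ((wt n G X q : ℝ) : ℂ)) := by
      unfold AD
      rw [Complex.ofReal_sum]
      apply Finset.sum_congr rfl
      intro k _
      rw [Complex.ofReal_sum]
      apply Finset.sum_congr rfl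
      intro q _
      rw [← h1 k q]
    rw [h4]
    simp_rw [← Finset.mul_sum]
    congr 1
    have h5 : ∀ k ∈ A, ∑ q ∈ QQ X, ∑ χ : DirichletCharacter ℂ d,
          χ a⁻¹ * χ (κ : ZMod d) * χ (k : ZMod d) * (χ (q : ZMod d) * ((wt n G X q : ℝ) : ℂ)) =
        ∑ χ : DirichletCharacter ℂ d, χ a⁻¹ * χ (κ : ZMod d) * χ (k : ZMod d) * Sc n G X χ := by
      intro k _
      rw [Finset.sum_comm]
      apply Finset.sum_congr rfl
      intro χ _
      unfold Sc
      rw [Finset.mul_sum]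
    rw [Finset.sum_congr rfl h5, Finset.sum_comm]
    apply Finset.sum_congr rfl
    intro χ _
    unfold Kc
    rw [Finset.mul_sum, Finset.sum_mul]
  -- the trivial character
  have hone : ∀ k : ℕ, (1 : DirichletCharacter ℂ d) (k : ZMod d) =
      if (∀ r ∈ D, ¬ r ∣ k) then 1 else 0 := by
    intro k
    split_ifs with h
    · apply MulChar.one_apply
      rw [ZMod.isUnit_iff_coprime]
      exact (cop_iff hP k).2 h
    · apply zero_of_not_cop
      intro h1
      exact h ((cop_iff hP k).1 h1)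
  have hT : (1 : DirichletCharacter ℂ d) a⁻¹ * (1 : DirichletCharacter ℂ d) (κ : ZMod d) *
      Kc A (1 : DirichletCharacter ℂ d) * Sc n G X (1 : DirichletCharacter ℂ d) =
      (((A.filter (fun k => ∀ r ∈ D, ¬ r ∣ k)).card : ℝ) : ℂ) * ((WW n G X : ℝ) : ℂ) := by
    have e1 : (1 : DirichletCharacter ℂ d) a⁻¹ = 1 := by
      apply MulChar.one_apply
      obtain ⟨u, hu⟩ := hmcop
      rw [← hu]
      rw [ZMod.inv_coe_unit]
      exact Units.isUnit _
    have e2 : (1 : DirichletCharacter ℂ d) (κ : ZMod d) = 1 := by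
      apply MulChar.one_apply
      rw [ZMod.isUnit_iff_coprime]
      exact hκd
    have e3 : Kc A (1 : DirichletCharacter ℂ d) =
        (((A.filter (fun k => ∀ r ∈ D, ¬ r ∣ k)).card : ℝ) : ℂ) := by
      unfold Kc
      rw [Finset.sum_congr rfl (fun k _ => hone k), ← Finset.sum_filter]
      simp
    have e4 : Sc n G X (1 : DirichletCharacter ℂ d) = ((WW n G X : ℝ) : ℂ) := by
      unfold Sc WW
      rw [Complex.ofReal_sum]
      apply Finset.sum_congr rfl
      intro q hq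
      by_cases hw : wt n G X q = 0
      · rw [hw]
        simp
      · have : (1 : DirichletCharacter ℂ d) (q : ZMod d) = 1 := by
          apply MulChar.one_apply
          rw [ZMod.isUnit_iff_coprime]
          exact hqcop q hq hw
        rw [this, one_mul]
    rw [e1, e2, e3, e4]
    ring
  -- the error
  have hErr : Err n G X m κ A D = ‖1 / (d.totient : ℂ) *
      ∑ χ ∈ (Finset.univ : Finset (DirichletCharacter ℂ d)).erase 1,
        χ a⁻¹ * χ (κ : ZMod d) * Kc A χ * Sc n G X χ‖ := by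
    have h1 : ((AD n G X m κ A D - WW n G X / (d.totient : ℝ) *
        ((A.filter (fun k => ∀ r ∈ D, ¬ r ∣ k)).card : ℝ) : ℝ) : ℂ) = 1 / (d.totient : ℂ) *
      ∑ χ ∈ (Finset.univ : Finset (DirichletCharacter ℂ d)).erase 1,
        χ a⁻¹ * χ (κ : ZMod d) * Kc A χ * Sc n G X χ := by
      rw [Complex.ofReal_sub, hAD, ← Finset.add_sum_erase _ _ (Finset.mem_univ
        (1 : DirichletCharacter ℂ d)), hT]
      push_cast
      field_simp
      ring
    rw [← h1, Complex.norm_real, Real.norm_eq_abs]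
    unfold Err
    rw [← hd]
  rw [hErr, norm_mul]
  have hφn : ‖(1 : ℂ) / (d.totient : ℂ)‖ = 1 / (d.totient : ℝ) := by
    rw [norm_div, norm_one, Complex.norm_natCast]
  rw [hφn]
  apply mul_le_mul_of_nonneg_left _ (by positivity)
  -- the map (D1, ψ) ↦ induced character
  refine le_trans (norm_sum_le _ _) ?_
  have hle : ∀ χ ∈ (Finset.univ : Finset (DirichletCharacter ℂ d)).erase 1,
      ‖χ a⁻¹ * χ (κ : ZMod d) * Kc A χ * Sc n G X χ‖ ≤ ‖Kc A χ‖ * ‖Sc n G X χ‖ := by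
    intro χ _
    rw [norm_mul, norm_mul, norm_mul]
    have h1 := DirichletCharacter.norm_le_one χ a⁻¹
    have h2 := DirichletCharacter.norm_le_one χ (κ : ZMod d)
    have h3 : ‖χ a⁻¹‖ * ‖χ (κ : ZMod d)‖ ≤ 1 := by
      have := mul_le_mul h1 h2 (norm_nonneg _) zero_le_one
      simpa using this
    have h4 := mul_le_mul_of_nonneg_right h3 (norm_nonneg (Kc A χ))
    have h5 := mul_le_mul_of_nonneg_right h4 (norm_nonneg (Sc n G X χ))
    simpa using h5
  refine le_trans (Finset.sum_le_sum hle) ?_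
  -- domain of pairs
  set T : Finset (Σ D1 : Finset ℕ, DirichletCharacter ℂ (∏ r ∈ D1, r)) :=
    (D.powerset.filter (fun D1 => D1.Nonempty)).sigma (fun D1 => pc (∏ r ∈ D1, r)) with hTdef
  have hdvd : ∀ D1 : Finset ℕ, D1 ⊆ D → (∏ r ∈ D1, r) ∣ d := fun D1 h =>
    Finset.prod_dvd_prod_of_subset _ _ _ h
  let g : (Σ D1 : Finset ℕ, DirichletCharacter ℂ (∏ r ∈ D1, r)) → DirichletCharacter ℂ d :=
    fun x => if h : x.1 ⊆ D then DirichletCharacter.changeLevel (hdvd x.1 h) x.2 else 1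
  have hval : ∀ x ∈ T, ‖Kc A (g x)‖ * ‖Sc n G X (g x)‖ =
      ‖Kc (A.filter (fun k => ∀ r ∈ D \ x.1, ¬ r ∣ k)) x.2‖ * ‖Sc n G X x.2‖ := by
    rintro ⟨D1, ψ⟩ hx
    rw [hTdef, Finset.mem_sigma] at hx
    have hsub : D1 ⊆ D := Finset.mem_powerset.1 (Finset.mem_filter.1 hx.1).1
    have hg : g ⟨D1, ψ⟩ = DirichletCharacter.changeLevel (hdvd D1 hsub) ψ := dif_pos hsub
    rw [hg]
    have hv : ∀ k : ℕ, DirichletCharacter.changeLevel (hdvd D1 hsub) ψ (k : ZMod d) =
      if (∀ r ∈ D \ D1, ¬ r ∣ k) then ψ (k : ZMod (∏ r ∈ D1, r)) else 0 := fun k =>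
        cl_val hP hsub (hdvd D1 hsub) ψ k
    have h1 : Kc A (DirichletCharacter.changeLevel (hdvd D1 hsub) ψ) =
        Kc (A.filter (fun k => ∀ r ∈ D \ D1, ¬ r ∣ k)) ψ := by
      unfold Kc
      rw [Finset.sum_congr rfl (fun k _ => hv k), ← Finset.sum_filter]
    have h2 : Sc n G X (DirichletCharacter.changeLevel (hdvd D1 hsub) ψ) = Sc n G X ψ := by
      unfold Sc
      apply Finset.sum_congr rfl
      intro q hq
      by_cases hw : wt n G X q = 0
      · rw [hw]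
        simp
      · rw [cl_cop (hdvd D1 hsub) ψ (hqcop q hq hw)]
    rw [h1, h2]
  have hRHS : ∑ D1 ∈ D.powerset.filter (fun D1 => D1.Nonempty), ∑ ψ ∈ pc (∏ r ∈ D1, r),
        ‖Kc (A.filter (fun k => ∀ r ∈ D \ D1, ¬ r ∣ k)) ψ‖ * ‖Sc n G X ψ‖ =
      ∑ x ∈ T, ‖Kc A (g x)‖ * ‖Sc n G X (g x)‖ := by
    rw [Finset.sum_congr rfl hval, hTdef, Finset.sum_sigma]
  rw [hRHS]
  have hsurj : ∀ χ ∈ (Finset.univ : Finset (DirichletCharacter ℂ d)).erase 1,
      ∃ x ∈ T, g x = χ := by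
    intro χ hχ
    have hχ1 : χ ≠ 1 := Finset.ne_of_mem_erase hχ
    have hcd : χ.conductor ∣ d := χ.conductor_dvd_level
    have hpc := prod_filter hP hcd
    obtain ⟨h, ψ, hψ, he⟩ := exists_prim χ _ hpc.symm
    have hsub : D.filter (fun r => r ∣ χ.conductor) ⊆ D := Finset.filter_subset _ _
    have hne : (D.filter (fun r => r ∣ χ.conductor)).Nonempty := by
      rw [Finset.nonempty_iff_ne_empty]
      intro h0
      rw [h0, Finset.prod_empty] at hpc
      exact hχ1 ((DirichletCharacter.eq_one_iff_conductor_eq_one).2 hpc.symm)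
    refine ⟨⟨D.filter (fun r => r ∣ χ.conductor), ψ⟩, ?_, ?_⟩
    · rw [hTdef, Finset.mem_sigma]
      refine ⟨Finset.mem_filter.2 ⟨Finset.mem_powerset.2 hsub, hne⟩, ?_⟩
      rw [mem_pc]
      exact ⟨prod_ne_zero (fun r hr => hP r (hsub hr)), hψ⟩
    · have : g ⟨D.filter (fun r => r ∣ χ.conductor), ψ⟩ =
        DirichletCharacter.changeLevel (hdvd _ hsub) ψ := dif_pos hsub
      rw [this]
      exact he
  choose! f hfT hfg using hsurj
  calc ∑ χ ∈ (Finset.univ : Finset (DirichletCharacter ℂ d)).erase 1, ‖Kc A χ‖ * ‖Sc n G X χ‖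
      = ∑ χ ∈ (Finset.univ : Finset (DirichletCharacter ℂ d)).erase 1,
          ‖Kc A (g (f χ))‖ * ‖Sc n G X (g (f χ))‖ := by
        apply Finset.sum_congr rfl
        intro χ hχ
        rw [hfg χ hχ]
    _ = ∑ x ∈ ((Finset.univ : Finset (DirichletCharacter ℂ d)).erase 1).image f,
          ‖Kc A (g x)‖ * ‖Sc n G X (g x)‖ := by
        rw [Finset.sum_image]
        intro χ hχ χ' hχ' h
        rw [← hfg χ hχ, ← hfg χ' hχ', h]
    _ ≤ ∑ x ∈ T, ‖Kc A (g x)‖ * ‖Sc n G X (g x)‖ := by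
        apply Finset.sum_le_sum_of_subset_of_nonneg
        · intro x hx
          obtain ⟨χ, hχ, rfl⟩ := Finset.mem_image.1 hx
          exact hfT χ hχ
        · intro x _ _
          positivity

end Pool.Agent.ERB
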