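import Pool.Agent.ERB.ErrC

/-!
# ERB / ErrS: rearrangement of the error terms

Apply `err_char` to each `D`.  The pairs `(D, D1)`, `D1 ⊆ D`, `D1 ≠ ∅` map injectively to
`(D2, D1) = (D \ D1, D1)`; `∏ D1 ≤ ∏ D ≤ L`, `φ(∏ D) = φ(∏ D1) φ(∏ D2)` (disjoint sets of primes), all terms
are nonnegative.
-/

set_option autoImplicit false

namespace Pool.Agent.ERB

open Finset

private theorem errs_cop {D1 D2 : Finset ℕ} (h1 : ∀ r ∈ D1, r.Prime) (h2 : ∀ r ∈ D2, r.Prime)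
    (hd : Disjoint D1 D2) : Nat.Coprime (∏ r ∈ D1, r) (∏ r ∈ D2, r) := by
  refine Nat.Coprime.prod_left fun p hp => Nat.Coprime.prod_right fun q hq => ?_
  rw [Nat.coprime_primes (h1 p hp) (h2 q hq)]
  rintro rfl
  exact Finset.disjoint_left.1 hd hp hq

theorem err_sum (n : ℕ) (G : ℝ → ℝ) (X ε : ℝ) (hX : 0 < X) (hε : 0 < ε) (hG : IsCut ε G)
    (m : ℤ) (κ : ℕ) (hκ : κ = 1 ∨ κ = 2) (A P : Finset ℕ) (L : ℝ)
    (hP : ∀ r ∈ P, r.Prime ∧ 3 ≤ r ∧ (r : ℝ) ≤ Real.exp X ∧ ¬ (r : ℤ) ∣ m) :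
    ∑ D ∈ P.powerset.filter (fun D => D.Nonempty ∧ ((∏ r ∈ D, r : ℕ) : ℝ) ≤ L),
        Err n G X m κ A D ≤
      ∑ D2 ∈ P.powerset, 1 / ((∏ r ∈ D2, r).totient : ℝ) *
        ∑ D1 ∈ P.powerset.filter (fun D => D.Nonempty ∧ ((∏ r ∈ D, r : ℕ) : ℝ) ≤ L),
          1 / ((∏ r ∈ D1, r).totient : ℝ) * ∑ ψ ∈ pc (∏ r ∈ D1, r),
            ‖Kc (A.filter (fun k => ∀ r ∈ D2, ¬ r ∣ k)) ψ‖ * ‖Sc n G X ψ‖ := by
  classical
  set F := P.powerset.filter (fun D => D.Nonempty ∧ ((∏ r ∈ D, r : ℕ) : ℝ) ≤ L) with hF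
  set g : Finset ℕ × Finset ℕ → ℝ := fun x =>
    1 / ((∏ r ∈ x.1, r).totient : ℝ) * (1 / ((∏ r ∈ x.2, r).totient : ℝ) *
      ∑ ψ ∈ pc (∏ r ∈ x.2, r),
        ‖Kc (A.filter (fun k => ∀ r ∈ x.1, ¬ r ∣ k)) ψ‖ * ‖Sc n G X ψ‖) with hg
  have hg0 : ∀ x, 0 ≤ g x := fun x => by
    refine mul_nonneg (by positivity) (mul_nonneg (by positivity) ?_)
    exact Finset.sum_nonneg fun ψ _ => mul_nonneg (norm_nonneg _) (norm_nonneg _)
  have hpr : ∀ D ⊆ P, ∀ r ∈ D, r.Prime := fun D hD r hr => (hP r (hD hr)).1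
  -- the right side
  have hR : ∑ D2 ∈ P.powerset, 1 / ((∏ r ∈ D2, r).totient : ℝ) *
        ∑ D1 ∈ F, 1 / ((∏ r ∈ D1, r).totient : ℝ) * ∑ ψ ∈ pc (∏ r ∈ D1, r),
            ‖Kc (A.filter (fun k => ∀ r ∈ D2, ¬ r ∣ k)) ψ‖ * ‖Sc n G X ψ‖ =
      ∑ x ∈ P.powerset ×ˢ F, g x := by
    rw [Finset.sum_product]
    refine Finset.sum_congr rfl fun D2 _ => ?_
    rw [Finset.mul_sum]
  rw [hR]
  -- the left side
  set S : Finset (Σ _ : Finset ℕ, Finset ℕ) :=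
    F.sigma (fun D => D.powerset.filter (fun D1 => D1.Nonempty)) with hS
  have hL : ∑ D ∈ F, Err n G X m κ A D ≤ ∑ x ∈ S, g (x.1 \ x.2, x.2) := by
    rw [hS, Finset.sum_sigma]
    refine Finset.sum_le_sum fun D hD => ?_
    rw [hF, Finset.mem_filter, Finset.mem_powerset] at hD
    refine (err_char n G X ε hX hε hG m κ hκ A D hD.2.1 (fun r hr => hP r (hD.1 hr))).trans ?_
    rw [Finset.mul_sum]
    refine le_of_eq (Finset.sum_congr rfl fun D1 hD1 => ?_)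
    rw [Finset.mem_filter, Finset.mem_powerset] at hD1
    have h1 : (∏ r ∈ D, r).totient = (∏ r ∈ D \ D1, r).totient * (∏ r ∈ D1, r).totient := by
      rw [← Nat.totient_mul, Finset.prod_sdiff hD1.1]
      exact errs_cop (fun r hr => hpr D hD.1 r (Finset.mem_sdiff.1 hr).1)
        (fun r hr => hpr D hD.1 r (hD1.1 hr)) Finset.sdiff_disjoint
    simp only [hg]
    rw [h1]
    push_cast
    rw [← mul_assoc, one_div_mul_one_div]
  refine hL.trans ?_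
  have hmS : ∀ D D1 : Finset ℕ, (⟨D, D1⟩ : Σ _ : Finset ℕ, Finset ℕ) ∈ S ↔
      (D ⊆ P ∧ D.Nonempty ∧ ((∏ r ∈ D, r : ℕ) : ℝ) ≤ L) ∧ (D1 ⊆ D ∧ D1.Nonempty) := by
    intro D D1
    simp only [hS, hF, Finset.mem_sigma, Finset.mem_filter, Finset.mem_powerset]
  have hinj : Set.InjOn (fun x : (Σ _ : Finset ℕ, Finset ℕ) => (x.1 \ x.2, x.2)) S := by
    rintro ⟨D, D1⟩ h1 ⟨D', D1'⟩ h2 h
    simp only [Prod.mk.injEq] at h
    obtain ⟨h3, h4⟩ := h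
    subst h4
    rw [Finset.mem_coe, hmS] at h1 h2
    have h5 : D = D' := by
      rw [← Finset.sdiff_union_of_subset h1.2.1, h3, Finset.sdiff_union_of_subset h2.2.1]
    subst h5
    rfl
  rw [← Finset.sum_image (f := g) hinj]
  refine Finset.sum_le_sum_of_subset_of_nonneg ?_ fun x _ _ => hg0 x
  intro y hy
  rw [Finset.mem_image] at hy
  obtain ⟨⟨D, D1⟩, h1, rfl⟩ := hy
  rw [hmS] at h1
  obtain ⟨⟨h2, h3, h4⟩, h5, h6⟩ := h1
  rw [Finset.mem_product, Finset.mem_powerset, hF, Finset.mem_filter, Finset.mem_powerset]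
  refine ⟨Finset.sdiff_subset.trans h2, h5.trans h2, h6, le_trans ?_ h4⟩
  have h7 : ∏ r ∈ D1, r ≤ ∏ r ∈ D, r :=
    Finset.prod_le_prod_of_subset_of_one_le' h5 fun r hr _ => (hpr D h2 r hr).one_lt.le
  exact_mod_cast h7

end Pool.Agent.ERB
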