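import Pool.Agent.ERB.Defs

/-!
# ERB / Fixd: bounded conductors are good

For one character `χ ≠ 1` modulo `c ≥ 1`: `L(s, χ)` (`DirichletCharacter.LFunction`) is continuous at `1`
(`differentiable_LFunction`) and `≠ 0` there (`LFunction_apply_one_ne_zero`), it agrees with the
`LSeries` for `Re s > 1` (`LFunction_eq_LSeries`); `c3/ℓ^9 → 0` and `c4/ℓ^7 → 0` as `ℓ → ∞`, so
`‖L(1 + c3/ℓ^9, χ)‖ ≥ c4/ℓ^7` for large `ℓ`.  There are finitely many `c ≤ R` and characters mod `c`.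
(`Filter.eventually_all_finset`/`eventually_all`.)
-/

set_option autoImplicit false

namespace Pool.Agent.ERB

theorem fixed_good_one (c3 c4 : ℝ) (h3 : 0 < c3) (_h4 : 0 < c4) (c : ℕ) [NeZero c]
    (χ : DirichletCharacter ℂ c) (hχ : χ ≠ 1) :
    ∀ᶠ ℓ : ℝ in Filter.atTop, Good (c3 / ℓ ^ 9) (c4 / ℓ ^ 7) χ := by
  have t9 : Filter.Tendsto (fun ℓ : ℝ => c3 / ℓ ^ 9) Filter.atTop (nhds 0) :=
    tendsto_const_nhds.div_atTop (Filter.tendsto_pow_atTop (by norm_num))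
  have t7 : Filter.Tendsto (fun ℓ : ℝ => c4 / ℓ ^ 7) Filter.atTop (nhds 0) :=
    tendsto_const_nhds.div_atTop (Filter.tendsto_pow_atTop (by norm_num))
  have hF : Filter.Tendsto (fun ℓ : ℝ =>
      ‖DirichletCharacter.LFunction χ (1 + ((c3 / ℓ ^ 9 : ℝ) : ℂ))‖) Filter.atTop
      (nhds ‖DirichletCharacter.LFunction χ 1‖) := by
    have hc : Continuous (DirichletCharacter.LFunction χ) :=
      (DirichletCharacter.differentiable_LFunction hχ).continuous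
    have h1 : Filter.Tendsto (fun ℓ : ℝ => (1 : ℂ) + ((c3 / ℓ ^ 9 : ℝ) : ℂ)) Filter.atTop
        (nhds (1 + ((0 : ℝ) : ℂ))) :=
      tendsto_const_nhds.add ((Complex.continuous_ofReal.tendsto 0).comp t9)
    have h2 := ((hc.tendsto (1 + ((0 : ℝ) : ℂ))).comp h1).norm
    simpa using h2
  have hpos : 0 < ‖DirichletCharacter.LFunction χ 1‖ :=
    norm_pos_iff.mpr (DirichletCharacter.LFunction_apply_one_ne_zero hχ)
  have E1 := hF.eventually (lt_mem_nhds (half_lt_self hpos))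
  have E2 := t7.eventually (gt_mem_nhds (half_pos hpos))
  filter_upwards [E1, E2, Filter.eventually_ge_atTop (1 : ℝ)] with ℓ a1 a2 a3
  have hre : 1 < (1 + ((c3 / ℓ ^ 9 : ℝ) : ℂ)).re := by
    have : 0 < c3 / ℓ ^ 9 := by positivity
    simp only [Complex.add_re, Complex.one_re, Complex.ofReal_re]
    linarith
  unfold Good
  rw [← DirichletCharacter.LFunction_eq_LSeries χ hre]
  linarith

theorem fixed_good (c3 c4 : ℝ) (h3 : 0 < c3) (h4 : 0 < c4) (R : ℕ) :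
    ∃ ℓ0 : ℝ, 1 ≤ ℓ0 ∧ ∀ ℓ : ℝ, ℓ0 ≤ ℓ → ∀ (c : ℕ) [NeZero c] (χ : DirichletCharacter ℂ c),
      c ≤ R → χ ≠ 1 → Good (c3 / ℓ ^ 9) (c4 / ℓ ^ 7) χ := by
  have H : ∀ᶠ ℓ : ℝ in Filter.atTop, ∀ c ∈ Finset.range (R + 1), ∀ (_ : NeZero c)
      (χ : DirichletCharacter ℂ c), χ ≠ 1 → Good (c3 / ℓ ^ 9) (c4 / ℓ ^ 7) χ := by
    rw [Filter.eventually_all_finset]
    intro c _
    by_cases hc : c = 0
    · refine Filter.Eventually.of_forall (fun ℓ hn => ?_)
      exact absurd hc hn.ne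
    · have : NeZero c := ⟨hc⟩
      have := Filter.eventually_all.mpr (fun χ : DirichletCharacter ℂ c => (show
        ∀ᶠ ℓ : ℝ in Filter.atTop, χ ≠ 1 → Good (c3 / ℓ ^ 9) (c4 / ℓ ^ 7) χ from by
          by_cases hχ : χ = 1
          · exact Filter.Eventually.of_forall (fun ℓ h => absurd hχ h)
          · exact (fixed_good_one c3 c4 h3 h4 c χ hχ).mono (fun ℓ h _ => h)))
      exact this.mono (fun ℓ h _ χ hχ => h χ hχ)
  obtain ⟨ℓ1, h1⟩ := Filter.eventually_atTop.mp H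
  refine ⟨max 1 ℓ1, le_max_left _ _, ?_⟩
  intro ℓ hℓ c hn χ hcR hχ
  exact h1 ℓ (le_trans (le_max_right _ _) hℓ) c (Finset.mem_range.mpr (by omega)) hn χ hχ

end Pool.Agent.ERB
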