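import Pool.Agent.ERB.Mj

/-!
# ERB / Lip: Lipschitz bound

The derivative of `s ↦ L(s, χ)` on `Re s > 1` is `-∑ χ(n) log n n^(-s)` (`LSeries_hasDerivAt`,
`LSeries_deriv`), bounded by `C (1 + log c)^2` on the convex set `{Re s > 1, ‖s‖ ≤ 3}` (`Mj_bound 1`, the
function `LSeries.logMul f n = log n * f n`).  Mean value inequality on the convex set
(`Convex.norm_image_sub_le_of_norm_deriv_le` or `..._hasDerivWithin_le`).
-/

set_option autoImplicit false

namespace Pool.Agent.ERB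

theorem lip : ∃ C : ℝ, 0 < C ∧ ∀ (c : ℕ) [NeZero c] (χ : DirichletCharacter ℂ c),
    χ ≠ 1 → ∀ s s' : ℂ, 1 < s.re → ‖s‖ ≤ 3 → 1 < s'.re → ‖s'‖ ≤ 3 →
      ‖LSeries (fun n : ℕ => χ (n : ZMod c)) s - LSeries (fun n : ℕ => χ (n : ZMod c)) s'‖ ≤
        C * (1 + Real.log c) ^ 2 * ‖s - s'‖ := by
  obtain ⟨C, hC, h⟩ := Mj_bound 1
  refine ⟨C, hC, ?_⟩
  intro c _ χ hχ s s' hs hs3 hs' hs'3
  have hcv : Convex ℝ ({z : ℂ | 1 < z.re} ∩ Metric.closedBall (0 : ℂ) 3) := by
    refine Convex.inter ?_ (convex_closedBall _ _)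
    exact convex_halfSpace_re_gt 1
  have habs : ∀ z : ℂ, 1 < z.re →
      LSeries.abscissaOfAbsConv (fun n : ℕ => χ (n : ZMod c)) < z.re := by
    intro z hz
    refine lt_of_le_of_lt (LSeries.abscissaOfAbsConv_le_of_le_const
      ⟨1, fun n _ => DirichletCharacter.norm_le_one _ _⟩) ?_
    exact_mod_cast hz
  refine Convex.norm_image_sub_le_of_norm_hasDerivWithin_le
    (f := LSeries (fun n : ℕ => χ (n : ZMod c)))
    (f' := fun z => -LSeries (LSeries.logMul (fun n : ℕ => χ (n : ZMod c))) z)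
    (s := {z : ℂ | 1 < z.re} ∩ Metric.closedBall (0 : ℂ) 3) ?_ ?_ hcv ?_ ?_
  · intro z hz
    exact (LSeries_hasDerivAt (habs z hz.1)).hasDerivWithinAt
  · intro z hz
    rw [norm_neg]
    have h1 := h c χ hχ z hz.1 (by simpa using hz.2)
    have e : (LSeries.logMul (fun n : ℕ => χ (n : ZMod c))) =
        fun n : ℕ => χ (n : ZMod c) * ((Real.log n : ℝ) : ℂ) ^ 1 := by
      funext n
      simp only [LSeries.logMul, pow_one]
      rw [mul_comm, Complex.ofReal_log (Nat.cast_nonneg n)]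
      simp
    rw [e]
    simpa using h1
  · exact ⟨hs', by simpa using hs'3⟩
  · exact ⟨hs, by simpa using hs3⟩

end Pool.Agent.ERB
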