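import Pool.Agent.ERB.Mj
import Pool.Agent.ERB.Zb

/-!
# ERB / Rpair: two real characters

Let `χ3 = changeLevel χ1 * changeLevel χ2` modulo `c1 c2`; `χ3(n) = χ1(n) χ2(n)` for all integers `n`
(both sides vanish if `n` is not coprime to `c1 c2`).  `χ3 ≠ 1`: otherwise
`changeLevel χ1 = (changeLevel χ2)⁻¹ = changeLevel χ2` (as `χ2² = 1`), the conductors agree
(`conductor_changeLevel` and primitivity), so `c1 = c2` and `χ1 = χ2` (`changeLevel_injective`).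
For real `σ = 1 + δ` the Euler products (`DirichletCharacter.LSeries_eulerProduct_hasProd`) of
`ζ(σ) = L(1 mod 1)`, `L(χ1)`, `L(χ2)`, `L(χ3)` multiply to an infinite product over the primes of
`((1 - x)(1 - a x)(1 - b x)(1 - a b x))⁻¹`, `x = p^(-σ) ∈ (0,1)`, `a = χ1(p)`, `b = χ2(p) ∈ {0, 1, -1}`
(`χ² = 1` gives `χ(p)² ∈ {0,1}`).  Each factor is a real number `≥ 1` (nine cases:
`(1-x)^4, (1-x^2)^2, (1-x)^2, 1 - x^2, 1 - x` are `≤ 1`), so the norm of the product is `≥ 1`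
(`HasProd` of norms, `ge_of_tendsto`, finite products of numbers `≥ 1`).
So `1 ≤ (2/δ) ‖L(χ1)‖ ‖L(χ2)‖ C (1 + log (c1 c2))` by `zeta_le` and `Mj_bound 0`.
-/

set_option autoImplicit false

namespace Pool.Agent.ERB

namespace Rpair

open Filter Topology

theorem val_cases {c : ℕ} (χ : DirichletCharacter ℂ c) (h : χ ^ 2 = 1) (a : ZMod c) :
    χ a = 0 ∨ χ a = 1 ∨ χ a = -1 := by
  by_cases ha : IsUnit a
  · right
    have h1 : (χ ^ 2) a = 1 := by rw [h]; exact MulChar.one_apply ha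
    rw [MulChar.pow_apply' χ two_ne_zero] at h1
    exact mul_self_eq_one_iff.1 (by rw [← sq]; exact h1)
  · left
    exact χ.map_nonunit ha

theorem poly_case (x : ℝ) (hx0 : 0 < x) (hx1 : x < 1) (a b : ℂ) (ha : a = 0 ∨ a = 1 ∨ a = -1)
    (hb : b = 0 ∨ b = 1 ∨ b = -1) :
    ∃ y : ℝ, 0 < y ∧ y ≤ 1 ∧
      (1 - (x : ℂ)) * (1 - a * x) * (1 - b * x) * (1 - (a * b) * x) = (y : ℂ) := by
  have h1 : 0 < 1 - x := by linarith
  have h1' : 1 - x ≤ 1 := by linarith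
  have h2 : 0 < 1 - x ^ 2 := by nlinarith
  have h2' : 1 - x ^ 2 ≤ 1 := by nlinarith
  rcases ha with rfl | rfl | rfl <;> rcases hb with rfl | rfl | rfl
  · exact ⟨1 - x, h1, h1', by push_cast; ring⟩
  · exact ⟨(1 - x) ^ 2, by positivity, by nlinarith, by push_cast; ring⟩
  · exact ⟨1 - x ^ 2, h2, h2', by push_cast; ring⟩
  · exact ⟨(1 - x) ^ 2, by positivity, by nlinarith, by push_cast; ring⟩
  · exact ⟨(1 - x) ^ 4, by positivity, pow_le_one₀ h1.le h1', by push_cast; ring⟩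
  · exact ⟨(1 - x ^ 2) ^ 2, by positivity, pow_le_one₀ h2.le h2', by push_cast; ring⟩
  · exact ⟨1 - x ^ 2, h2, h2', by push_cast; ring⟩
  · exact ⟨(1 - x ^ 2) ^ 2, by positivity, pow_le_one₀ h2.le h2', by push_cast; ring⟩
  · exact ⟨(1 - x ^ 2) ^ 2, by positivity, pow_le_one₀ h2.le h2', by push_cast; ring⟩

theorem factor_ge (x : ℝ) (hx0 : 0 < x) (hx1 : x < 1) (a b : ℂ) (ha : a = 0 ∨ a = 1 ∨ a = -1)
    (hb : b = 0 ∨ b = 1 ∨ b = -1) :
    1 ≤ ‖(1 - (x : ℂ))⁻¹ * (1 - a * x)⁻¹ * (1 - b * x)⁻¹ * (1 - (a * b) * x)⁻¹‖ := by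
  obtain ⟨y, hy0, hy1, hy⟩ := poly_case x hx0 hx1 a b ha hb
  have : (1 - (x : ℂ))⁻¹ * (1 - a * x)⁻¹ * (1 - b * x)⁻¹ * (1 - (a * b) * x)⁻¹ = (y : ℂ)⁻¹ := by
    rw [← hy]
    simp only [mul_inv]
  rw [this, norm_inv, Complex.norm_real, Real.norm_of_nonneg hy0.le]
  exact (one_le_inv₀ hy0).2 hy1

/-- the product character -/
noncomputable def ch3 {c1 c2 : ℕ} (χ1 : DirichletCharacter ℂ c1) (χ2 : DirichletCharacter ℂ c2) :
    DirichletCharacter ℂ (c1 * c2) :=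
  DirichletCharacter.changeLevel (dvd_mul_right c1 c2) χ1 *
    DirichletCharacter.changeLevel (dvd_mul_left c2 c1) χ2

theorem ch3_apply {c1 c2 : ℕ} (χ1 : DirichletCharacter ℂ c1)
    (χ2 : DirichletCharacter ℂ c2) (n : ℕ) :
    ch3 χ1 χ2 (n : ZMod (c1 * c2)) = χ1 (n : ZMod c1) * χ2 (n : ZMod c2) := by
  by_cases h : IsCoprime (n : ℤ) ((c1 * c2 : ℕ) : ℤ)
  · have h1 := DirichletCharacter.changeLevel_eq_cast_of_dvd' χ1 (dvd_mul_right c1 c2) h
    have h2 := DirichletCharacter.changeLevel_eq_cast_of_dvd' χ2 (dvd_mul_left c2 c1) h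
    simp only [Int.cast_natCast] at h1 h2
    rw [ch3, MulChar.mul_apply, h1, h2]
  · have h3 : ch3 χ1 χ2 (((n : ℤ)) : ZMod (c1 * c2)) = 0 := by
      rw [DirichletCharacter.apply_eq_zero_iff]
      exact h
    rw [Int.cast_natCast] at h3
    rw [h3]
    have h4 : ¬ IsCoprime (n : ℤ) (c1 : ℤ) ∨ ¬ IsCoprime (n : ℤ) (c2 : ℤ) := by
      by_contra hcon
      push Not at hcon
      apply h
      push_cast
      exact IsCoprime.mul_right hcon.1 hcon.2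
    rcases h4 with h4 | h4
    · have := (DirichletCharacter.apply_eq_zero_iff χ1 (n : ℤ)).2 h4
      rw [Int.cast_natCast] at this
      rw [this, zero_mul]
    · have := (DirichletCharacter.apply_eq_zero_iff χ2 (n : ℤ)).2 h4
      rw [Int.cast_natCast] at this
      rw [this, mul_zero]

theorem ch3_ne_one {c1 c2 : ℕ} [NeZero c1] [NeZero c2]
    (χ1 : DirichletCharacter ℂ c1) (χ2 : DirichletCharacter ℂ c2)
    (p1 : χ1.IsPrimitive) (p2 : χ2.IsPrimitive) (h2 : χ2 ^ 2 = 1)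
    (hne : (⟨c1, χ1⟩ : Σ c : ℕ, DirichletCharacter ℂ c) ≠ ⟨c2, χ2⟩) :
    ch3 χ1 χ2 ≠ 1 := by
  intro h
  have : NeZero (c1 * c2) := ⟨mul_ne_zero (NeZero.ne c1) (NeZero.ne c2)⟩
  have e2 : (DirichletCharacter.changeLevel (dvd_mul_left c2 c1) χ2) ^ 2 = 1 := by
    rw [← map_pow, h2, map_one]
  have e1 : DirichletCharacter.changeLevel (dvd_mul_right c1 c2) χ1 =
      DirichletCharacter.changeLevel (dvd_mul_left c2 c1) χ2 := by
    have h' : DirichletCharacter.changeLevel (dvd_mul_right c1 c2) χ1 *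
      DirichletCharacter.changeLevel (dvd_mul_left c2 c1) χ2 = 1 := h
    calc _ = DirichletCharacter.changeLevel (dvd_mul_right c1 c2) χ1 *
        (DirichletCharacter.changeLevel (dvd_mul_left c2 c1) χ2) ^ 2 := by rw [e2, mul_one]
      _ = (DirichletCharacter.changeLevel (dvd_mul_right c1 c2) χ1 *
        DirichletCharacter.changeLevel (dvd_mul_left c2 c1) χ2) *
          DirichletCharacter.changeLevel (dvd_mul_left c2 c1) χ2 := by rw [sq, mul_assoc]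
      _ = _ := by rw [h', one_mul]
  have ec : c1 = c2 := by
    have k1 := DirichletCharacter.conductor_changeLevel χ1 (dvd_mul_right c1 c2)
    have k2 := DirichletCharacter.conductor_changeLevel χ2 (dvd_mul_left c2 c1)
    rw [p1] at k1
    rw [p2] at k2
    exact k1.symm.trans ((congrArg DirichletCharacter.conductor e1).trans k2)
  subst ec
  apply hne
  have := DirichletCharacter.changeLevel_injective (R := ℂ) (dvd_mul_left c1 c1)
    (a₁ := χ1) (a₂ := χ2) e1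
  rw [this]

theorem prod_ge {c1 c2 : ℕ}
    (χ1 : DirichletCharacter ℂ c1) (χ2 : DirichletCharacter ℂ c2)
    (h1 : χ1 ^ 2 = 1) (h2 : χ2 ^ 2 = 1) (δ : ℝ) (hδ : 0 < δ) :
    1 ≤ ‖LSeries (fun n : ℕ => (1 : DirichletCharacter ℂ 1) (n : ZMod 1)) (1 + (δ : ℂ))‖ *
      ‖LSeries (fun n : ℕ => χ1 (n : ZMod c1)) (1 + (δ : ℂ))‖ *
      ‖LSeries (fun n : ℕ => χ2 (n : ZMod c2)) (1 + (δ : ℂ))‖ *
      ‖LSeries (fun n : ℕ => ch3 χ1 χ2 (n : ZMod (c1 * c2))) (1 + (δ : ℂ))‖ := by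
  have hs : 1 < (1 + (δ : ℂ)).re := by simp [hδ]
  have P0 := DirichletCharacter.LSeries_eulerProduct_hasProd (1 : DirichletCharacter ℂ 1) hs
  have P1 := DirichletCharacter.LSeries_eulerProduct_hasProd χ1 hs
  have P2 := DirichletCharacter.LSeries_eulerProduct_hasProd χ2 hs
  have P3 := DirichletCharacter.LSeries_eulerProduct_hasProd (ch3 χ1 χ2) hs
  have P := (((P0.mul P1).mul P2).mul P3).norm
  rw [← norm_mul, ← norm_mul, ← norm_mul]
  refine ge_of_tendsto' P ?_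
  intro s
  refine Finset.prod_induction _ (fun x : ℝ => 1 ≤ x)
    (fun a b ha hb => one_le_mul_of_one_le_of_one_le ha hb) le_rfl ?_
  intro p _
  have hp1 : (1 : ℝ) < (p : ℕ) := by exact_mod_cast p.2.one_lt
  have hx0 : 0 < ((p : ℕ) : ℝ) ^ (-(1 + δ)) := Real.rpow_pos_of_pos (by linarith) _
  have hx1 : ((p : ℕ) : ℝ) ^ (-(1 + δ)) < 1 :=
    Real.rpow_lt_one_of_one_lt_of_neg hp1 (by linarith)
  have hx : (((p : ℕ) : ℝ) ^ (-(1 + δ)) : ℝ) = (((p : ℕ) : ℂ)) ^ (-(1 + (δ : ℂ))) := by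
    rw [Complex.ofReal_cpow (by linarith)]
    push_cast
    rfl
  have := factor_ge _ hx0 hx1 (χ1 ((p : ℕ) : ZMod c1)) (χ2 ((p : ℕ) : ZMod c2))
    (val_cases χ1 h1 _) (val_cases χ2 h2 _)
  rw [hx] at this
  have e0 : (1 : DirichletCharacter ℂ 1) ((p : ℕ) : ZMod 1) = 1 := by
    apply MulChar.one_apply
    exact isUnit_of_subsingleton _
  rw [e0, one_mul, ch3_apply]
  exact this

end Rpair

theorem real_pair : ∃ C : ℝ, 0 < C ∧ ∀ (c1 c2 : ℕ) [NeZero c1] [NeZero c2]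
    (χ1 : DirichletCharacter ℂ c1) (χ2 : DirichletCharacter ℂ c2),
    χ1.IsPrimitive → χ2.IsPrimitive → χ1 ≠ 1 → χ2 ≠ 1 → χ1 ^ 2 = 1 → χ2 ^ 2 = 1 →
    (⟨c1, χ1⟩ : Σ c : ℕ, DirichletCharacter ℂ c) ≠ ⟨c2, χ2⟩ → ∀ δ : ℝ, 0 < δ → δ ≤ 1 →
      C * δ / (1 + Real.log (c1 * c2 : ℕ)) ≤
        ‖LSeries (fun n : ℕ => χ1 (n : ZMod c1)) (1 + (δ : ℂ))‖ *
          ‖LSeries (fun n : ℕ => χ2 (n : ZMod c2)) (1 + (δ : ℂ))‖ := by
  obtain ⟨C, hC, hM⟩ := Mj_bound 0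
  refine ⟨1 / (2 * C), by positivity, ?_⟩
  intro c1 c2 _ _ χ1 χ2 p1 p2 n1 n2 s1 s2 hne δ hδ hδ1
  have : NeZero (c1 * c2) := ⟨mul_ne_zero (NeZero.ne c1) (NeZero.ne c2)⟩
  have hs : 1 < (1 + (δ : ℂ)).re := by simp [hδ]
  have hn : ‖(1 + (δ : ℂ))‖ ≤ 3 := by
    refine (norm_add_le _ _).trans ?_
    rw [norm_one, Complex.norm_real, Real.norm_of_nonneg hδ.le]
    linarith
  have h3 := hM (c1 * c2) (Rpair.ch3 χ1 χ2) (Rpair.ch3_ne_one χ1 χ2 p1 p2 s2 hne) _ hs hn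
  simp only [pow_zero, mul_one, zero_add, pow_one] at h3
  have h0 := zeta_le (fun n : ℕ => (1 : DirichletCharacter ℂ 1) (n : ZMod 1))
    (fun n => (1 : DirichletCharacter ℂ 1).norm_le_one _) δ hδ hδ1
  have hp := Rpair.prod_ge χ1 χ2 s1 s2 δ hδ
  set A := ‖LSeries (fun n : ℕ => χ1 (n : ZMod c1)) (1 + (δ : ℂ))‖ with hA
  set B := ‖LSeries (fun n : ℕ => χ2 (n : ZMod c2)) (1 + (δ : ℂ))‖ with hB
  set Z := ‖LSeries (fun n : ℕ => (1 : DirichletCharacter ℂ 1) (n : ZMod 1)) (1 + (δ : ℂ))‖ with hZ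
  set W := ‖LSeries (fun n : ℕ => Rpair.ch3 χ1 χ2 (n : ZMod (c1 * c2))) (1 + (δ : ℂ))‖ with hW
  have hA0 : 0 ≤ A := norm_nonneg _
  have hB0 : 0 ≤ B := norm_nonneg _
  have hZ0 : 0 ≤ Z := norm_nonneg _
  have hW0 : 0 ≤ W := norm_nonneg _
  have hlog : 0 ≤ Real.log (c1 * c2 : ℕ) := Real.log_natCast_nonneg _
  set L := 1 + Real.log (c1 * c2 : ℕ) with hL
  have hL0 : 0 < L := by positivity
  have key : 1 ≤ (2 / δ) * (A * B) * (C * L) := by
    calc (1 : ℝ) ≤ Z * A * B * W := hp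
      _ = Z * (A * B) * W := by ring
      _ ≤ (2 / δ) * (A * B) * (C * L) := by
          apply mul_le_mul _ h3 hW0 (by positivity)
          exact mul_le_mul_of_nonneg_right h0 (by positivity)
  rw [div_le_iff₀ hL0]
  have : 1 / (2 * C) * δ ≤ 1 / (2 * C) * δ * ((2 / δ) * (A * B) * (C * L)) :=
    le_mul_of_one_le_right (by positivity) key
  refine this.trans (le_of_eq ?_)
  field_simp

end Pool.Agent.ERB
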