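import Pool.Agent.ERB.Cpx
import Pool.Agent.ERB.Rpair
import Pool.Agent.ERB.Lip

/-!
# ERB / GoodL: at most one bad character

Constants `C1` (`cpx_lower`), `C2` (`real_pair`), `C` (`lip`).  Choose
`c3 = min 1, C1/(4C)^4, C2/(32 C^2), 1/(4C)` and `c4 = 4 C c3 ≤ 1`; `δ = c3/ℓ^9`, `θ = c4/ℓ^7`.
(a) `χ² ≠ 1`: `‖L‖^4 ≥ C1 δ^3/ℓ = C1 c3^3/ℓ^28 ≥ c4^4/ℓ^28 = θ^4`, as `c4^4 = (4C)^4 c3^4 ≤ C1 c3^3`.
(b) two bad real primitive characters which are different: `θ^2 > ‖L1‖ ‖L2‖ ≥ C2 δ/(2ℓ)`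
(`1 + log (c1 c2) ≤ 2 ℓ`), i.e. `c4^2/ℓ^14 > C2 c3/(2 ℓ^10)`, but `c4^2 = 16 C^2 c3^2 ≤ C2 c3/2`, `ℓ ≥ 1`.
(c) good: `‖L(s)‖ ≥ θ - C ℓ^2 ‖s - 1 - δ‖ ≥ θ - 2 C ℓ^2 δ = c4/ℓ^7 - 2 C c3/ℓ^7 = θ/2` (`lip`;
`1 + δ` and `s` have norm `≤ 3` as `‖s - 1‖ ≤ δ ≤ 1`).
-/

set_option autoImplicit false

namespace Pool.Agent.ERB

theorem good_exists : ∃ c3 c4 : ℝ, 0 < c3 ∧ c3 ≤ 1 ∧ 0 < c4 ∧ c4 ≤ 1 ∧ ∀ ℓ : ℝ, 1 ≤ ℓ →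
    (∀ (c : ℕ) [NeZero c] (χ : DirichletCharacter ℂ c), 1 + Real.log c ≤ ℓ → χ ^ 2 ≠ 1 →
      Good (c3 / ℓ ^ 9) (c4 / ℓ ^ 7) χ) ∧
    (∀ (c1 c2 : ℕ) [NeZero c1] [NeZero c2] (χ1 : DirichletCharacter ℂ c1)
      (χ2 : DirichletCharacter ℂ c2), 1 + Real.log c1 ≤ ℓ → 1 + Real.log c2 ≤ ℓ →
      χ1.IsPrimitive → χ2.IsPrimitive → χ1 ≠ 1 → χ2 ≠ 1 → χ1 ^ 2 = 1 → χ2 ^ 2 = 1 →
      ¬ Good (c3 / ℓ ^ 9) (c4 / ℓ ^ 7) χ1 → ¬ Good (c3 / ℓ ^ 9) (c4 / ℓ ^ 7) χ2 →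
      (⟨c1, χ1⟩ : Σ c : ℕ, DirichletCharacter ℂ c) = ⟨c2, χ2⟩) ∧
    (∀ (c : ℕ) [NeZero c] (χ : DirichletCharacter ℂ c), 1 + Real.log c ≤ ℓ → χ ≠ 1 →
      Good (c3 / ℓ ^ 9) (c4 / ℓ ^ 7) χ → ∀ s : ℂ, 1 < s.re → ‖s - 1‖ ≤ c3 / ℓ ^ 9 →
      c4 / ℓ ^ 7 / 2 ≤ ‖LSeries (fun n : ℕ => χ (n : ZMod c)) s‖) := by
  obtain ⟨C1, hC1, hcpx⟩ := cpx_lower
  obtain ⟨C2, hC2, hpair⟩ := real_pair
  obtain ⟨C, hC, hlip⟩ := lip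
  obtain ⟨c3, hc3⟩ : ∃ c3, c3 = min 1 (min (C1 / (4 * C) ^ 4) (min (C2 / (32 * C ^ 2))
    (1 / (4 * C)))) := ⟨_, rfl⟩
  have hc3pos : 0 < c3 := by
    rw [hc3]
    refine lt_min one_pos (lt_min ?_ (lt_min ?_ ?_)) <;> positivity
  have hc31 : c3 ≤ 1 := by rw [hc3]; exact min_le_left _ _
  have hc3a : (4 * C) ^ 4 * c3 ≤ C1 := by
    have h1 : c3 ≤ C1 / (4 * C) ^ 4 := by
      rw [hc3]
      exact (min_le_right _ _).trans (min_le_left _ _)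
    rw [le_div_iff₀ (by positivity)] at h1
    linarith
  have hc3b : 32 * C ^ 2 * c3 ≤ C2 := by
    have h1 : c3 ≤ C2 / (32 * C ^ 2) := by
      rw [hc3]
      exact (min_le_right _ _).trans ((min_le_right _ _).trans (min_le_left _ _))
    rw [le_div_iff₀ (by positivity)] at h1
    linarith
  have hc3c : 4 * C * c3 ≤ 1 := by
    have h1 : c3 ≤ 1 / (4 * C) := by
      rw [hc3]
      exact (min_le_right _ _).trans ((min_le_right _ _).trans (min_le_right _ _))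
    rw [le_div_iff₀ (by positivity)] at h1
    linarith
  refine ⟨c3, 4 * C * c3, hc3pos, hc31, by positivity, hc3c, fun ℓ hℓ => ?_⟩
  have hℓ0 : 0 < ℓ := by linarith
  have hδ0 : 0 < c3 / ℓ ^ 9 := by positivity
  have hδ1 : c3 / ℓ ^ 9 ≤ 1 := by
    rw [div_le_one (by positivity)]
    exact hc31.trans (one_le_pow₀ hℓ)
  have hlog : ∀ (c : ℕ) [NeZero c], 0 ≤ Real.log c := by
    intro c _
    exact Real.log_natCast_nonneg c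
  refine ⟨?_, ?_, ?_⟩
  · intro c _ χ hc hχ
    unfold Good
    have h1 := hcpx c χ hχ _ hδ0 hδ1
    obtain ⟨N, hN⟩ : ∃ N, N = ‖LSeries (fun n : ℕ => χ (n : ZMod c))
      (1 + ((c3 / ℓ ^ 9 : ℝ) : ℂ))‖ := ⟨_, rfl⟩
    rw [← hN] at h1 ⊢
    have hN0 : 0 ≤ N := by rw [hN]; exact norm_nonneg _
    by_contra hlt
    rw [not_le] at hlt
    have h2 : N ^ 4 < (4 * C * c3 / ℓ ^ 7) ^ 4 := pow_lt_pow_left₀ hlt hN0 (by norm_num)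
    have h3 : C1 * (c3 / ℓ ^ 9) ^ 3 / ℓ ≤ C1 * (c3 / ℓ ^ 9) ^ 3 / (1 + Real.log c) := by
      have := hlog c
      exact div_le_div_of_nonneg_left (by positivity) (by linarith) hc
    have h4 : (4 * C * c3 / ℓ ^ 7) ^ 4 ≤ C1 * (c3 / ℓ ^ 9) ^ 3 / ℓ := by
      have e1 : (4 * C * c3 / ℓ ^ 7) ^ 4 = ((4 * C) ^ 4 * c3) * c3 ^ 3 / ℓ ^ 28 := by
        field_simp
      have e2 : C1 * (c3 / ℓ ^ 9) ^ 3 / ℓ = C1 * c3 ^ 3 / ℓ ^ 28 := by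
        field_simp
      rw [e1, e2]
      gcongr
    linarith
  · intro c1 c2 _ _ χ1 χ2 hc1 hc2 hp1 hp2 hn1 hn2 hs1 hs2 hg1 hg2
    by_contra hne
    have h1 := hpair c1 c2 χ1 χ2 hp1 hp2 hn1 hn2 hs1 hs2 hne _ hδ0 hδ1
    unfold Good at hg1 hg2
    rw [not_le] at hg1 hg2
    have h2 : ‖LSeries (fun n : ℕ => χ1 (n : ZMod c1)) (1 + ((c3 / ℓ ^ 9 : ℝ) : ℂ))‖ *
        ‖LSeries (fun n : ℕ => χ2 (n : ZMod c2)) (1 + ((c3 / ℓ ^ 9 : ℝ) : ℂ))‖ <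
        (4 * C * c3 / ℓ ^ 7) * (4 * C * c3 / ℓ ^ 7) :=
      mul_lt_mul'' hg1 hg2 (norm_nonneg _) (norm_nonneg _)
    have hl1 := hlog c1
    have hl2 := hlog c2
    have h3 : Real.log (c1 * c2 : ℕ) = Real.log c1 + Real.log c2 := by
      push_cast
      exact Real.log_mul (Nat.cast_ne_zero.2 (NeZero.ne c1)) (Nat.cast_ne_zero.2 (NeZero.ne c2))
    have h4 : C2 * (c3 / ℓ ^ 9) / (2 * ℓ) ≤ C2 * (c3 / ℓ ^ 9) / (1 + Real.log (c1 * c2 : ℕ)) := by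
      rw [h3]
      exact div_le_div_of_nonneg_left (by positivity) (by linarith) (by linarith)
    have h5 : (4 * C * c3 / ℓ ^ 7) * (4 * C * c3 / ℓ ^ 7) ≤ C2 * (c3 / ℓ ^ 9) / (2 * ℓ) := by
      have e1 : (4 * C * c3 / ℓ ^ 7) * (4 * C * c3 / ℓ ^ 7) =
          (32 * C ^ 2 * c3) * c3 / (2 * ℓ ^ 14) := by
        field_simp
        ring
      have e2 : C2 * (c3 / ℓ ^ 9) / (2 * ℓ) = C2 * c3 / (2 * ℓ ^ 10) := by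
        field_simp
      rw [e1, e2]
      have h6 : ℓ ^ 10 ≤ ℓ ^ 14 := pow_le_pow_right₀ hℓ (by norm_num)
      gcongr
    linarith
  · intro c _ χ hc hχ hg s hs hsn
    have h1 : ‖s‖ ≤ 3 := by
      have : ‖s‖ ≤ ‖s - 1‖ + ‖(1 : ℂ)‖ := by
        have := norm_add_le (s - 1) 1
        rwa [sub_add_cancel] at this
      rw [norm_one] at this
      linarith
    have hnδ : ‖((c3 / ℓ ^ 9 : ℝ) : ℂ)‖ = c3 / ℓ ^ 9 := by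
      rw [Complex.norm_real, Real.norm_of_nonneg hδ0.le]
    have h2 : ‖1 + ((c3 / ℓ ^ 9 : ℝ) : ℂ)‖ ≤ 3 := by
      refine (norm_add_le _ _).trans ?_
      rw [norm_one, hnδ]
      linarith
    have h3 : 1 < (1 + ((c3 / ℓ ^ 9 : ℝ) : ℂ)).re := by
      rw [Complex.add_re, Complex.one_re, Complex.ofReal_re]
      linarith
    have h4 := hlip c χ hχ _ s h3 h2 hs h1
    have h5 : ‖1 + ((c3 / ℓ ^ 9 : ℝ) : ℂ) - s‖ ≤ 2 * (c3 / ℓ ^ 9) := by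
      have e : 1 + ((c3 / ℓ ^ 9 : ℝ) : ℂ) - s = ((c3 / ℓ ^ 9 : ℝ) : ℂ) - (s - 1) := by ring
      rw [e]
      refine (norm_sub_le _ _).trans ?_
      rw [hnδ]
      linarith
    have hl := hlog c
    have h6 : C * (1 + Real.log c) ^ 2 * ‖1 + ((c3 / ℓ ^ 9 : ℝ) : ℂ) - s‖ ≤
        C * ℓ ^ 2 * (2 * (c3 / ℓ ^ 9)) := by
      gcongr
    have h7 : C * ℓ ^ 2 * (2 * (c3 / ℓ ^ 9)) = 4 * C * c3 / ℓ ^ 7 / 2 := by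
      field_simp
      ring
    unfold Good at hg
    have h8 := norm_sub_norm_le
      (LSeries (fun n : ℕ => χ (n : ZMod c)) (1 + ((c3 / ℓ ^ 9 : ℝ) : ℂ)))
      (LSeries (fun n : ℕ => χ (n : ZMod c)) s)
    linarith

end Pool.Agent.ERB
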