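import Pool.Agent.ERB.Defs

/-!
# ERB / PP: prime powers

`vt n G X m ≠ 0` implies `X < log m < 2X` (`IsCut.zero`, `0 < ε ≤ 1`), and then
`0 ≤ vt n G X m ≤ 2^n/m`.  So the sum over `m` is a finite sum over `e^X < m < e^(2X)`; the primes give
`X * Sc` (`log q ψ(q) vt(q) = X ψ(q) wt(q)`, and `q ∈ QQ X`), the prime powers `m = q^j`, `j ≥ 2`, are
treated in the two ranges `(e^X, e^(7X/5)]` and `(e^(7X/5), e^(2X)]` with Mathlib
`Chebyshev.psi_sub_theta_le_mul_sqrt`.
-/

set_option autoImplicit false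

namespace Pool.Agent.ERB

open Finset

private theorem np_sum {T : Finset ℕ} {y : ℝ} (hT : ∀ m ∈ T, ¬ m.Prime ∧ (m : ℝ) ≤ y) :
    ∑ m ∈ T, ArithmeticFunction.vonMangoldt m ≤ Chebyshev.psi y - Chebyshev.theta y := by
  rw [Chebyshev.psi_sub_theta_eq_sum_not_prime]
  have h1 : ∑ m ∈ T, ArithmeticFunction.vonMangoldt m =
      ∑ m ∈ T.filter (fun m => m ≠ 0), ArithmeticFunction.vonMangoldt m := by
    rw [Finset.sum_filter_of_ne]
    intro m _ hm h0
    apply hm
    rw [h0]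
    simp
  rw [h1]
  apply Finset.sum_le_sum_of_subset_of_nonneg
  · intro m hm
    rw [Finset.mem_filter] at hm
    obtain ⟨h2, h3⟩ := hT m hm.1
    rw [Finset.mem_filter, Finset.mem_Ioc]
    exact ⟨⟨Nat.pos_of_ne_zero hm.2, Nat.le_floor h3⟩, h2⟩
  · intro m _ _
    exact ArithmeticFunction.vonMangoldt_nonneg

/-- Support of `vt`. -/
private theorem vt_supp {ε : ℝ} {G : ℝ → ℝ} (hε0 : 0 < ε) (hε : ε ≤ 1) (hG : IsCut ε G) (n : ℕ)
    {X : ℝ} (hX : 0 < X) {m : ℕ} (h : vt n G X m ≠ 0) :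
    Real.exp X < m ∧ (m : ℝ) < Real.exp (2 * X) ∧ vt n G X m ≤ 2 ^ n / m ∧ 0 ≤ vt n G X m := by
  have hg : G (Real.log m / X) ≠ 0 := by
    intro h0
    apply h
    unfold vt
    rw [h0]
    ring
  have h1 : ¬ (Real.log m / X ≤ 1 + 5 * ε / 8 ∨ 1 + 7 * ε / 8 ≤ Real.log m / X) := fun h' =>
    hg (hG.zero _ h')
  push Not at h1
  have hl1 : 1 < Real.log m / X := by linarith [h1.1]
  have hl2 : Real.log m / X < 2 := by linarith [h1.2]
  have hm : (0 : ℝ) < m := by
    rcases Nat.eq_zero_or_pos m with h0 | h0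
    · exfalso
      rw [h0] at hl1
      simp at hl1
      linarith
    · exact_mod_cast h0
  have hm1 : (1 : ℝ) ≤ m := by
    have : 1 ≤ m := by exact_mod_cast hm
    exact_mod_cast this
  refine ⟨?_, ?_, ?_, ?_⟩
  · rw [← Real.lt_log_iff_exp_lt hm]
    have := (lt_div_iff₀ hX).1 hl1
    linarith
  · rw [← Real.log_lt_iff_lt_exp hm]
    exact (div_lt_iff₀ hX).1 hl2
  · have h0 : 0 ≤ Real.log m := Real.log_nonneg hm1
    have h3 : 0 ≤ Real.log m / X := by positivity
    have h4 : (m : ℝ) ^ (-1 - 1 / X : ℝ) ≤ 1 / m := by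
      have h5 : (m : ℝ) ^ (-1 - 1 / X : ℝ) ≤ (m : ℝ) ^ (-1 : ℝ) := by
        apply Real.rpow_le_rpow_of_exponent_le hm1
        have : 0 < 1 / X := by positivity
        linarith
      rw [Real.rpow_neg_one, ← one_div] at h5
      exact h5
    have h6 := hG.le_one (Real.log m / X)
    have h7 := hG.nonneg (Real.log m / X)
    have h8 : (Real.log m / X) ^ n ≤ 2 ^ n := pow_le_pow_left₀ h3 hl2.le n
    have h9 : 0 ≤ (m : ℝ) ^ (-1 - 1 / X : ℝ) := by positivity
    unfold vt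
    calc (m : ℝ) ^ (-1 - 1 / X : ℝ) * (Real.log m / X) ^ n * G (Real.log m / X)
        ≤ 1 / m * 2 ^ n * 1 := by gcongr
      _ = 2 ^ n / m := by ring
  · have h7 := hG.nonneg (Real.log m / X)
    have h0 : 0 ≤ Real.log m := Real.log_nonneg hm1
    unfold vt
    positivity

theorem pp_bound (n : ℕ) : ∃ C : ℝ, 0 < C ∧ ∀ (ε : ℝ) (G : ℝ → ℝ), 0 < ε → ε ≤ 1 →
    IsCut ε G → ∀ X : ℝ, 2 ≤ X → ∀ (c : ℕ) (ψ : DirichletCharacter ℂ c),
      ‖∑' m : ℕ, (((ArithmeticFunction.vonMangoldt m : ℝ) : ℂ) * ψ (m : ZMod c)) *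
          ((vt n G X m : ℝ) : ℂ) - (X : ℂ) * Sc n G X ψ‖ ≤ C * Real.exp (-X / 4) := by
  obtain ⟨C0, hC0⟩ := Chebyshev.psi_sub_theta_le_mul_sqrt
  have hC0' : ∀ x : ℝ, Chebyshev.psi x - Chebyshev.theta x ≤ (|C0| + 1) * x.sqrt := by
    intro x
    refine (hC0 x).trans ?_
    apply mul_le_mul_of_nonneg_right _ (Real.sqrt_nonneg x)
    linarith [le_abs_self C0]
  have hC1 : 0 < |C0| + 1 := by positivity
  refine ⟨2 * 2 ^ n * (|C0| + 1), by positivity, ?_⟩
  intro ε G hε0 hε hG X hX c ψ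
  have hX0 : 0 < X := by linarith
  set f : ℕ → ℂ := fun m => (((ArithmeticFunction.vonMangoldt m : ℝ) : ℂ) * ψ (m : ZMod c)) *
          ((vt n G X m : ℝ) : ℂ) with hf
  set N : ℕ := ⌊Real.exp (2 * X)⌋₊ + 1 with hN
  have hsum : ∑' m : ℕ, f m = ∑ m ∈ range N, f m := by
    apply tsum_eq_sum
    intro m hm
    rw [Finset.mem_range, not_lt] at hm
    have hv : vt n G X m = 0 := by
      by_contra h
      have h1 := (vt_supp hε0 hε hG n hX0 h).2.1
      have h2 : m ≤ ⌊Real.exp (2 * X)⌋₊ := Nat.le_floor h1.le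
      omega
    show (((ArithmeticFunction.vonMangoldt m : ℝ) : ℂ) * ψ (m : ZMod c)) *
          ((vt n G X m : ℝ) : ℂ) = 0
    rw [hv]
    simp
  have hprime : ∑ m ∈ (range N).filter Nat.Prime, f m = (X : ℂ) * Sc n G X ψ := by
    unfold Sc QQ
    rw [Finset.mul_sum]
    apply Finset.sum_congr rfl
    intro q hq
    rw [Finset.mem_filter] at hq
    show (((ArithmeticFunction.vonMangoldt q : ℝ) : ℂ) * ψ (q : ZMod c)) *
          ((vt n G X q : ℝ) : ℂ) = _
    rw [ArithmeticFunction.vonMangoldt_apply_prime hq.2]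
    unfold wt
    have hXc : (X : ℂ) ≠ 0 := by exact_mod_cast hX0.ne'
    push_cast
    field_simp
  have hsplit : ∑ m ∈ range N, f m = ∑ m ∈ (range N).filter Nat.Prime, f m +
      ∑ m ∈ (range N).filter (fun m => ¬ Nat.Prime m), f m :=
    (Finset.sum_filter_add_sum_filter_not _ _ _).symm
  have hgoal : ∑' m : ℕ, (((ArithmeticFunction.vonMangoldt m : ℝ) : ℂ) * ψ (m : ZMod c)) *
          ((vt n G X m : ℝ) : ℂ) - (X : ℂ) * Sc n G X ψ =
      ∑ m ∈ (range N).filter (fun m => ¬ Nat.Prime m), f m := by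
    change ∑' m : ℕ, f m - (X : ℂ) * Sc n G X ψ = _
    rw [hsum, hsplit, hprime]
    ring
  rw [hgoal]
  set S : Finset ℕ := (range N).filter (fun m => ¬ Nat.Prime m) with hS
  have hpt : ∀ m ∈ S, ‖f m‖ ≤ 2 ^ n * (Real.exp (-X) *
      (if (m : ℝ) ≤ Real.exp (7 / 5 * X) then ArithmeticFunction.vonMangoldt m else 0) +
      Real.exp (-(7 / 5 * X)) * ArithmeticFunction.vonMangoldt m) := by
    intro m _
    have hL : 0 ≤ ArithmeticFunction.vonMangoldt m := ArithmeticFunction.vonMangoldt_nonneg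
    by_cases h : vt n G X m = 0
    · have : f m = 0 := by
        show (((ArithmeticFunction.vonMangoldt m : ℝ) : ℂ) * ψ (m : ZMod c)) *
          ((vt n G X m : ℝ) : ℂ) = 0
        rw [h]
        simp
      rw [this, norm_zero]
      split_ifs
      · positivity
      · positivity
    · obtain ⟨h1, h2, h3, h4⟩ := vt_supp hε0 hε hG n hX0 h
      have hm0 : (0 : ℝ) < m := lt_trans (Real.exp_pos _) h1
      have hnorm : ‖f m‖ ≤ ArithmeticFunction.vonMangoldt m * (2 ^ n / m) := by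
        show ‖(((ArithmeticFunction.vonMangoldt m : ℝ) : ℂ) * ψ (m : ZMod c)) *
          ((vt n G X m : ℝ) : ℂ)‖ ≤ _
        rw [norm_mul, norm_mul, Complex.norm_real, Complex.norm_real, Real.norm_of_nonneg hL,
          Real.norm_of_nonneg h4]
        have h5 := DirichletCharacter.norm_le_one ψ (m : ZMod c)
        calc ArithmeticFunction.vonMangoldt m * ‖ψ (m : ZMod c)‖ * vt n G X m
            ≤ ArithmeticFunction.vonMangoldt m * 1 * (2 ^ n / m) := by gcongr
          _ = _ := by ring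
      refine hnorm.trans ?_
      split_ifs with hle
      · have h6 : (1 : ℝ) / m ≤ Real.exp (-X) := by
          rw [Real.exp_neg, ← one_div]
          exact one_div_le_one_div_of_le (Real.exp_pos _) h1.le
        calc ArithmeticFunction.vonMangoldt m * (2 ^ n / m)
            = 2 ^ n * (1 / m * ArithmeticFunction.vonMangoldt m) := by ring
          _ ≤ 2 ^ n * (Real.exp (-X) * ArithmeticFunction.vonMangoldt m) := by gcongr
          _ ≤ _ := by
            have : 0 ≤ Real.exp (-(7 / 5 * X)) * ArithmeticFunction.vonMangoldt m := by positivity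
            gcongr
            linarith
      · push Not at hle
        have h6 : (1 : ℝ) / m ≤ Real.exp (-(7 / 5 * X)) := by
          rw [Real.exp_neg, ← one_div]
          exact one_div_le_one_div_of_le (Real.exp_pos _) hle.le
        calc ArithmeticFunction.vonMangoldt m * (2 ^ n / m)
            = 2 ^ n * (1 / m * ArithmeticFunction.vonMangoldt m) := by ring
          _ ≤ 2 ^ n * (Real.exp (-(7 / 5 * X)) * ArithmeticFunction.vonMangoldt m) := by gcongr
          _ = _ := by ring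
  have hA : ∑ m ∈ S, (if (m : ℝ) ≤ Real.exp (7 / 5 * X) then
      ArithmeticFunction.vonMangoldt m else 0) ≤ (|C0| + 1) * Real.exp (7 / 10 * X) := by
    rw [← Finset.sum_filter]
    refine (np_sum (y := Real.exp (7 / 5 * X)) ?_).trans ?_
    · intro m hm
      rw [Finset.mem_filter, hS, Finset.mem_filter] at hm
      exact ⟨hm.1.2, hm.2⟩
    · refine (hC0' _).trans (le_of_eq ?_)
      rw [Real.sqrt_eq_rpow, ← Real.exp_mul]
      congr 2
      ring
  have hB : ∑ m ∈ S, ArithmeticFunction.vonMangoldt m ≤ (|C0| + 1) * Real.exp X := by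
    refine (np_sum (y := Real.exp (2 * X)) ?_).trans ?_
    · intro m hm
      rw [hS, Finset.mem_filter, Finset.mem_range, hN] at hm
      refine ⟨hm.2, ?_⟩
      have h1 : m ≤ ⌊Real.exp (2 * X)⌋₊ := by omega
      exact (Nat.le_floor_iff (Real.exp_pos _).le).1 h1
    · refine (hC0' _).trans (le_of_eq ?_)
      rw [Real.sqrt_eq_rpow, ← Real.exp_mul]
      congr 2
      ring
  calc ‖∑ m ∈ S, f m‖ ≤ ∑ m ∈ S, ‖f m‖ := norm_sum_le _ _
    _ ≤ ∑ m ∈ S, 2 ^ n * (Real.exp (-X) *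
      (if (m : ℝ) ≤ Real.exp (7 / 5 * X) then ArithmeticFunction.vonMangoldt m else 0) +
      Real.exp (-(7 / 5 * X)) * ArithmeticFunction.vonMangoldt m) := Finset.sum_le_sum hpt
    _ = 2 ^ n * (Real.exp (-X) * ∑ m ∈ S, (if (m : ℝ) ≤ Real.exp (7 / 5 * X) then
        ArithmeticFunction.vonMangoldt m else 0) +
        Real.exp (-(7 / 5 * X)) * ∑ m ∈ S, ArithmeticFunction.vonMangoldt m) := by
      rw [← Finset.mul_sum, Finset.sum_add_distrib, ← Finset.mul_sum, ← Finset.mul_sum]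
    _ ≤ 2 ^ n * (Real.exp (-X) * ((|C0| + 1) * Real.exp (7 / 10 * X)) +
        Real.exp (-(7 / 5 * X)) * ((|C0| + 1) * Real.exp X)) := by gcongr
    _ = 2 ^ n * (|C0| + 1) * (Real.exp (-X + 7 / 10 * X) + Real.exp (-(7 / 5 * X) + X)) := by
      rw [Real.exp_add, Real.exp_add]
      ring
    _ ≤ 2 ^ n * (|C0| + 1) * (Real.exp (-X / 4) + Real.exp (-X / 4)) := by
      gcongr
      · linarith
      · linarith
    _ = 2 * 2 ^ n * (|C0| + 1) * Real.exp (-X / 4) := by ring

end Pool.Agent.ERB
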