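import Pool.Agent.ERB.Mj

/-!
# ERB / Tn: derivatives of `L'/L` near `s = 1`

Write `M_j(s) = ∑ χ(m) (log m)^j m^(-s)`, `T_i(s) = ∑ Λ(m) χ(m) (log m)^i m^(-s)`.  Identity
`M_(n+1) = ∑_(i ≤ n) C(n,i) T_i M_(n-i)`: coefficientwise
`χ(m) (log m)^(n+1) = (∑_(ab = m) Λ(a)) χ(m) (log a + log b)^n` (`ArithmeticFunction.vonMangoldt_sum`),
binomial theorem; the series of a convolution is the product (`LSeries_convolution'`, all series
converge absolutely for `Re s > 1`).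
So `T_n L = M_(n+1) - ∑_(i < n) C(n,i) T_i M_(n-i)`.  Let `ℓ = 1 + log c`, `Λ0 = ℓ^2/θ ≥ 1`.  Induction
(strong) on `n`: `‖T_n‖ ≤ D_n Λ0^(n+1)`: `θ^(-1) ℓ^(n+2) ≤ Λ0^(n+1)` and
`θ^(-1) Λ0^(i+1) ℓ^(n-i+1) ≤ Λ0^(n+1)` for `i < n` (`ℓ ≥ 1`, `θ ≤ 1`).
-/

set_option autoImplicit false

namespace Pool.Agent.ERB

private theorem tn_summable (k : ℕ) (f : ℕ → ℂ) (hf : ∀ m : ℕ, m ≠ 0 → ‖f m‖ ≤ Real.log m ^ k)
    (s : ℂ) (hs : 1 < s.re) : LSeriesSummable f s := by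
  obtain ⟨x, hx1, hx2⟩ := exists_between hs
  have hx : 0 < x - 1 := by linarith
  refine LSeriesSummable_of_le_const_mul_rpow hx2
    ⟨(k.factorial : ℝ) / (x - 1) ^ k, fun m hm => ?_⟩
  have hm1 : (1 : ℝ) ≤ m := by exact_mod_cast Nat.one_le_iff_ne_zero.2 hm
  have hm0 : (0 : ℝ) < m := by linarith
  have hlog : 0 ≤ Real.log m := Real.log_nonneg hm1
  have h3 : ((x - 1) * Real.log m) ^ k / (k.factorial : ℝ) ≤ Real.exp ((x - 1) * Real.log m) :=
    Real.pow_div_factorial_le_exp _ (by positivity) _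
  have h4 : Real.exp ((x - 1) * Real.log m) = (m : ℝ) ^ (x - 1) := by
    rw [Real.rpow_def_of_pos hm0, mul_comm]
  rw [h4, mul_pow, div_le_iff₀ (by positivity)] at h3
  refine (hf m hm).trans ?_
  rw [div_mul_eq_mul_div, le_div_iff₀ (by positivity)]
  linarith

private noncomputable def tnT {c : ℕ} (χ : DirichletCharacter ℂ c) (i : ℕ) (m : ℕ) : ℂ :=
  ((ArithmeticFunction.vonMangoldt m : ℝ) : ℂ) * χ (m : ZMod c) * ((Real.log m : ℝ) : ℂ) ^ i

private noncomputable def tnM {c : ℕ} (χ : DirichletCharacter ℂ c) (j : ℕ) (m : ℕ) : ℂ :=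
  χ (m : ZMod c) * ((Real.log m : ℝ) : ℂ) ^ j

private theorem tn_sumT {c : ℕ} (χ : DirichletCharacter ℂ c) (i : ℕ) (s : ℂ) (hs : 1 < s.re) :
    LSeriesSummable (tnT χ i) s := by
  refine tn_summable (i + 1) _ (fun m hm => ?_) s hs
  have hm1 : (1 : ℝ) ≤ m := by exact_mod_cast Nat.one_le_iff_ne_zero.2 hm
  have hlog : 0 ≤ Real.log m := Real.log_nonneg hm1
  rw [tnT, norm_mul, norm_mul, norm_pow, Complex.norm_real, Complex.norm_real, Real.norm_eq_abs,
    Real.norm_eq_abs, abs_of_nonneg ArithmeticFunction.vonMangoldt_nonneg, abs_of_nonneg hlog,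
    pow_succ']
  refine mul_le_mul_of_nonneg_right ?_ (by positivity)
  calc ArithmeticFunction.vonMangoldt m * ‖χ (m : ZMod c)‖
      ≤ Real.log m * 1 := mul_le_mul ArithmeticFunction.vonMangoldt_le_log
        (DirichletCharacter.norm_le_one χ _) (norm_nonneg _) hlog
    _ = _ := mul_one _

private theorem tn_sumM {c : ℕ} (χ : DirichletCharacter ℂ c) (j : ℕ) (s : ℂ) (hs : 1 < s.re) :
    LSeriesSummable (tnM χ j) s := by
  refine tn_summable j _ (fun m hm => ?_) s hs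
  have hm1 : (1 : ℝ) ≤ m := by exact_mod_cast Nat.one_le_iff_ne_zero.2 hm
  have hlog : 0 ≤ Real.log m := Real.log_nonneg hm1
  rw [tnM, norm_mul, norm_pow, Complex.norm_real, Real.norm_eq_abs, abs_of_nonneg hlog]
  calc ‖χ (m : ZMod c)‖ * Real.log m ^ j ≤ 1 * Real.log m ^ j :=
        mul_le_mul_of_nonneg_right (DirichletCharacter.norm_le_one χ _) (by positivity)
    _ = _ := one_mul _

open LSeries in
private theorem tn_coef {c : ℕ} (χ : DirichletCharacter ℂ c) (n m : ℕ) (hm : m ≠ 0) :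
    (∑ i ∈ Finset.range (n + 1),
      ((n.choose i : ℕ) : ℂ) • LSeries.convolution (tnT χ i) (tnM χ (n - i))) m =
      tnM χ (n + 1) m := by
  have hΛ : ∑ q ∈ m.divisorsAntidiagonal,
      ((ArithmeticFunction.vonMangoldt q.1 : ℝ) : ℂ) = ((Real.log m : ℝ) : ℂ) := by
    have h1 := Nat.sum_divisorsAntidiagonal (n := m)
      (fun a _ => ((ArithmeticFunction.vonMangoldt a : ℝ) : ℂ))
    rw [h1, ← ArithmeticFunction.vonMangoldt_sum]
    push_cast
    rfl
  have hcell : ∀ q ∈ m.divisorsAntidiagonal,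
      ∑ i ∈ Finset.range (n + 1), ((n.choose i : ℕ) : ℂ) * (tnT χ i q.1 * tnM χ (n - i) q.2) =
      ((ArithmeticFunction.vonMangoldt q.1 : ℝ) : ℂ) * tnM χ n m := by
    intro q hq
    have hq1 : q.1 * q.2 = m := (Nat.mem_divisorsAntidiagonal.1 hq).1
    have ha : q.1 ≠ 0 := by
      intro h0
      rw [h0, zero_mul] at hq1
      exact hm hq1.symm
    have hb : q.2 ≠ 0 := by
      intro h0
      rw [h0, mul_zero] at hq1
      exact hm hq1.symm
    have hlog : ((Real.log m : ℝ) : ℂ) = ((Real.log q.1 : ℝ) : ℂ) + ((Real.log q.2 : ℝ) : ℂ) := by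
      rw [← Complex.ofReal_add, ← Real.log_mul (by exact_mod_cast ha) (by exact_mod_cast hb),
        ← Nat.cast_mul, hq1]
    have hχ : χ (m : ZMod c) = χ (q.1 : ZMod c) * χ (q.2 : ZMod c) := by
      rw [← map_mul, ← Nat.cast_mul, hq1]
    rw [tnM, hlog, add_pow, hχ, Finset.mul_sum, Finset.mul_sum]
    refine Finset.sum_congr rfl fun i _ => ?_
    rw [tnT, tnM]
    ring
  rw [Finset.sum_apply]
  have e1 : ∀ i ∈ Finset.range (n + 1),
      (((n.choose i : ℕ) : ℂ) • LSeries.convolution (tnT χ i) (tnM χ (n - i))) m =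
      ∑ q ∈ m.divisorsAntidiagonal,
        ((n.choose i : ℕ) : ℂ) * (tnT χ i q.1 * tnM χ (n - i) q.2) := by
    intro i _
    rw [Pi.smul_apply, smul_eq_mul, LSeries.convolution_def, Finset.mul_sum]
  rw [Finset.sum_congr rfl e1, Finset.sum_comm, Finset.sum_congr rfl hcell, ← Finset.sum_mul, hΛ,
    tnM, tnM]
  ring

private theorem tn_id {c : ℕ} (χ : DirichletCharacter ℂ c) (n : ℕ) (s : ℂ) (hs : 1 < s.re) :
    LSeries (tnM χ (n + 1)) s = ∑ i ∈ Finset.range (n + 1),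
      ((n.choose i : ℕ) : ℂ) * (LSeries (tnT χ i) s * LSeries (tnM χ (n - i)) s) := by
  have h1 : LSeriesHasSum (∑ i ∈ Finset.range (n + 1),
      ((n.choose i : ℕ) : ℂ) • LSeries.convolution (tnT χ i) (tnM χ (n - i))) s
      (∑ i ∈ Finset.range (n + 1),
        ((n.choose i : ℕ) : ℂ) * (LSeries (tnT χ i) s * LSeries (tnM χ (n - i)) s)) :=
    LSeriesHasSum.sum fun i _ => ((tn_sumT χ i s hs).LSeriesHasSum.convolution
      (tn_sumM χ (n - i) s hs).LSeriesHasSum).smul _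
  rw [← h1.LSeries_eq]
  exact (LSeries_congr (fun {m} hm => tn_coef χ n m hm) s).symm

private theorem tn_arith {ℓ θ : ℝ} (hℓ : 1 ≤ ℓ) (hθ : 0 < θ) (hθ1 : θ ≤ 1) (n : ℕ) :
    ℓ ^ (n + 2) ≤ θ * (ℓ ^ 2 / θ) ^ (n + 1) ∧
    ∀ i, i < n → (ℓ ^ 2 / θ) ^ (i + 1) * ℓ ^ (n - i + 1) ≤ θ * (ℓ ^ 2 / θ) ^ (n + 1) := by
  have hℓ0 : 0 < ℓ := by linarith
  set L := ℓ ^ 2 / θ with hL
  have hL1 : ℓ ≤ L := by
    rw [hL, le_div_iff₀ hθ]
    nlinarith
  have hL0 : 0 < L := by linarith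
  have e1 : θ * L ^ (n + 1) = ℓ ^ 2 * L ^ n := by
    rw [pow_succ, hL]
    field_simp
  rw [e1]
  refine ⟨?_, fun i hi => ?_⟩
  · rw [pow_add, mul_comm]
    exact mul_le_mul_of_nonneg_left (pow_le_pow_left₀ hℓ0.le hL1 n) (by positivity)
  · obtain ⟨k, rfl⟩ := Nat.exists_eq_add_of_lt hi
    have e2 : i + k + 1 - i + 1 = k + 2 := by omega
    rw [e2]
    have h1 : ℓ ^ k ≤ L ^ k := pow_le_pow_left₀ hℓ0.le hL1 k
    calc L ^ (i + 1) * ℓ ^ (k + 2) = (ℓ ^ 2 * L ^ (i + 1)) * ℓ ^ k := by ring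
      _ ≤ (ℓ ^ 2 * L ^ (i + 1)) * L ^ k := mul_le_mul_of_nonneg_left h1 (by positivity)
      _ = ℓ ^ 2 * L ^ (i + k + 1) := by ring

private theorem tn_all (n : ℕ) : ∃ C : ℝ, 0 < C ∧ ∀ i, i < n → ∀ (c : ℕ) [NeZero c]
    (χ : DirichletCharacter ℂ c),
    χ ≠ 1 → ∀ s : ℂ, 1 < s.re → ‖s‖ ≤ 3 → ∀ θ : ℝ, 0 < θ → θ ≤ 1 →
      θ ≤ ‖LSeries (fun n : ℕ => χ (n : ZMod c)) s‖ →
      ‖LSeries (tnT χ i) s‖ ≤ C * ((1 + Real.log c) ^ 2 / θ) ^ (i + 1) := by
  induction n with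
  | zero => exact ⟨1, one_pos, fun i hi => absurd hi (Nat.not_lt_zero i)⟩
  | succ n ih =>
    obtain ⟨C, hC0, hC⟩ := ih
    choose K hK0 hK using Mj_bound
    set E : ℝ := K (n + 1) + ∑ i ∈ Finset.range n, (n.choose i : ℝ) * (C * K (n - i)) with hE
    have hE0 : 0 < E := by
      have h1 : 0 ≤ ∑ i ∈ Finset.range n, (n.choose i : ℝ) * (C * K (n - i)) :=
        Finset.sum_nonneg fun i _ => by
          have := hK0 (n - i)
          positivity
      have := hK0 (n + 1)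
      linarith
    refine ⟨C + E, by linarith, fun i hi c _ χ hχ s hs hs3 θ hθ hθ1 hL => ?_⟩
    have hc1 : (1 : ℝ) ≤ c := by exact_mod_cast NeZero.one_le
    set ℓ : ℝ := 1 + Real.log c with hℓdef
    have hℓ : 1 ≤ ℓ := by
      have := Real.log_nonneg hc1
      linarith
    have hΛ0 : 0 < ℓ ^ 2 / θ := by positivity
    rcases Nat.lt_succ_iff_lt_or_eq.1 hi with hi' | rfl
    · refine (hC i hi' c χ hχ s hs hs3 θ hθ hθ1 hL).trans ?_
      exact mul_le_mul_of_nonneg_right (by linarith) (by positivity)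
    · obtain ⟨ha1, ha2⟩ := tn_arith hℓ hθ hθ1 i
      have hM : ∀ j, ‖LSeries (tnM χ j) s‖ ≤ K j * ℓ ^ (j + 1) := fun j => hK j c χ hχ s hs hs3
      have hid := tn_id χ i s hs
      rw [Finset.sum_range_succ, Nat.choose_self, Nat.sub_self, Nat.cast_one, one_mul] at hid
      have hM0 : tnM χ 0 = fun n : ℕ => χ (n : ZMod c) := by
        funext m
        rw [tnM, pow_zero, mul_one]
      rw [hM0] at hid
      have h1 : LSeries (tnT χ i) s * LSeries (fun n : ℕ => χ (n : ZMod c)) s =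
          LSeries (tnM χ (i + 1)) s - ∑ k ∈ Finset.range i,
            ((i.choose k : ℕ) : ℂ) * (LSeries (tnT χ k) s * LSeries (tnM χ (i - k)) s) := by
        rw [hid]
        ring
      have h2 : ‖LSeries (tnT χ i) s‖ * θ ≤ E * (θ * (ℓ ^ 2 / θ) ^ (i + 1)) := by
        calc ‖LSeries (tnT χ i) s‖ * θ
            ≤ ‖LSeries (tnT χ i) s‖ * ‖LSeries (fun n : ℕ => χ (n : ZMod c)) s‖ :=
              mul_le_mul_of_nonneg_left hL (norm_nonneg _)
          _ = ‖LSeries (tnM χ (i + 1)) s - ∑ k ∈ Finset.range i,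
            ((i.choose k : ℕ) : ℂ) * (LSeries (tnT χ k) s * LSeries (tnM χ (i - k)) s)‖ := by
              rw [← norm_mul, h1]
          _ ≤ ‖LSeries (tnM χ (i + 1)) s‖ + ∑ k ∈ Finset.range i,
            ‖((i.choose k : ℕ) : ℂ) * (LSeries (tnT χ k) s * LSeries (tnM χ (i - k)) s)‖ :=
              (norm_sub_le _ _).trans (add_le_add le_rfl (norm_sum_le _ _))
          _ ≤ K (i + 1) * (θ * (ℓ ^ 2 / θ) ^ (i + 1)) + ∑ k ∈ Finset.range i,
              ((i.choose k : ℝ) * (C * K (i - k))) * (θ * (ℓ ^ 2 / θ) ^ (i + 1)) := by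
              refine add_le_add ?_ (Finset.sum_le_sum fun k hk => ?_)
              · exact (hM (i + 1)).trans (mul_le_mul_of_nonneg_left ha1 (hK0 _).le)
              · have hk' := Finset.mem_range.1 hk
                rw [norm_mul, norm_mul, Complex.norm_natCast]
                have h3 := hC k hk' c χ hχ s hs hs3 θ hθ hθ1 hL
                have h4 := hM (i - k)
                have h5 := ha2 k hk'
                have hKk := (hK0 (i - k)).le
                calc (i.choose k : ℝ) * (‖LSeries (tnT χ k) s‖ * ‖LSeries (tnM χ (i - k)) s‖)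
                    ≤ (i.choose k : ℝ) * ((C * (ℓ ^ 2 / θ) ^ (k + 1)) *
                        (K (i - k) * ℓ ^ (i - k + 1))) := by
                      refine mul_le_mul_of_nonneg_left ?_ (Nat.cast_nonneg _)
                      exact mul_le_mul h3 h4 (norm_nonneg _) (by positivity)
                  _ = ((i.choose k : ℝ) * (C * K (i - k))) *
                        ((ℓ ^ 2 / θ) ^ (k + 1) * ℓ ^ (i - k + 1)) := by ring
                  _ ≤ ((i.choose k : ℝ) * (C * K (i - k))) * (θ * (ℓ ^ 2 / θ) ^ (i + 1)) :=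
                      mul_le_mul_of_nonneg_left h5 (by positivity)
          _ = E * (θ * (ℓ ^ 2 / θ) ^ (i + 1)) := by
              rw [← Finset.sum_mul, ← add_mul]
      have h6 : ‖LSeries (tnT χ i) s‖ ≤ E * (ℓ ^ 2 / θ) ^ (i + 1) := by
        have h7 : ‖LSeries (tnT χ i) s‖ * θ ≤ (E * (ℓ ^ 2 / θ) ^ (i + 1)) * θ := by
          calc _ ≤ _ := h2
            _ = _ := by ring
        exact le_of_mul_le_mul_right h7 hθ
      refine h6.trans ?_
      exact mul_le_mul_of_nonneg_right (by linarith) (by positivity)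

theorem Tn_bound (n : ℕ) : ∃ C : ℝ, 0 < C ∧ ∀ (c : ℕ) [NeZero c] (χ : DirichletCharacter ℂ c),
    χ ≠ 1 → ∀ s : ℂ, 1 < s.re → ‖s‖ ≤ 3 → ∀ θ : ℝ, 0 < θ → θ ≤ 1 →
      θ ≤ ‖LSeries (fun n : ℕ => χ (n : ZMod c)) s‖ →
      ‖LSeries (fun m : ℕ => ((ArithmeticFunction.vonMangoldt m : ℝ) : ℂ) * χ (m : ZMod c) *
          ((Real.log m : ℝ) : ℂ) ^ n) s‖ ≤ C * ((1 + Real.log c) ^ 2 / θ) ^ (n + 1) := by
  obtain ⟨C, hC0, hC⟩ := tn_all (n + 1)
  exact ⟨C, hC0, fun c _ χ hχ s hs hs3 θ hθ hθ1 hL =>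
    hC n (Nat.lt_succ_self n) c χ hχ s hs hs3 θ hθ hθ1 hL⟩

end Pool.Agent.ERB
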