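import Pool.Agent.ERB.Wchi
import Pool.Agent.ERB.Tn
import Pool.Agent.ERB.GoodL
import Pool.Agent.ERB.Fixd
import Pool.Agent.ERB.PP

/-!
# ERB / Small: the prime sums for small conductors

Let `c3, c4` be from `good_exists`, `ℓ = 1 + A log X`, `δ = c3/ℓ^9`, `θ = c4/ℓ^7`.
(1) If `ψ` is primitive mod `c`, `2 ≤ c ≤ X^A`, (so `ψ ≠ 1`, `1 + log c ≤ ℓ`) and good, then
`‖Sc ψ‖ ≤ 1/X^n`.
(2) Bad characters (primitive, squarefree conductor `2 ≤ c ≤ X^A`, not good) have `ψ² = 1`, any two are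
equal.
-/

set_option autoImplicit false

namespace Pool.Agent.ERB

open Filter Topology

private theorem sm_ev_pow (A : ℕ) (K : ℝ) (hK : 0 ≤ K) (k : ℕ) :
    ∀ᶠ X : ℝ in atTop, K * (1 + A * Real.log X) ^ k ≤ X / 4 := by
  have hpos : 0 < 1 / (4 * (K + 1) * (1 + (A : ℝ)) ^ k) := by positivity
  have h1 := (Real.isLittleO_pow_log_id_atTop (n := k)).def hpos
  have h2 : ∀ᶠ X : ℝ in atTop, 1 ≤ Real.log X := Real.tendsto_log_atTop.eventually_ge_atTop 1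
  filter_upwards [h1, h2, eventually_ge_atTop (1 : ℝ)] with X h1 h2 h3
  simp only [id, Real.norm_eq_abs] at h1
  rw [abs_of_nonneg (by positivity), abs_of_nonneg (by linarith)] at h1
  have h4 : 1 + A * Real.log X ≤ (1 + (A : ℝ)) * Real.log X := by
    have : (0 : ℝ) ≤ A := Nat.cast_nonneg A
    nlinarith
  have h5 : (1 + A * Real.log X) ^ k ≤ (1 + (A : ℝ)) ^ k * Real.log X ^ k := by
    rw [← mul_pow]
    exact pow_le_pow_left₀ (by positivity) h4 k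
  calc K * (1 + A * Real.log X) ^ k ≤ (K + 1) * ((1 + (A : ℝ)) ^ k * Real.log X ^ k) := by
        have : 0 ≤ (1 + A * Real.log X) ^ k := by positivity
        nlinarith
    _ ≤ (K + 1) * ((1 + (A : ℝ)) ^ k * (1 / (4 * (K + 1) * (1 + (A : ℝ)) ^ k) * X)) := by
        gcongr
    _ = X / 4 := by field_simp

private theorem sm_ev_exp (n : ℕ) (C : ℝ) (hC : 0 < C) :
    ∀ᶠ X : ℝ in atTop, C * Real.exp (-X / 4) * X ^ n ≤ X / 2 := by
  have h1 := (Real.tendsto_pow_mul_exp_neg_atTop_nhds_zero n).comp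
    (tendsto_id.atTop_mul_const (show (0 : ℝ) < 1 / 4 by norm_num))
  have h2 := (tendsto_order.1 h1).2 (1 / (C * 4 ^ n)) (by positivity)
  filter_upwards [h2, eventually_ge_atTop (2 : ℝ)] with X h2 h3
  simp only [Function.comp, id] at h2
  have h4 : (X * (1 / 4)) ^ n = X ^ n / 4 ^ n := by rw [mul_pow, one_div, inv_pow]; rfl
  have h5 : -(X * (1 / 4)) = -X / 4 := by ring
  rw [h4, h5, lt_div_iff₀ (by positivity)] at h2
  have h6 : X ^ n / 4 ^ n * Real.exp (-X / 4) * (C * 4 ^ n) = C * Real.exp (-X / 4) * X ^ n := by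
    field_simp
  rw [h6] at h2
  linarith

private theorem sm_ne_one {c : ℕ} [NeZero c] (hc : 2 ≤ c) {ψ : DirichletCharacter ℂ c}
    (h : ψ.IsPrimitive) : ψ ≠ 1 := by
  rintro rfl
  have h1 : (1 : DirichletCharacter ℂ c).conductor = c := h
  rw [DirichletCharacter.conductor_one] at h1
  omega

private theorem sm_le_four {c r : ℕ} (hs : Squarefree c) (h : ∀ p, p.Prime → p ∣ c → p ≤ r) :
    c ≤ 4 ^ r := by
  have h0 : c ≠ 0 := hs.ne_zero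
  refine le_trans ?_ (primorial_le_four_pow r)
  conv_lhs => rw [← Nat.prod_primeFactors_of_squarefree hs]
  unfold primorial
  refine Finset.prod_le_prod_of_subset_of_one_le' ?_ ?_
  · intro p hp
    have hp1 := Nat.prime_of_mem_primeFactors hp
    rw [Finset.mem_filter, Finset.mem_range]
    exact ⟨Nat.lt_succ_of_le (h p hp1 (Nat.dvd_of_mem_primeFactors hp)), hp1⟩
  · intro p hp _
    rw [Finset.mem_filter] at hp
    exact hp.2.one_lt.le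

private theorem sm_good (A n : ℕ) (ε : ℝ) (hε : 0 < ε) (hε1 : ε ≤ 1) (G : ℝ → ℝ)
    (hG : IsCut ε G) (c3 c4 : ℝ) (h3 : 0 < c3) (h31 : c3 ≤ 1) (h4 : 0 < c4) (h41 : c4 ≤ 1)
    (hL : ∀ ℓ : ℝ, 1 ≤ ℓ → ∀ (c : ℕ) [NeZero c] (χ : DirichletCharacter ℂ c),
      1 + Real.log c ≤ ℓ → χ ≠ 1 →
      Good (c3 / ℓ ^ 9) (c4 / ℓ ^ 7) χ → ∀ s : ℂ, 1 < s.re → ‖s - 1‖ ≤ c3 / ℓ ^ 9 →
      c4 / ℓ ^ 7 / 2 ≤ ‖LSeries (fun n : ℕ => χ (n : ZMod c)) s‖) :
    ∀ᶠ X : ℝ in atTop, ∀ (c : ℕ) [NeZero c] (χ : DirichletCharacter ℂ c),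
      (c : ℝ) ≤ X ^ A → χ ≠ 1 →
      Good (c3 / (1 + A * Real.log X) ^ 9) (c4 / (1 + A * Real.log X) ^ 7) χ →
      ‖Sc n G X χ‖ ≤ 1 / X ^ n := by
  obtain ⟨C1, hC1, hT⟩ := Tn_bound n
  obtain ⟨C2, hC2, hW⟩ := wchi_bound ε hε G hG n (n + 4)
  obtain ⟨C3, hC3, hP⟩ := pp_bound n
  have e1 := sm_ev_pow A (C2 * C1 * (2 / c4) ^ (n + 1)) (by positivity) (9 * (n + 1))
  have e2 := sm_ev_pow A (C2 * (2 / c3) ^ (n + 4)) (by positivity) (9 * (n + 4))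
  have e3 := sm_ev_pow A (2 / c3) (by positivity) 9
  filter_upwards [e1, e2, e3, sm_ev_exp n C3 hC3, eventually_ge_atTop (3 : ℝ)] with X e1 e2 e3 e4 hX
  intro c _ χ hc hχ hgood
  have hX0 : 0 < X := by linarith
  have hlog : 0 ≤ Real.log X := Real.log_nonneg (by linarith)
  set ℓ := 1 + A * Real.log X with hℓ
  have hℓ1 : 1 ≤ ℓ := by
    have : 0 ≤ A * Real.log X := by positivity
    linarith
  have hc0 : (0 : ℝ) < c := by exact_mod_cast Nat.pos_of_ne_zero (NeZero.ne c)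
  have hlc : 1 + Real.log c ≤ ℓ := by
    have := Real.log_le_log hc0 hc
    rw [Real.log_pow] at this
    linarith
  have hlc0 : 0 ≤ Real.log c := Real.log_natCast_nonneg c
  set δ := c3 / ℓ ^ 9 with hδ
  have hδ0 : 0 < δ := by positivity
  have hδ1 : δ ≤ 1 := by
    rw [hδ, div_le_one (by positivity)]
    exact h31.trans (one_le_pow₀ hℓ1)
  have hXδ : 1 / X ≤ δ / 2 := by
    rw [hδ, div_le_div_iff₀ hX0 (by norm_num), div_mul_eq_mul_div, le_div_iff₀ (by positivity)]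
    have h5 : 2 / c3 * ℓ ^ 9 * c3 = 2 * ℓ ^ 9 := by field_simp
    have h6 : 2 / c3 * ℓ ^ 9 * c3 ≤ X / 4 * c3 := by gcongr
    nlinarith
  have hθ : 0 < c4 / ℓ ^ 7 / 2 := by positivity
  have hθ1 : c4 / ℓ ^ 7 / 2 ≤ 1 := by
    have : c4 / ℓ ^ 7 ≤ 1 := by
      rw [div_le_one (by positivity)]
      exact h41.trans (one_le_pow₀ hℓ1)
    linarith
  -- the bound for T_n
  have hB : ∀ t : ℝ, |t| ≤ δ / 2 →
      ‖LSeries (fun m : ℕ => (((ArithmeticFunction.vonMangoldt m : ℝ) : ℂ) * χ (m : ZMod c)) *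
        ((Real.log m : ℝ) : ℂ) ^ n) (1 + 1 / (X : ℂ) + (t : ℂ) * Complex.I)‖ ≤
      C1 * (2 / c4) ^ (n + 1) * ℓ ^ (9 * (n + 1)) := by
    intro t ht
    have hre : (1 : ℝ) < (1 + 1 / (X : ℂ) + (t : ℂ) * Complex.I).re := by
      have : (1 + 1 / (X : ℂ) + (t : ℂ) * Complex.I).re = 1 + 1 / X := by
        have h7 : (1 / (X : ℂ)) = ((1 / X : ℝ) : ℂ) := by push_cast; rfl
        rw [h7]
        simp
      rw [this]
      have : 0 < 1 / X := by positivity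
      linarith
    have hs1 : ‖(1 + 1 / (X : ℂ) + (t : ℂ) * Complex.I) - 1‖ ≤ δ := by
      have h8 : (1 + 1 / (X : ℂ) + (t : ℂ) * Complex.I) - 1 =
        ((1 / X : ℝ) : ℂ) + (t : ℂ) * Complex.I := by push_cast; ring
      rw [h8]
      refine (norm_add_le _ _).trans ?_
      rw [norm_mul, Complex.norm_I, mul_one, Complex.norm_real, Complex.norm_real,
        Real.norm_eq_abs, Real.norm_eq_abs, abs_of_pos (by positivity)]
      linarith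
    have hs3 : ‖(1 + 1 / (X : ℂ) + (t : ℂ) * Complex.I)‖ ≤ 3 := by
      have h9 := norm_add_le ((1 + 1 / (X : ℂ) + (t : ℂ) * Complex.I) - 1) 1
      rw [sub_add_cancel, norm_one] at h9
      linarith
    have h10 := hL ℓ hℓ1 c χ hlc hχ hgood _ hre hs1
    refine (hT c χ hχ _ hre hs3 _ hθ hθ1 h10).trans ?_
    have h11 : (1 + Real.log c) ^ 2 / (c4 / ℓ ^ 7 / 2) ≤ 2 / c4 * ℓ ^ 9 := by
      rw [div_le_iff₀ hθ]
      have h12 : 2 / c4 * ℓ ^ 9 * (c4 / ℓ ^ 7 / 2) = ℓ ^ 2 := by field_simp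
      rw [h12]
      exact pow_le_pow_left₀ (by linarith) hlc 2
    calc C1 * ((1 + Real.log c) ^ 2 / (c4 / ℓ ^ 7 / 2)) ^ (n + 1)
        ≤ C1 * (2 / c4 * ℓ ^ 9) ^ (n + 1) := by
          gcongr
      _ = C1 * (2 / c4) ^ (n + 1) * ℓ ^ (9 * (n + 1)) := by
          rw [mul_pow, ← pow_mul, mul_assoc]
  have hf : ∀ m : ℕ, ‖((ArithmeticFunction.vonMangoldt m : ℝ) : ℂ) * χ (m : ZMod c)‖ ≤
      ArithmeticFunction.vonMangoldt m := by
    intro m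
    rw [norm_mul, Complex.norm_real, Real.norm_eq_abs,
      abs_of_nonneg ArithmeticFunction.vonMangoldt_nonneg]
    exact mul_le_of_le_one_right ArithmeticFunction.vonMangoldt_nonneg (χ.norm_le_one _)
  have h13 := hW X (by linarith) (fun m : ℕ => ((ArithmeticFunction.vonMangoldt m : ℝ) : ℂ) *
    χ (m : ZMod c)) hf (C1 * (2 / c4) ^ (n + 1) * ℓ ^ (9 * (n + 1))) (δ / 2) (by positivity)
    (by positivity) hB
  have h14 := hP ε G hε hε1 hG X (by linarith) c χ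
  have h15 : X ^ (n + 2) / (1 + δ / 2 * X) ^ (n + 4) ≤ (2 / c3) ^ (n + 4) * ℓ ^ (9 * (n + 4)) := by
    have h16 : X ^ (n + 2) / (1 + δ / 2 * X) ^ (n + 4) ≤ X ^ (n + 4) / (δ / 2 * X) ^ (n + 4) := by
      gcongr
      · linarith
      · omega
      · linarith
    refine h16.trans (le_of_eq ?_)
    rw [← div_pow, pow_mul, ← mul_pow]
    congr 1
    rw [hδ]
    field_simp
  set SS := ∑' m : ℕ, (((ArithmeticFunction.vonMangoldt m : ℝ) : ℂ) * χ (m : ZMod c)) *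
          ((vt n G X m : ℝ) : ℂ) with hSS
  have h17 : X * ‖Sc n G X χ‖ ≤ ‖SS‖ + C3 * Real.exp (-X / 4) := by
    have h18 : ‖(X : ℂ) * Sc n G X χ‖ ≤ ‖SS‖ + ‖SS - (X : ℂ) * Sc n G X χ‖ := by
      have := norm_sub_le SS (SS - (X : ℂ) * Sc n G X χ)
      rwa [sub_sub_cancel] at this
    rw [norm_mul, Complex.norm_real, Real.norm_eq_abs, abs_of_pos hX0] at h18
    linarith
  have hXn : 0 < X ^ n := by positivity
  have h19 : ‖SS‖ * X ^ n ≤ X / 2 := by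
    have h20 : ‖SS‖ ≤ C2 / X ^ n * (C1 * (2 / c4) ^ (n + 1) * ℓ ^ (9 * (n + 1)) +
        (2 / c3) ^ (n + 4) * ℓ ^ (9 * (n + 4))) := by
      refine h13.trans ?_
      gcongr
    calc ‖SS‖ * X ^ n ≤ C2 / X ^ n * (C1 * (2 / c4) ^ (n + 1) * ℓ ^ (9 * (n + 1)) +
        (2 / c3) ^ (n + 4) * ℓ ^ (9 * (n + 4))) * X ^ n := by gcongr
      _ = C2 * C1 * (2 / c4) ^ (n + 1) * ℓ ^ (9 * (n + 1)) +
        C2 * (2 / c3) ^ (n + 4) * ℓ ^ (9 * (n + 4)) := by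
          field_simp
      _ ≤ X / 2 := by linarith
  rw [le_div_iff₀ hXn]
  have h21 : X * (‖Sc n G X χ‖ * X ^ n) ≤ X * 1 := by
    calc X * (‖Sc n G X χ‖ * X ^ n) = (X * ‖Sc n G X χ‖) * X ^ n := by ring
      _ ≤ (‖SS‖ + C3 * Real.exp (-X / 4)) * X ^ n := by gcongr
      _ = ‖SS‖ * X ^ n + C3 * Real.exp (-X / 4) * X ^ n := by ring
      _ ≤ X * 1 := by linarith
  exact le_of_mul_le_mul_left h21 hX0

theorem small_cond (A n : ℕ) (ε : ℝ) (hε : 0 < ε) (hε1 : ε ≤ 1) (G : ℝ → ℝ) (hG : IsCut ε G)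
    (R : ℕ) : ∃ X0 : ℝ, ∀ X : ℝ, X0 ≤ X → ∃ r1 : ℕ, r1.Prime ∧ R ≤ r1 ∧ ∀ c : ℕ, 2 ≤ c →
      (c : ℝ) ≤ X ^ A → Squarefree c → ¬ r1 ∣ c → ∀ ψ ∈ pc c, ‖Sc n G X ψ‖ ≤ 1 / X ^ n := by
  obtain ⟨c3, c4, h3, h31, h4, h41, hg⟩ := good_exists
  have hgood := sm_good A n ε hε hε1 G hG c3 c4 h3 h31 h4 h41
    (fun ℓ hℓ c _ χ h1 h2 h3 s h4 h5 => (hg ℓ hℓ).2.2 c χ h1 h2 h3 s h4 h5)
  obtain ⟨ℓ0, hℓ0, hfix⟩ := fixed_good c3 c4 h3 h4 (4 ^ R)
  rw [← eventually_atTop]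
  rcases Nat.eq_zero_or_pos A with hA | hA
  · -- no conductor
    filter_upwards with X
    obtain ⟨r1, hr1, hr1p⟩ := Nat.exists_infinite_primes R
    refine ⟨r1, hr1p, hr1, fun c hc hcX => ?_⟩
    exfalso
    rw [hA, pow_zero] at hcX
    have : (2 : ℝ) ≤ c := by exact_mod_cast hc
    linarith
  have hbig : ∀ᶠ X : ℝ in atTop, ℓ0 ≤ 1 + A * Real.log X := by
    have h5 := Real.tendsto_log_atTop.eventually_ge_atTop ℓ0
    filter_upwards [h5] with X h5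
    have hA1 : (1 : ℝ) ≤ A := by exact_mod_cast hA
    nlinarith
  filter_upwards [hgood, hbig, eventually_ge_atTop (3 : ℝ)] with X hgood hbig hX
  have hlog : 0 ≤ Real.log X := Real.log_nonneg (by linarith)
  set ℓ := 1 + A * Real.log X with hℓ
  have hℓ1 : 1 ≤ ℓ := hℓ0.trans hbig
  have hlc : ∀ c : ℕ, 2 ≤ c → (c : ℝ) ≤ X ^ A → 1 + Real.log c ≤ ℓ := by
    intro c hc hcX
    have hc0 : (0 : ℝ) < c := by
      have : (2 : ℝ) ≤ c := by exact_mod_cast hc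
      linarith
    have := Real.log_le_log hc0 hcX
    rw [Real.log_pow] at this
    linarith
  by_cases hbad : ∃ (c : ℕ) (_ : NeZero c) (ψ : DirichletCharacter ℂ c), 2 ≤ c ∧
      (c : ℝ) ≤ X ^ A ∧ Squarefree c ∧ ψ.IsPrimitive ∧ ¬ Good (c3 / ℓ ^ 9) (c4 / ℓ ^ 7) ψ
  · obtain ⟨c1, _, χ1, hc1, hc1X, hsq, hprim, hb⟩ := hbad
    have hχ1 : χ1 ≠ 1 := sm_ne_one hc1 hprim
    have hsq1 : χ1 ^ 2 = 1 := by
      by_contra h
      exact hb ((hg ℓ hℓ1).1 c1 χ1 (hlc c1 hc1 hc1X) h)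
    have hR : 4 ^ R < c1 := by
      by_contra h
      exact hb (hfix ℓ hbig c1 χ1 (by omega) hχ1)
    have hne : c1.primeFactors.Nonempty := by
      rw [Nat.nonempty_primeFactors]
      omega
    set r1 := c1.primeFactors.max' hne with hr1
    have hmem : r1 ∈ c1.primeFactors := Finset.max'_mem _ _
    have hle : c1 ≤ 4 ^ r1 := sm_le_four hsq (fun p hp hpd =>
      Finset.le_max' _ _ (Nat.mem_primeFactors.2 ⟨hp, hpd, by omega⟩))
    have hRr : R ≤ r1 := by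
      have h6 : 4 ^ R < 4 ^ r1 := lt_of_lt_of_le hR hle
      exact ((Nat.pow_lt_pow_iff_right (by norm_num)).1 h6).le
    refine ⟨r1, Nat.prime_of_mem_primeFactors hmem, hRr, fun c hc hcX hcs hnd ψ hψ => ?_⟩
    obtain ⟨hc0, hψp⟩ := mem_pc.1 hψ
    haveI : NeZero c := ⟨hc0⟩
    have hψ1 : ψ ≠ 1 := sm_ne_one hc hψp
    refine hgood c ψ hcX hψ1 ?_
    by_contra hng
    have hsq2 : ψ ^ 2 = 1 := by
      by_contra h
      exact hng ((hg ℓ hℓ1).1 c ψ (hlc c hc hcX) h)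
    have heq := (hg ℓ hℓ1).2.1 c c1 ψ χ1 (hlc c hc hcX) (hlc c1 hc1 hc1X) hψp hprim hψ1 hχ1 hsq2
      hsq1 hng hb
    have hcc : c = c1 := congrArg Sigma.fst heq
    exact hnd (hcc ▸ Nat.dvd_of_mem_primeFactors hmem)
  · obtain ⟨r1, hr1, hr1p⟩ := Nat.exists_infinite_primes R
    refine ⟨r1, hr1p, hr1, fun c hc hcX hcs hnd ψ hψ => ?_⟩
    obtain ⟨hc0, hψp⟩ := mem_pc.1 hψ
    haveI : NeZero c := ⟨hc0⟩
    refine hgood c ψ hcX (sm_ne_one hc hψp) ?_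
    by_contra hng
    exact hbad ⟨c, inferInstance, ψ, hc, hcX, hcs, hψp, hng⟩

end Pool.Agent.ERB
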