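import Pool.Agent.ERB.Wb
import Pool.Agent.RG.Mer

/-!
# ERB / WLow: lower bound for the total weight

For primes `q` with `1 + 11ε/16 ≤ log q / X ≤ 1 + 13ε/16` (these are in `QQ X` as `ε ≤ 1`):
`wt q = (log q / X) q^(-1) e^(-log q/X) (log q/X)^n ≥ e^(-2) log q/(X q)`.
`∑ log q/q` over the primes in `(a, b]` is `≥ log b - log a - 7` (`RG.mA_bound`, with floors of
`e^((1+11ε/16) X)`, `e^((1+13ε/16) X)`), which is `≥ ε X/8 - 8 ≥ ε X/16` for large `X`.
So `WW ≥ e^(-2) ε/16`.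
-/

set_option autoImplicit false

namespace Pool.Agent.ERB

open Finset

private lemma wt_low {ε : ℝ} {G : ℝ → ℝ} (hG : IsCut ε G) (hε : 0 < ε) (hε1 : ε ≤ 1) (n : ℕ)
    {X : ℝ} (hX : 0 < X) (q : ℕ) (hq1 : Real.exp ((1 + 11 * ε / 16) * X) ≤ q)
    (hq2 : (q : ℝ) ≤ Real.exp ((1 + 13 * ε / 16) * X)) :
    Real.exp (-2) / X * (Real.log q / q) ≤ wt n G X q := by
  have hq0 : (0 : ℝ) < q := (Real.exp_pos _).trans_le hq1
  have h1 : (1 + 11 * ε / 16) * X ≤ Real.log q := (Real.le_log_iff_exp_le hq0).2 hq1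
  have h2 : Real.log q ≤ (1 + 13 * ε / 16) * X := (Real.log_le_iff_le_exp hq0).2 hq2
  have h3 : 1 + 11 * ε / 16 ≤ Real.log q / X := (le_div_iff₀ hX).2 h1
  have h4 : Real.log q / X ≤ 1 + 13 * ε / 16 := (div_le_iff₀ hX).2 h2
  have hG1 : G (Real.log q / X) = 1 := hG.one _ h3 h4
  have h5 : 1 ≤ Real.log q / X := by linarith
  have h6 : 1 ≤ (Real.log q / X) ^ n := one_le_pow₀ h5
  have h7 : (q : ℝ) ^ (-1 - 1 / X : ℝ) = (q : ℝ)⁻¹ * Real.exp (-(Real.log q / X)) := by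
    rw [Real.rpow_sub hq0, Real.rpow_neg_one, Real.rpow_def_of_pos hq0, Real.exp_neg,
      div_eq_mul_inv]
    congr 3
    ring
  have h8 : Real.exp (-2) ≤ Real.exp (-(Real.log q / X)) := Real.exp_le_exp.2 (by linarith)
  unfold wt vt
  rw [hG1, h7, mul_one]
  have hi : 0 < (q : ℝ)⁻¹ := inv_pos.2 hq0
  calc Real.exp (-2) / X * (Real.log q / q)
      = Real.log q / X * ((q : ℝ)⁻¹ * Real.exp (-2) * 1) := by
        field_simp
    _ ≤ Real.log q / X * ((q : ℝ)⁻¹ * Real.exp (-(Real.log q / X)) * (Real.log q / X) ^ n) := by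
        gcongr

private lemma mA_sub (u v : ℕ) (huv : u ≤ v) : Pool.Agent.RG.mA v - Pool.Agent.RG.mA u =
    ∑ q ∈ Pool.Agent.Helper35.prm u v, Real.log q / q := by
  unfold Pool.Agent.RG.mA
  have h1 : Pool.Agent.Helper35.prm 0 v =
      Pool.Agent.Helper35.prm 0 u ∪ Pool.Agent.Helper35.prm u v := by
    ext p
    rw [mem_union, Pool.Agent.Helper35.mem_prm, Pool.Agent.Helper35.mem_prm,
      Pool.Agent.Helper35.mem_prm]
    constructor
    · rintro ⟨⟨h1, h2⟩, h3⟩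
      rcases Nat.lt_or_ge u p with h | h
      · exact Or.inr ⟨⟨h, h2⟩, h3⟩
      · exact Or.inl ⟨⟨h1, h⟩, h3⟩
    · rintro (⟨⟨h1, h2⟩, h3⟩ | ⟨⟨h1, h2⟩, h3⟩)
      · exact ⟨⟨h1, by omega⟩, h3⟩
      · exact ⟨⟨by omega, h2⟩, h3⟩
  have h2 : Disjoint (Pool.Agent.Helper35.prm 0 u) (Pool.Agent.Helper35.prm u v) := by
    rw [disjoint_left]
    intro p hp hp'
    rw [Pool.Agent.Helper35.mem_prm] at hp hp'
    omega
  rw [h1, sum_union h2]
  ring

theorem W_low : ∃ c : ℝ, 0 < c ∧ ∀ ε : ℝ, 0 < ε → ε ≤ 1 → ∃ X0 : ℝ, ∀ X : ℝ, X0 ≤ X →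
    ∀ (n : ℕ) (G : ℝ → ℝ), IsCut ε G → c * ε ≤ WW n G X := by
  refine ⟨Real.exp (-2) / 16, by positivity, fun ε hε hε1 => ⟨128 / ε, fun X hX n G hG => ?_⟩⟩
  have hX0 : 0 < X := lt_of_lt_of_le (by positivity) hX
  have hXe : 128 ≤ ε * X := by
    rw [div_le_iff₀ hε] at hX
    linarith
  have hX1 : 128 ≤ X := by nlinarith
  set u := ⌊Real.exp ((1 + 11 * ε / 16) * X)⌋₊ with hu
  set v := ⌊Real.exp ((1 + 13 * ε / 16) * X)⌋₊ with hv
  have hexp : Real.exp ((1 + 11 * ε / 16) * X) ≤ Real.exp ((1 + 13 * ε / 16) * X) :=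
    Real.exp_le_exp.2 (by nlinarith)
  have huv : u ≤ v := Nat.floor_le_floor hexp
  have he1 : (2 : ℝ) ≤ Real.exp ((1 + 11 * ε / 16) * X) := by
    have := Real.add_one_le_exp ((1 + 11 * ε / 16) * X)
    nlinarith
  have hu1 : 1 ≤ u := Nat.le_floor (by push_cast; linarith)
  have hv1 : 1 ≤ v := hu1.trans huv
  have hule : (u : ℝ) ≤ Real.exp ((1 + 11 * ε / 16) * X) := Nat.floor_le (Real.exp_pos _).le
  have hvle : (v : ℝ) ≤ Real.exp ((1 + 13 * ε / 16) * X) := Nat.floor_le (Real.exp_pos _).le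
  have hvge : Real.exp ((1 + 13 * ε / 16) * X) / 2 ≤ v := by
    have := Nat.lt_floor_add_one (Real.exp ((1 + 13 * ε / 16) * X))
    rw [← hv] at this
    linarith
  have hlu : Real.log u ≤ (1 + 11 * ε / 16) * X :=
    (Real.log_le_iff_le_exp (by exact_mod_cast hu1)).2 hule
  have hlv : (1 + 13 * ε / 16) * X - 1 ≤ Real.log v := by
    have h1 : Real.log (Real.exp ((1 + 13 * ε / 16) * X) / 2) ≤ Real.log v :=
      Real.log_le_log (by positivity) hvge
    rw [Real.log_div (Real.exp_pos _).ne' two_ne_zero, Real.log_exp] at h1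
    have h2 := Real.log_two_lt_d9
    linarith
  have hBu := abs_le.1 (Pool.Agent.RG.mA_bound u hu1)
  have hBv := abs_le.1 (Pool.Agent.RG.mA_bound v hv1)
  have hdiff : ε * X / 16 ≤ ∑ q ∈ Pool.Agent.Helper35.prm u v, Real.log q / q := by
    rw [← mA_sub u v huv]
    have h1 := hBu.2
    have h2 := hBv.1
    nlinarith
  have hsub : Pool.Agent.Helper35.prm u v ⊆ QQ X := by
    intro q hq
    rw [Pool.Agent.Helper35.mem_prm] at hq
    unfold QQ
    rw [mem_filter, mem_range]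
    refine ⟨?_, hq.2⟩
    have h1 : q ≤ ⌊Real.exp (2 * X)⌋₊ := by
      refine hq.1.2.trans (Nat.floor_le_floor (Real.exp_le_exp.2 ?_))
      nlinarith
    omega
  calc Real.exp (-2) / 16 * ε = Real.exp (-2) / X * (ε * X / 16) := by
        field_simp
    _ ≤ Real.exp (-2) / X * ∑ q ∈ Pool.Agent.Helper35.prm u v, Real.log q / q :=
        mul_le_mul_of_nonneg_left hdiff (by positivity)
    _ = ∑ q ∈ Pool.Agent.Helper35.prm u v, Real.exp (-2) / X * (Real.log q / q) := mul_sum _ _ _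
    _ ≤ ∑ q ∈ Pool.Agent.Helper35.prm u v, wt n G X q := by
        refine sum_le_sum fun q hq => ?_
        rw [Pool.Agent.Helper35.mem_prm] at hq
        refine wt_low hG hε hε1 n hX0 q ?_ ?_
        · exact (Nat.lt_of_floor_lt hq.1.1).le
        · exact le_trans (by exact_mod_cast hq.1.2) hvle
    _ ≤ WW n G X := sum_le_sum_of_subset_of_nonneg hsub fun q _ _ => wt_nonneg hG n hX0 q

end Pool.Agent.ERB
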