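import Pool.Agent.ERB.Case
import Pool.Agent.ERB.Cut
import Pool.Agent.ERB.WLow
import Pool.Agent.ERB.Small
import Pool.Agent.ERB.Dich

/-!
# ERB / Fin: assembly
-/

set_option autoImplicit false

namespace Pool.Agent.ERB

open Finset Filter

/-- Powers against exponentials. -/
theorem ev_pow_exp (a b : ℝ) (hb : 0 < b) (n : ℕ) : ∀ᶠ X : ℝ in atTop,
    a * X ^ n ≤ Real.exp (b * X) := by
  have h := isLittleO_pow_exp_pos_mul_atTop n hb
  have h2 := h.def (c := 1 / (|a| + 1)) (by positivity)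
  filter_upwards [h2, eventually_ge_atTop (0 : ℝ)] with X hX hX0
  rw [Real.norm_eq_abs, Real.norm_eq_abs, abs_of_nonneg (by positivity), Real.abs_exp] at hX
  have h3 : 0 ≤ X ^ n := by positivity
  calc a * X ^ n ≤ (|a| + 1) * X ^ n := by
        apply mul_le_mul_of_nonneg_right _ h3
        have := le_abs_self a
        linarith
    _ ≤ (|a| + 1) * (1 / (|a| + 1) * Real.exp (b * X)) := by gcongr
    _ = Real.exp (b * X) := by
      field_simp

/-- A constant against `X`. -/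
theorem ev_le (a : ℝ) : ∀ᶠ X : ℝ in atTop, a ≤ X := eventually_ge_atTop a

/-- The numerical conditions on `X`. -/
structure NumC (ε c cW cV CU CT B X : ℝ) : Prop where
  two : 2 ≤ X
  z3 : 3 ≤ Real.exp (c * ε * X)
  lev1 : B * Real.exp (22 / 100 * X) ≤ Real.exp (X / 2)
  lev2 : B * 2 ^ 22 ≤ X
  lev3 : X ^ 400 ≤ Real.exp (X / 2)
  ec : 64 * CU ≤ cW * ε * X
  et : 64 * CT ≤ cW * ε * cV * X
  k1 : 4 * Real.exp (c * ε * X) ≤ Real.exp (ε * X / 8)
  fin : 2 ^ (420 + 1) * 4 * X ≤ cW * ε * cV * Real.exp (ε * X / 8)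

theorem ev_numC (ε c cW cV CU CT B : ℝ) (hε : 0 < ε) (hc : 0 < c)
    (hc1 : c ≤ 1 / 100) (hcW : 0 < cW) (hcV : 0 < cV) :
    ∀ᶠ X : ℝ in atTop, NumC ε c cW cV CU CT B X := by
  have h1 : ∀ᶠ X : ℝ in atTop, (3 : ℝ) ≤ Real.exp (c * ε * X) := by
    filter_upwards [ev_pow_exp 3 (c * ε) (by positivity) 0] with X hX
    simpa using hX
  have h2 : ∀ᶠ X : ℝ in atTop, B * Real.exp (22 / 100 * X) ≤ Real.exp (X / 2) := by
    filter_upwards [ev_pow_exp B (28 / 100) (by norm_num) 0] with X hX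
    rw [pow_zero, mul_one] at hX
    calc B * Real.exp (22 / 100 * X) ≤ Real.exp (28 / 100 * X) * Real.exp (22 / 100 * X) := by
          gcongr
      _ = Real.exp (X / 2) := by
        rw [← Real.exp_add]
        congr 1
        ring
  have h3 : ∀ᶠ X : ℝ in atTop, X ^ 400 ≤ Real.exp (X / 2) := by
    filter_upwards [ev_pow_exp 1 (1 / 2) (by norm_num) 400] with X hX
    rw [one_mul] at hX
    refine hX.trans (le_of_eq ?_)
    congr 1
    ring
  have h4 : ∀ᶠ X : ℝ in atTop, 64 * CU ≤ cW * ε * X := by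
    filter_upwards [ev_le (64 * CU / (cW * ε))] with X hX
    rw [div_le_iff₀ (by positivity)] at hX
    linarith
  have h5 : ∀ᶠ X : ℝ in atTop, 64 * CT ≤ cW * ε * cV * X := by
    filter_upwards [ev_le (64 * CT / (cW * ε * cV))] with X hX
    rw [div_le_iff₀ (by positivity)] at hX
    linarith
  have h6 : ∀ᶠ X : ℝ in atTop, 4 * Real.exp (c * ε * X) ≤ Real.exp (ε * X / 8) := by
    filter_upwards [ev_pow_exp 4 (ε / 10) (by positivity) 0, ev_le 0] with X hX hX0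
    rw [pow_zero, mul_one] at hX
    calc 4 * Real.exp (c * ε * X) ≤ Real.exp (ε / 10 * X) * Real.exp (1 / 100 * ε * X) := by
          gcongr
      _ = Real.exp (ε / 10 * X + 1 / 100 * ε * X) := by rw [Real.exp_add]
      _ ≤ Real.exp (ε * X / 8) := by
        apply Real.exp_le_exp.2
        have : 0 ≤ ε * X := by positivity
        linarith
  have h7 : ∀ᶠ X : ℝ in atTop, 2 ^ (420 + 1) * 4 * X ≤ cW * ε * cV * Real.exp (ε * X / 8) := by
    filter_upwards [ev_pow_exp (2 ^ (420 + 1) * 4 / (cW * ε * cV)) (ε / 8) (by positivity) 1] with X hX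
    have hp : 0 < cW * ε * cV := by positivity
    have h8 : ε / 8 * X = ε * X / 8 := by ring
    rw [pow_one, h8, div_mul_eq_mul_div, div_le_iff₀ hp] at hX
    generalize (2 : ℝ) ^ (420 + 1) = t at hX ⊢
    linarith
  filter_upwards [ev_le 2, h1, h2, ev_le (B * 2 ^ 22), h3, h4, h5, h6, h7] with X a1 a2 a3 a4 a5
    a6 a7 a8 a9
  exact ⟨a1, a2, a3, a4, a5, a6, a7, a8, a9⟩

theorem prod_primes_facts (D : Finset ℕ) (hD : D.Nonempty) (hp : ∀ r ∈ D, r.Prime) (r1 : ℕ)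
    (hr1 : r1.Prime) (hr1D : r1 ∉ D) :
    2 ≤ ∏ r ∈ D, r ∧ Squarefree (∏ r ∈ D, r) ∧ ¬ r1 ∣ ∏ r ∈ D, r := by
  refine ⟨?_, ?_, ?_⟩
  · obtain ⟨r, hr⟩ := hD
    have h1 : r ∣ ∏ r ∈ D, r := Finset.dvd_prod_of_mem _ hr
    have h2 : 0 < ∏ r ∈ D, r := Finset.prod_pos fun r hr => (hp r hr).pos
    exact (hp r hr).two_le.trans (Nat.le_of_dvd h2 h1)
  · refine Finset.squarefree_prod_of_pairwise_isCoprime (fun p hp' q hq' hpq => ?_) ?_
    · exact Nat.coprime_iff_isRelPrime.1 ((Nat.coprime_primes (hp p hp') (hp q hq')).2 hpq)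
    · intro p hp'
      exact (hp p hp').squarefree
  · intro h
    obtain ⟨r, hr, hdvd⟩ := (Prime.dvd_finsetProd_iff hr1.prime _).1 h
    have := (Nat.prime_dvd_prime_iff_eq hr1 (hp r hr)).1 hdvd
    subst this
    exact hr1D hr

/-- The error in the case of many multipliers. -/
theorem err_caseI (CT cW cV ε X : ℝ) (hX : 2 ≤ X) (hCT : 0 < CT)
    (het : 64 * CT ≤ cW * ε * cV * X) (α K : ℝ) (hα : X ^ 8 ≤ α)
    (hK : √K ≤ 2 * X * α) :
    CT * (α ^ 2 / X ^ 10 + X ^ 6 * (1 + √K / X ^ 400) * α) ≤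
      cW * ε / 16 * (α ^ 2 * (cV / X)) := by
  have hX0 : 0 < X := by linarith
  have hα0 : 0 < α := lt_of_lt_of_le (by positivity) hα
  have h1 : α ^ 2 / X ^ 10 ≤ α ^ 2 / X ^ 2 := by
    apply div_le_div_of_nonneg_left (by positivity) (by positivity)
    exact pow_le_pow_right₀ (by linarith) (by norm_num)
  have h2 : X ^ 6 * α ≤ α ^ 2 / X ^ 2 := by
    rw [le_div_iff₀ (by positivity)]
    have : X ^ 6 * α * X ^ 2 = X ^ 8 * α := by ring
    rw [this, sq]
    gcongr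
  have h3 : X ^ 6 * (√K / X ^ 400) * α ≤ 2 * (α ^ 2 / X ^ 2) := by
    have h4 : √K / X ^ 400 ≤ 2 * α / X ^ 8 := by
      rw [div_le_div_iff₀ (by positivity) (by positivity)]
      have h5 : X * X ^ 8 ≤ X ^ 400 := by
        rw [← pow_succ']
        exact pow_le_pow_right₀ (by linarith) (by norm_num)
      calc √K * X ^ 8 ≤ 2 * X * α * X ^ 8 := by gcongr
        _ = 2 * α * (X * X ^ 8) := by ring
        _ ≤ 2 * α * X ^ 400 := by gcongr
    calc X ^ 6 * (√K / X ^ 400) * α ≤ X ^ 6 * (2 * α / X ^ 8) * α := by gcongr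
      _ = 2 * (α ^ 2 / X ^ 2) := by
        field_simp
  have h6 : α ^ 2 / X ^ 10 + X ^ 6 * (1 + √K / X ^ 400) * α ≤ 4 * (α ^ 2 / X ^ 2) := by
    have h7 : X ^ 6 * (1 + √K / X ^ 400) * α =
        X ^ 6 * α + X ^ 6 * (√K / X ^ 400) * α := by ring
    rw [h7]
    linarith
  calc CT * (α ^ 2 / X ^ 10 + X ^ 6 * (1 + √K / X ^ 400) * α)
      ≤ CT * (4 * (α ^ 2 / X ^ 2)) := by gcongr
    _ = 64 * CT * (α ^ 2 / (16 * X ^ 2)) := by
      field_simp
      ring
    _ ≤ cW * ε * cV * X * (α ^ 2 / (16 * X ^ 2)) := by gcongr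
    _ = cW * ε / 16 * (α ^ 2 * (cV / X)) := by
      field_simp

theorem barrier : ∃ c : ℝ, 0 < c ∧ ∀ ε : ℝ, 0 < ε → ε ≤ 1 → ∃ y₀ : ℕ, ∀ y : ℕ, y₀ ≤ y →
    ∀ m : ℤ, ∑ p ∈ (Icc 1 y).filter (fun p : ℕ => p.Prime ∧ (y : ℝ) ^ (c * ε) < p ∧
      ¬ (p : ℤ) ∣ m), 1 / (p : ℝ) ≤ c * ε →
    ∃ W : Finset ℤ, (y : ℝ) ^ (1 + ε / 2) ≤ (W.card : ℝ) ∧ ∀ a ∈ W,
      m + ⌊(y : ℝ) ^ (1 + ε / 2)⌋₊ < a ∧ a ≤ m + ⌊(y : ℝ) ^ (1 + ε)⌋₊ ∧
      ∀ p : ℕ, p.Prime → p ≤ y → ¬ (p : ℤ) ∣ a := by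
  classical
  obtain ⟨cW, hcW, hW⟩ := W_low
  obtain ⟨CU, hCU, hU⟩ := up_weight 420
  obtain ⟨CT, hCT, hTot⟩ := tot_err 420 400 (by norm_num)
  obtain ⟨B, hB, hSW⟩ := sieve_weights
  obtain ⟨cV, hcV, hV⟩ := VV_low
  obtain ⟨c, hcdef⟩ : ∃ c : ℝ, c = min (1 / 100) (cW / (32 * CU)) := ⟨_, rfl⟩
  have hc : 0 < c := by
    rw [hcdef]
    apply lt_min (by norm_num)
    positivity
  have hc1 : c ≤ 1 / 100 := by rw [hcdef]; exact min_le_left _ _
  have hc2 : c * CU ≤ cW / 32 := by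
    have h : c ≤ cW / (32 * CU) := by rw [hcdef]; exact min_le_right _ _
    rw [le_div_iff₀ (by positivity)] at h
    linarith
  refine ⟨c, hc, ?_⟩
  intro ε hε hε1
  obtain ⟨G, hG⟩ := exists_cut ε hε
  have hcWε : 0 < cW * ε := by positivity
  obtain ⟨R, hRdef⟩ : ∃ R : ℕ, R = ⌈64 * CU / (cW * ε)⌉₊ + 1 := ⟨_, rfl⟩
  have hR1 : 1 ≤ R := by omega
  have hR0 : (0 : ℝ) < R := by exact_mod_cast hR1
  have hR : CU / R ≤ cW * ε / 64 := by
    rw [div_le_div_iff₀ hR0 (by norm_num)]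
    have h1 : 64 * CU / (cW * ε) ≤ R := by
      rw [hRdef]
      push_cast
      have := Nat.le_ceil (64 * CU / (cW * ε))
      linarith
    rw [div_le_iff₀ hcWε] at h1
    linarith
  obtain ⟨XS, hXS⟩ := small_cond 400 420 ε hε hε1 G hG R
  obtain ⟨XW, hXW⟩ := hW ε hε hε1
  obtain ⟨XU, hXU⟩ := hU ε hε hε1
  obtain ⟨X1, hX1⟩ := eventually_atTop.1 ((ev_numC ε c cW cV CU CT B hε hc hc1 hcW hcV).and
    ((ev_le XS).and ((ev_le XW).and (ev_le XU))))
  refine ⟨⌈Real.exp X1⌉₊ + 3, ?_⟩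
  intro y hy m hm
  have hy3 : 3 ≤ y := by omega
  have hyR : (3 : ℝ) ≤ y := by exact_mod_cast hy3
  have hy0 : (0 : ℝ) < y := by linarith
  obtain ⟨X, hXdef⟩ : ∃ X : ℝ, X = Real.log y := ⟨_, rfl⟩
  have hexpX : Real.exp X = y := by rw [hXdef]; exact Real.exp_log hy0
  have hXX1 : X1 ≤ X := by
    rw [hXdef, Real.le_log_iff_exp_le hy0]
    have h1 := Nat.le_ceil (Real.exp X1)
    have h2 : ((⌈Real.exp X1⌉₊ : ℕ) : ℝ) ≤ y := by exact_mod_cast (by omega : ⌈Real.exp X1⌉₊ ≤ y)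
    linarith
  obtain ⟨hN, hXS', hXW', hXU'⟩ := hX1 X hXX1
  have hX2 := hN.two
  have hX0 : 0 < X := by linarith
  have hrp : ∀ a : ℝ, (y : ℝ) ^ a = Real.exp (a * X) := fun a => by
    rw [Real.rpow_def_of_pos hy0, ← hXdef, mul_comm]
  have hcε : c * ε ≤ 1 / 100 := by nlinarith
  have hcε0 : 0 < c * ε := by positivity
  -- the sets of primes
  obtain ⟨z, hzdef⟩ : ∃ z : ℕ, z = ⌊Real.exp (c * ε * X)⌋₊ := ⟨_, rfl⟩
  have hz3 : 3 ≤ z := by
    rw [hzdef]
    apply Nat.le_floor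
    exact_mod_cast hN.z3
  have hzle : (z : ℝ) ≤ Real.exp (c * ε * X) := by
    rw [hzdef]
    exact Nat.floor_le (by positivity)
  have hzlt : Real.exp (c * ε * X) < z + 1 := by
    rw [hzdef]
    exact Nat.lt_floor_add_one _
  have hzR : (3 : ℝ) ≤ z := by exact_mod_cast hz3
  have hzy : (z : ℝ) ≤ y := by
    rw [← hexpX]
    refine hzle.trans (Real.exp_le_exp.2 ?_)
    nlinarith
  obtain ⟨P1, hP1⟩ : ∃ P1 : Finset ℕ, P1 = (Icc 3 z).filter
    (fun p : ℕ => p.Prime ∧ ¬ (p : ℤ) ∣ m) := ⟨_, rfl⟩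
  have hP1m : ∀ p, p ∈ P1 ↔ (3 ≤ p ∧ p ≤ z) ∧ p.Prime ∧ ¬ (p : ℤ) ∣ m := fun p => by
    rw [hP1, mem_filter, mem_Icc]
  obtain ⟨E0, hE0⟩ : ∃ E0 : Finset ℕ, E0 = (Icc (z + 1) y).filter
    (fun p : ℕ => p.Prime ∧ ¬ (p : ℤ) ∣ m) := ⟨_, rfl⟩
  have hE0m : ∀ p, p ∈ E0 ↔ (z + 1 ≤ p ∧ p ≤ y) ∧ p.Prime ∧ ¬ (p : ℤ) ∣ m := fun p => by
    rw [hE0, mem_filter, mem_Icc]
  have hE0s : ∑ p ∈ E0, 1 / (p : ℝ) ≤ c * ε := by
    refine le_trans (Finset.sum_le_sum_of_subset_of_nonneg ?_ fun _ _ _ => by positivity) hm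
    intro p hp
    rw [hE0m] at hp
    rw [mem_filter, mem_Icc]
    refine ⟨⟨by omega, hp.1.2⟩, hp.2.1, ?_, hp.2.2⟩
    rw [hrp]
    have h1 : ((z + 1 : ℕ) : ℝ) ≤ p := by exact_mod_cast hp.1.1
    push_cast at h1
    linarith
  obtain ⟨κ, hκ⟩ : ∃ κ : ℕ, κ = if (2 : ℤ) ∣ m then 1 else 2 := ⟨_, rfl⟩
  have hκ12 : κ = 1 ∨ κ = 2 := by
    rw [hκ]
    split_ifs <;> simp
  obtain ⟨r1, hr1p, hr1R, hr1⟩ := hXS X hXS'
  obtain ⟨Er, hEr⟩ : ∃ Er : Finset ℕ, Er = P1.filter (fun p => p = r1) := ⟨_, rfl⟩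
  have hErs : (∑ p ∈ Er, 1 / (p : ℝ)) * CU ≤ cW * ε / 64 := by
    have h1 : ∑ p ∈ Er, 1 / (p : ℝ) ≤ 1 / R := by
      by_cases h : r1 ∈ P1
      · have h2 : Er = {r1} := by
          rw [hEr]
          ext p
          simp only [mem_filter, mem_singleton]
          constructor
          · exact fun h => h.2
          · rintro rfl
            exact ⟨h, rfl⟩
        rw [h2, sum_singleton]
        apply one_div_le_one_div_of_le hR0
        exact_mod_cast hr1R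
      · have h2 : Er = ∅ := by
          rw [hEr]
          ext p
          simp only [mem_filter, notMem_empty, iff_false, not_and]
          rintro hp rfl
          exact h hp
        rw [h2, sum_empty]
        positivity
    calc (∑ p ∈ Er, 1 / (p : ℝ)) * CU ≤ 1 / R * CU := by gcongr
      _ = CU / R := by ring
      _ ≤ _ := hR
  have hE0U : (∑ p ∈ E0, 1 / (p : ℝ)) * CU ≤ cW * ε / 32 := by
    calc (∑ p ∈ E0, 1 / (p : ℝ)) * CU ≤ c * ε * CU := by gcongr
      _ = c * CU * ε := by ring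
      _ ≤ cW / 32 * ε := by gcongr
      _ = cW * ε / 32 := by ring
  have hsum0 : ∀ S : Finset ℕ, 0 ≤ ∑ p ∈ S, 1 / (p : ℝ) := fun S =>
    Finset.sum_nonneg fun _ _ => by positivity
  have hsumU : ∀ S T : Finset ℕ, ∑ p ∈ S ∪ T, 1 / (p : ℝ) ≤
      ∑ p ∈ S, 1 / (p : ℝ) + ∑ p ∈ T, 1 / (p : ℝ) := fun S T => by
    rw [← Finset.sum_union_inter]
    have := hsum0 (S ∩ T)
    linarith
  have hWW := hXW X hXW' 420 G hG
  have hlogz : 0 < Real.log z := Real.log_pos (by linarith)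
  have hlogzX : Real.log z ≤ X := by
    rw [Real.log_le_iff_le_exp (by linarith), hexpX]
    exact hzy
  -- facts for all sets of sieving primes
  have hPfacts : ∀ P ⊆ P1, (∀ r ∈ P, r.Prime ∧ 3 ≤ r ∧ (r : ℝ) ≤ Real.exp X ∧ ¬ (r : ℤ) ∣ m) ∧
      (∀ k, cV / X ≤ VV P k) := by
    intro P hP
    constructor
    · intro r hr
      obtain ⟨h1, h2, h3⟩ := (hP1m r).1 (hP hr)
      refine ⟨h2, h1.1, ?_, h3⟩
      rw [hexpX]
      refine le_trans ?_ hzy
      exact_mod_cast h1.2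
    · intro k
      refine le_trans ?_ (hV z (by omega) P (fun r hr => ?_) k)
      · apply div_le_div_of_nonneg_left hcV.le hlogz hlogzX
      · obtain ⟨h1, h2, h3⟩ := (hP1m r).1 (hP hr)
        exact ⟨h2, h1.1, h1.2⟩
  have hSmallP : ∀ P ⊆ P1.erase r1, ∀ D ⊆ P, D.Nonempty →
      ((∏ r ∈ D, r : ℕ) : ℝ) ≤ X ^ 400 → ∀ ψ ∈ pc (∏ r ∈ D, r),
      ‖Sc 420 G X ψ‖ ≤ 1 / X ^ 420 := by
    intro P hP D hD hD0 hDX ψ hψ
    have h1 : ∀ r ∈ D, r.Prime := fun r hr =>
      ((hP1m r).1 (Finset.mem_of_mem_erase (hP (hD hr)))).2.1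
    have h2 : r1 ∉ D := fun h => (Finset.notMem_erase r1 P1) (hP (hD h))
    obtain ⟨h3, h4, h5⟩ := prod_primes_facts D hD0 h1 r1 hr1p h2
    exact hr1 _ h3 hDX h4 h5 ψ hψ
  have hupP : ∀ (P E A : Finset ℕ), P ⊆ P1 → (∀ k ∈ A, 1 ≤ k) →
      (∀ p ∈ E, p.Prime ∧ 3 ≤ p ∧ p ≤ y ∧ p ∉ P ∧ ¬ (p : ℤ) ∣ m) →
      ∀ p ∈ E, ∀ k ∈ A, (∑ q ∈ QQ X, if (p : ℤ) ∣ m + κ * k * q ∧
        ∀ r ∈ P, ¬ (r : ℤ) ∣ m + κ * k * q then wt 420 G X q else 0) ≤ CU / p * VV P k := by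
    intro P E A hP hA hE p hp k hk
    obtain ⟨h1, h2, h3, h4, h5⟩ := hE p hp
    refine hXU X hXU' G hG m κ k P p hκ12 (hA k hk) ?_ h1 h2 ?_ h4 h5
    · intro r hr
      obtain ⟨h6, h7, h8, h9⟩ := (hPfacts P hP).1 r hr
      refine ⟨h6, h7, ?_, h9⟩
      have h10 : (r : ℝ) ≤ z := by exact_mod_cast ((hP1m r).1 (hP hr)).1.2
      refine (h10.trans hzle).trans (Real.exp_le_exp.2 ?_)
      have h11 : c * (ε * X) ≤ 1 / 100 * (ε * X) := by gcongr
      linarith
    · rw [hexpX]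
      exact_mod_cast h3
  -- the key claim
  have key : ∃ A T : Finset ℕ, cW * ε / 4 * (cV / X) ≤ Surv 420 G X m κ A T ∧
      (∀ k ∈ A, 1 ≤ k ∧ (k : ℝ) ≤ 2 * Real.exp (c * ε * X) ∧
        ∀ p : ℕ, p.Prime → p ∣ k → 3 ≤ p ∧ ¬ (p : ℤ) ∣ m) ∧
      (∀ p : ℕ, p.Prime → 3 ≤ p → p ≤ y → ¬ (p : ℤ) ∣ m → p ∈ T) := by
    have hzexp : (z : ℝ) ≤ Real.exp X := by rw [hexpX]; exact hzy
    rcases dich X hX2 z hzexp P1 (fun r hr =>
      ⟨((hP1m r).1 hr).2.1, ((hP1m r).1 hr).1.2⟩) with ⟨i, hi1, hi2, hi3⟩ | hd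
    · -- many multipliers
      obtain ⟨P, hPdef⟩ : ∃ P : Finset ℕ, P = P1.erase r1 := ⟨_, rfl⟩
      have hPP1 : P ⊆ P1 := by rw [hPdef]; exact Finset.erase_subset _ _
      obtain ⟨lam, lamu, hlam⟩ := hSW z (by omega) P (fun p hp =>
        ⟨((hP1m p).1 (hPP1 hp)).2.1, ((hP1m p).1 (hPP1 hp)).1.2⟩)
      have hL1 : 1 ≤ B * (z : ℝ) ^ 22 := by
        have : (1 : ℝ) ≤ (z : ℝ) ^ 22 := one_le_pow₀ (by linarith)
        nlinarith
      have hL2 : B * (z : ℝ) ^ 22 ≤ Real.exp (X / 2) := by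
        refine le_trans ?_ hN.lev1
        have h1 : (z : ℝ) ^ 22 ≤ Real.exp (22 / 100 * X) := by
          calc (z : ℝ) ^ 22 ≤ (Real.exp (c * ε * X)) ^ 22 := by gcongr
            _ = Real.exp (22 * (c * ε * X)) := by rw [← Real.exp_nat_mul]; norm_num
            _ ≤ _ := by
              apply Real.exp_le_exp.2
              nlinarith
        gcongr
      have hAsub : Kset P1 i ⊆ Icc 1 (2 ^ (i + 1)) := by
        intro k hk
        rw [Kset, mem_filter, mem_Ioc] at hk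
        rw [mem_Icc]
        exact ⟨by omega, hk.1.2⟩
      have hcard : X ^ 16 ≤ ((Kset P1 i).card : ℝ) := by
        refine le_trans ?_ hi3
        rw [le_div_iff₀ (by positivity)]
        calc X ^ 16 * X ^ 2 = X ^ 18 := by ring
          _ ≤ 2 ^ i := hi1
      have hApos : (Kset P1 i).Nonempty := by
        rw [← Finset.card_pos]
        have : (0 : ℝ) < (Kset P1 i).card := lt_of_lt_of_le (by positivity) hcard
        exact_mod_cast this
      have herr : ∑ D ∈ P.powerset.filter (fun D => D.Nonempty ∧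
          ((∏ r ∈ D, r : ℕ) : ℝ) ≤ B * (z : ℝ) ^ 22), Err 420 G X m κ (Kset P1 i) D ≤
          cW * ε / 16 * ((Kset P1 i).card * (cV / X)) := by
        refine (hTot ε G hε hε1 hG X hX2 m κ hκ12 P (hPfacts P hPP1).1 _ hL1 hL2
          (hSmallP P (by rw [hPdef])) (2 ^ (i + 1)) (Nat.one_le_two_pow) _ hAsub).trans ?_
        set α := √((Kset P1 i).card : ℝ) with hα
        have hα2 : α ^ 2 = ((Kset P1 i).card : ℝ) := Real.sq_sqrt (by positivity)
        have hα8 : X ^ 8 ≤ α := by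
          rw [hα]
          apply Real.le_sqrt_of_sq_le
          calc (X ^ 8) ^ 2 = X ^ 16 := by ring
            _ ≤ _ := hcard
        have hK : √(((2 ^ (i + 1) : ℕ) : ℝ)) ≤ 2 * X * α := by
          have hα0 : 0 ≤ α := Real.sqrt_nonneg _
          rw [Real.sqrt_le_left (by positivity)]
          push_cast
          have h1 : (2 : ℝ) ^ i ≤ (Kset P1 i).card * X ^ 2 := by
            rwa [div_le_iff₀ (by positivity)] at hi3
          calc (2 : ℝ) ^ (i + 1) = 2 * 2 ^ i := by ring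
            _ ≤ 2 * ((Kset P1 i).card * X ^ 2) := by gcongr
            _ ≤ 4 * ((Kset P1 i).card * X ^ 2) := by
              have : 0 ≤ ((Kset P1 i).card : ℝ) * X ^ 2 := by positivity
              linarith
            _ = (2 * X * α) ^ 2 := by rw [mul_pow, mul_pow, hα2]; ring
        have h2 := err_caseI CT cW cV ε X hX2 hCT hN.et α _ hα8 hK
        rw [hα2] at h2
        refine le_trans ?_ h2
        have h3 : 0 ≤ X ^ 6 * (1 + √(((2 ^ (i + 1) : ℕ) : ℝ)) / X ^ 400) * α := by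
          positivity
        gcongr
        split_ifs
        · exact h3
        · exact le_rfl
      have hEfacts : ∀ p ∈ E0 ∪ Er, p.Prime ∧ 3 ≤ p ∧ p ≤ y ∧ p ∉ P ∧ ¬ (p : ℤ) ∣ m := by
        intro p hp
        rcases Finset.mem_union.1 hp with h | h
        · rw [hE0m] at h
          refine ⟨h.2.1, by omega, h.1.2, fun h' => ?_, h.2.2⟩
          have := ((hP1m p).1 (hPP1 h')).1.2
          omega
        · rw [hEr, mem_filter] at h
          obtain ⟨h1, h2⟩ := h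
          have h3 := (hP1m p).1 h1
          refine ⟨h3.2.1, h3.1.1, ?_, ?_, h3.2.2⟩
          · have h4 : (p : ℝ) ≤ z := by exact_mod_cast h3.1.2
            exact_mod_cast h4.trans hzy
          · rw [hPdef, h2]
            exact Finset.notMem_erase _ _
      refine ⟨Kset P1 i, P ∪ (E0 ∪ Er), ?_, ?_, ?_⟩
      · refine one_case hε hG 420 hX0 m κ (Kset P1 i) P (E0 ∪ Er) cW cV CU _ hcW hcV hWW
          (fun r hr => ⟨((hPfacts P hPP1).1 r hr).1, ((hPfacts P hPP1).1 r hr).2.1⟩) lam lamu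
          hlam hApos (fun k _ => (hPfacts P hPP1).2 k) herr ?_
          (hupP P _ _ hPP1 (fun k hk => (mem_Icc.1 (hAsub hk)).1) hEfacts)
        calc (∑ p ∈ E0 ∪ Er, 1 / (p : ℝ)) * CU
            ≤ (∑ p ∈ E0, 1 / (p : ℝ) + ∑ p ∈ Er, 1 / (p : ℝ)) * CU := by
              gcongr
              exact hsumU E0 Er
          _ = (∑ p ∈ E0, 1 / (p : ℝ)) * CU + (∑ p ∈ Er, 1 / (p : ℝ)) * CU := by ring
          _ ≤ _ := by linarith
      · intro k hk
        have hk1 := mem_Icc.1 (hAsub hk)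
        refine ⟨hk1.1, ?_, ?_⟩
        · have h1 : (k : ℝ) ≤ 2 ^ (i + 1) := by exact_mod_cast hk1.2
          have h2 : (2 : ℝ) ^ i ≤ z := by exact_mod_cast hi2
          calc (k : ℝ) ≤ 2 ^ (i + 1) := h1
            _ = 2 * 2 ^ i := by ring
            _ ≤ 2 * z := by gcongr
            _ ≤ _ := by gcongr
        · intro p hp hpk
          rw [Kset, mem_filter] at hk
          have h3 := (hP1m p).1 (hk.2 (Nat.mem_primeFactors.2 ⟨hp, hpk, by omega⟩))
          exact ⟨h3.1.1, h3.2.2⟩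
      · intro p hp hp3 hpy hpm
        rcases Nat.lt_or_ge z p with h | h
        · exact mem_union_right _ (mem_union_left _ ((hE0m p).2 ⟨⟨h, hpy⟩, hp, hpm⟩))
        · have h1 : p ∈ P1 := (hP1m p).2 ⟨⟨hp3, h⟩, hp, hpm⟩
          by_cases h2 : p = r1
          · refine mem_union_right _ (mem_union_right _ ?_)
            rw [hEr, mem_filter]
            exact ⟨h1, h2⟩
          · refine mem_union_left _ ?_
            rw [hPdef]
            exact mem_erase.2 ⟨h2, h1⟩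
    · -- few primes
      obtain ⟨P, hPdef⟩ : ∃ P : Finset ℕ,
        P = (P1.filter (fun r : ℕ => (r : ℝ) ≤ 2 * X ^ 18)).erase r1 := ⟨_, rfl⟩
      have hPe : P ⊆ P1.erase r1 := by
        rw [hPdef]
        exact Finset.erase_subset_erase _ (Finset.filter_subset _ _)
      have hPP1 : P ⊆ P1 := hPe.trans (Finset.erase_subset _ _)
      obtain ⟨zs, hzs⟩ : ∃ zs : ℕ, zs = ⌊2 * X ^ 18⌋₊ := ⟨_, rfl⟩
      have hzs1 : (zs : ℝ) ≤ 2 * X ^ 18 := by
        rw [hzs]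
        exact Nat.floor_le (by positivity)
      have hzs2 : 2 ≤ zs := by
        rw [hzs]
        apply Nat.le_floor
        have : (1 : ℝ) ≤ X ^ 18 := one_le_pow₀ (by linarith)
        push_cast
        linarith
      obtain ⟨lam, lamu, hlam⟩ := hSW zs hzs2 P (fun p hp => by
        refine ⟨((hP1m p).1 (hPP1 hp)).2.1, ?_⟩
        rw [hPdef] at hp
        have h1 := (mem_filter.1 (mem_of_mem_erase hp)).2
        rw [hzs]
        exact Nat.le_floor h1)
      have hzs3 : (2 : ℝ) ≤ zs := by exact_mod_cast hzs2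
      have hL1 : 1 ≤ B * (zs : ℝ) ^ 22 := by
        have : (1 : ℝ) ≤ (zs : ℝ) ^ 22 := one_le_pow₀ (by linarith)
        nlinarith
      have hL3 : B * (zs : ℝ) ^ 22 ≤ X ^ 400 := by
        calc B * (zs : ℝ) ^ 22 ≤ B * (2 * X ^ 18) ^ 22 := by gcongr
          _ = B * 2 ^ 22 * X ^ 396 := by ring
          _ ≤ X * X ^ 396 := by
            have := hN.lev2
            gcongr
          _ = X ^ 397 := by ring
          _ ≤ X ^ 400 := pow_le_pow_right₀ (by linarith) (by norm_num)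
      have hL2 : B * (zs : ℝ) ^ 22 ≤ Real.exp (X / 2) := hL3.trans hN.lev3
      have herr : ∑ D ∈ P.powerset.filter (fun D => D.Nonempty ∧
          ((∏ r ∈ D, r : ℕ) : ℝ) ≤ B * (zs : ℝ) ^ 22), Err 420 G X m κ {1} D ≤
          cW * ε / 16 * ((({1} : Finset ℕ).card : ℝ) * (cV / X)) := by
        refine (hTot ε G hε hε1 hG X hX2 m κ hκ12 P (hPfacts P hPP1).1 _ hL1 hL2
          (hSmallP P hPe) 1 le_rfl _ (by simp)).trans ?_
        rw [if_pos hL3]
        simp only [card_singleton, Nat.cast_one, add_zero, one_mul]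
        have h1 : 1 / X ^ 10 ≤ 1 / X ^ 2 := by
          apply one_div_le_one_div_of_le (by positivity)
          exact pow_le_pow_right₀ (by linarith) (by norm_num)
        have het := hN.et
        calc CT * (1 / X ^ 10) ≤ CT * (1 / X ^ 2) := by gcongr
          _ = 64 * CT * (1 / (64 * X ^ 2)) := by
            field_simp
          _ ≤ cW * ε * cV * X * (1 / (64 * X ^ 2)) := by gcongr
          _ = cW * ε / 64 * (cV / X) := by
            field_simp
          _ ≤ cW * ε / 16 * (cV / X) := by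
            have h2 : 0 < cV / X := by positivity
            apply mul_le_mul_of_nonneg_right _ h2.le
            linarith
      obtain ⟨Ed, hEd⟩ : ∃ Ed : Finset ℕ, Ed = P1.filter (fun r : ℕ => 2 * X ^ 18 < (r : ℝ)) :=
        ⟨_, rfl⟩
      have hEdU : (∑ p ∈ Ed, 1 / (p : ℝ)) * CU ≤ cW * ε / 32 := by
        rw [hEd]
        have hec := hN.ec
        calc (∑ r ∈ P1.filter (fun r : ℕ => 2 * X ^ 18 < (r : ℝ)), 1 / (r : ℝ)) * CU
            ≤ 2 / X * CU := by gcongr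
          _ = 64 * CU / (32 * X) := by
            field_simp
            ring
          _ ≤ cW * ε * X / (32 * X) := by gcongr
          _ = cW * ε / 32 := by
            field_simp
      have hEfacts : ∀ p ∈ E0 ∪ (Ed ∪ Er), p.Prime ∧ 3 ≤ p ∧ p ≤ y ∧ p ∉ P ∧
          ¬ (p : ℤ) ∣ m := by
        intro p hp
        have hP1f : p ∈ P1 → p.Prime ∧ 3 ≤ p ∧ p ≤ y ∧ ¬ (p : ℤ) ∣ m := fun h1 => by
          have h3 := (hP1m p).1 h1
          refine ⟨h3.2.1, h3.1.1, ?_, h3.2.2⟩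
          have h4 : (p : ℝ) ≤ z := by exact_mod_cast h3.1.2
          exact_mod_cast h4.trans hzy
        rcases Finset.mem_union.1 hp with h | h
        · rw [hE0m] at h
          refine ⟨h.2.1, by omega, h.1.2, fun h' => ?_, h.2.2⟩
          have := ((hP1m p).1 (hPP1 h')).1.2
          omega
        · rcases Finset.mem_union.1 h with h | h
          · rw [hEd, mem_filter] at h
            obtain ⟨h1, h2, h3, h4⟩ := hP1f h.1
            refine ⟨h1, h2, h3, fun h' => ?_, h4⟩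
            rw [hPdef] at h'
            have h5 := (mem_filter.1 (mem_of_mem_erase h')).2
            linarith [h.2]
          · rw [hEr, mem_filter] at h
            obtain ⟨h1, h2, h3, h4⟩ := hP1f h.1
            refine ⟨h1, h2, h3, fun h' => ?_, h4⟩
            rw [hPdef, h.2] at h'
            exact Finset.notMem_erase _ _ h'
      refine ⟨{1}, P ∪ (E0 ∪ (Ed ∪ Er)), ?_, ?_, ?_⟩
      · refine one_case hε hG 420 hX0 m κ {1} P (E0 ∪ (Ed ∪ Er)) cW cV CU _ hcW hcV hWW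
          (fun r hr => ⟨((hPfacts P hPP1).1 r hr).1, ((hPfacts P hPP1).1 r hr).2.1⟩) lam lamu
          hlam (singleton_nonempty _) (fun k _ => (hPfacts P hPP1).2 k) herr ?_
          (hupP P _ _ hPP1 (fun k hk => by rw [mem_singleton.1 hk]) hEfacts)
        have h1 := hsumU E0 (Ed ∪ Er)
        have h2 := hsumU Ed Er
        calc (∑ p ∈ E0 ∪ (Ed ∪ Er), 1 / (p : ℝ)) * CU
            ≤ (∑ p ∈ E0, 1 / (p : ℝ) + (∑ p ∈ Ed, 1 / (p : ℝ) + ∑ p ∈ Er, 1 / (p : ℝ))) * CU := by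
              gcongr
              linarith
          _ = (∑ p ∈ E0, 1 / (p : ℝ)) * CU + (∑ p ∈ Ed, 1 / (p : ℝ)) * CU +
              (∑ p ∈ Er, 1 / (p : ℝ)) * CU := by ring
          _ ≤ _ := by linarith
      · intro k hk
        rw [mem_singleton.1 hk]
        refine ⟨le_rfl, ?_, ?_⟩
        · have h1 := hN.z3
          push_cast
          linarith
        · intro p hp hpk
          exact absurd (Nat.dvd_one.1 hpk) hp.one_lt.ne'
      · intro p hp hp3 hpy hpm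
        rcases Nat.lt_or_ge z p with h | h
        · exact mem_union_right _ (mem_union_left _ ((hE0m p).2 ⟨⟨h, hpy⟩, hp, hpm⟩))
        · have h1 : p ∈ P1 := (hP1m p).2 ⟨⟨hp3, h⟩, hp, hpm⟩
          by_cases h2 : p = r1
          · refine mem_union_right _ (mem_union_right _ (mem_union_right _ ?_))
            rw [hEr, mem_filter]
            exact ⟨h1, h2⟩
          · by_cases h3 : (p : ℝ) ≤ 2 * X ^ 18
            · refine mem_union_left _ ?_
              rw [hPdef]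
              exact mem_erase.2 ⟨h2, mem_filter.2 ⟨h1, h3⟩⟩
            · refine mem_union_right _ (mem_union_right _ (mem_union_left _ ?_))
              rw [hEd, mem_filter]
              exact ⟨h1, lt_of_not_ge h3⟩
  obtain ⟨A, T, hS, hA, hT⟩ := key
  have hk1 := hN.k1
  have hK : 2 * Real.exp (c * ε * X) < (y : ℝ) := by
    rw [← hexpX]
    have h1 : Real.exp (ε * X / 8) ≤ Real.exp X := by
      apply Real.exp_le_exp.2
      nlinarith
    have h2 := Real.exp_pos (c * ε * X)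
    linarith
  have hr : 2 * (2 * Real.exp (c * ε * X)) * Real.exp ((1 + 7 * ε / 8) * Real.log y) ≤
      (y : ℝ) ^ (1 + ε) := by
    rw [hrp, ← hXdef]
    calc 2 * (2 * Real.exp (c * ε * X)) * Real.exp ((1 + 7 * ε / 8) * X)
        = 4 * Real.exp (c * ε * X) * Real.exp ((1 + 7 * ε / 8) * X) := by ring
      _ ≤ Real.exp (ε * X / 8) * Real.exp ((1 + 7 * ε / 8) * X) := by gcongr
      _ = Real.exp ((1 + ε) * X) := by
        rw [← Real.exp_add]
        congr 1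
        ring
  have hfin := count_ints hε hε1 hG 420 y hy3 m κ hκ A T _ hK hA hT hr
  refine ⟨(Finset.Ioc (m + ⌊(y : ℝ) ^ (1 + ε / 2)⌋₊) (m + ⌊(y : ℝ) ^ (1 + ε)⌋₊)).filter
    (fun a : ℤ => ∀ p : ℕ, p.Prime → p ≤ y → ¬ (p : ℤ) ∣ a), ?_, fun a ha => ?_⟩
  rotate_left
  · rw [Finset.mem_filter, Finset.mem_Ioc] at ha
    exact ⟨ha.1.1, ha.1.2, ha.2⟩
  · rw [← hXdef] at hfin
    set w : ℝ := (((Finset.Ioc (m + ⌊(y : ℝ) ^ (1 + ε / 2)⌋₊) (m + ⌊(y : ℝ) ^ (1 + ε)⌋₊)).filter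
        (fun a : ℤ => ∀ p : ℕ, p.Prime → p ≤ y → ¬ (p : ℤ) ∣ a)).card : ℝ) with hw
    rw [hrp]
    have h1 := hN.fin
    have ht : (0 : ℝ) < 2 ^ (420 + 1) := by positivity
    generalize (2 : ℝ) ^ (420 + 1) = t at hfin h1 ht
    have h2 : cW * ε / 4 * (cV / X) * Real.exp ((1 + 5 * ε / 8) * X) ≤ t * w :=
      le_trans (by gcongr) hfin
    have h3 : Real.exp ((1 + 5 * ε / 8) * X) =
        Real.exp ((1 + ε / 2) * X) * Real.exp (ε * X / 8) := by
      rw [← Real.exp_add]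
      congr 1
      ring
    rw [h3] at h2
    have h4 : t * Real.exp ((1 + ε / 2) * X) ≤ t * w := by
      refine le_trans ?_ h2
      have h5 : t ≤ cW * ε / 4 * (cV / X) * Real.exp (ε * X / 8) := by
        have h6 : cW * ε / 4 * (cV / X) * Real.exp (ε * X / 8) =
            cW * ε * cV * Real.exp (ε * X / 8) / (4 * X) := by
          field_simp
        rw [h6, le_div_iff₀ (by positivity)]
        linarith
      calc t * Real.exp ((1 + ε / 2) * X)
          ≤ cW * ε / 4 * (cV / X) * Real.exp (ε * X / 8) * Real.exp ((1 + ε / 2) * X) := by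
            gcongr
        _ = _ := by ring
    exact le_of_mul_le_mul_left h4 ht

end Pool.Agent.ERB
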