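import Pool.Agent.ERB.Wb
import Pool.Agent.Helper4.ST.LS

/-!
# ERB / LgQ: mean square of the prime sums over primitive characters

`Sc ψ = ∑_i S_i`, `S_i` the part `2^i < q ≤ 2^(i+1)`; `i` runs over at most `I = 3 X + 2` values with
`2^(i+1) > e^X` (`wt_supp`), `2^i < e^(2X)`.  `‖Sc ψ‖^2 ≤ I ∑_i ‖S_i‖^2` (Cauchy-Schwarz).  By
`Pool.Agent.Helper4.ST...large_sieve_prim` with `X := Cm` (the bound of the conductors), `N = 2^(i+1)`:
`∑_{j ∈ F} ‖S_i‖^2 ≤ (Cm^2 + 4π(2^(i+1) + 1)) ∑_{2^i < q ≤ 2^(i+1)} wt(q)^2`, and `wt q ≤ 2^(n+1)/2^i`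
(`wt_le`), at most `2^i` terms: `≤ (Cm^2 + 40 * 2^i) 4^(n+1)/2^i ≤ 4^(n+1) (2 Cm^2 e^(-X) + 40) ≤
4^(n+1) * 42`.  Total `≤ I^2 4^(n+1) 42 ≤ C X^2`.
-/

set_option autoImplicit false

namespace Pool.Agent.ERB

open Finset

/-- The part of the weights with `2^i ≤ q < 2^(i+1)`. -/
private noncomputable def ai (n : ℕ) (G : ℝ → ℝ) (X : ℝ) (i q : ℕ) : ℂ :=
  if q ∈ QQ X ∧ Nat.log 2 q = i then ((wt n G X q : ℝ) : ℂ) else 0

private theorem sc_split (n : ℕ) (G : ℝ → ℝ) {X : ℝ} (hX : 2 ≤ X) {c : ℕ}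
    (ψ : DirichletCharacter ℂ c) :
    Sc n G X ψ = ∑ i ∈ range (⌈3 * X⌉₊ + 1),
      ∑ q ∈ range (2 ^ (i + 1) + 1), ai n G X i q * ψ (q : ZMod c) := by
  have h1 : ∀ i ∈ range (⌈3 * X⌉₊ + 1),
      ∑ q ∈ range (2 ^ (i + 1) + 1), ai n G X i q * ψ (q : ZMod c) =
      ∑ q ∈ (QQ X).filter (fun q => Nat.log 2 q = i), ψ (q : ZMod c) * ((wt n G X q : ℝ) : ℂ) := by
    intro i _
    symm
    refine Finset.sum_subset_zero_on_sdiff ?_ ?_ ?_
    · intro q hq
      rw [mem_filter] at hq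
      rw [mem_range]
      have hp : q.Prime := by
        have := hq.1
        unfold QQ at this
        exact (mem_filter.1 this).2
      have := Nat.lt_pow_succ_log_self (b := 2) (by norm_num) q
      rw [hq.2] at this
      simp only [Nat.succ_eq_add_one] at this
      omega
    · intro q hq
      rw [mem_sdiff, mem_filter] at hq
      unfold ai
      rw [if_neg hq.2, zero_mul]
    · intro q hq
      rw [mem_filter] at hq
      unfold ai
      rw [if_pos hq, mul_comm]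
  rw [Finset.sum_congr rfl h1]
  unfold Sc
  rw [Finset.sum_fiberwise_of_maps_to]
  intro q hq
  unfold QQ at hq
  rw [mem_filter, mem_range] at hq
  rw [mem_range]
  have hq0 : q ≠ 0 := hq.2.ne_zero
  have h2 : (2 : ℝ) ^ (Nat.log 2 q) ≤ Real.exp (2 * X) := by
    have h3 : 2 ^ (Nat.log 2 q) ≤ q := Nat.pow_log_le_self 2 hq0
    have h4 : (q : ℝ) ≤ Real.exp (2 * X) := by
      have h5 : q ≤ ⌊Real.exp (2 * X)⌋₊ := by omega
      exact (Nat.le_floor_iff (Real.exp_pos _).le).1 h5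
    calc (2 : ℝ) ^ (Nat.log 2 q) = ((2 ^ (Nat.log 2 q) : ℕ) : ℝ) := by push_cast; rfl
      _ ≤ q := by exact_mod_cast h3
      _ ≤ _ := h4
  have h3 : (Nat.log 2 q : ℝ) * Real.log 2 ≤ 2 * X := by
    rw [← Real.log_pow]
    exact (Real.log_le_iff_le_exp (by positivity)).2 h2
  have h4 := Real.log_two_gt_d9
  have h5 : (Nat.log 2 q : ℝ) ≤ 3 * X := by
    by_contra h
    push Not at h
    nlinarith
  have h6 : (Nat.log 2 q : ℝ) ≤ (⌈3 * X⌉₊ : ℝ) := h5.trans (Nat.le_ceil _)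
  have h7 : Nat.log 2 q ≤ ⌈3 * X⌉₊ := by exact_mod_cast h6
  omega

private theorem ai_sq {ε : ℝ} {G : ℝ → ℝ} (hG : IsCut ε G) (hε0 : 0 < ε) (hε : ε ≤ 1) (n : ℕ)
    {X : ℝ} (hX : 2 ≤ X) {Cm : ℕ} (hCm : (Cm : ℝ) ≤ Real.exp (X / 2)) (i : ℕ) :
    ((Cm : ℝ) ^ 2 + 4 * Real.pi * ((2 ^ (i + 1) : ℕ) + 1)) *
      ∑ q ∈ range (2 ^ (i + 1) + 1), ‖ai n G X i q‖ ^ 2 ≤ 41 * 4 ^ (n + 1) := by
  have hX0 : 0 < X := by linarith
  by_cases hi : (2 : ℝ) ^ (i + 1) ≤ Real.exp X
  · have h0 : ∀ q ∈ range (2 ^ (i + 1) + 1), ‖ai n G X i q‖ ^ 2 = 0 := by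
      intro q _
      unfold ai
      split_ifs with h
      · have h1 : wt n G X q = 0 := by
          by_contra h2
          have h3 := (wt_supp hG n hX0 h2).1
          have h4 := Nat.lt_pow_succ_log_self (b := 2) (by norm_num) q
          rw [h.2] at h4
          have h5 : (q : ℝ) < (2 : ℝ) ^ (i + 1) := by exact_mod_cast h4
          have h6 : Real.exp X ≤ Real.exp ((1 + 5 * ε / 8) * X) := by
            apply Real.exp_le_exp.2
            nlinarith
          linarith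
        rw [h1]
        simp
      · simp
    rw [Finset.sum_eq_zero h0, mul_zero]
    positivity
  · push Not at hi
    have h1 : (Cm : ℝ) ^ 2 ≤ 2 ^ (i + 1) := by
      have h2 : (Cm : ℝ) ^ 2 ≤ Real.exp (X / 2) ^ 2 := by gcongr
      have h3 : Real.exp (X / 2) ^ 2 = Real.exp X := by
        rw [← Real.exp_nat_mul]
        congr 1
        push_cast
        ring
      linarith
    have h2 : ∑ q ∈ range (2 ^ (i + 1) + 1), ‖ai n G X i q‖ ^ 2 ≤ 4 ^ (n + 1) / 2 ^ i := by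
      have h3 : ∀ q ∈ range (2 ^ (i + 1) + 1), ‖ai n G X i q‖ ^ 2 ≤
          if q ∈ Ico (2 ^ i) (2 ^ (i + 1)) then (4 : ℝ) ^ (n + 1) / 4 ^ i else 0 := by
        intro q _
        unfold ai
        split_ifs with h h' h'
        · have hq1 : 1 ≤ q := by
            have : 0 < 2 ^ i := by positivity
            rw [mem_Ico] at h'
            omega
          rw [Complex.norm_real, Real.norm_eq_abs, sq_abs]
          have h4 := wt_le hG hε n hX0 q hq1
          have h5 := wt_nonneg hG n hX0 q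
          have h6 : (2 : ℝ) ^ i ≤ q := by exact_mod_cast (mem_Ico.1 h').1
          have h7 : (2 : ℝ) ^ (n + 1) / q ≤ 2 ^ (n + 1) / 2 ^ i := by gcongr
          calc wt n G X q ^ 2 ≤ (2 ^ (n + 1) / 2 ^ i) ^ 2 := by
                gcongr
                linarith
            _ = 4 ^ (n + 1) / 4 ^ i := by
                rw [div_pow, ← pow_mul, ← pow_mul, mul_comm (n + 1) 2, mul_comm i 2, pow_mul,
                  pow_mul]
                norm_num
        · exfalso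
          apply h'
          have hq0 : q ≠ 0 := by
            have := h.1
            unfold QQ at this
            exact (mem_filter.1 this).2.ne_zero
          rw [mem_Ico]
          constructor
          · have := Nat.pow_log_le_self 2 hq0
            rwa [h.2] at this
          · have := Nat.lt_pow_succ_log_self (b := 2) (by norm_num) q
            rwa [h.2] at this
        · rw [norm_zero, zero_pow (by norm_num)]
          positivity
        · simp
      refine (Finset.sum_le_sum h3).trans ?_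
      rw [← Finset.sum_filter]
      have h8 : ((range (2 ^ (i + 1) + 1)).filter (fun q => q ∈ Ico (2 ^ i) (2 ^ (i + 1)))).card ≤
          2 ^ i := by
        calc _ ≤ (Ico (2 ^ i) (2 ^ (i + 1))).card := by
              apply Finset.card_le_card
              intro q hq
              exact (mem_filter.1 hq).2
          _ = 2 ^ i := by
              rw [Nat.card_Ico, pow_succ]
              omega
      rw [Finset.sum_const, nsmul_eq_mul]
      calc _ ≤ (2 : ℝ) ^ i * (4 ^ (n + 1) / 4 ^ i) := by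
            gcongr
            exact_mod_cast h8
        _ = 4 ^ (n + 1) / 2 ^ i := by
            have : (4 : ℝ) ^ i = 2 ^ i * 2 ^ i := by
              rw [← mul_pow]
              norm_num
            rw [this]
            field_simp
    have hpi := Real.pi_lt_d2
    have hpi0 := Real.pi_pos
    have h2i : (1 : ℝ) ≤ 2 ^ i := one_le_pow₀ (by norm_num)
    have h9 : (Cm : ℝ) ^ 2 + 4 * Real.pi * ((2 ^ (i + 1) : ℕ) + 1) ≤ 41 * 2 ^ i := by
      push_cast
      have h10 : (2 : ℝ) ^ (i + 1) = 2 ^ i * 2 := pow_succ _ _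
      rw [h10] at h1 ⊢
      have : 4 * Real.pi * ((2 : ℝ) ^ i * 2 + 1) ≤ 13 * (2 ^ i * 2 + 1) := by
        gcongr
        linarith
      linarith
    calc _ ≤ 41 * 2 ^ i * ((4 : ℝ) ^ (n + 1) / 2 ^ i) := by
          apply mul_le_mul h9 h2 (Finset.sum_nonneg fun _ _ => by positivity) (by positivity)
      _ = 41 * 4 ^ (n + 1) := by
          field_simp

theorem sum_Sc_sq (n : ℕ) : ∃ C : ℝ, 0 < C ∧ ∀ (ε : ℝ) (G : ℝ → ℝ), 0 < ε → ε ≤ 1 → IsCut ε G →
    ∀ X : ℝ, 2 ≤ X → ∀ Cm : ℕ, (Cm : ℝ) ≤ Real.exp (X / 2) →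
    ∀ F : Finset (Σ c : ℕ, DirichletCharacter ℂ c),
      (∀ j ∈ F, 2 ≤ j.1 ∧ j.1 ≤ Cm ∧ j.2.IsPrimitive) →
      ∑ j ∈ F, ‖Sc n G X j.2‖ ^ 2 ≤ C * X ^ 2 := by
  refine ⟨656 * 4 ^ (n + 1), by positivity, ?_⟩
  intro ε G hε0 hε hG X hX Cm hCm F hF
  set J := ⌈3 * X⌉₊ + 1 with hJ
  have hJ4 : (J : ℝ) ≤ 4 * X := by
    have := Nat.ceil_lt_add_one (a := 3 * X) (by linarith)
    rw [hJ]
    push_cast
    linarith
  have h1 : ∀ j ∈ F, ‖Sc n G X j.2‖ ^ 2 ≤ J * ∑ i ∈ range J,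
      ‖∑ q ∈ range (2 ^ (i + 1) + 1), ai n G X i q * j.2 (q : ZMod j.1)‖ ^ 2 := by
    intro j _
    rw [sc_split n G hX j.2]
    have h2 := sq_sum_le_card_mul_sum_sq (s := range J)
      (f := fun i => ‖∑ q ∈ range (2 ^ (i + 1) + 1), ai n G X i q * j.2 (q : ZMod j.1)‖)
    rw [card_range] at h2
    refine le_trans ?_ h2
    gcongr
    exact norm_sum_le _ _
  refine (Finset.sum_le_sum h1).trans ?_
  rw [← Finset.mul_sum, Finset.sum_comm]
  have h3 : ∀ i ∈ range J, ∑ j ∈ F,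
      ‖∑ q ∈ range (2 ^ (i + 1) + 1), ai n G X i q * j.2 (q : ZMod j.1)‖ ^ 2 ≤
        41 * 4 ^ (n + 1) := by
    intro i _
    exact (Pool.Agent.Helper4.ST.large_sieve_prim Cm (2 ^ (i + 1)) F hF (ai n G X i)).trans
      (ai_sq hG hε0 hε n hX hCm i)
  calc (J : ℝ) * ∑ i ∈ range J, ∑ j ∈ F,
      ‖∑ q ∈ range (2 ^ (i + 1) + 1), ai n G X i q * j.2 (q : ZMod j.1)‖ ^ 2
      ≤ J * ∑ i ∈ range J, (41 * 4 ^ (n + 1) : ℝ) := by
        gcongr with i hi
        exact h3 i hi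
    _ = (J : ℝ) * J * (41 * 4 ^ (n + 1)) := by
        rw [Finset.sum_const, card_range, nsmul_eq_mul]
        ring
    _ ≤ (4 * X) * (4 * X) * (41 * 4 ^ (n + 1)) := by gcongr
    _ = 656 * 4 ^ (n + 1) * X ^ 2 := by ring

end Pool.Agent.ERB
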