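import Pool.Agent.ERB.Defs

/-!
# ERB / Mj: derivatives of `L(s, χ)` near `s = 1`

`φ(t) = (log t)^j t^(-s)`.  (i) `n ≤ c`: `∑_(n ≤ c) (log n)^j / n ≤ (log c)^j (1 + log c)`.
(ii) `n > c`: the sums `∑_(c < n ≤ N) χ(n)` are bounded by `c` in absolute value (the sum over a
period of a nontrivial character is zero: `DirichletCharacter`/`MulChar.sum_eq_zero_of_ne_one`), so by
Abel summation the tail is at most `2c` times `|φ(c+1)| + ∑_(n > c) |φ(n+1) - φ(n)|`, and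
`|φ(n+1) - φ(n)| ≤ sup |φ'| ≤ (j (log(n+1))^(j-1) + 3 (log (n+1))^j) / n^2` (`Re s > 1`, `‖s‖ ≤ 3`), and
`∑_(n > c) (log(n+1))^j / n^2 ≤ C_j (1 + log c)^j / c`.
A convenient way: let `N → ∞` in `∑_(n ≤ N)` (the series converges absolutely, `Re s > 1`).
For (ii) one may also group the terms in blocks of `c` consecutive integers `n = ac + b`,
`b = 1, ..., c`: in each block `∑_b χ(b) (φ(ac + b) - φ(ac + 1))` is at most `c^2 sup |φ'|`.
-/

set_option autoImplicit false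

namespace Pool.Agent.ERB

open Finset Filter Topology

/-- `(log t)^j t^(-s)` -/
private noncomputable def phi (j : ℕ) (s : ℂ) (t : ℝ) : ℂ :=
  ((Real.log t : ℝ) : ℂ) ^ j * (t : ℂ) ^ (-s)

private noncomputable def phi' (j : ℕ) (s : ℂ) (t : ℝ) : ℂ :=
  ((j : ℂ) * ((Real.log t : ℝ) : ℂ) ^ (j - 1) * ((t⁻¹ : ℝ) : ℂ)) * (t : ℂ) ^ (-s) +
    ((Real.log t : ℝ) : ℂ) ^ j * (-s * (t : ℂ) ^ (-s - 1))

private theorem phi_deriv (j : ℕ) (s : ℂ) {t : ℝ} (ht : 0 < t) :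
    HasDerivAt (phi j s) (phi' j s t) t := by
  have h1 : HasDerivAt (fun y : ℝ => ((Real.log y : ℝ) : ℂ)) ((t⁻¹ : ℝ) : ℂ) t :=
    (Real.hasDerivAt_log ht.ne').ofReal_comp
  have h2 := h1.pow j
  have h3 : HasDerivAt (fun y : ℝ => (y : ℂ) ^ (-s)) (-s * (t : ℂ) ^ (-s - 1)) t := by
    have := (hasDerivAt_id (t : ℂ)).cpow_const (c := -s) (Or.inl (by simpa using ht))
    simpa using this.comp_ofReal
  exact h2.mul h3

private theorem phi'_bound (j : ℕ) {s : ℂ} (hs : 1 < s.re) (hs3 : ‖s‖ ≤ 3) {t : ℝ} (ht : 1 ≤ t) :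
    ‖phi' j s t‖ ≤ (j + 3) * (1 + Real.log t) ^ j / t ^ 2 := by
  have t0 : 0 < t := by linarith
  have hl : 0 ≤ Real.log t := Real.log_nonneg ht
  have hL : ‖((Real.log t : ℝ) : ℂ)‖ = Real.log t := by
    rw [Complex.norm_real, Real.norm_of_nonneg hl]
  have n1 : ‖(t : ℂ) ^ (-s)‖ ≤ t⁻¹ := by
    rw [Complex.norm_cpow_eq_rpow_re_of_pos t0]
    calc t ^ (-s).re ≤ t ^ (-1 : ℝ) :=
          Real.rpow_le_rpow_of_exponent_le ht (by simp only [Complex.neg_re]; linarith)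
      _ = t⁻¹ := Real.rpow_neg_one t
  have n2 : ‖(t : ℂ) ^ (-s - 1)‖ ≤ (t ^ 2)⁻¹ := by
    rw [Complex.norm_cpow_eq_rpow_re_of_pos t0]
    calc t ^ (-s - 1).re ≤ t ^ (-2 : ℝ) :=
          Real.rpow_le_rpow_of_exponent_le ht
            (by simp only [Complex.sub_re, Complex.neg_re, Complex.one_re]; linarith)
      _ = (t ^ 2)⁻¹ := by
          rw [Real.rpow_neg t0.le]
          congr 1
          exact_mod_cast Real.rpow_natCast t 2
  have p1 : Real.log t ^ (j - 1) ≤ (1 + Real.log t) ^ j :=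
    (pow_le_pow_left₀ hl (by linarith) _).trans
      (pow_le_pow_right₀ (by linarith) (Nat.sub_le j 1))
  have p2 : Real.log t ^ j ≤ (1 + Real.log t) ^ j := pow_le_pow_left₀ hl (by linarith) _
  have p0 : 0 ≤ (1 + Real.log t) ^ j := by positivity
  have ti : 0 < t⁻¹ := inv_pos.2 t0
  have ti2 : 0 < (t ^ 2)⁻¹ := by positivity
  unfold phi'
  refine (norm_add_le _ _).trans ?_
  have e1 : ‖((j : ℂ) * ((Real.log t : ℝ) : ℂ) ^ (j - 1) * ((t⁻¹ : ℝ) : ℂ)) * (t : ℂ) ^ (-s)‖ ≤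
      j * (1 + Real.log t) ^ j * (t ^ 2)⁻¹ := by
    rw [norm_mul, norm_mul, norm_mul, norm_pow, hL, Complex.norm_natCast, Complex.norm_real,
      Real.norm_of_nonneg ti.le]
    calc (j : ℝ) * Real.log t ^ (j - 1) * t⁻¹ * ‖(t : ℂ) ^ (-s)‖
        ≤ j * (1 + Real.log t) ^ j * t⁻¹ * t⁻¹ := by gcongr
      _ = j * (1 + Real.log t) ^ j * (t ^ 2)⁻¹ := by
          rw [pow_two, mul_inv, mul_assoc]
  have e2 : ‖((Real.log t : ℝ) : ℂ) ^ j * (-s * (t : ℂ) ^ (-s - 1))‖ ≤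
      (1 + Real.log t) ^ j * (3 * (t ^ 2)⁻¹) := by
    rw [norm_mul, norm_mul, norm_pow, hL, norm_neg]
    gcongr
  calc _ ≤ j * (1 + Real.log t) ^ j * (t ^ 2)⁻¹ + (1 + Real.log t) ^ j * (3 * (t ^ 2)⁻¹) :=
        add_le_add e1 e2
    _ = (j + 3) * (1 + Real.log t) ^ j / t ^ 2 := by
        rw [div_eq_mul_inv]
        ring

private theorem phi_diff (j : ℕ) {s : ℂ} (hs : 1 < s.re) (hs3 : ‖s‖ ≤ 3) {x y t : ℝ} (hx : 1 ≤ x)
    (hxt : x ≤ t) (hty : t ≤ y) :
    ‖phi j s t - phi j s x‖ ≤ (j + 3) * (1 + Real.log y) ^ j / x ^ 2 * (t - x) := by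
  have h := Convex.norm_image_sub_le_of_norm_hasDerivWithin_le (f := phi j s) (f' := phi' j s)
    (C := (j + 3) * (1 + Real.log y) ^ j / x ^ 2) (s := Set.Icc x y) (x := x) (y := t)
    (fun u hu => (phi_deriv j s (by linarith [hu.1])).hasDerivWithinAt)
    (fun u hu => (phi'_bound j hs hs3 (hx.trans hu.1)).trans (by
      have hl : 0 ≤ Real.log u := Real.log_nonneg (hx.trans hu.1)
      have hx2 : x ≤ u := hu.1
      have hly : Real.log u ≤ Real.log y := Real.log_le_log (by linarith) hu.2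
      have x0 : 0 < x := by linarith
      have hly0 : 0 ≤ Real.log y := hl.trans hly
      gcongr))
    (convex_Icc x y) ⟨le_refl _, hxt.trans hty⟩ ⟨hxt, hty⟩
  rwa [Real.norm_of_nonneg (sub_nonneg.2 hxt)] at h

private theorem sum_char (c : ℕ) [NeZero c] (χ : DirichletCharacter ℂ c) (hχ : χ ≠ 1) :
    ∑ b ∈ range c, χ (((b + 1 : ℕ)) : ZMod c) = 0 := by
  have h0 : ∑ x : ZMod c, χ x = 0 := MulChar.sum_eq_zero_of_ne_one hχ
  have h1 : ∑ x : ZMod c, χ (x + 1) = 0 := by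
    rw [← h0]
    exact Equiv.sum_comp (Equiv.addRight (1 : ZMod c)) (fun x => χ x)
  rw [← h1]
  refine Finset.sum_bij (fun b _ => (b : ZMod c)) (fun _ _ => Finset.mem_univ _) ?_ ?_ ?_
  · intro a ha b hb hab
    have := (ZMod.natCast_eq_natCast_iff' a b c).1 hab
    rwa [Nat.mod_eq_of_lt (Finset.mem_range.1 ha), Nat.mod_eq_of_lt (Finset.mem_range.1 hb)]
      at this
  · intro x _
    exact ⟨x.val, Finset.mem_range.2 (ZMod.val_lt x), ZMod.natCast_zmod_val x⟩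
  · intro b _
    push_cast
    rfl

private theorem block (j : ℕ) (c : ℕ) [NeZero c] (χ : DirichletCharacter ℂ c) (hχ : χ ≠ 1)
    {s : ℂ} (hs : 1 < s.re) (hs3 : ‖s‖ ≤ 3) (a : ℕ) :
    ‖∑ b ∈ range c, χ ((c * (a + 1) + b + 1 : ℕ) : ZMod c) *
        phi j s ((c * (a + 1) + b + 1 : ℕ) : ℝ)‖ ≤
      (j + 3) * (1 + Real.log c) ^ j * ((1 + Real.log (a + 2)) ^ j / (a + 1) ^ 2) := by
  have hc : 0 < c := Nat.pos_of_ne_zero (NeZero.ne c)
  have hc1 : (1 : ℝ) ≤ c := by exact_mod_cast hc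
  have hlc : 0 ≤ Real.log c := Real.log_nonneg hc1
  have ha1 : (1 : ℝ) ≤ (a : ℝ) + 1 := by
    have : (0 : ℝ) ≤ a := Nat.cast_nonneg a
    linarith
  have hla : 0 ≤ Real.log ((a : ℝ) + 2) := Real.log_nonneg (by linarith)
  set x : ℝ := (c : ℝ) * (a + 1) with hx
  set y : ℝ := (c : ℝ) * (a + 2) with hy
  have hx1 : 1 ≤ x := by
    rw [hx]
    nlinarith
  have e0 : ∀ b : ℕ, ((c * (a + 1) + b + 1 : ℕ) : ZMod c) = ((b + 1 : ℕ) : ZMod c) := by
    intro b
    push_cast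
    rw [ZMod.natCast_self]
    ring
  have e1 : ∑ b ∈ range c, χ ((c * (a + 1) + b + 1 : ℕ) : ZMod c) *
        phi j s ((c * (a + 1) + b + 1 : ℕ) : ℝ) =
      ∑ b ∈ range c, χ ((b + 1 : ℕ) : ZMod c) *
        (phi j s ((c * (a + 1) + b + 1 : ℕ) : ℝ) - phi j s x) := by
    simp only [e0, mul_sub, Finset.sum_sub_distrib]
    rw [← Finset.sum_mul, sum_char c χ hχ, zero_mul, sub_zero]
  rw [e1]
  have hly : 1 + Real.log y ≤ (1 + Real.log c) * (1 + Real.log (a + 2)) := by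
    rw [hy, Real.log_mul (by positivity) (by positivity)]
    nlinarith [mul_nonneg hlc hla]
  have hy1 : 1 ≤ y := by
    rw [hy]
    nlinarith
  have hly0 : 0 ≤ Real.log y := Real.log_nonneg hy1
  calc ‖∑ b ∈ range c, χ ((b + 1 : ℕ) : ZMod c) *
        (phi j s ((c * (a + 1) + b + 1 : ℕ) : ℝ) - phi j s x)‖
      ≤ ∑ b ∈ range c, ‖χ ((b + 1 : ℕ) : ZMod c) *
        (phi j s ((c * (a + 1) + b + 1 : ℕ) : ℝ) - phi j s x)‖ := norm_sum_le _ _
    _ ≤ ∑ b ∈ range c, (j + 3) * (1 + Real.log y) ^ j / x ^ 2 * c := by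
        refine Finset.sum_le_sum fun b hb => ?_
        rw [norm_mul]
        have hb' : (b : ℝ) + 1 ≤ c := by exact_mod_cast Finset.mem_range.1 hb
        have hb0 : (0 : ℝ) ≤ b := Nat.cast_nonneg b
        have et : ((c * (a + 1) + b + 1 : ℕ) : ℝ) = x + (b + 1) := by
          rw [hx]
          push_cast
          ring
        have h1 := phi_diff j hs hs3 (x := x) (y := y) (t := x + (b + 1)) hx1 (by linarith)
          (by rw [hx, hy]; nlinarith)
        have h2 : ‖χ ((b + 1 : ℕ) : ZMod c)‖ ≤ 1 := DirichletCharacter.norm_le_one χ _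
        rw [et]
        calc ‖χ ((b + 1 : ℕ) : ZMod c)‖ * ‖phi j s (x + (b + 1)) - phi j s x‖
            ≤ 1 * ((j + 3) * (1 + Real.log y) ^ j / x ^ 2 * (x + (b + 1) - x)) := by
              gcongr
          _ ≤ (j + 3) * (1 + Real.log y) ^ j / x ^ 2 * c := by
              rw [one_mul]
              gcongr
              linarith
    _ = (j + 3) * (1 + Real.log y) ^ j / ((a : ℝ) + 1) ^ 2 := by
        rw [Finset.sum_const, Finset.card_range, nsmul_eq_mul, hx]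
        field_simp
    _ ≤ (j + 3) * ((1 + Real.log c) * (1 + Real.log (a + 2))) ^ j / ((a : ℝ) + 1) ^ 2 := by
        gcongr
    _ = (j + 3) * (1 + Real.log c) ^ j * ((1 + Real.log (a + 2)) ^ j / (a + 1) ^ 2) := by
        rw [mul_pow]
        ring

private theorem block0 (j : ℕ) (c : ℕ) [NeZero c] (χ : DirichletCharacter ℂ c)
    {s : ℂ} (hs : 1 < s.re) :
    ‖∑ b ∈ range c, χ ((b + 1 : ℕ) : ZMod c) * phi j s ((b + 1 : ℕ) : ℝ)‖ ≤
      (1 + Real.log c) ^ (j + 1) := by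
  have hc : 0 < c := Nat.pos_of_ne_zero (NeZero.ne c)
  have hc1 : (1 : ℝ) ≤ c := by exact_mod_cast hc
  have hlc : 0 ≤ Real.log c := Real.log_nonneg hc1
  have hh : ∑ b ∈ range c, ((b : ℝ) + 1)⁻¹ ≤ 1 + Real.log c := by
    have := harmonic_le_one_add_log c
    refine le_trans (le_of_eq ?_) this
    unfold harmonic
    push_cast
    rfl
  calc ‖∑ b ∈ range c, χ ((b + 1 : ℕ) : ZMod c) * phi j s ((b + 1 : ℕ) : ℝ)‖
      ≤ ∑ b ∈ range c, ‖χ ((b + 1 : ℕ) : ZMod c) * phi j s ((b + 1 : ℕ) : ℝ)‖ := norm_sum_le _ _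
    _ ≤ ∑ b ∈ range c, (1 + Real.log c) ^ j * ((b : ℝ) + 1)⁻¹ := by
        refine Finset.sum_le_sum fun b hb => ?_
        have hb' : (b : ℝ) + 1 ≤ c := by exact_mod_cast Finset.mem_range.1 hb
        have hb0 : (0 : ℝ) ≤ b := Nat.cast_nonneg b
        have t0 : (0 : ℝ) < (b : ℝ) + 1 := by linarith
        have ht1 : (1 : ℝ) ≤ (b : ℝ) + 1 := by linarith
        have hl : 0 ≤ Real.log ((b : ℝ) + 1) := Real.log_nonneg ht1
        have et : ((b + 1 : ℕ) : ℝ) = (b : ℝ) + 1 := by push_cast; rfl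
        rw [norm_mul, et]
        have h2 : ‖χ ((b + 1 : ℕ) : ZMod c)‖ ≤ 1 := DirichletCharacter.norm_le_one χ _
        have h3 : ‖phi j s ((b : ℝ) + 1)‖ ≤ (1 + Real.log c) ^ j * ((b : ℝ) + 1)⁻¹ := by
          unfold phi
          rw [norm_mul, norm_pow, Complex.norm_real, Real.norm_of_nonneg hl,
            Complex.norm_cpow_eq_rpow_re_of_pos t0]
          have k1 : ((b : ℝ) + 1) ^ (-s).re ≤ ((b : ℝ) + 1)⁻¹ := by
            calc ((b : ℝ) + 1) ^ (-s).re ≤ ((b : ℝ) + 1) ^ (-1 : ℝ) :=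
                  Real.rpow_le_rpow_of_exponent_le ht1 (by simp only [Complex.neg_re]; linarith)
              _ = ((b : ℝ) + 1)⁻¹ := Real.rpow_neg_one _
          have k2 : Real.log ((b : ℝ) + 1) ≤ 1 + Real.log c := by
            have := Real.log_le_log t0 hb'
            linarith
          have k3 : Real.log ((b : ℝ) + 1) ^ j ≤ (1 + Real.log c) ^ j := pow_le_pow_left₀ hl k2 _
          gcongr
        calc ‖χ ((b + 1 : ℕ) : ZMod c)‖ * ‖phi j s ((b : ℝ) + 1)‖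
            ≤ 1 * ((1 + Real.log c) ^ j * ((b : ℝ) + 1)⁻¹) := by gcongr
          _ = _ := one_mul _
    _ = (1 + Real.log c) ^ j * ∑ b ∈ range c, ((b : ℝ) + 1)⁻¹ := by rw [Finset.mul_sum]
    _ ≤ (1 + Real.log c) ^ j * (1 + Real.log c) := by gcongr
    _ = (1 + Real.log c) ^ (j + 1) := (pow_succ _ _).symm

private theorem summable_aux (j : ℕ) :
    Summable fun a : ℕ => (1 + Real.log ((a : ℝ) + 2)) ^ j / ((a : ℝ) + 1) ^ 2 := by
  have hs : Summable fun a : ℕ => 1 / ((a + 1 : ℕ) : ℝ) ^ (3 / 2 : ℝ) :=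
    (summable_nat_add_iff 1).2 (Real.summable_one_div_nat_rpow.2 (by norm_num))
  set ε : ℝ := 1 / (2 * (j + 1)) with hε
  have j0 : (0 : ℝ) ≤ j := Nat.cast_nonneg j
  have ε0 : 0 < ε := by positivity
  have hjε : ε * j ≤ 1 / 2 := by
    rw [hε, div_mul_eq_mul_div, one_mul, div_le_div_iff₀ (by positivity) (by norm_num)]
    linarith
  refine Summable.of_nonneg_of_le (fun a => ?_) (fun a => ?_)
    (hs.mul_left ((1 + 1 / ε) ^ j * 2))
  · have : 0 ≤ Real.log ((a : ℝ) + 2) := Real.log_nonneg (by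
      have : (0 : ℝ) ≤ a := Nat.cast_nonneg a
      linarith)
    positivity
  · have a0 : (0 : ℝ) ≤ a := Nat.cast_nonneg a
    set x : ℝ := (a : ℝ) + 2 with hx
    have x1 : 1 ≤ x := by linarith
    have x0 : 0 < x := by linarith
    have hl : 0 ≤ Real.log x := Real.log_nonneg x1
    have h1 : 1 ≤ x ^ ε := Real.one_le_rpow x1 ε0.le
    have h2 : 1 + Real.log x ≤ (1 + 1 / ε) * x ^ ε := by
      have := Real.log_le_rpow_div x0.le ε0
      calc 1 + Real.log x ≤ x ^ ε + x ^ ε / ε := by linarith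
        _ = (1 + 1 / ε) * x ^ ε := by ring
    have h3 : (1 + Real.log x) ^ j ≤ (1 + 1 / ε) ^ j * x ^ (1 / 2 : ℝ) := by
      calc (1 + Real.log x) ^ j ≤ ((1 + 1 / ε) * x ^ ε) ^ j :=
            pow_le_pow_left₀ (by linarith) h2 _
        _ = (1 + 1 / ε) ^ j * x ^ (ε * j) := by
            rw [mul_pow, ← Real.rpow_natCast (x ^ ε) j, ← Real.rpow_mul x0.le]
        _ ≤ (1 + 1 / ε) ^ j * x ^ (1 / 2 : ℝ) := by
            gcongr
    have y0 : (0 : ℝ) < (a : ℝ) + 1 := by linarith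
    have h4 : x ^ (1 / 2 : ℝ) ≤ 2 * ((a : ℝ) + 1) ^ (1 / 2 : ℝ) := by
      have h5 : x ≤ 4 * ((a : ℝ) + 1) := by rw [hx]; linarith
      calc x ^ (1 / 2 : ℝ) ≤ (4 * ((a : ℝ) + 1)) ^ (1 / 2 : ℝ) :=
            Real.rpow_le_rpow x0.le h5 (by norm_num)
        _ = 2 * ((a : ℝ) + 1) ^ (1 / 2 : ℝ) := by
            rw [Real.mul_rpow (by norm_num) y0.le]
            congr 1
            rw [← Real.sqrt_eq_rpow]
            exact (Real.sqrt_eq_iff_mul_self_eq (by norm_num) (by norm_num)).2 (by norm_num)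
    have h6 : ((a : ℝ) + 1) ^ (1 / 2 : ℝ) / ((a : ℝ) + 1) ^ 2 = 1 / ((a : ℝ) + 1) ^ (3 / 2 : ℝ) := by
      rw [div_eq_div_iff (by positivity) (by positivity), one_mul, ← Real.rpow_add y0,
        ← Real.rpow_natCast]
      congr 1
      norm_num
    calc (1 + Real.log x) ^ j / ((a : ℝ) + 1) ^ 2
        ≤ ((1 + 1 / ε) ^ j * (2 * ((a : ℝ) + 1) ^ (1 / 2 : ℝ))) / ((a : ℝ) + 1) ^ 2 := by
          gcongr
          exact h3.trans (by gcongr)
      _ = (1 + 1 / ε) ^ j * 2 * (((a : ℝ) + 1) ^ (1 / 2 : ℝ) / ((a : ℝ) + 1) ^ 2) := by ring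
      _ = (1 + 1 / ε) ^ j * 2 * (1 / ((a + 1 : ℕ) : ℝ) ^ (3 / 2 : ℝ)) := by
          rw [h6]
          push_cast
          rfl

private theorem sum_blocks (g : ℕ → ℂ) (c A : ℕ) :
    ∑ n ∈ range (c * A), g n = ∑ a ∈ range A, ∑ b ∈ range c, g (c * a + b) := by
  induction A with
  | zero => simp
  | succ A ih => rw [Nat.mul_succ, Finset.sum_range_add, ih, Finset.sum_range_succ]

theorem Mj_bound (j : ℕ) : ∃ C : ℝ, 0 < C ∧ ∀ (c : ℕ) [NeZero c] (χ : DirichletCharacter ℂ c),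
    χ ≠ 1 → ∀ s : ℂ, 1 < s.re → ‖s‖ ≤ 3 →
      ‖LSeries (fun n : ℕ => χ (n : ZMod c) * ((Real.log n : ℝ) : ℂ) ^ j) s‖ ≤
        C * (1 + Real.log c) ^ (j + 1) := by
  set T : ℝ := ∑' a : ℕ, (1 + Real.log ((a : ℝ) + 2)) ^ j / ((a : ℝ) + 1) ^ 2 with hT
  have hnn : ∀ a : ℕ, 0 ≤ (1 + Real.log ((a : ℝ) + 2)) ^ j / ((a : ℝ) + 1) ^ 2 := by
    intro a
    have : 0 ≤ Real.log ((a : ℝ) + 2) := Real.log_nonneg (by
      have : (0 : ℝ) ≤ a := Nat.cast_nonneg a
      linarith)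
    positivity
  have T0 : 0 ≤ T := tsum_nonneg hnn
  refine ⟨1 + (j + 3) * T, by positivity, ?_⟩
  intro c _ χ hχ s hs hs3
  have hc : 0 < c := Nat.pos_of_ne_zero (NeZero.ne c)
  have hc1 : (1 : ℝ) ≤ c := by exact_mod_cast hc
  have hlc : 0 ≤ Real.log c := Real.log_nonneg hc1
  set f : ℕ → ℂ := fun n : ℕ => χ (n : ZMod c) * ((Real.log n : ℝ) : ℂ) ^ j with hf
  have hpos : 0 ≤ (1 + (j + 3) * T) * (1 + Real.log c) ^ (j + 1) := by positivity
  by_cases hsum : Summable (LSeries.term f s)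
  swap
  · rw [LSeries, tsum_eq_zero_of_not_summable hsum, norm_zero]
    exact hpos
  have ht := hsum.hasSum.tendsto_sum_nat
  have hg : ∀ n : ℕ, LSeries.term f s (n + 1) =
      χ ((n + 1 : ℕ) : ZMod c) * phi j s ((n + 1 : ℕ) : ℝ) := by
    intro n
    rw [LSeries.term_of_ne_zero (Nat.succ_ne_zero n), hf]
    unfold phi
    rw [Complex.cpow_neg, div_eq_mul_inv, mul_assoc]
    norm_cast
  have hA : ∀ A : ℕ, ‖∑ n ∈ range (c * A + 1), LSeries.term f s n‖ ≤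
      (1 + (j + 3) * T) * (1 + Real.log c) ^ (j + 1) := by
    intro A
    rw [Finset.sum_range_succ', LSeries.term_zero, add_zero, sum_blocks]
    cases A with
    | zero => simpa using hpos
    | succ A =>
      rw [Finset.sum_range_succ']
      have b0 := block0 j c χ hs
      have bb : ‖∑ a ∈ range A, ∑ b ∈ range c, LSeries.term f s (c * (a + 1) + b + 1)‖ ≤
          (j + 3) * (1 + Real.log c) ^ j * T := by
        calc _ ≤ ∑ a ∈ range A, ‖∑ b ∈ range c, LSeries.term f s (c * (a + 1) + b + 1)‖ :=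
              norm_sum_le _ _
          _ ≤ ∑ a ∈ range A, (j + 3) * (1 + Real.log c) ^ j *
                ((1 + Real.log ((a : ℝ) + 2)) ^ j / ((a : ℝ) + 1) ^ 2) := by
              refine Finset.sum_le_sum fun a _ => ?_
              simp only [hg]
              exact block j c χ hχ hs hs3 a
          _ = (j + 3) * (1 + Real.log c) ^ j *
                ∑ a ∈ range A, (1 + Real.log ((a : ℝ) + 2)) ^ j / ((a : ℝ) + 1) ^ 2 := by
              rw [Finset.mul_sum]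
          _ ≤ (j + 3) * (1 + Real.log c) ^ j * T := by
              gcongr
              exact (summable_aux j).sum_le_tsum _ (fun a _ => hnn a)
      have b0' : ‖∑ b ∈ range c, LSeries.term f s (c * 0 + b + 1)‖ ≤
          (1 + Real.log c) ^ (j + 1) := by
        simp only [hg, mul_zero, zero_add]
        exact b0
      have hle : (1 + Real.log c) ^ j ≤ (1 + Real.log c) ^ (j + 1) :=
        pow_le_pow_right₀ (by linarith) (Nat.le_succ j)
      calc _ ≤ ‖∑ a ∈ range A, ∑ b ∈ range c, LSeries.term f s (c * (a + 1) + b + 1)‖ +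
            ‖∑ b ∈ range c, LSeries.term f s (c * 0 + b + 1)‖ := norm_add_le _ _
        _ ≤ (j + 3) * (1 + Real.log c) ^ j * T + (1 + Real.log c) ^ (j + 1) :=
            add_le_add bb b0'
        _ ≤ (j + 3) * (1 + Real.log c) ^ (j + 1) * T + (1 + Real.log c) ^ (j + 1) := by
            gcongr
        _ = _ := by ring
  have hlim : Tendsto (fun A : ℕ => c * A + 1) atTop atTop := by
    refine tendsto_atTop_mono (fun A => ?_) tendsto_id
    have : A ≤ c * A := Nat.le_mul_of_pos_left A hc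
    simp only [id]
    omega
  exact le_of_tendsto' ((ht.comp hlim).norm) hA

end Pool.Agent.ERB
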