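import Pool.Agent.ERB.SW
import Pool.Agent.ERB.Num

/-!
# ERB / UpN: upper bound sieve in an arithmetic progression

If `p ∣ k` then `p ∣ m + κkq` implies `p ∣ m`: the set is empty.  Otherwise `q ≡ a0 mod p` for one class
`a0`, `0 ≤ a0 < p`; write `q = a0 + p j`, `j` in a set `J` of consecutive integers with
`| |J| - N/p | ≤ 1`.  Let `R = ⌊e^(εX/100)⌋` and `P'` the set of the primes `r ≤ R`, `r ≠ p`.
For `r ∈ P'` the number `j` avoids the class with `a0 + p j ≡ 0` (as `q > N > R` is prime) and, if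
`r ∈ P` and `r ∤ k`, also the class with `κ k (a0 + p j) ≡ -m` (different from the first one as
`r ∤ m`; `r` is odd so `κ k` is invertible).  So `j` avoids `ν_r` classes, `ν_r = 2` if `r ∈ P, r ∤ k`, else `1`.
Take the upper weights for `P'` and level `D = B R^22` (`sieve_weights`), `S(j) = {r ∈ P' : j is in a forbidden
class mod r}`: the count is `≤ ∑_j ∑_{T ⊆ S(j)} lamu T = ∑_T lamu T #{j : T ⊆ S(j)}` and by CRT
`| #{j ∈ J : T ⊆ S(j)} - (N/p) ∏_{r ∈ T} ν_r/r | ≤ 2 * 2^|T| ≤ 2 ∏ T`.  The errors add up to at most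
`∑_{d ≤ D} 2 d ≤ 2 D^2 + 2 D ≤ 4 B^2 e^(0.44 ε X)`, while `N/p ≥ e^(5εX/8)/2`.  Main term: `g r = ν_r/r`
(`≤ 2/r, ≤ 2/3`), `2 (N/p) ∏_{P'} (1 - ν_r/r)` and
`∏_{P'} (1 - ν_r/r) = ∏_{P'} (1-1/r) * ∏_{r ∈ P, r ∤ k} (1 - 1/(r-1))` because
`(1-2/r)/(1-1/r) = 1 - 1/(r-1)`; `∏_{P'} (1 - 1/r) ≤ (3/2) C/log R` (`V_up`, the factor of `p ≥ 3` may be
missing), `log R ≥ εX/200`.  `VV P k ≥ c/log R` (`VV_low`) absorbs the error for large `X`.
(`RG.Crt` has lemmas on counting in residue classes.)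
-/

set_option autoImplicit false

namespace Pool.Agent.ERB

open Finset

/-! ### counting in residue classes -/

private lemma res_card (p : ℕ) (hp : p.Prime) (Q : ℕ) (hQ : ¬ p ∣ Q) (a : ℕ) (O : Finset ℕ)
    (hO : O ⊆ range p) :
    ((range p).filter (fun c => (a + Q * c) % p ∈ O)).card = O.card := by
  have : Fact p.Prime := ⟨hp⟩
  have hQ0 : (Q : ZMod p) ≠ 0 := by
    intro h
    exact hQ ((ZMod.natCast_eq_zero_iff Q p).1 h)
  refine card_bij (fun c _ => (a + Q * c) % p) ?_ ?_ ?_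
  · intro c hc
    exact (mem_filter.1 hc).2
  · intro c hc c' hc' h
    have h1 : ((a + Q * c : ℕ) : ZMod p) = ((a + Q * c' : ℕ) : ZMod p) :=
      (ZMod.natCast_eq_natCast_iff _ _ p).2 h
    push_cast at h1
    have h2 : (Q : ZMod p) * c = Q * c' := by linear_combination h1
    have h3 := mul_left_cancel₀ hQ0 h2
    have h4 : c % p = c' % p := (ZMod.natCast_eq_natCast_iff c c' p).1 h3
    rwa [Nat.mod_eq_of_lt (mem_range.1 (mem_filter.1 hc).1),
      Nat.mod_eq_of_lt (mem_range.1 (mem_filter.1 hc').1)] at h4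
  · intro u hu
    have hup := mem_range.1 (hO hu)
    set c : ZMod p := ((u : ZMod p) - a) / Q with hc
    have hcc : ((c.val : ℕ) : ZMod p) = c := ZMod.natCast_zmod_val c
    have hQc : (Q : ZMod p) * c = (u : ZMod p) - a := by
      rw [hc]; field_simp
    have h5 : (a + Q * c.val) % p = u := by
      have h6 : ((a + Q * c.val : ℕ) : ZMod p) = (u : ZMod p) := by
        push_cast
        rw [hcc, hQc]
        ring
      have h7 : (a + Q * c.val) % p = u % p := (ZMod.natCast_eq_natCast_iff _ _ p).1 h6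
      rw [h7, Nat.mod_eq_of_lt hup]
    refine ⟨c.val, ?_, h5⟩
    rw [mem_filter, mem_range]
    exact ⟨ZMod.val_lt c, by rw [h5]; exact hu⟩

private lemma crd_split (p : ℕ) (hp : 0 < p) (M : ℕ) (P : ℕ → Prop) [DecidablePred P] :
    ((range (p * M)).filter P).card =
      ∑ c ∈ range p, ((range M).filter (fun n => P (c + p * n))).card := by
  rw [card_eq_sum_card_fiberwise (f := fun n => n % p) (t := range p)
    (fun n _ => mem_coe.2 (mem_range.2 (Nat.mod_lt _ hp)))]
  refine sum_congr rfl fun c hc => ?_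
  have hcp := mem_range.1 hc
  refine card_bij' (fun n _ => n / p) (fun n _ => c + p * n) ?_ ?_ ?_ ?_
  · intro n hn
    obtain ⟨h1, h2⟩ := mem_filter.1 hn
    obtain ⟨h3, h4⟩ := mem_filter.1 h1
    have h5 : c + p * (n / p) = n := by
      beta_reduce at h2
      rw [← h2]; exact Nat.mod_add_div n p
    rw [mem_filter, mem_range]
    refine ⟨Nat.div_lt_of_lt_mul (mem_range.1 h3), ?_⟩
    rw [h5]; exact h4
  · intro n hn
    obtain ⟨h1, h2⟩ := mem_filter.1 hn
    have h3 := mem_range.1 h1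
    rw [mem_filter, mem_filter, mem_range]
    refine ⟨⟨?_, h2⟩, ?_⟩
    · have : p * (n + 1) ≤ p * M := Nat.mul_le_mul_left p h3
      rw [mul_add] at this
      omega
    · rw [Nat.add_mul_mod_self_left, Nat.mod_eq_of_lt hcp]
  · intro n hn
    obtain ⟨h1, h2⟩ := mem_filter.1 hn
    beta_reduce at h2
    rw [← h2]; exact Nat.mod_add_div n p
  · intro n hn
    beta_reduce
    rw [Nat.add_mul_div_left _ _ hp, Nat.div_eq_of_lt hcp, zero_add]

private lemma cnt_full (S : Finset ℕ) (O : ℕ → Finset ℕ) :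
    (∀ p ∈ S, p.Prime) → (∀ p ∈ S, O p ⊆ range p) →
    ∀ (Q : ℕ) (_ : ∀ p ∈ S, ¬ p ∣ Q) (a k : ℕ),
      ((range ((∏ p ∈ S, p) * k)).filter (fun n => ∀ p ∈ S, (a + Q * n) % p ∈ O p)).card =
        k * ∏ p ∈ S, (O p).card := by
  induction S using Finset.induction_on with
  | empty =>
    intro _ _ Q _ a k
    simp
  | insert p S hpS ih =>
    intro hS hO Q hQ a k
    have hp := hS p (mem_insert_self p S)
    have ih' := ih (fun q hq => hS q (mem_insert_of_mem hq)) (fun q hq => hO q (mem_insert_of_mem hq))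
    rw [prod_insert hpS, mul_assoc, crd_split p hp.pos, prod_insert hpS]
    have h1 : ∀ c ∈ range p, ((range ((∏ q ∈ S, q) * k)).filter
        (fun n => ∀ q ∈ insert p S, (a + Q * (c + p * n)) % q ∈ O q)).card =
        if (a + Q * c) % p ∈ O p then k * ∏ q ∈ S, (O q).card else 0 := by
      intro c _
      have e0 : ∀ n, (a + Q * (c + p * n)) % p = (a + Q * c) % p := by
        intro n
        have : a + Q * (c + p * n) = (a + Q * c) + p * (Q * n) := by ring
        rw [this, Nat.add_mul_mod_self_left]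
      split_ifs with h
      · rw [← ih' (Q * p) (fun q hq hd => by
          have hqp := hS q (mem_insert_of_mem hq)
          rcases hqp.dvd_mul.1 hd with h2 | h2
          · exact hQ q (mem_insert_of_mem hq) h2
          · rw [Nat.prime_dvd_prime_iff_eq hqp hp] at h2
            exact hpS (h2 ▸ hq)) (a + Q * c) k]
        congr 1
        refine filter_congr fun n _ => ?_
        rw [forall_mem_insert, e0]
        have e1 : ∀ q, (a + Q * (c + p * n)) % q = (a + Q * c + Q * p * n) % q := by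
          intro q
          congr 1
          ring
        constructor
        · rintro ⟨_, h3⟩ q hq
          rw [← e1]
          exact h3 q hq
        · intro h3
          refine ⟨h, fun q hq => ?_⟩
          rw [e1]
          exact h3 q hq
      · rw [card_eq_zero, filter_eq_empty_iff]
        intro n _ h3
        apply h
        have := h3 p (mem_insert_self p S)
        rwa [e0] at this
    rw [sum_congr rfl h1, ← sum_filter, sum_const, smul_eq_mul,
      res_card p hp Q (hQ p (mem_insert_self p S)) a (O p) (hO p (mem_insert_self p S))]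
    ring

private lemma cnt_bd (S : Finset ℕ) (O : ℕ → Finset ℕ) (hS : ∀ p ∈ S, p.Prime)
    (hO : ∀ p ∈ S, O p ⊆ range p) (N Y : ℕ) :
    |(((Ico N (N + Y)).filter (fun n => ∀ p ∈ S, n % p ∈ O p)).card : ℝ) -
      Y * ∏ p ∈ S, (((O p).card : ℝ) / p)| ≤ ∏ p ∈ S, ((O p).card : ℝ) := by
  have h0 : ((Ico N (N + Y)).filter (fun n => ∀ p ∈ S, n % p ∈ O p)).card =
      ((range Y).filter (fun n => ∀ p ∈ S, (N + 1 * n) % p ∈ O p)).card := by
    refine card_bij' (fun n _ => n - N) (fun n _ => N + 1 * n) ?_ ?_ ?_ ?_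
    · intro n hn
      rw [mem_filter, mem_Ico] at hn
      rw [mem_filter, mem_range]
      have : N + 1 * (n - N) = n := by omega
      rw [this]
      exact ⟨by omega, hn.2⟩
    · intro n hn
      rw [mem_filter, mem_range] at hn
      rw [mem_filter, mem_Ico]
      exact ⟨by omega, hn.2⟩
    · intro n hn
      rw [mem_filter, mem_Ico] at hn
      beta_reduce
      omega
    · intro n _
      beta_reduce
      omega
  rw [h0]
  set D := ∏ p ∈ S, p with hD
  have hDpos : 0 < D := prod_pos fun p hp => (hS p hp).pos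
  set M := ∏ p ∈ S, (O p).card with hN
  have hND : ∏ p ∈ S, (((O p).card : ℝ) / p) = (M : ℝ) / D := by
    rw [prod_div_distrib, hN, hD]; push_cast; rfl
  have hNr : ∏ p ∈ S, ((O p).card : ℝ) = (M : ℝ) := by
    rw [hN]; push_cast; rfl
  rw [hND, hNr]
  set k := Y / D with hk
  have h1 : D * k ≤ Y := Nat.mul_div_le Y D
  have h2 : Y < D * (k + 1) := Nat.lt_mul_div_succ Y hDpos
  have hQ : ∀ p ∈ S, ¬ p ∣ 1 := fun p hp hd => (hS p hp).one_lt.ne' (Nat.dvd_one.1 hd)
  have h3 := cnt_full S O hS hO 1 hQ N k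
  have h4 := cnt_full S O hS hO 1 hQ N (k + 1)
  rw [← hD, ← hN] at h3 h4
  set g := ((range Y).filter (fun n => ∀ p ∈ S, (N + 1 * n) % p ∈ O p)).card with hg
  have h5 : k * M ≤ g := by
    rw [← h3]
    exact card_le_card (filter_subset_filter _ (range_subset_range.2 h1))
  have h6 : g ≤ (k + 1) * M := by
    rw [← h4]
    exact card_le_card (filter_subset_filter _ (range_subset_range.2 h2.le))
  have hDr : (0 : ℝ) < D := by exact_mod_cast hDpos
  have h1' : (D : ℝ) * k ≤ Y := by exact_mod_cast h1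
  have h2' : (Y : ℝ) ≤ D * (k + 1) := by exact_mod_cast h2.le
  have h5' : (k : ℝ) * M ≤ g := by exact_mod_cast h5
  have h6' : (g : ℝ) ≤ (k + 1) * M := by exact_mod_cast h6
  have hN0 : (0 : ℝ) ≤ M := Nat.cast_nonneg M
  have h7 : (k : ℝ) * M ≤ Y * (M / D) := by
    rw [mul_div_assoc', le_div_iff₀ hDr]
    nlinarith
  have h8 : (Y : ℝ) * (M / D) ≤ (k + 1) * M := by
    rw [mul_div_assoc', div_le_iff₀ hDr]
    nlinarith
  rw [abs_le]
  constructor <;> nlinarith

/-! ### the sieve bound -/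

private lemma supp_card (P : Finset ℕ) (hP : ∀ p ∈ P, p.Prime) (D : ℝ) (hD : 0 ≤ D)
    (lamu : Finset ℕ → ℝ) (habs : ∀ T, |lamu T| ≤ 1)
    (hsupp : ∀ T, lamu T ≠ 0 → T ⊆ P ∧ ((∏ p ∈ T, p : ℕ) : ℝ) ≤ D) :
    ∑ T ∈ P.powerset, |lamu T| * 2 ^ T.card ≤ D ^ 2 := by
  classical
  have h1 : ∀ T ∈ P.powerset, |lamu T| * 2 ^ T.card ≤ if lamu T ≠ 0 then D else 0 := by
    intro T hT
    split_ifs with h
    · have h2 := (hsupp T h).2
      have h3 : (2 : ℝ) ^ T.card ≤ ((∏ p ∈ T, p : ℕ) : ℝ) := by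
        have : 2 ^ T.card ≤ ∏ p ∈ T, p := by
          rw [← Finset.prod_const]
          exact Finset.prod_le_prod' fun p hp => (hP p (mem_powerset.1 hT hp)).two_le
        exact_mod_cast this
      calc |lamu T| * 2 ^ T.card ≤ 1 * ((∏ p ∈ T, p : ℕ) : ℝ) := by
            gcongr
            exact habs T
        _ ≤ D := by rw [one_mul]; exact h2
    · push Not at h
      rw [h]
      simp
  refine (Finset.sum_le_sum h1).trans ?_
  rw [← Finset.sum_filter, Finset.sum_const, nsmul_eq_mul, sq]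
  gcongr
  have h4 : (P.powerset.filter (fun T => lamu T ≠ 0)).card ≤ (Icc 1 ⌊D⌋₊).card := by
    apply Finset.card_le_card_of_injOn (fun T => ∏ p ∈ T, p)
    · intro T hT
      have hT' := mem_filter.1 (mem_coe.1 hT)
      have h5 := hsupp T hT'.2
      rw [mem_coe, mem_Icc]
      constructor
      · exact Nat.one_le_iff_ne_zero.2 (Finset.prod_ne_zero_iff.2 fun p hp => (hP p (h5.1 hp)).ne_zero)
      · exact Nat.le_floor h5.2
    · intro T hT T' hT' h
      have h5 := (hsupp T (mem_filter.1 (mem_coe.1 hT)).2).1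
      have h6 := (hsupp T' (mem_filter.1 (mem_coe.1 hT')).2).1
      have h7 := Nat.primeFactors_prod (s := T) fun p hp => hP p (h5 hp)
      have h8 := Nat.primeFactors_prod (s := T') fun p hp => hP p (h6 hp)
      beta_reduce at h
      rw [← h7, ← h8, h]
  rw [Nat.card_Icc] at h4
  have h9 : ((P.powerset.filter (fun T => lamu T ≠ 0)).card : ℝ) ≤ (⌊D⌋₊ : ℝ) := by
    exact_mod_cast (by omega : (P.powerset.filter (fun T => lamu T ≠ 0)).card ≤ ⌊D⌋₊)
  exact h9.trans (Nat.floor_le hD)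

/-- The upper bound sieve for the classes `O r` (`r ∈ P'`) and one class mod `p`. -/
private lemma sieve_ub (P' : Finset ℕ) (D : ℝ) (hD : 0 ≤ D) (lam lamu : Finset ℕ → ℝ)
    (hW : IsSW P' D lam lamu) (O : ℕ → Finset ℕ) (hP : ∀ r ∈ P', r.Prime)
    (hO : ∀ r ∈ P', O r ⊆ range r) (hO2 : ∀ r ∈ P', (O r).card ≤ 2)
    (hg : ∀ r ∈ P', ((O r).card : ℝ) / r ≤ 2 / 3)
    (p a0 : ℕ) (hp : p.Prime) (hpP : p ∉ P') (ha : a0 < p) (N Y : ℕ) :
    (((Ico N (N + Y)).filter (fun q => q % p = a0 ∧ ∀ r ∈ P', q % r ∉ O r)).card : ℝ) ≤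
      2 * (Y / p) * ∏ r ∈ P', (1 - ((O r).card : ℝ) / r) + D ^ 2 := by
  classical
  set g : ℕ → ℝ := fun r => ((O r).card : ℝ) / r with hgd
  set E := (Ico N (N + Y)).filter (fun q => q % p = a0) with hE
  have h1 : (((Ico N (N + Y)).filter (fun q => q % p = a0 ∧ ∀ r ∈ P', q % r ∉ O r)).card : ℝ) ≤
      ∑ q ∈ E, ∑ T ∈ (P'.filter (fun r => q % r ∈ O r)).powerset, lamu T := by
    have h2 : (Ico N (N + Y)).filter (fun q => q % p = a0 ∧ ∀ r ∈ P', q % r ∉ O r) =
        E.filter (fun q => P'.filter (fun r => q % r ∈ O r) = ∅) := by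
      rw [hE, Finset.filter_filter]
      apply Finset.filter_congr
      intro q _
      rw [Finset.filter_eq_empty_iff]
    rw [h2, Finset.card_filter]
    push_cast
    refine Finset.sum_le_sum fun q _ => ?_
    exact hW.upper _ (Finset.filter_subset _ _)
  have h3 : ∑ q ∈ E, ∑ T ∈ (P'.filter (fun r => q % r ∈ O r)).powerset, lamu T =
      ∑ T ∈ P'.powerset, lamu T * ((E.filter (fun q => ∀ r ∈ T, q % r ∈ O r)).card : ℝ) := by
    have h4 : ∀ q ∈ E, ∑ T ∈ (P'.filter (fun r => q % r ∈ O r)).powerset, lamu T =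
        ∑ T ∈ P'.powerset, if (∀ r ∈ T, q % r ∈ O r) then lamu T else 0 := by
      intro q _
      rw [← Finset.sum_filter]
      apply Finset.sum_congr ?_ fun _ _ => rfl
      ext T
      rw [mem_powerset, mem_filter, mem_powerset]
      constructor
      · intro h
        exact ⟨fun r hr => (mem_filter.1 (h hr)).1, fun r hr => (mem_filter.1 (h hr)).2⟩
      · rintro ⟨h5, h6⟩ r hr
        exact mem_filter.2 ⟨h5 hr, h6 r hr⟩
    rw [Finset.sum_congr rfl h4, Finset.sum_comm]
    refine Finset.sum_congr rfl fun T _ => ?_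
    rw [← Finset.sum_filter, Finset.sum_const, nsmul_eq_mul, mul_comm]
  have hpR : (0 : ℝ) < p := by exact_mod_cast hp.pos
  have h5 : ∀ T ∈ P'.powerset, |((E.filter (fun q => ∀ r ∈ T, q % r ∈ O r)).card : ℝ) -
      Y / p * ∏ r ∈ T, g r| ≤ 2 ^ T.card := by
    intro T hT
    have hTP := mem_powerset.1 hT
    have hpT : p ∉ T := fun h => hpP (hTP h)
    set O' : ℕ → Finset ℕ := fun r => if r = p then {a0} else O r with hO'
    have hOT : ∀ r ∈ T, O' r = O r := by
      intro r hr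
      rw [hO']
      beta_reduce
      rw [if_neg]
      rintro rfl
      exact hpT hr
    have hOp : O' p = {a0} := by
      rw [hO']
      beta_reduce
      rw [if_pos rfl]
    have h6 := cnt_bd (insert p T) O' (by
        intro r hr
        rcases mem_insert.1 hr with rfl | h
        · exact hp
        · exact hP r (hTP h)) (by
        intro r hr
        rcases mem_insert.1 hr with rfl | h
        · rw [hOp, singleton_subset_iff, mem_range]
          exact ha
        · rw [hOT r h]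
          exact hO r (hTP h)) N Y
    rw [prod_insert hpT, prod_insert hpT, hOp, card_singleton, Nat.cast_one, one_mul,
      Finset.prod_congr rfl (fun r hr => by rw [hOT r hr] : ∀ r ∈ T, ((O' r).card : ℝ) / r = g r),
      Finset.prod_congr rfl (fun r hr => by rw [hOT r hr] : ∀ r ∈ T, ((O' r).card : ℝ) = (O r).card)]
      at h6
    have h7 : (Ico N (N + Y)).filter (fun n => ∀ r ∈ insert p T, n % r ∈ O' r) =
        E.filter (fun q => ∀ r ∈ T, q % r ∈ O r) := by
      rw [hE, Finset.filter_filter]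
      apply Finset.filter_congr
      intro q _
      rw [forall_mem_insert, hOp, mem_singleton]
      constructor
      · rintro ⟨h8, h9⟩
        exact ⟨h8, fun r hr => by rw [← hOT r hr]; exact h9 r hr⟩
      · rintro ⟨h8, h9⟩
        exact ⟨h8, fun r hr => by rw [hOT r hr]; exact h9 r hr⟩
    rw [h7] at h6
    have h8 : ∏ r ∈ T, ((O r).card : ℝ) ≤ 2 ^ T.card := by
      rw [← Finset.prod_const]
      apply Finset.prod_le_prod
      · intro r _
        positivity
      · intro r hr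
        exact_mod_cast hO2 r (hTP hr)
    have h9 : (Y : ℝ) / p * ∏ r ∈ T, g r = Y * (1 / p * ∏ r ∈ T, g r) := by ring
    rw [h9]
    exact h6.trans h8
  have h6 : ∑ T ∈ P'.powerset, lamu T * ((E.filter (fun q => ∀ r ∈ T, q % r ∈ O r)).card : ℝ) ≤
      Y / p * ∑ T ∈ P'.powerset, lamu T * ∏ r ∈ T, g r +
        ∑ T ∈ P'.powerset, |lamu T| * 2 ^ T.card := by
    rw [Finset.mul_sum, ← Finset.sum_add_distrib]
    refine Finset.sum_le_sum fun T hT => ?_
    have h7 := h5 T hT
    have h8 : lamu T * (((E.filter (fun q => ∀ r ∈ T, q % r ∈ O r)).card : ℝ) -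
        Y / p * ∏ r ∈ T, g r) ≤ |lamu T| * 2 ^ T.card := by
      refine (le_abs_self _).trans ?_
      rw [abs_mul]
      gcongr
    linarith
  have h7 := supp_card P' hP D hD lamu (fun T => (hW.abs_le T).2)
    (fun T hT => hW.supp T (Or.inr hT))
  have h8 := (hW.main g (fun r hr => by
    have hr0 : (0 : ℝ) < r := by exact_mod_cast (hP r hr).pos
    refine ⟨by positivity, ?_, hg r hr⟩
    rw [hgd]
    beta_reduce
    gcongr
    exact_mod_cast hO2 r hr)).2
  have hYp : 0 ≤ (Y : ℝ) / p := by positivity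
  calc _ ≤ _ := h1
    _ = _ := h3
    _ ≤ _ := h6
    _ ≤ Y / p * (2 * ∏ r ∈ P', (1 - g r)) + D ^ 2 := by gcongr
    _ = _ := by ring

/-! ### the classes -/

open scoped Classical in
/-- The forbidden classes modulo `r`. -/
private noncomputable def Ocl (m : ℤ) (κ k : ℕ) (P : Finset ℕ) (r : ℕ) : Finset ℕ :=
  (range r).filter (fun c => c = 0 ∨ (r ∈ P ∧ (r : ℤ) ∣ m + κ * k * c))

private lemma Ocl_sub (m : ℤ) (κ k : ℕ) (P : Finset ℕ) (r : ℕ) : Ocl m κ k P r ⊆ range r := by
  classical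
  unfold Ocl
  exact Finset.filter_subset _ _

private lemma Ocl_one (m : ℤ) (κ k : ℕ) (P : Finset ℕ) (r : ℕ) (hr : r.Prime) :
    1 ≤ (Ocl m κ k P r).card := by
  classical
  have : (0 : ℕ) ∈ Ocl m κ k P r := by
    unfold Ocl
    rw [mem_filter, mem_range]
    exact ⟨hr.pos, Or.inl rfl⟩
  exact Finset.card_pos.2 ⟨0, this⟩

private lemma Ocl_notP (m : ℤ) (κ k : ℕ) (P : Finset ℕ) (r : ℕ) (hr : r ∉ P) :
    (Ocl m κ k P r).card ≤ 1 := by
  classical
  have : Ocl m κ k P r ⊆ {0} := by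
    intro c hc
    unfold Ocl at hc
    rw [mem_filter] at hc
    rw [mem_singleton]
    rcases hc.2 with h | h
    · exact h
    · exact absurd h.1 hr
  exact (Finset.card_le_card this).trans (by simp)

private lemma cop_kap {κ r : ℕ} (hκ : κ = 1 ∨ κ = 2) (hr : r.Prime) (hr3 : 3 ≤ r) {x : ℤ}
    (h : (r : ℤ) ∣ κ * x) : (r : ℤ) ∣ x := by
  have hrp : _root_.Prime (r : ℤ) := Nat.prime_iff_prime_int.1 hr
  rcases hrp.dvd_or_dvd h with h1 | h1
  · exfalso
    have h2 : r ∣ κ := by exact_mod_cast h1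
    have h3 := Nat.le_of_dvd (by rcases hκ with h | h <;> omega) h2
    rcases hκ with h | h <;> omega
  · exact h1

private lemma Ocl_two (m : ℤ) (κ k : ℕ) (P : Finset ℕ) (r : ℕ) (hκ : κ = 1 ∨ κ = 2)
    (hr : r.Prime) (hP : r ∈ P → 3 ≤ r ∧ ¬ (r : ℤ) ∣ m) :
    (Ocl m κ k P r).card ≤ 2 := by
  classical
  by_cases hrP : r ∈ P
  · obtain ⟨hr3, hm⟩ := hP hrP
    have hrp : _root_.Prime (r : ℤ) := Nat.prime_iff_prime_int.1 hr
    set B := (range r).filter (fun c : ℕ => (r : ℤ) ∣ m + κ * k * c) with hB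
    have h1 : Ocl m κ k P r ⊆ insert 0 B := by
      intro c hc
      unfold Ocl at hc
      rw [mem_filter] at hc
      rw [mem_insert, hB, mem_filter]
      rcases hc.2 with h | h
      · exact Or.inl h
      · exact Or.inr ⟨hc.1, h.2⟩
    have h2 : B.card ≤ 1 := by
      rw [Finset.card_le_one]
      intro c hc c' hc'
      rw [hB, mem_filter, mem_range] at hc hc'
      have h3 : (r : ℤ) ∣ κ * (k * ((c : ℤ) - c')) := by
        have := dvd_sub hc.2 hc'.2
        have e : (m + κ * k * c : ℤ) - (m + κ * k * c') = κ * (k * ((c : ℤ) - c')) := by ring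
        rwa [e] at this
      have h4 := cop_kap hκ hr hr3 h3
      rcases hrp.dvd_or_dvd h4 with h5 | h5
      · exfalso
        apply hm
        have h6 : (r : ℤ) ∣ κ * k * c := Dvd.dvd.mul_right (Dvd.dvd.mul_left h5 _) _
        exact (Int.dvd_add_left h6).1 hc.2
      · have h6 : (c : ℤ) = c' := by
          have h7 : |(c : ℤ) - c'| < r := by
            rw [abs_lt]
            constructor <;> omega
          have h8 := Int.eq_zero_of_abs_lt_dvd h5 h7
          omega
        exact_mod_cast h6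
    calc _ ≤ (insert 0 B).card := Finset.card_le_card h1
      _ ≤ B.card + 1 := Finset.card_insert_le _ _
      _ ≤ 2 := by omega
  · exact (Ocl_notP m κ k P r hrP).trans (by norm_num)

private lemma exists_class {m : ℤ} {κ k r : ℕ} (hκ : κ = 1 ∨ κ = 2) (hr : r.Prime) (hr3 : 3 ≤ r)
    (hk : ¬ r ∣ k) : ∃ b : ℕ, b < r ∧ (r : ℤ) ∣ m + κ * k * b := by
  have : Fact r.Prime := ⟨hr⟩
  have h1 : ((κ * k : ℕ) : ZMod r) ≠ 0 := by
    intro h
    have h2 : r ∣ κ * k := (ZMod.natCast_eq_zero_iff _ r).1 h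
    have h3 : (r : ℤ) ∣ κ * (k : ℤ) := by exact_mod_cast h2
    have h4 := cop_kap hκ hr hr3 h3
    exact hk (by exact_mod_cast h4)
  set b : ZMod r := -(m : ZMod r) / ((κ * k : ℕ) : ZMod r) with hb
  refine ⟨b.val, ZMod.val_lt b, ?_⟩
  rw [← ZMod.intCast_zmod_eq_zero_iff_dvd]
  have h2 : ((κ * k : ℕ) : ZMod r) * b = -(m : ZMod r) := by
    rw [hb]
    field_simp
  have h3 : ((b.val : ℕ) : ZMod r) = b := ZMod.natCast_zmod_val b
  push_cast at h2 ⊢
  rw [h3, h2]
  ring

private lemma Ocl_ge (m : ℤ) (κ k : ℕ) (P : Finset ℕ) (r : ℕ) (hκ : κ = 1 ∨ κ = 2)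
    (hr : r.Prime) (hr3 : 3 ≤ r) (hm : ¬ (r : ℤ) ∣ m) (hrP : r ∈ P) (hk : ¬ r ∣ k) :
    2 ≤ (Ocl m κ k P r).card := by
  classical
  obtain ⟨b, hb, hd⟩ := exists_class (m := m) hκ hr hr3 hk
  have hb0 : b ≠ 0 := by
    rintro rfl
    apply hm
    simpa using hd
  have h1 : ({0, b} : Finset ℕ) ⊆ Ocl m κ k P r := by
    intro c hc
    unfold Ocl
    rw [mem_filter, mem_range]
    rw [mem_insert, mem_singleton] at hc
    rcases hc with rfl | rfl
    · exact ⟨hr.pos, Or.inl rfl⟩
    · exact ⟨hb, Or.inr ⟨hrP, hd⟩⟩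
  calc 2 = ({0, b} : Finset ℕ).card := (Finset.card_pair (Ne.symm hb0)).symm
    _ ≤ _ := Finset.card_le_card h1

/-- The product over the sieving primes. -/
private lemma prod_bd (m : ℤ) (κ k : ℕ) (P P' : Finset ℕ) (hκ : κ = 1 ∨ κ = 2)
    (hP' : ∀ r ∈ P', r.Prime) (hPP : P ⊆ P')
    (hP : ∀ r ∈ P, 3 ≤ r ∧ ¬ (r : ℤ) ∣ m) :
    ∏ r ∈ P', (1 - ((Ocl m κ k P r).card : ℝ) / r) ≤ (∏ r ∈ P', (1 - 1 / (r : ℝ))) * VV P k := by
  classical
  have h1 : VV P k = ∏ r ∈ P', if (r ∈ P ∧ ¬ r ∣ k) then (1 - 1 / ((r : ℝ) - 1)) else 1 := by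
    unfold VV
    rw [← Finset.prod_filter]
    apply Finset.prod_congr ?_ fun _ _ => rfl
    ext r
    rw [mem_filter, mem_filter]
    constructor
    · rintro ⟨h1, h2⟩
      exact ⟨hPP h1, h1, h2⟩
    · rintro ⟨_, h1, h2⟩
      exact ⟨h1, h2⟩
  rw [h1, ← Finset.prod_mul_distrib]
  apply Finset.prod_le_prod
  · intro r hr
    have hr0 : (0 : ℝ) < r := by exact_mod_cast (hP' r hr).pos
    have h2 : ((Ocl m κ k P r).card : ℝ) ≤ r := by
      have := Finset.card_le_card (Ocl_sub m κ k P r)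
      rw [card_range] at this
      exact_mod_cast this
    have : ((Ocl m κ k P r).card : ℝ) / r ≤ 1 := (div_le_one hr0).2 h2
    linarith
  · intro r hr
    have hrp := hP' r hr
    have hr0 : (0 : ℝ) < r := by exact_mod_cast hrp.pos
    have hr2 : (2 : ℝ) ≤ r := by exact_mod_cast hrp.two_le
    split_ifs with h
    · obtain ⟨h3, h4⟩ := hP r h.1
      have h5 := Ocl_ge m κ k P r hκ hrp h3 h4 h.1 h.2
      have h6 : (2 : ℝ) / r ≤ ((Ocl m κ k P r).card : ℝ) / r := by
        gcongr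
        exact_mod_cast h5
      have h7 : (1 - 1 / (r : ℝ)) * (1 - 1 / ((r : ℝ) - 1)) = 1 - 2 / r := by
        have : (r : ℝ) - 1 ≠ 0 := by linarith
        field_simp
        ring
      rw [h7]
      linarith
    · rw [mul_one]
      have h5 := Ocl_one m κ k P r hrp
      have h6 : (1 : ℝ) / r ≤ ((Ocl m κ k P r).card : ℝ) / r := by
        gcongr
        exact_mod_cast h5
      linarith

open scoped Classical in
theorem up_count : ∃ C : ℝ, 0 < C ∧ ∀ ε : ℝ, 0 < ε → ε ≤ 1 → ∃ X0 : ℝ, ∀ X : ℝ, X0 ≤ X →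
    ∀ N : ℕ, Real.exp ((1 + 5 * ε / 8) * X) / 2 ≤ N → (N : ℝ) ≤ Real.exp (2 * X) →
    ∀ (m : ℤ) (κ k : ℕ) (P : Finset ℕ) (p : ℕ), (κ = 1 ∨ κ = 2) → 1 ≤ k →
    (∀ r ∈ P, r.Prime ∧ 3 ≤ r ∧ (r : ℝ) ≤ Real.exp (ε * X / 100) ∧ ¬ (r : ℤ) ∣ m) →
    p.Prime → 3 ≤ p → (p : ℝ) ≤ Real.exp X → p ∉ P → ¬ (p : ℤ) ∣ m →
      (((Ioc N (2 * N)).filter (fun q : ℕ => q.Prime ∧ (p : ℤ) ∣ m + κ * k * q ∧
        ∀ r ∈ P, ¬ (r : ℤ) ∣ m + κ * k * q)).card : ℝ) ≤
        C * N / (p * (ε * X)) * VV P k := by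
  classical
  obtain ⟨C1, hC1, hV⟩ := V_up
  obtain ⟨c1, hc1, hVV⟩ := VV_low
  obtain ⟨B, hB, hSW⟩ := sieve_weights
  refine ⟨1201 * C1 + 1, by positivity, ?_⟩
  -- the threshold for `t = ε X`
  have hlim : ∀ᶠ t : ℝ in Filter.atTop, 200 ≤ t ∧ B ^ 2 * Real.exp (0.44 * t) ≤
      c1 / 2 * Real.exp (5 / 8 * t) / t ^ 2 := by
    have h1 : Filter.Tendsto (fun t : ℝ => t ^ 2 * Real.exp (-(0.185 * t))) Filter.atTop
        (nhds 0) := by
      have h2 := Real.tendsto_pow_mul_exp_neg_atTop_nhds_zero 2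
      have h3 : Filter.Tendsto (fun t : ℝ => 0.185 * t) Filter.atTop Filter.atTop :=
        Filter.Tendsto.const_mul_atTop (by norm_num) Filter.tendsto_id
      have h4 := (h2.comp h3).const_mul (1 / 0.185 ^ 2)
      rw [mul_zero] at h4
      refine h4.congr fun t => ?_
      simp only [Function.comp]
      ring
    have h5 : ∀ᶠ t : ℝ in Filter.atTop, t ^ 2 * Real.exp (-(0.185 * t)) <
        c1 / 2 / B ^ 2 := h1.eventually (gt_mem_nhds (by positivity))
    filter_upwards [h5, Filter.eventually_ge_atTop (200 : ℝ)] with t ht ht2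
    refine ⟨ht2, ?_⟩
    have ht0 : 0 < t := by linarith
    rw [lt_div_iff₀ (by positivity)] at ht
    rw [le_div_iff₀ (by positivity)]
    have h6 : Real.exp (5 / 8 * t) = Real.exp (0.44 * t) * Real.exp (0.185 * t) := by
      rw [← Real.exp_add]
      congr 1
      ring
    have h7 : Real.exp (-(0.185 * t)) * Real.exp (0.185 * t) = 1 := by
      rw [← Real.exp_add]
      simp
    rw [h6]
    have h8 : t ^ 2 * B ^ 2 ≤ c1 / 2 * Real.exp (0.185 * t) := by
      calc t ^ 2 * B ^ 2 = (t ^ 2 * Real.exp (-(0.185 * t)) * B ^ 2) * Real.exp (0.185 * t) := by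
            calc t ^ 2 * B ^ 2 = t ^ 2 * B ^ 2 * 1 := (mul_one _).symm
              _ = t ^ 2 * B ^ 2 * (Real.exp (-(0.185 * t)) * Real.exp (0.185 * t)) := by rw [h7]
              _ = _ := by ring
        _ ≤ c1 / 2 * Real.exp (0.185 * t) := by gcongr
    calc B ^ 2 * Real.exp (0.44 * t) * t ^ 2 = (t ^ 2 * B ^ 2) * Real.exp (0.44 * t) := by ring
      _ ≤ (c1 / 2 * Real.exp (0.185 * t)) * Real.exp (0.44 * t) := by gcongr
      _ = _ := by ring
  obtain ⟨t0, ht0⟩ := Filter.eventually_atTop.1 hlim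
  intro ε hε hε1
  refine ⟨t0 / ε, ?_⟩
  intro X hX N hN1 hN2 m κ k P p hκ hk hP hp hp3 hpX hpP hpm
  have ht : t0 ≤ ε * X := by
    rw [div_le_iff₀ hε] at hX
    linarith
  obtain ⟨ht200, hasy⟩ := ht0 (ε * X) ht
  set t := ε * X with htd
  have ht0' : 0 < t := by linarith
  have hXt : t ≤ X := by
    have hX0 : 0 < X := by
      by_contra h
      push Not at h
      have : ε * X ≤ 0 := mul_nonpos_of_nonneg_of_nonpos hε.le h
      linarith
    rw [htd]
    nlinarith
  have hpR : (0 : ℝ) < p := by exact_mod_cast hp.pos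
  -- the number of the sieving primes
  set R := ⌊Real.exp (t / 100)⌋₊ with hR
  have hRle : (R : ℝ) ≤ Real.exp (t / 100) := Nat.floor_le (Real.exp_pos _).le
  have he2 : (2 : ℝ) < Real.exp (t / 100) := by
    have h1 := Real.add_one_lt_exp (x := t / 100) (by positivity)
    linarith
  have hRge : Real.exp (t / 100) / 2 ≤ R := by
    have := Nat.lt_floor_add_one (Real.exp (t / 100))
    rw [← hR] at this
    linarith
  have hR2 : 2 ≤ R := Nat.le_floor he2.le
  have hR2' : (2 : ℝ) ≤ R := by exact_mod_cast hR2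
  have hlogR : t / 200 ≤ Real.log R := by
    rw [Real.le_log_iff_exp_le (by linarith)]
    refine le_trans ?_ hRge
    have h1 : Real.exp (t / 100) = Real.exp (t / 200) * Real.exp (t / 200) := by
      rw [← Real.exp_add]
      congr 1
      ring
    have h2 : (2 : ℝ) ≤ Real.exp (t / 200) := by
      have h1 := Real.add_one_le_exp (t / 200)
      linarith
    have h3 := Real.exp_pos (t / 200)
    rw [h1]
    nlinarith
  have hlogR' : Real.log R ≤ t / 100 := by
    rw [Real.log_le_iff_le_exp (by linarith)]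
    exact hRle
  have hlogpos : 0 < Real.log R := by
    have : 0 < t / 200 := by positivity
    linarith
  have hPR : ∀ r ∈ P, r ≤ R := by
    intro r hr
    have h1 := (hP r hr).2.2.1
    rw [hR]
    exact Nat.le_floor h1
  have hVVlow : c1 / Real.log R ≤ VV P k := hVV R hR2 P
    (fun r hr => ⟨(hP r hr).1, (hP r hr).2.1, hPR r hr⟩) k
  have hVVpos : 0 < VV P k := lt_of_lt_of_le (by positivity) hVVlow
  have hVVt : c1 / t ≤ VV P k := by
    refine le_trans ?_ hVVlow
    gcongr
    linarith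
  -- `N / p` is large
  have hNp : Real.exp (5 / 8 * t) / 2 ≤ N / p := by
    rw [le_div_iff₀ hpR]
    calc Real.exp (5 / 8 * t) / 2 * p ≤ Real.exp (5 / 8 * t) / 2 * Real.exp X := by gcongr
      _ = Real.exp ((1 + 5 * ε / 8) * X) / 2 := by
        rw [div_mul_eq_mul_div, ← Real.exp_add]
        congr 2
        rw [htd]
        ring
      _ ≤ N := hN1
  have hNR : R < N := by
    have h1 : (R : ℝ) < N := by
      calc (R : ℝ) ≤ Real.exp (t / 100) := hRle
        _ < Real.exp (5 / 8 * t) / 2 := by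
          have h2 : Real.exp (5 / 8 * t) = Real.exp (t / 100) * Real.exp (123 / 200 * t) := by
            rw [← Real.exp_add]
            congr 1
            ring
          have h3 := Real.add_one_le_exp (123 / 200 * t)
          have h4 := Real.exp_pos (t / 100)
          rw [h2]
          nlinarith
        _ ≤ N / p := hNp
        _ ≤ N := by
          apply div_le_self (Nat.cast_nonneg N)
          exact_mod_cast hp.one_lt.le
    exact_mod_cast h1
  by_cases hpk : p ∣ k
  · -- no such `q`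
    have h0 : ((Ioc N (2 * N)).filter (fun q : ℕ => q.Prime ∧ (p : ℤ) ∣ m + κ * k * q ∧
        ∀ r ∈ P, ¬ (r : ℤ) ∣ m + κ * k * q)) = ∅ := by
      rw [Finset.filter_eq_empty_iff]
      rintro q _ ⟨_, h2, _⟩
      apply hpm
      have h3 : (p : ℤ) ∣ κ * k * q := by
        have h4 : (p : ℤ) ∣ k := by exact_mod_cast hpk
        exact Dvd.dvd.mul_right (Dvd.dvd.mul_left h4 _) _
      exact (Int.dvd_add_left h3).1 h2
    rw [h0]
    simp only [card_empty, Nat.cast_zero]
    positivity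
  · obtain ⟨a0, ha0, hda0⟩ := exists_class (m := m) hκ hp hp3 hpk
    set Pr := (range (R + 1)).filter Nat.Prime with hPr
    set P' := Pr.erase p with hP'
    have hP'p : ∀ r ∈ P', r.Prime := fun r hr => (mem_filter.1 (mem_of_mem_erase hr)).2
    have hP'R : ∀ r ∈ P', r ≤ R := fun r hr => by
      have := mem_range.1 (mem_filter.1 (mem_of_mem_erase hr)).1
      omega
    have hPP' : P ⊆ P' := by
      intro r hr
      rw [hP', mem_erase, hPr, mem_filter, mem_range]
      refine ⟨?_, ?_, (hP r hr).1⟩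
      · rintro rfl
        exact hpP hr
      · have := hPR r hr
        omega
    obtain ⟨lam, lamu, hW⟩ := hSW R hR2 P' (fun r hr => ⟨hP'p r hr, hP'R r hr⟩)
    set D := B * (R : ℝ) ^ 22 with hD
    have hD0 : 0 ≤ D := by positivity
    have hsub : (Ioc N (2 * N)).filter (fun q : ℕ => q.Prime ∧ (p : ℤ) ∣ m + κ * k * q ∧
        ∀ r ∈ P, ¬ (r : ℤ) ∣ m + κ * k * q) ⊆
        (Ico (N + 1) (N + 1 + N)).filter (fun q => q % p = a0 ∧
          ∀ r ∈ P', q % r ∉ Ocl m κ k P r) := by
      intro q hq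
      rw [mem_filter, mem_Ioc] at hq
      obtain ⟨⟨hq1, hq2⟩, hqp, hqd, hqr⟩ := hq
      rw [mem_filter, mem_Ico]
      refine ⟨by omega, ?_, ?_⟩
      · -- the class mod `p`
        have h1 : (p : ℤ) ∣ κ * (k * ((q : ℤ) - a0)) := by
          have := dvd_sub hqd hda0
          have e : (m + κ * k * q : ℤ) - (m + κ * k * a0) = κ * (k * ((q : ℤ) - a0)) := by ring
          rwa [e] at this
        have h2 := cop_kap hκ hp hp3 h1
        have hpp : _root_.Prime (p : ℤ) := Nat.prime_iff_prime_int.1 hp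
        rcases hpp.dvd_or_dvd h2 with h3 | h3
        · exfalso
          exact hpk (by exact_mod_cast h3)
        · have h4 : (q : ℤ) % p = a0 := by
            have h5 : (a0 : ℤ) % p = a0 := Int.emod_eq_of_lt (by positivity) (by exact_mod_cast ha0)
            rw [← h5]
            exact Int.emod_eq_emod_iff_emod_sub_eq_zero.2 (Int.emod_eq_zero_of_dvd h3)
          exact_mod_cast h4
      · intro r hr hmem
        have hrp := hP'p r hr
        unfold Ocl at hmem
        rw [mem_filter] at hmem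
        rcases hmem.2 with h1 | ⟨h1, h2⟩
        · have h3 : r ∣ q := Nat.dvd_of_mod_eq_zero h1
          rw [Nat.prime_dvd_prime_iff_eq hrp hqp] at h3
          have := hP'R r hr
          omega
        · apply hqr r h1
          have h3 : (m + κ * k * q : ℤ) = (m + κ * k * ((q % r : ℕ) : ℤ)) +
              r * (κ * k * ((q / r : ℕ) : ℤ)) := by
            have h4 : (q : ℤ) = ((q % r : ℕ) : ℤ) + r * ((q / r : ℕ) : ℤ) := by
              exact_mod_cast (Nat.mod_add_div q r).symm
            conv_lhs => rw [h4]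
            ring
          rw [h3]
          exact dvd_add h2 (dvd_mul_right _ _)
    have hub := sieve_ub P' D hD0 lam lamu hW (Ocl m κ k P) hP'p
      (fun r _ => Ocl_sub m κ k P r)
      (fun r hr => Ocl_two m κ k P r hκ (hP'p r hr) (fun h => ⟨(hP r h).2.1, (hP r h).2.2.2⟩))
      (fun r hr => by
        have hrp := hP'p r hr
        have hr0 : (0 : ℝ) < r := by exact_mod_cast hrp.pos
        rw [div_le_iff₀ hr0]
        by_cases hrP : r ∈ P
        · have h1 := Ocl_two m κ k P r hκ hrp (fun h => ⟨(hP r h).2.1, (hP r h).2.2.2⟩)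
          have h2 : (3 : ℝ) ≤ r := by exact_mod_cast (hP r hrP).2.1
          have h3 : ((Ocl m κ k P r).card : ℝ) ≤ 2 := by exact_mod_cast h1
          linarith
        · have h1 := Ocl_notP m κ k P r hrP
          have h2 : (2 : ℝ) ≤ r := by exact_mod_cast hrp.two_le
          have h3 : ((Ocl m κ k P r).card : ℝ) ≤ 1 := by exact_mod_cast h1
          linarith)
      p a0 hp (notMem_erase p Pr) ha0 (N + 1) N
    have hprod := prod_bd m κ k P P' hκ hP'p hPP' (fun r hr => ⟨(hP r hr).2.1, (hP r hr).2.2.2⟩)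
    -- the product of `1 - 1/r`
    have hprod2 : ∏ r ∈ P', (1 - 1 / (r : ℝ)) ≤ 3 / 2 * (C1 / Real.log R) := by
      have h1 := hV R hR2
      rw [← hPr] at h1
      have h0 : 0 ≤ ∏ r ∈ P', (1 - 1 / (r : ℝ)) := by
        apply Finset.prod_nonneg
        intro r hr
        have hr1 : (1 : ℝ) ≤ r := by exact_mod_cast (hP'p r hr).one_lt.le
        have : 1 / (r : ℝ) ≤ 1 := by
          rw [div_le_one (by linarith)]
          exact hr1
        linarith
      by_cases hpm' : p ∈ Pr
      · have h2 := Finset.mul_prod_erase Pr (fun r : ℕ => (1 - 1 / (r : ℝ))) hpm'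
        rw [← hP'] at h2
        beta_reduce at h2
        have h3 : (2 : ℝ) / 3 ≤ 1 - 1 / (p : ℝ) := by
          have : (3 : ℝ) ≤ p := by exact_mod_cast hp3
          have : 1 / (p : ℝ) ≤ 1 / 3 := by gcongr
          linarith
        nlinarith
      · have h2 : P' = Pr := by rw [hP']; exact Finset.erase_eq_of_notMem hpm'
        rw [h2] at h0 ⊢
        have : 0 ≤ C1 / Real.log R := by positivity
        linarith
    have hprod3 : ∏ r ∈ P', (1 - 1 / (r : ℝ)) ≤ 300 * C1 / t := by
      refine hprod2.trans ?_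
      have h1 : C1 / Real.log R ≤ C1 / (t / 200) := by gcongr
      calc 3 / 2 * (C1 / Real.log R) ≤ 3 / 2 * (C1 / (t / 200)) := by gcongr
        _ = 300 * C1 / t := by
          field_simp
          ring
    have hD2 : D ^ 2 ≤ N / (p * t) * VV P k := by
      have h1 : D ^ 2 ≤ B ^ 2 * Real.exp (0.44 * t) := by
        have h2 : (R : ℝ) ^ 22 ≤ Real.exp (t / 100) ^ 22 := by gcongr
        have h3 : Real.exp (0.44 * t) = (Real.exp (t / 100) ^ 22) ^ 2 := by
          rw [← Real.exp_nat_mul, ← Real.exp_nat_mul]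
          congr 1
          push_cast
          ring
        rw [hD, mul_pow, h3]
        gcongr
      refine h1.trans (hasy.trans ?_)
      calc c1 / 2 * Real.exp (5 / 8 * t) / t ^ 2 = (Real.exp (5 / 8 * t) / 2) / t * (c1 / t) := by
            field_simp
        _ ≤ (N / p) / t * VV P k := by gcongr
        _ = N / (p * t) * VV P k := by
          rw [div_div]
    have hNp0 : 0 ≤ (N : ℝ) / p := by positivity
    calc (((Ioc N (2 * N)).filter (fun q : ℕ => q.Prime ∧ (p : ℤ) ∣ m + κ * k * q ∧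
        ∀ r ∈ P, ¬ (r : ℤ) ∣ m + κ * k * q)).card : ℝ)
        ≤ (((Ico (N + 1) (N + 1 + N)).filter (fun q => q % p = a0 ∧
          ∀ r ∈ P', q % r ∉ Ocl m κ k P r)).card : ℝ) := by
          exact_mod_cast Finset.card_le_card hsub
      _ ≤ 2 * (N / p) * ∏ r ∈ P', (1 - ((Ocl m κ k P r).card : ℝ) / r) + D ^ 2 := hub
      _ ≤ 2 * (N / p) * ((∏ r ∈ P', (1 - 1 / (r : ℝ))) * VV P k) + D ^ 2 := by gcongr
      _ ≤ 2 * (N / p) * ((300 * C1 / t) * VV P k) + N / (p * t) * VV P k := by gcongr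
      _ = (600 * C1 + 1) * N / (p * t) * VV P k := by
        field_simp
        ring
      _ ≤ (1201 * C1 + 1) * N / (p * t) * VV P k := by
        gcongr
        linarith

end Pool.Agent.ERB
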