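import Pool.Agent.ERB.CutF

/-!
# ERB / Wchi: smooth sums over a log scale are controlled by the Dirichlet series near `s = 1`

Let `h` be the function of `cut_fourier`, `T(s) = ∑_m f(m) (log m)^n m^(-s)` (`Re s > 1`).  For `m ≥ 1`
`m^(-1-1/X) G(log m/X) = ∫ h(τ) m^(-(1 + 1/X - 2πiτ/X)) dτ` (as `m^(2πiτ/X) = e^(2πiτ log m/X)`), so
(`integral_tsum` / `hasSum_integral_of_summable_integral_norm`: `|f m| (log m)^n m^(-1-1/X)` is
summable since `|f m| ≤ Λ m ≤ log m`, and `h` is integrable)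
`∑_m f(m) vt(m) = X^(-n) ∫ h(τ) T(1 + 1/X - 2πiτ/X) dτ`.
For `|2πτ/X| ≤ δ` the factor `T` is `≤ B`; for all `τ` it is at most
`∑_m (log m)^(n+1) m^(-1-1/X) ≤ C X^(n+2)` (for `X ≥ 2`: `(log m)^(n+1) ≤ (n+1)! (2X)^(n+1) m^(1/(2X))`
and `∑_(m ≥ 1) m^(-1-1/(2X)) ≤ 1 + 2X`).  The part `|τ| > δX/(2π)` of `∫ ‖h‖` is `≤ C (1 + δX)^(-N)`
(`‖h τ‖ ≤ C (1+|τ|)^(-N-2)` and `1 + |τ| ≥ (1 + δX)/(2π)` there).
For `m = 0` both sides have the term `0` (`Real.zero_rpow`).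
`LSeries g s = ∑' m, LSeries.term g s m`, `LSeries.term_of_ne_zero`.
-/

set_option autoImplicit false

namespace Pool.Agent.ERB

open MeasureTheory Complex

private theorem wchi_tele (σ : ℝ) (hσ : 0 < σ) (x : ℝ) (hx : 0 < x) :
    (x + 1) ^ (-1 - σ) ≤ (x ^ (-σ) - (x + 1) ^ (-σ)) / σ := by
  have hx1 : 0 < x + 1 := by linarith
  have h1 : (x + 1) ^ (-1 - σ) = (x + 1) ^ (-σ) / (x + 1) := by
    rw [show -1 - σ = -σ - 1 by ring, Real.rpow_sub_one hx1.ne']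
  have h2 : x ^ (-σ) = (x + 1) ^ (-σ) * Real.exp (σ * Real.log ((x + 1) / x)) := by
    rw [Real.rpow_def_of_pos hx, Real.rpow_def_of_pos hx1, ← Real.exp_add,
      Real.log_div hx1.ne' hx.ne']
    congr 1
    ring
  have h3 : 1 - ((x + 1) / x)⁻¹ ≤ Real.log ((x + 1) / x) :=
    Real.one_sub_inv_le_log_of_pos (by positivity)
  have h4 : 1 - ((x + 1) / x)⁻¹ = 1 / (x + 1) := by
    rw [inv_div]
    field_simp
    ring
  rw [h4] at h3
  have h5 : σ * (1 / (x + 1)) + 1 ≤ Real.exp (σ * Real.log ((x + 1) / x)) :=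
    (add_le_add (mul_le_mul_of_nonneg_left h3 hσ.le) le_rfl).trans (Real.add_one_le_exp _)
  have h6 : 0 < (x + 1) ^ (-σ) := Real.rpow_pos_of_pos hx1 _
  rw [h1, h2, le_div_iff₀ hσ]
  calc (x + 1) ^ (-σ) / (x + 1) * σ
      = (x + 1) ^ (-σ) * ((σ * (1 / (x + 1)) + 1) - 1) := by ring
    _ ≤ (x + 1) ^ (-σ) * (Real.exp (σ * Real.log ((x + 1) / x)) - 1) :=
        mul_le_mul_of_nonneg_left (by linarith) h6.le
    _ = _ := by ring

private theorem wchi_zeta (σ : ℝ) (hσ : 0 < σ) :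
    Summable (fun m : ℕ => (m : ℝ) ^ (-1 - σ)) ∧
      ∑' m : ℕ, (m : ℝ) ^ (-1 - σ) ≤ 1 + 1 / σ := by
  have hn : ∀ m : ℕ, 0 ≤ (m : ℝ) ^ (-1 - σ) := fun m => Real.rpow_nonneg (Nat.cast_nonneg m) _
  have key : ∀ M : ℕ, ∑ m ∈ Finset.range (M + 2), (m : ℝ) ^ (-1 - σ) ≤
      1 + (1 - ((M : ℝ) + 1) ^ (-σ)) / σ := by
    intro M
    induction M with
    | zero =>
      rw [Finset.sum_range_succ, Finset.sum_range_one]
      have h0 : ((0 : ℕ) : ℝ) ^ (-1 - σ) = 0 := by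
        rw [Nat.cast_zero, Real.zero_rpow (by linarith)]
      rw [h0]
      simp
    | succ M ih =>
      rw [Finset.sum_range_succ]
      have h := wchi_tele σ hσ ((M : ℝ) + 1) (by positivity)
      have e : ((M + 2 : ℕ) : ℝ) = (M : ℝ) + 1 + 1 := by push_cast; ring
      have e2 : ((M + 1 : ℕ) : ℝ) + 1 = (M : ℝ) + 1 + 1 := by push_cast; ring
      rw [e, e2]
      calc _ ≤ 1 + (1 - ((M : ℝ) + 1) ^ (-σ)) / σ +
            (((M : ℝ) + 1) ^ (-σ) - ((M : ℝ) + 1 + 1) ^ (-σ)) / σ := add_le_add ih h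
        _ = _ := by ring
  refine ⟨Real.summable_nat_rpow.2 (by linarith), Real.tsum_le_of_sum_range_le hn fun M => ?_⟩
  calc ∑ m ∈ Finset.range M, (m : ℝ) ^ (-1 - σ)
      ≤ ∑ m ∈ Finset.range (M + 2), (m : ℝ) ^ (-1 - σ) :=
        Finset.sum_le_sum_of_subset_of_nonneg (Finset.range_mono (by omega))
          fun _ _ _ => hn _
    _ ≤ 1 + (1 - ((M : ℝ) + 1) ^ (-σ)) / σ := key M
    _ ≤ 1 + 1 / σ := by
        have h6 : 0 < ((M : ℝ) + 1) ^ (-σ) := Real.rpow_pos_of_pos (by positivity) _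
        have h7 : (1 - ((M : ℝ) + 1) ^ (-σ)) / σ ≤ 1 / σ :=
          div_le_div_of_nonneg_right (by linarith) hσ.le
        linarith

private theorem wchi_term (n : ℕ) (X : ℝ) (hX : 2 ≤ X) (f : ℕ → ℂ)
    (hf : ∀ m, ‖f m‖ ≤ ArithmeticFunction.vonMangoldt m) (s : ℂ) (hs : s.re = 1 + 1 / X)
    (m : ℕ) :
    ‖LSeries.term (fun m : ℕ => f m * ((Real.log m : ℝ) : ℂ) ^ n) s m‖ ≤
      (((n + 1).factorial : ℝ) * (2 * X) ^ (n + 1)) * (m : ℝ) ^ (-1 - 1 / (2 * X)) := by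
  have hX0 : 0 < X := by linarith
  rw [LSeries.norm_term_eq]
  split_ifs with h0
  · positivity
  · have hm1 : (1 : ℝ) ≤ m := by exact_mod_cast Nat.one_le_iff_ne_zero.2 h0
    have hm : (0 : ℝ) < m := by linarith
    have hlog : 0 ≤ Real.log m := Real.log_nonneg hm1
    rw [hs, norm_mul, norm_pow, Complex.norm_real, Real.norm_eq_abs, abs_of_nonneg hlog]
    have h1 : ‖f m‖ ≤ Real.log m := (hf m).trans ArithmeticFunction.vonMangoldt_le_log
    have h2 : ‖f m‖ * Real.log m ^ n ≤ Real.log m ^ (n + 1) := by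
      rw [pow_succ']
      exact mul_le_mul_of_nonneg_right h1 (by positivity)
    have h3 : (Real.log m / (2 * X)) ^ (n + 1) / ((n + 1).factorial : ℝ) ≤
        Real.exp (Real.log m / (2 * X)) :=
      Real.pow_div_factorial_le_exp _ (by positivity) _
    have h4 : Real.exp (Real.log m / (2 * X)) = (m : ℝ) ^ (1 / (2 * X)) := by
      rw [Real.rpow_def_of_pos hm]
      congr 1
      ring
    have h5 : Real.log m ^ (n + 1) ≤
        (((n + 1).factorial : ℝ) * (2 * X) ^ (n + 1)) * (m : ℝ) ^ (1 / (2 * X)) := by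
      rw [h4, div_pow, div_div, div_le_iff₀ (by positivity)] at h3
      linarith
    rw [div_le_iff₀ (Real.rpow_pos_of_pos hm _)]
    calc ‖f m‖ * Real.log m ^ n
        ≤ (((n + 1).factorial : ℝ) * (2 * X) ^ (n + 1)) * (m : ℝ) ^ (1 / (2 * X)) :=
          h2.trans h5
      _ = (((n + 1).factorial : ℝ) * (2 * X) ^ (n + 1)) * (m : ℝ) ^ (-1 - 1 / (2 * X)) *
          (m : ℝ) ^ (1 + 1 / X) := by
          rw [mul_assoc _ ((m : ℝ) ^ (-1 - 1 / (2 * X))), ← Real.rpow_add hm]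
          congr 2
          field_simp
          ring

private theorem wchi_eq (n : ℕ) (X : ℝ) (f : ℕ → ℂ) (hf0 : f 0 = 0) (τ : ℝ) (m : ℕ) :
    LSeries.term (fun m : ℕ => f m * ((Real.log m : ℝ) : ℂ) ^ n)
      (1 + 1 / (X : ℂ) + ((-(2 * Real.pi * τ / X) : ℝ) : ℂ) * I) m =
    (f m * ((Real.log m : ℝ) : ℂ) ^ n * (((m : ℝ) ^ (-1 - 1 / X : ℝ) : ℝ) : ℂ)) *
      Complex.exp ((2 * Real.pi * τ * (Real.log m / X) : ℝ) * I) := by
  rcases Nat.eq_zero_or_pos m with rfl | hm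
  · rw [LSeries.term_zero, hf0, zero_mul, zero_mul, zero_mul]
  · have hm' : (0 : ℝ) < m := by exact_mod_cast hm
    rw [LSeries.term_of_ne_zero hm.ne', div_eq_mul_inv, ← Complex.cpow_neg,
      mul_assoc (f m * ((Real.log m : ℝ) : ℂ) ^ n)]
    congr 1
    rw [Complex.cpow_def_of_ne_zero (by exact_mod_cast hm.ne'), Real.rpow_def_of_pos hm',
      Complex.ofReal_exp, ← Complex.exp_add]
    congr 1
    have hl : Complex.log (m : ℂ) = ((Real.log m : ℝ) : ℂ) := Complex.natCast_log.symm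
    rw [hl]
    push_cast
    ring

theorem wchi_bound (ε : ℝ) (hε : 0 < ε) (G : ℝ → ℝ) (hG : IsCut ε G) (n N : ℕ) :
    ∃ C : ℝ, 0 < C ∧ ∀ X : ℝ, 2 ≤ X → ∀ f : ℕ → ℂ,
      (∀ m, ‖f m‖ ≤ ArithmeticFunction.vonMangoldt m) → ∀ B δ : ℝ, 0 ≤ B → 0 ≤ δ →
      (∀ t : ℝ, |t| ≤ δ →
        ‖LSeries (fun m : ℕ => f m * ((Real.log m : ℝ) : ℂ) ^ n)
          (1 + 1 / (X : ℂ) + (t : ℂ) * I)‖ ≤ B) →
      ‖∑' m : ℕ, f m * ((vt n G X m : ℝ) : ℂ)‖ ≤
        C / X ^ n * (B + X ^ (n + 2) / (1 + δ * X) ^ N) := by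
  obtain ⟨h, hc, hdec, hinv⟩ := cut_fourier ε G hG
  obtain ⟨C₂, hC₂⟩ := hdec 2
  obtain ⟨C₃, hC₃⟩ := hdec (N + 2)
  have hC₂0 : 0 ≤ C₂ := (by positivity : 0 ≤ ‖h 0‖ * (1 + |(0 : ℝ)|) ^ 2).trans (hC₂ 0)
  have hC₃0 : 0 ≤ C₃ := (by positivity : 0 ≤ ‖h 0‖ * (1 + |(0 : ℝ)|) ^ (N + 2)).trans (hC₃ 0)
  set CA : ℝ := ((n + 1).factorial : ℝ) * 2 ^ (n + 1) * 3 with hCA
  have hCA0 : 0 < CA := by positivity
  have hpi : 0 < Real.pi := Real.pi_pos
  refine ⟨Real.pi * (C₂ + C₃ * (2 * Real.pi) ^ N * CA) + 1, by positivity, ?_⟩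
  intro X hX f hf B δ hB hδ hL
  have hX0 : 0 < X := by linarith
  have hf0 : f 0 = 0 := by
    have h1 := hf 0
    rw [ArithmeticFunction.map_zero] at h1
    exact norm_le_zero_iff.1 h1
  have hsq : ∀ τ : ℝ, 1 + τ ^ 2 ≤ (1 + |τ|) ^ 2 := by
    intro τ
    nlinarith [abs_nonneg τ, sq_abs τ]
  have hq0 : ∀ τ : ℝ, 0 < 1 + τ ^ 2 := fun τ => by positivity
  have hh2 : ∀ τ : ℝ, ‖h τ‖ ≤ C₂ * (1 + τ ^ 2)⁻¹ := by
    intro τ
    rw [← div_eq_mul_inv, le_div_iff₀ (hq0 τ)]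
    exact (mul_le_mul_of_nonneg_left (hsq τ) (norm_nonneg _)).trans (hC₂ τ)
  have hhint : Integrable h :=
    (integrable_inv_one_add_sq.const_mul C₂).mono' hc.aestronglyMeasurable
      (Filter.Eventually.of_forall hh2)
  set u : ℕ → ℝ := fun m => (m : ℝ) ^ (-1 - 1 / (2 * X)) with hu
  set D : ℝ := ((n + 1).factorial : ℝ) * (2 * X) ^ (n + 1) with hD
  have hD0 : 0 < D := by positivity
  obtain ⟨hus, hut⟩ := wchi_zeta (1 / (2 * X)) (by positivity)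
  have hA : D * ∑' m, u m ≤ CA * X ^ (n + 2) := by
    have h1 : ∑' m, u m ≤ 3 * X := by
      refine hut.trans ?_
      rw [one_div_one_div]
      linarith
    calc D * ∑' m, u m ≤ D * (3 * X) := mul_le_mul_of_nonneg_left h1 hD0.le
      _ = CA * X ^ (n + 2) := by
        rw [hD, hCA, mul_pow]
        ring
  set g : ℕ → ℂ := fun m : ℕ => f m * ((Real.log m : ℝ) : ℂ) ^ n with hg
  set s : ℝ → ℂ := fun τ => 1 + 1 / (X : ℂ) + ((-(2 * Real.pi * τ / X) : ℝ) : ℂ) * I with hs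
  have hsre : ∀ τ, (s τ).re = 1 + 1 / X := by
    intro τ
    simp only [hs, Complex.add_re, Complex.one_re, Complex.mul_re, Complex.ofReal_re, Complex.I_re,
      mul_zero, Complex.ofReal_im, Complex.I_im, zero_mul, sub_zero, add_zero]
    rw [← Complex.ofReal_one, ← Complex.ofReal_div, Complex.ofReal_re]
  have hterm : ∀ τ m, ‖LSeries.term g (s τ) m‖ ≤ D * u m := fun τ m =>
    wchi_term n X hX f hf (s τ) (hsre τ) m
  have hLall : ∀ τ, ‖LSeries g (s τ)‖ ≤ CA * X ^ (n + 2) := by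
    intro τ
    have h1 : HasSum (fun m => D * u m) (D * ∑' m, u m) := hus.hasSum.mul_left D
    exact (tsum_of_norm_bounded h1 (hterm τ)).trans hA
  set c : ℕ → ℂ := fun m => f m * ((Real.log m : ℝ) : ℂ) ^ n *
    (((m : ℝ) ^ (-1 - 1 / X : ℝ) : ℝ) : ℂ) with hcdef
  have hcbd : ∀ m, ‖c m‖ ≤ D * u m := by
    intro m
    have h1 := hterm 0 m
    rw [hs, hg, wchi_eq n X f hf0 0 m, norm_mul, Complex.norm_exp_ofReal_mul_I, mul_one] at h1
    exact h1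
  set E : ℕ → ℝ → ℂ := fun m τ =>
    h τ * Complex.exp ((2 * Real.pi * τ * (Real.log m / X) : ℝ) * I) with hE
  have hEn : ∀ m τ, ‖E m τ‖ = ‖h τ‖ := by
    intro m τ
    rw [hE]
    change ‖h τ * Complex.exp ((2 * Real.pi * τ * (Real.log m / X) : ℝ) * I)‖ = ‖h τ‖
    rw [norm_mul, Complex.norm_exp_ofReal_mul_I, mul_one]
  have hEc : ∀ m, Continuous (E m) := by
    intro m
    refine hc.mul (Complex.continuous_exp.comp ?_)
    exact (Complex.continuous_ofReal.comp (by fun_prop)).mul continuous_const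
  have hEi : ∀ m, Integrable (E m) := fun m =>
    hhint.mono (hEc m).aestronglyMeasurable (Filter.Eventually.of_forall fun τ => (hEn m τ).le)
  have hFi : ∀ m, Integrable (fun τ => c m * E m τ) := fun m => (hEi m).const_mul (c m)
  have hFn : ∀ m, ∫ τ, ‖c m * E m τ‖ = ‖c m‖ * ∫ τ, ‖h τ‖ := by
    intro m
    rw [← integral_const_mul]
    refine integral_congr_ae (Filter.Eventually.of_forall fun τ => ?_)
    change ‖c m * E m τ‖ = ‖c m‖ * ‖h τ‖
    rw [norm_mul, hEn]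
  have hcs : Summable fun m => ‖c m‖ :=
    Summable.of_nonneg_of_le (fun m => norm_nonneg _) hcbd (hus.mul_left D)
  have hFs : Summable fun m => ∫ τ, ‖c m * E m τ‖ := by
    simp only [hFn]
    exact hcs.mul_right _
  have hsum := hasSum_integral_of_summable_integral_norm hFi hFs
  have hint : ∀ m, ∫ τ, c m * E m τ = (X : ℂ) ^ n * (f m * ((vt n G X m : ℝ) : ℂ)) := by
    intro m
    rw [integral_const_mul, hE]
    change c m * ∫ τ, h τ * Complex.exp ((2 * Real.pi * τ * (Real.log m / X) : ℝ) * I) = _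
    rw [← hinv, hcdef, vt]
    have hXc : (X : ℂ) ≠ 0 := by exact_mod_cast hX0.ne'
    push_cast
    rw [div_pow]
    field_simp
  have hinner : ∀ τ, ∑' m, c m * E m τ = h τ * LSeries g (s τ) := by
    intro τ
    rw [LSeries, ← tsum_mul_left]
    refine tsum_congr fun m => ?_
    rw [hs, hg, wchi_eq n X f hf0 τ m, hE, hcdef]
    ring
  have hsum2 : (X : ℂ) ^ n * ∑' m : ℕ, f m * ((vt n G X m : ℝ) : ℂ) =
      ∫ τ, h τ * LSeries g (s τ) := by
    rw [← tsum_mul_left]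
    have h1 := hsum.tsum_eq
    simp only [hint] at h1
    rw [h1]
    exact integral_congr_ae (Filter.Eventually.of_forall hinner)
  set R : ℝ := (1 + δ * X) ^ N with hR
  have hR0 : 0 < R := by positivity
  have hpt : ∀ τ, ‖h τ * LSeries g (s τ)‖ ≤
      (C₂ * B + C₃ * (2 * Real.pi) ^ N * (CA * X ^ (n + 2)) / R) * (1 + τ ^ 2)⁻¹ := by
    intro τ
    rw [norm_mul, ← div_eq_mul_inv, le_div_iff₀ (hq0 τ)]
    have hA0 : 0 ≤ CA * X ^ (n + 2) := by positivity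
    have hh0 : 0 ≤ ‖h τ‖ := norm_nonneg _
    have hL0 : 0 ≤ ‖LSeries g (s τ)‖ := norm_nonneg _
    have hp0 : 0 ≤ C₃ * (2 * Real.pi) ^ N * (CA * X ^ (n + 2)) / R := by positivity
    have hp1 : 0 ≤ C₂ * B := mul_nonneg hC₂0 hB
    by_cases hτ : |(-(2 * Real.pi * τ / X) : ℝ)| ≤ δ
    · have h1 : ‖LSeries g (s τ)‖ ≤ B := hL _ hτ
      have h2 : ‖h τ‖ * (1 + τ ^ 2) ≤ C₂ :=
        (mul_le_mul_of_nonneg_left (hsq τ) hh0).trans (hC₂ τ)
      calc ‖h τ‖ * ‖LSeries g (s τ)‖ * (1 + τ ^ 2)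
          = (‖h τ‖ * (1 + τ ^ 2)) * ‖LSeries g (s τ)‖ := by ring
        _ ≤ C₂ * B := mul_le_mul h2 h1 hL0 hC₂0
        _ ≤ _ := by linarith
    · have hτ' := not_le.1 hτ
      rw [abs_neg, abs_div, abs_of_pos hX0, abs_mul, abs_of_pos (by positivity : 0 < 2 * Real.pi),
        lt_div_iff₀ hX0] at hτ'
      have h1 : 1 + δ * X ≤ 2 * Real.pi * (1 + |τ|) := by
        have h3 := Real.pi_gt_three
        nlinarith [abs_nonneg τ]
      have h2 : R ≤ (2 * Real.pi) ^ N * (1 + |τ|) ^ N := by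
        rw [← mul_pow]
        exact pow_le_pow_left₀ (by positivity) h1 N
      have h3 : ‖h τ‖ * (1 + τ ^ 2) * R ≤ C₃ * (2 * Real.pi) ^ N := by
        calc ‖h τ‖ * (1 + τ ^ 2) * R
            ≤ ‖h τ‖ * (1 + |τ|) ^ 2 * ((2 * Real.pi) ^ N * (1 + |τ|) ^ N) :=
              mul_le_mul (mul_le_mul_of_nonneg_left (hsq τ) hh0) h2 hR0.le (by positivity)
          _ = (‖h τ‖ * (1 + |τ|) ^ (N + 2)) * (2 * Real.pi) ^ N := by ring
          _ ≤ C₃ * (2 * Real.pi) ^ N := mul_le_mul_of_nonneg_right (hC₃ τ) (by positivity)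
      have h4 : ‖h τ‖ * (1 + τ ^ 2) ≤ C₃ * (2 * Real.pi) ^ N / R := by
        rw [le_div_iff₀ hR0]
        exact h3
      calc ‖h τ‖ * ‖LSeries g (s τ)‖ * (1 + τ ^ 2)
          = (‖h τ‖ * (1 + τ ^ 2)) * ‖LSeries g (s τ)‖ := by ring
        _ ≤ (C₃ * (2 * Real.pi) ^ N / R) * (CA * X ^ (n + 2)) :=
            mul_le_mul h4 (hLall τ) hL0 (by positivity)
        _ = C₃ * (2 * Real.pi) ^ N * (CA * X ^ (n + 2)) / R := by ring
        _ ≤ _ := by linarith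
  have hfin : ‖∫ τ, h τ * LSeries g (s τ)‖ ≤
      (C₂ * B + C₃ * (2 * Real.pi) ^ N * (CA * X ^ (n + 2)) / R) * Real.pi := by
    have h1 := norm_integral_le_of_norm_le
      (integrable_inv_one_add_sq.const_mul
        (C₂ * B + C₃ * (2 * Real.pi) ^ N * (CA * X ^ (n + 2)) / R))
      (Filter.Eventually.of_forall hpt)
    rwa [integral_const_mul, integral_univ_inv_one_add_sq] at h1
  rw [← hsum2, norm_mul, norm_pow, Complex.norm_real, Real.norm_eq_abs, abs_of_pos hX0] at hfin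
  rw [div_mul_eq_mul_div, le_div_iff₀ (by positivity)]
  have hY0 : 0 ≤ X ^ (n + 2) / R := by positivity
  have hZ0 : 0 ≤ C₃ * (2 * Real.pi) ^ N * CA := by positivity
  calc ‖∑' m : ℕ, f m * ((vt n G X m : ℝ) : ℂ)‖ * X ^ n
      = X ^ n * ‖∑' m : ℕ, f m * ((vt n G X m : ℝ) : ℂ)‖ := mul_comm _ _
    _ ≤ (C₂ * B + C₃ * (2 * Real.pi) ^ N * (CA * X ^ (n + 2)) / R) * Real.pi := hfin
    _ = Real.pi * (C₂ * B) + Real.pi * ((C₃ * (2 * Real.pi) ^ N * CA) * (X ^ (n + 2) / R)) := by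
        ring
    _ ≤ (Real.pi * (C₂ + C₃ * (2 * Real.pi) ^ N * CA) + 1) * (B + X ^ (n + 2) / R) := by
        set Z := C₃ * (2 * Real.pi) ^ N * CA with hZ
        set Y := X ^ (n + 2) / R with hY
        have e1 : (Real.pi * (C₂ + Z) + 1) * (B + Y) =
            Real.pi * (C₂ * B) + Real.pi * (Z * Y) + Real.pi * (C₂ * Y) + Real.pi * (Z * B) +
              (B + Y) := by ring
        rw [e1]
        have e2 : 0 ≤ Real.pi * (C₂ * Y) := by positivity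
        have e3 : 0 ≤ Real.pi * (Z * B) := by positivity
        linarith

end Pool.Agent.ERB
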